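import Pool.Agent.Lib.MP_90430c_co.Full.Par

/-!
# The conditions on the parameters hold for large `n`
-/

open Finset Filter

namespace MP_90430c

namespace Full

namespace AsymA

/-! ## Powers of the base -/

lemma key {r c : ℝ} {a b : ℕ} (h1 : 1 ≤ r) (hc : c ≤ r) (hab : a < b) : c * r ^ a ≤ r ^ b := by
  have h0 : (0 : ℝ) ≤ r ^ a := by positivity
  calc c * r ^ a ≤ r * r ^ a := mul_le_mul_of_nonneg_right hc h0
    _ = r ^ (a + 1) := by ring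
    _ ≤ r ^ b := pow_le_pow_right₀ h1 hab

lemma ceil_le_two {x : ℝ} (hx : 1 ≤ x) : (⌈x⌉₊ : ℝ) ≤ 2 * x := by
  have := Nat.ceil_lt_add_one (by linarith : 0 ≤ x)
  linarith

lemma rho_pow {l n : ℕ} (hl : 1 ≤ l) : rho l n ^ (8 * l ^ 2) = n := by
  unfold rho
  have h1 : (0 : ℝ) ≤ n := Nat.cast_nonneg n
  have h2 : (1 : ℝ) ≤ l := by exact_mod_cast hl
  rw [← Real.rpow_natCast, ← Real.rpow_mul h1]
  have : (1 / (8 * (l : ℝ) ^ 2)) * ((8 * l ^ 2 : ℕ) : ℝ) = 1 := by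
    push_cast
    field_simp
  rw [this, Real.rpow_one]

lemma rho_tendsto {l : ℕ} (hl : 1 ≤ l) : Tendsto (fun n : ℕ => rho l n) atTop atTop := by
  unfold rho
  have h2 : (1 : ℝ) ≤ l := by exact_mod_cast hl
  exact (tendsto_rpow_atTop (by positivity)).comp tendsto_natCast_atTop_atTop

lemma sq_ge {l : ℕ} (hl : 4 ≤ l) : 4 * l ≤ l ^ 2 := by nlinarith

/-- The bounds for the parameters. -/
structure Bas (l n : ℕ) (r : ℝ) : Prop where
  hl : 4 ≤ l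
  hr : r = rho l n
  r1 : 1 ≤ r
  n2 : 2 ≤ n
  rn : r ^ (8 * l ^ 2) = n
  M0 : r ^ (4 * l ^ 2 + 8 * l - 1) ≤ pm0 l n
  M1 : (pm0 l n : ℝ) ≤ 2 * r ^ (4 * l ^ 2 + 8 * l - 1)
  T0 : r ^ (2 * l) ≤ pt l n
  T1 : (pt l n : ℝ) ≤ 2 * r ^ (2 * l)
  m0 : r ^ (8 * l ^ 2 - 1) ≤ pm l n
  m1 : (pm l n : ℝ) ≤ 2 * r ^ (8 * l ^ 2 - 1)
  Q0 : r ^ (4 * l ^ 2 - 8 * l) ≤ pQ l n
  Q1 : (pQ l n : ℝ) ≤ 2 * r ^ (4 * l ^ 2 - 8 * l)

lemma bas {l n : ℕ} (hl : 4 ≤ l) (h1 : 1 ≤ rho l n) (hn : 2 ≤ n) : Bas l n (rho l n) := by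
  have hp : ∀ a : ℕ, 1 ≤ rho l n ^ a := fun a => one_le_pow₀ h1
  exact ⟨hl, rfl, h1, hn, rho_pow (by omega), Nat.le_ceil _, ceil_le_two (hp _), Nat.le_ceil _,
    ceil_le_two (hp _), Nat.le_ceil _, ceil_le_two (hp _), Nat.le_ceil _, ceil_le_two (hp _)⟩

lemma pmu_zero (l n : ℕ) : pmu l n 0 = pm0 l n := by
  unfold pmu
  simp

section fields

variable {l n : ℕ} {r : ℝ}

lemma Bas.pow_pos (h : Bas l n r) (a : ℕ) : 0 < r ^ a := by
  have := h.r1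
  positivity

lemma Bas.one_le (h : Bas l n r) (a : ℕ) : 1 ≤ r ^ a := one_le_pow₀ h.r1

lemma Bas.M_pos (h : Bas l n r) : (0 : ℝ) < pm0 l n := lt_of_lt_of_le (h.pow_pos _) h.M0

lemma Bas.T_pos (h : Bas l n r) : (0 : ℝ) < pt l n := lt_of_lt_of_le (h.pow_pos _) h.T0

lemma Bas.T_one (h : Bas l n r) : (1 : ℝ) ≤ pt l n := (h.one_le _).trans h.T0

lemma Bas.Q_pos (h : Bas l n r) : (0 : ℝ) < pQ l n := lt_of_lt_of_le (h.pow_pos _) h.Q0

lemma f_mu1 (h : Bas l n r) (i : ℕ) : 1 ≤ pmu l n i := by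
  unfold pmu
  rw [Nat.one_le_iff_ne_zero, ← Nat.pos_iff_ne_zero, Nat.ceil_pos]
  have := h.M_pos
  have := h.T_pos
  positivity

lemma f_mua (h : Bas l n r) (i j : ℕ) (hij : i ≤ j) : pmu l n j ≤ pmu l n i := by
  unfold pmu
  apply Nat.ceil_mono
  have h1 := h.T_pos
  have h2 := h.M_pos
  have h3 : (pt l n : ℝ) ^ i ≤ (pt l n : ℝ) ^ j := pow_le_pow_right₀ h.T_one hij
  exact div_le_div_of_nonneg_left h2.le (by positivity) h3

lemma f_muI (h : Bas l n r) (hc : 2 ≤ r) : pmu l n (4 * l) = 1 := by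
  unfold pmu
  have h1 := h.T_pos
  have h2 := h.M_pos
  have h4 := sq_ge h.hl
  have h5 := h.hl
  have h3 : (pm0 l n : ℝ) ≤ (pt l n : ℝ) ^ (4 * l) := by
    calc (pm0 l n : ℝ) ≤ 2 * r ^ (4 * l ^ 2 + 8 * l - 1) := h.M1
      _ ≤ r ^ (8 * l ^ 2) := key h.r1 hc (by omega)
      _ = (r ^ (2 * l)) ^ (4 * l) := by rw [← pow_mul]; congr 1; ring
      _ ≤ (pt l n : ℝ) ^ (4 * l) := pow_le_pow_left₀ (h.pow_pos _).le h.T0 _
  rw [Nat.ceil_eq_iff (by norm_num)]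
  refine ⟨?_, ?_⟩
  · simp only [Nat.sub_self, Nat.cast_zero]
    positivity
  · rw [div_le_iff₀ (by positivity)]
    simpa using h3

lemma f_mur (h : Bas l n r) (i : ℕ) : pmu l n i ≤ pt l n * pmu l n (i + 1) := by
  conv_lhs => unfold pmu
  rw [Nat.ceil_le]
  push_cast
  have h1 := h.T_pos
  have h3 : (pm0 l n : ℝ) / (pt l n : ℝ) ^ (i + 1) ≤ pmu l n (i + 1) := Nat.le_ceil _
  calc (pm0 l n : ℝ) / (pt l n : ℝ) ^ i = pt l n * ((pm0 l n : ℝ) / (pt l n : ℝ) ^ (i + 1)) := by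
        field_simp
        ring
    _ ≤ _ := mul_le_mul_of_nonneg_left h3 h1.le

lemma f_two (h : Bas l n r) : 2 * (pm0 l n : ℝ) + 1 ≤ 5 * r ^ (4 * l ^ 2 + 8 * l - 1) := by
  have h1 := h.M1
  have h2 := h.one_le (4 * l ^ 2 + 8 * l - 1)
  linarith

lemma f_m0m (h : Bas l n r) (hc : 5 ≤ r) : 2 * pmu l n 0 + 1 ≤ pm l n := by
  rw [pmu_zero]
  have h4 := sq_ge h.hl
  have h5 := h.hl
  have h1 : 2 * (pm0 l n : ℝ) + 1 ≤ pm l n := by
    calc 2 * (pm0 l n : ℝ) + 1 ≤ 5 * r ^ (4 * l ^ 2 + 8 * l - 1) := f_two h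
      _ ≤ r ^ (8 * l ^ 2 - 1) := key h.r1 hc (by omega)
      _ ≤ _ := h.m0
  exact_mod_cast h1

/-- constant for the number of new vertices -/
def cR (l : ℕ) : ℝ := 2 * DD l + 4 * l ^ 2 * (4 * l + 2) + 2 * l ^ 2

lemma R2_le (h : Bas l n r) :
    (R2 l (4 * l) (pQ l n) : ℝ) ≤ 4 * l ^ 2 * (4 * l + 2) * r ^ (4 * l ^ 2 - 8 * l) := by
  unfold R2
  push_cast
  have h1 := h.Q1
  have : (0 : ℝ) ≤ 2 * l ^ 2 * (4 * l + 2) := by positivity
  nlinarith [mul_le_mul_of_nonneg_left h1 this]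

lemma rr_le (h : Bas l n r) :
    (rr l (4 * l) (pQ l n) (pm l n) : ℝ) ≤ cR l * r ^ (8 * l ^ 2 - 1) := by
  unfold rr
  push_cast
  have h1 := R2_le h
  have h2 := h.m1
  have h4 := sq_ge h.hl
  have h5 := h.hl
  have h3 : r ^ (4 * l ^ 2 - 8 * l) ≤ r ^ (8 * l ^ 2 - 1) :=
    pow_le_pow_right₀ h.r1 (by omega)
  have h6 := h.one_le (8 * l ^ 2 - 1)
  have e1 : (pm l n : ℝ) * DD l ≤ 2 * DD l * r ^ (8 * l ^ 2 - 1) := by
    have := mul_le_mul_of_nonneg_right h2 (Nat.cast_nonneg (α := ℝ) (DD l))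
    linarith
  have e2 : (4 * (l : ℝ) ^ 2 * (4 * l + 2)) * r ^ (4 * l ^ 2 - 8 * l) ≤
      (4 * (l : ℝ) ^ 2 * (4 * l + 2)) * r ^ (8 * l ^ 2 - 1) :=
    mul_le_mul_of_nonneg_left h3 (by positivity)
  have e3 : 2 * (l : ℝ) ^ 2 ≤ 2 * (l : ℝ) ^ 2 * r ^ (8 * l ^ 2 - 1) :=
    le_mul_of_one_le_right (by positivity) h6
  have : cR l * r ^ (8 * l ^ 2 - 1) = 2 * DD l * r ^ (8 * l ^ 2 - 1) +
    (4 * (l : ℝ) ^ 2 * (4 * l + 2)) * r ^ (8 * l ^ 2 - 1) +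
    2 * (l : ℝ) ^ 2 * r ^ (8 * l ^ 2 - 1) := by
    unfold cR; ring
  rw [this]
  linarith

lemma f_n (h : Bas l n r) (hc : 2 * cR l + l ≤ r) :
    2 * rr l (4 * l) (pQ l n) (pm l n) + l ≤ n := by
  have h1 := rr_le h
  have h4 := sq_ge h.hl
  have h5 := h.hl
  have h6 := h.one_le (8 * l ^ 2 - 1)
  have h2 : 2 * (rr l (4 * l) (pQ l n) (pm l n) : ℝ) + l ≤ n := by
    have e3 : (l : ℝ) ≤ (l : ℝ) * r ^ (8 * l ^ 2 - 1) :=
      le_mul_of_one_le_right (by positivity) h6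
    calc 2 * (rr l (4 * l) (pQ l n) (pm l n) : ℝ) + l
        ≤ (2 * cR l + l) * r ^ (8 * l ^ 2 - 1) := by linarith
      _ ≤ r ^ (8 * l ^ 2) := key h.r1 hc (by omega)
      _ = n := h.rn
  exact_mod_cast h2

lemma f_k2 (h : Bas l n r) : 2 ^ Nat.clog 2 n ≤ 2 * n := by
  have h1 := Nat.pow_pred_clog_lt_self (b := 2) one_lt_two (x := n) (by have := h.n2; omega)
  have h2 : 1 ≤ Nat.clog 2 n := Nat.clog_pos one_lt_two h.n2
  obtain ⟨k, hk⟩ : ∃ k, Nat.clog 2 n = k + 1 := ⟨Nat.clog 2 n - 1, by omega⟩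
  rw [hk] at h1 ⊢
  simp only [Nat.pred_eq_sub_one, Nat.add_sub_cancel] at h1
  rw [pow_succ]
  omega

lemma f_q1 (h : Bas l n r) (hc : (DD l : ℝ) ^ 2 ≤ r) : DD l ^ 2 ≤ pQ l n := by
  have h4 := sq_ge h.hl
  have h5 := h.hl
  have h1 : (DD l : ℝ) ^ 2 ≤ pQ l n := by
    calc (DD l : ℝ) ^ 2 = (DD l : ℝ) ^ 2 * r ^ 0 := by simp
      _ ≤ r ^ (4 * l ^ 2 - 8 * l) := key h.r1 hc (by omega)
      _ ≤ _ := h.Q0
  exact_mod_cast h1

lemma f_q2 (h : Bas l n r) (hc : 16 ≤ r) : 4 * pt l n ^ 2 ≤ pQ l n := by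
  have h4 := sq_ge h.hl
  have h5 := h.hl
  have h6 := h.T_pos
  have h1 : 4 * (pt l n : ℝ) ^ 2 ≤ pQ l n := by
    calc 4 * (pt l n : ℝ) ^ 2 ≤ 4 * (2 * r ^ (2 * l)) ^ 2 := by
          have := pow_le_pow_left₀ h6.le h.T1 2
          linarith
      _ = 16 * r ^ (4 * l) := by
          rw [mul_pow, ← pow_mul]
          have : 2 * l * 2 = 4 * l := by ring
          rw [this]; ring
      _ ≤ r ^ (4 * l ^ 2 - 8 * l) := key h.r1 hc (by omega)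
      _ ≤ _ := h.Q0
  exact_mod_cast h1

/-- constant in `cE` -/
noncomputable def kE (l : ℕ) : ℝ := 8 * 2 ^ (l ^ 2) * (2 * l + 3) ^ l * (2 ^ (l ^ 2 + 1)) ^ l

lemma kE_pos (l : ℕ) : 0 < kE l := by
  unfold kE
  positivity

lemma cE_eq (h : Bas l n r) : cE l (pC l n) = kE l * r ^ l := by
  unfold cE pC kE
  rw [← h.hr, mul_pow]
  ring

lemma y0_eq (l n : ℕ) : (y0 l (pmu l n) : ℝ) = (2 * (pm0 l n : ℝ) + 1) * DD l := by
  unfold y0
  rw [pmu_zero]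
  push_cast
  ring

lemma D_two (h : Bas l n r) : (2 : ℝ) ≤ DD l := by exact_mod_cast two_le_DD h.hl

lemma y0_ge (h : Bas l n r) :
    2 * (DD l : ℝ) * r ^ (4 * l ^ 2 + 8 * l - 1) ≤ y0 l (pmu l n) := by
  rw [y0_eq]
  have h1 := h.M0
  have h2 := D_two h
  have : (0 : ℝ) ≤ DD l := by linarith
  nlinarith [mul_le_mul_of_nonneg_left h1 this]

lemma y0_ge' (h : Bas l n r) : r ^ (4 * l ^ 2 + 8 * l - 1) ≤ y0 l (pmu l n) := by
  refine le_trans ?_ (y0_ge h)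
  have h2 := D_two h
  exact le_mul_of_one_le_left (h.pow_pos _).le (by linarith)

/-- constant in the bound for `GG` -/
noncomputable def kG (l : ℕ) : ℝ :=
  28 * DD l + 2 * DD l + 2 * (20 * l ^ 2 * (4 * l + 2) * DD l) + 4 * l ^ 2 * (4 * l + 2) +
    2 * R1 l

lemma sqrt_le_of {x c r : ℝ} {a : ℕ} (hc : 1 ≤ c) (hr : 0 ≤ r) (h : x ≤ c * r ^ (2 * a)) :
    √x ≤ c * r ^ a := by
  rw [Real.sqrt_le_left (by positivity)]
  refine h.trans ?_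
  have e : (c * r ^ a) ^ 2 = c ^ 2 * r ^ (2 * a) := by
    rw [mul_pow, ← pow_mul]
    congr 2
    ring
  rw [e]
  apply mul_le_mul_of_nonneg_right _ (by positivity)
  nlinarith

lemma GG_le (h : Bas l n r) :
    GG l (4 * l) (pQ l n) (2 * pmu l n 0 + 1) (Nat.clog 2 n) n ≤ kG l * r ^ (4 * l ^ 2) := by
  have h4 := sq_ge h.hl
  have h5 := h.hl
  have hr0 : (0 : ℝ) ≤ r := by have := h.r1; linarith
  have hD := D_two h
  have hl1 : (4 : ℝ) ≤ l := by exact_mod_cast h.hl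
  have hq1 : (1 : ℝ) ≤ r ^ (4 * l ^ 2) := h.one_le _
  have s1 : √((2 : ℝ) ^ Nat.clog 2 n) ≤ 2 * r ^ (4 * l ^ 2) := by
    apply sqrt_le_of (by norm_num) hr0
    have h1 : ((2 : ℝ) ^ Nat.clog 2 n) ≤ 2 * n := by exact_mod_cast f_k2 h
    rw [← h.rn] at h1
    have e : 2 * (4 * l ^ 2) = 8 * l ^ 2 := by ring
    rw [e]
    exact h1
  have s2 : √((R2 l (4 * l) (pQ l n) : ℝ) * (((2 * pmu l n 0 + 1) * DD l : ℕ) : ℝ)) ≤
      (20 * l ^ 2 * (4 * l + 2) * DD l) * r ^ (4 * l ^ 2) := by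
    apply sqrt_le_of ?_ hr0
    · push_cast
      rw [pmu_zero]
      have h1 := R2_le h
      have h2 := f_two h
      have h3 : (R2 l (4 * l) (pQ l n) : ℝ) * ((2 * (pm0 l n : ℝ) + 1) * DD l) ≤
          (4 * l ^ 2 * (4 * l + 2) * r ^ (4 * l ^ 2 - 8 * l)) *
            ((5 * r ^ (4 * l ^ 2 + 8 * l - 1)) * DD l) := by
        apply mul_le_mul h1 _ (by positivity) (by positivity)
        apply mul_le_mul_of_nonneg_right h2 (by positivity)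
      refine h3.trans ?_
      have e1 : (4 * (l : ℝ) ^ 2 * (4 * l + 2) * r ^ (4 * l ^ 2 - 8 * l)) *
            ((5 * r ^ (4 * l ^ 2 + 8 * l - 1)) * DD l) =
          (20 * l ^ 2 * (4 * l + 2) * DD l) * (r ^ (4 * l ^ 2 - 8 * l) *
            r ^ (4 * l ^ 2 + 8 * l - 1)) := by ring
      rw [e1, ← pow_add]
      apply mul_le_mul_of_nonneg_left _ (by positivity)
      exact pow_le_pow_right₀ h.r1 (by omega)
    · have : (1 : ℝ) ≤ 20 * l ^ 2 * (4 * l + 2) := by nlinarith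
      nlinarith
  have s3 : √((R1 l : ℝ) * n) ≤ R1 l * r ^ (4 * l ^ 2) := by
    apply sqrt_le_of ?_ hr0
    · have e : 2 * (4 * l ^ 2) = 8 * l ^ 2 := by ring
      rw [e, h.rn]
    · have h1 := two_le_DD h.hl
      have h2 : 1 ≤ R1 l := by unfold R1; omega
      exact_mod_cast h2
  have s4 : (R2 l (4 * l) (pQ l n) : ℝ) ≤ 4 * l ^ 2 * (4 * l + 2) * r ^ (4 * l ^ 2) := by
    refine (R2_le h).trans ?_
    apply mul_le_mul_of_nonneg_left _ (by positivity)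
    exact pow_le_pow_right₀ h.r1 (by omega)
  have s5 : 2 * (DD l : ℝ) ≤ 2 * DD l * r ^ (4 * l ^ 2) :=
    le_mul_of_one_le_right (by positivity) hq1
  have s6 : 14 * (DD l * √((2 : ℝ) ^ Nat.clog 2 n)) ≤ 28 * DD l * r ^ (4 * l ^ 2) := by
    have := mul_le_mul_of_nonneg_left s1 (by positivity : (0 : ℝ) ≤ 14 * DD l)
    linarith
  unfold GG
  have e : kG l * r ^ (4 * l ^ 2) = 28 * DD l * r ^ (4 * l ^ 2) + 2 * DD l * r ^ (4 * l ^ 2) +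
      2 * ((20 * l ^ 2 * (4 * l + 2) * DD l) * r ^ (4 * l ^ 2)) +
      4 * l ^ 2 * (4 * l + 2) * r ^ (4 * l ^ 2) + 2 * (R1 l * r ^ (4 * l ^ 2)) := by
    unfold kG
    ring
  rw [e]
  linarith

lemma kG_pos (l : ℕ) : 0 ≤ kG l := by
  unfold kG
  positivity

/-- constant for `kn` -/
noncomputable def kN (l : ℕ) : ℝ :=
  2 ^ l * l * ((DD l : ℝ) ^ 2 * 2 ^ (l ^ 2) * (2 * 2 ^ (l ^ 2 + 1)) ^ (l - 3))

lemma f_kn (h : Bas l n r) (hc : kN l ≤ r) :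
    2 ^ l * l * KS l (pC l n) * n ≤ pQ l n * ((DD l : ℝ) * pmu l n 0) ^ 2 := by
  have h4 := sq_ge h.hl
  have h5 := h.hl
  have hr0 : (0 : ℝ) ≤ r := by have := h.r1; linarith
  have hD := D_two h
  have e1 : 2 ^ l * l * KS l (pC l n) * n = kN l * r ^ (l - 3 + 8 * l ^ 2) := by
    unfold KS pC kN
    rw [← h.hr, pow_add r, h.rn]
    have : (2 * (2 ^ (l ^ 2 + 1) * r)) ^ (l - 3) = (2 * 2 ^ (l ^ 2 + 1)) ^ (l - 3) * r ^ (l - 3) := by
      rw [← mul_pow]; congr 1; ring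
    rw [this]
    ring
  rw [e1, pmu_zero]
  have h6 : r ^ (4 * l ^ 2 + 8 * l - 1) ≤ (DD l : ℝ) * pm0 l n := by
    refine h.M0.trans ?_
    exact le_mul_of_one_le_left h.M_pos.le (by linarith)
  calc kN l * r ^ (l - 3 + 8 * l ^ 2) ≤ r ^ ((4 * l ^ 2 - 8 * l) + (4 * l ^ 2 + 8 * l - 1) * 2) :=
        key h.r1 hc (by omega)
    _ = r ^ (4 * l ^ 2 - 8 * l) * (r ^ (4 * l ^ 2 + 8 * l - 1)) ^ 2 := by
        rw [pow_add, ← pow_mul]
    _ ≤ _ := mul_le_mul h.Q0 (pow_le_pow_left₀ (h.pow_pos _).le h6 2) (by positivity) h.Q_pos.le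

lemma LL_eq (h : Bas l n r) : LL l n = 2 ^ (l ^ 2) * r ^ (4 * l ^ 2 + 8 * l) + 1 := by
  unfold LL
  have h5 := h.hl
  have hl0 : (l : ℝ) ≠ 0 := by
    have : l ≠ 0 := by omega
    exact_mod_cast this
  have e : (n : ℝ) ^ ((1 : ℝ) / 2 + 1 / l) = r ^ (4 * l ^ 2 + 8 * l) := by
    rw [h.hr]
    unfold rho
    rw [← Real.rpow_natCast, ← Real.rpow_mul (Nat.cast_nonneg n)]
    congr 1
    push_cast
    field_simp
    ring
  rw [e]

lemma f_lg (h : Bas l n r) (hc : kG l + 2 ≤ r) :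
    LL l n + GG l (4 * l) (pQ l n) (2 * pmu l n 0 + 1) (Nat.clog 2 n) n ≤
      (pC l n - 1) * y0 l (pmu l n) := by
  have h4 := sq_ge h.hl
  have h5 := h.hl
  have hD := D_two h
  have hG := GG_le h
  have hy := y0_ge h
  rw [LL_eq h]
  have hC : pC l n = 2 * 2 ^ (l ^ 2) * r := by
    unfold pC
    rw [← h.hr, pow_succ]
    ring
  set P : ℝ := r ^ (4 * l ^ 2 + 8 * l) with hP
  have hP1 : 1 ≤ P := h.one_le _
  have e1 : (kG l + 2) * r ^ (4 * l ^ 2) ≤ P := key h.r1 hc (by omega)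
  have hq1 : (1 : ℝ) ≤ r ^ (4 * l ^ 2) := h.one_le _
  have two1 : (1 : ℝ) ≤ 2 ^ (l ^ 2) := one_le_pow₀ (by norm_num)
  have hr1 := h.r1
  have e2 : r * r ^ (4 * l ^ 2 + 8 * l - 1) = P := by
    rw [hP, ← pow_succ']
    congr 1
    omega
  -- lower bound of the right side
  have hCge : 2 ^ (l ^ 2) * r ≤ pC l n - 1 := by
    rw [hC]
    nlinarith
  have e3 : (2 ^ (l ^ 2) * r) * (2 * (DD l : ℝ) * r ^ (4 * l ^ 2 + 8 * l - 1)) ≤
      (pC l n - 1) * y0 l (pmu l n) := by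
    apply mul_le_mul hCge hy (by positivity)
    have : 0 ≤ 2 ^ (l ^ 2) * r := by positivity
    linarith
  refine le_trans ?_ e3
  have e4 : (2 ^ (l ^ 2) * r) * (2 * (DD l : ℝ) * r ^ (4 * l ^ 2 + 8 * l - 1)) =
      2 ^ (l ^ 2) * (2 * DD l) * P := by
    rw [← e2]; ring
  rw [e4]
  have e5 : (2 : ℝ) ^ (l ^ 2) * 4 * P ≤ 2 ^ (l ^ 2) * (2 * DD l) * P := by
    apply mul_le_mul_of_nonneg_right _ (by linarith)
    apply mul_le_mul_of_nonneg_left _ (by linarith)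
    linarith
  have e6 : P ≤ 2 ^ (l ^ 2) * P := le_mul_of_one_le_left (by linarith) two1
  nlinarith

lemma f_gy (h : Bas l n r) (hc : kE l * kG l ≤ r) :
    cE l (pC l n) * GG l (4 * l) (pQ l n) (2 * pmu l n 0 + 1) (Nat.clog 2 n) n ≤
      y0 l (pmu l n) := by
  have h4 := sq_ge h.hl
  have h5 := h.hl
  rw [cE_eq h]
  have hE := kE_pos l
  have hr0 : (0 : ℝ) ≤ r := by have := h.r1; linarith
  calc kE l * r ^ l * GG l (4 * l) (pQ l n) (2 * pmu l n 0 + 1) (Nat.clog 2 n) n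
      ≤ kE l * r ^ l * (kG l * r ^ (4 * l ^ 2)) :=
        mul_le_mul_of_nonneg_left (GG_le h) (by positivity)
    _ = kE l * kG l * r ^ (l + 4 * l ^ 2) := by rw [pow_add]; ring
    _ ≤ r ^ (4 * l ^ 2 + 8 * l - 1) := key h.r1 hc (by omega)
    _ ≤ _ := y0_ge' h

lemma f_r2 (h : Bas l n r) (hc : 16 * kE l ^ 2 * (4 * l ^ 2 * (4 * l + 2)) ≤ r) :
    16 * cE l (pC l n) ^ 2 * R2 l (4 * l) (pQ l n) ≤ y0 l (pmu l n) := by
  have h4 := sq_ge h.hl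
  have h5 := h.hl
  rw [cE_eq h]
  have hE := kE_pos l
  have hr0 : (0 : ℝ) ≤ r := by have := h.r1; linarith
  calc 16 * (kE l * r ^ l) ^ 2 * (R2 l (4 * l) (pQ l n) : ℝ)
      ≤ 16 * (kE l * r ^ l) ^ 2 * (4 * l ^ 2 * (4 * l + 2) * r ^ (4 * l ^ 2 - 8 * l)) :=
        mul_le_mul_of_nonneg_left (R2_le h) (by positivity)
    _ = 16 * kE l ^ 2 * (4 * l ^ 2 * (4 * l + 2)) * r ^ (l * 2 + (4 * l ^ 2 - 8 * l)) := by
        rw [pow_add, pow_mul, mul_pow]; ring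
    _ ≤ r ^ (4 * l ^ 2 + 8 * l - 1) := key h.r1 hc (by omega)
    _ ≤ _ := y0_ge' h

lemma f_r1 (h : Bas l n r) (hc : 16 * kE l ^ 2 * R1 l ≤ r) :
    16 * cE l (pC l n) ^ 2 * R1 l ≤ y0 l (pmu l n) := by
  have h4 := sq_ge h.hl
  have h5 := h.hl
  rw [cE_eq h]
  calc 16 * (kE l * r ^ l) ^ 2 * (R1 l : ℝ)
      = 16 * kE l ^ 2 * R1 l * r ^ (l * 2) := by
        rw [pow_mul, mul_pow]; ring
    _ ≤ r ^ (4 * l ^ 2 + 8 * l - 1) := key h.r1 hc (by omega)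
    _ ≤ _ := y0_ge' h

lemma f_const (h : Bas l n r) (c : ℕ) (hc : (c : ℝ) ≤ r) : c ≤ y0 l (pmu l n) := by
  have h4 := sq_ge h.hl
  have h5 := h.hl
  have : (c : ℝ) ≤ y0 l (pmu l n) := by
    calc (c : ℝ) = c * r ^ 0 := by simp
      _ ≤ r ^ (4 * l ^ 2 + 8 * l - 1) := key h.r1 hc (by omega)
      _ ≤ _ := y0_ge' h
  exact_mod_cast this

lemma f_y3 (h : Bas l n r) : n ≤ y0 l (pmu l n) ^ 2 := by
  have h4 := sq_ge h.hl
  have h5 := h.hl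
  have : (n : ℝ) ≤ (y0 l (pmu l n) : ℝ) ^ 2 := by
    calc (n : ℝ) = r ^ (8 * l ^ 2) := h.rn.symm
      _ ≤ r ^ ((4 * l ^ 2 + 8 * l - 1) * 2) := pow_le_pow_right₀ h.r1 (by omega)
      _ = (r ^ (4 * l ^ 2 + 8 * l - 1)) ^ 2 := by rw [pow_mul]
      _ ≤ _ := pow_le_pow_left₀ (h.pow_pos _).le (y0_ge' h) 2
  exact_mod_cast this

lemma f_sz (h : Bas l n r) (hc1 : 8 * kE l ^ 2 ≤ r) (hc2 : 8 * DD l ≤ r)
    (hc3 : 1024 * DD l * kE l ^ 4 ≤ r) (c : ℕ) (hc0 : 2 * pmu l n 0 + 1 ≤ c)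
    (hcm : c ≤ pm l n) : ∃ i ≤ 4 * l,
    8 * (DD l : ℝ) ^ 2 * cE l (pC l n) ^ 2 * n ≤ (c * DD l) * (DD l * pmu l n i) ∧
    4 * (DD l * pmu l n i) ^ 2 * (c * DD l) ≤ pQ l n * (DD l * pmu l n 0) ^ 2 := by
  classical
  have h4 := sq_ge h.hl
  have h5 := h.hl
  have hD := D_two h
  have hr0 : (0 : ℝ) ≤ r := by have := h.r1; linarith
  have hE := kE_pos l
  rw [cE_eq h]
  have hM := h.M_pos
  have hcR : 2 * (pm0 l n : ℝ) ≤ c := by
    have h1 : (2 * pmu l n 0 + 1 : ℝ) ≤ c := by exact_mod_cast hc0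
    rw [pmu_zero] at h1
    linarith
  have hcpos : (0 : ℝ) < c := by linarith
  have hcm' : (c : ℝ) ≤ 2 * r ^ (8 * l ^ 2 - 1) := by
    have : (c : ℝ) ≤ pm l n := by exact_mod_cast hcm
    exact this.trans h.m1
  let P : ℕ → Prop := fun i => 8 * (kE l * r ^ l) ^ 2 * n ≤ c * (pmu l n i : ℝ)
  have hP0 : P 0 := by
    change 8 * (kE l * r ^ l) ^ 2 * n ≤ c * (pmu l n 0 : ℝ)
    rw [pmu_zero]
    calc 8 * (kE l * r ^ l) ^ 2 * (n : ℝ) = 8 * kE l ^ 2 * r ^ (l * 2 + 8 * l ^ 2) := by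
          rw [pow_add, h.rn, pow_mul, mul_pow]; ring
      _ ≤ r ^ ((4 * l ^ 2 + 8 * l - 1) * 2) := key h.r1 hc1 (by omega)
      _ = (r ^ (4 * l ^ 2 + 8 * l - 1)) * (r ^ (4 * l ^ 2 + 8 * l - 1)) := by rw [pow_mul]; ring
      _ ≤ c * pm0 l n := by
          apply mul_le_mul _ h.M0 (h.pow_pos _).le hcpos.le
          have := h.M0
          linarith
  set i := Nat.findGreatest P (4 * l) with hi
  have hPi : P i := Nat.findGreatest_spec (P := P) (Nat.zero_le (4 * l)) hP0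
  have hi4 : i ≤ 4 * l := Nat.findGreatest_le _
  refine ⟨i, hi4, ?_, ?_⟩
  · have h1 : 8 * (kE l * r ^ l) ^ 2 * n ≤ c * (pmu l n i : ℝ) := hPi
    have h2 : (0 : ℝ) ≤ (DD l : ℝ) ^ 2 := by positivity
    nlinarith [mul_le_mul_of_nonneg_left h1 h2]
  · rw [pmu_zero]
    have hQ := h.Q_pos
    suffices hs : 4 * (pmu l n i : ℝ) ^ 2 * (c * DD l) ≤ pQ l n * (pm0 l n : ℝ) ^ 2 by
      have h2 : (0 : ℝ) ≤ (DD l : ℝ) ^ 2 := by positivity
      have h3 : 4 * ((DD l : ℝ) * pmu l n i) ^ 2 * (c * DD l) ≤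
          pQ l n * ((DD l : ℝ) * pm0 l n) ^ 2 := by
        nlinarith [mul_le_mul_of_nonneg_left hs h2]
      exact_mod_cast h3
    rcases Nat.lt_or_ge i (4 * l) with hlt | hge
    · -- the first condition fails for `i + 1`
      have hn : ¬ P (i + 1) := Nat.findGreatest_is_greatest (P := P) (k := i + 1)
        (by rw [← hi]; omega) (by omega)
      have hn' : c * (pmu l n (i + 1) : ℝ) < 8 * (kE l * r ^ l) ^ 2 * n := not_le.mp hn
      have h6 : (pmu l n i : ℝ) ≤ pt l n * pmu l n (i + 1) := by exact_mod_cast f_mur h i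
      have h7 := h.T_pos
      have h8 : c * (pmu l n i : ℝ) ≤ pt l n * (8 * (kE l * r ^ l) ^ 2 * n) := by
        calc c * (pmu l n i : ℝ) ≤ c * (pt l n * pmu l n (i + 1)) :=
              mul_le_mul_of_nonneg_left h6 hcpos.le
          _ = pt l n * (c * pmu l n (i + 1)) := by ring
          _ ≤ _ := mul_le_mul_of_nonneg_left hn'.le h7.le
      have h9 : pt l n * (8 * (kE l * r ^ l) ^ 2 * n) ≤
          16 * kE l ^ 2 * r ^ (2 * l + l * 2 + 8 * l ^ 2) := by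
        calc pt l n * (8 * (kE l * r ^ l) ^ 2 * (n : ℝ)) ≤
              (2 * r ^ (2 * l)) * (8 * (kE l * r ^ l) ^ 2 * n) :=
              mul_le_mul_of_nonneg_right h.T1 (by positivity)
          _ = _ := by
              rw [pow_add, pow_add, h.rn, pow_mul r l 2, mul_pow]; ring
      have h10 : (c * (pmu l n i : ℝ)) ^ 2 ≤
          (16 * kE l ^ 2 * r ^ (2 * l + l * 2 + 8 * l ^ 2)) ^ 2 :=
        pow_le_pow_left₀ (by positivity) (h8.trans h9) 2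
      have h11 : 4 * DD l * (c * (pmu l n i : ℝ)) ^ 2 ≤
          1024 * DD l * kE l ^ 4 * r ^ ((2 * l + l * 2 + 8 * l ^ 2) * 2) := by
        calc 4 * DD l * (c * (pmu l n i : ℝ)) ^ 2 ≤
            4 * DD l * (16 * kE l ^ 2 * r ^ (2 * l + l * 2 + 8 * l ^ 2)) ^ 2 :=
              mul_le_mul_of_nonneg_left h10 (by positivity)
          _ = _ := by rw [pow_mul r _ 2]; ring
      have h12 : 1024 * DD l * kE l ^ 4 * r ^ ((2 * l + l * 2 + 8 * l ^ 2) * 2) ≤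
          r ^ ((4 * l ^ 2 - 8 * l) + (4 * l ^ 2 + 8 * l - 1) * 3) :=
        key h.r1 hc3 (by omega)
      have h13 : r ^ ((4 * l ^ 2 - 8 * l) + (4 * l ^ 2 + 8 * l - 1) * 3) ≤
          pQ l n * (pm0 l n : ℝ) ^ 3 := by
        rw [pow_add, pow_mul]
        exact mul_le_mul h.Q0 (pow_le_pow_left₀ (h.pow_pos _).le h.M0 3)
          (by positivity) hQ.le
      have h14 : pQ l n * (pm0 l n : ℝ) ^ 3 ≤ (pQ l n * (pm0 l n : ℝ) ^ 2) * c := by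
        have : (pm0 l n : ℝ) ≤ c := by linarith
        calc pQ l n * (pm0 l n : ℝ) ^ 3 = (pQ l n * (pm0 l n : ℝ) ^ 2) * pm0 l n := by ring
          _ ≤ _ := mul_le_mul_of_nonneg_left this (by positivity)
      have h15 : (4 * (pmu l n i : ℝ) ^ 2 * (c * DD l)) * c ≤
          (pQ l n * (pm0 l n : ℝ) ^ 2) * c := by
        calc (4 * (pmu l n i : ℝ) ^ 2 * (c * DD l)) * c =
            4 * DD l * (c * (pmu l n i : ℝ)) ^ 2 := by ring
          _ ≤ _ := h11.trans (h12.trans (h13.trans h14))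
      exact le_of_mul_le_mul_right h15 hcpos
    · have : i = 4 * l := le_antisymm hi4 hge
      have hr2 : 2 ≤ r := by linarith
      rw [this, f_muI h hr2]
      calc 4 * ((1 : ℕ) : ℝ) ^ 2 * (c * DD l) ≤ 4 * 1 * ((2 * r ^ (8 * l ^ 2 - 1)) * DD l) := by
            push_cast
            have := mul_le_mul_of_nonneg_right hcm' (by linarith : (0 : ℝ) ≤ DD l)
            linarith
        _ = 8 * DD l * r ^ (8 * l ^ 2 - 1) := by ring
        _ ≤ r ^ ((4 * l ^ 2 - 8 * l) + (4 * l ^ 2 + 8 * l - 1) * 2) := key h.r1 hc2 (by omega)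
        _ = r ^ (4 * l ^ 2 - 8 * l) * (r ^ (4 * l ^ 2 + 8 * l - 1)) ^ 2 := by
            rw [pow_add, pow_mul]
        _ ≤ _ := mul_le_mul h.Q0 (pow_le_pow_left₀ (h.pow_pos _).le h.M0 2)
            (by positivity) hQ.le

end fields

end AsymA

open AsymA in
theorem asymAStmt : AsymAStmt := by
  intro l _ hl
  have hev : ∀ B : ℝ, ∀ᶠ n : ℕ in atTop, B ≤ rho l n := fun B =>
    (rho_tendsto (by omega)).eventually_ge_atTop B
  have hall : ∀ᶠ n : ℕ in atTop,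
      Par l n (4 * l) (pQ l n) (pt l n) (pm l n) (Nat.clog 2 n) (pmu l n) (pC l n) := by
    filter_upwards [eventually_ge_atTop 2, hev 16, hev (2 * cR l + l), hev ((DD l : ℝ) ^ 2),
      hev (8 * kE l ^ 2), hev (8 * DD l), hev (1024 * DD l * kE l ^ 4), hev (kN l),
      hev (kG l + 2), hev (kE l * kG l), hev (16 * kE l ^ 2 * (4 * l ^ 2 * (4 * l + 2))),
      hev (16 * kE l ^ 2 * R1 l), hev ((2 * DD l ^ 2 : ℕ) : ℝ), hev ((8 * l ^ 2 : ℕ) : ℝ)]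
      with n hn h16 hcR hcD hc1 hc2 hc3 hcN hcG hcEG hcr2 hcr1 hcy1 hcy2
    have hb : Bas l n (rho l n) := bas hl (by linarith) hn
    have hfn := f_n hb hcR
    refine ⟨?_, f_mu1 hb, f_mua hb, f_muI hb (by linarith), fun i _ => f_mur hb i,
      f_m0m hb (by linarith), by omega, by omega, Nat.le_pow_clog one_lt_two n, f_k2 hb,
      f_q1 hb hcD, f_q2 hb h16, f_sz hb hc1 hc2 hc3, f_kn hb hcN, f_lg hb hcG, f_gy hb hcEG,
      f_r2 hb hcr2, f_r1 hb hcr1, f_const hb _ hcy1, f_const hb _ hcy2, f_y3 hb⟩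
    unfold pC
    have h1 : (1 : ℝ) ≤ 2 ^ (l ^ 2 + 1) := one_le_pow₀ (by norm_num)
    nlinarith
  exact eventually_atTop.mp hall

end Full

end MP_90430c
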