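import Pool.Agent.Lib.MP_90430c_co.Full.Par

/-!
# The lower end of the range for large `n`
-/

open Finset

namespace MP_90430c

namespace Full

namespace AsymC

lemma rho_nonneg (l n : ℕ) : 0 ≤ rho l n := Real.rpow_nonneg (Nat.cast_nonneg n) _

lemma one_le_rho {l n : ℕ} (hn : 1 ≤ n) : 1 ≤ rho l n :=
  Real.one_le_rpow (by exact_mod_cast hn) (by positivity)

/-- Powers of `n` as powers of the base. -/
lemma rpow_eq {l n N : ℕ} (hl : 1 ≤ l) {e : ℝ} (h : (N : ℝ) = 8 * (l : ℝ) ^ 2 * e) :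
    (n : ℝ) ^ e = rho l n ^ N := by
  have hl' : (8 * (l : ℝ) ^ 2) ≠ 0 := by
    have : (0 : ℝ) < l := by exact_mod_cast hl
    positivity
  unfold rho
  rw [← Real.rpow_natCast, ← Real.rpow_mul (Nat.cast_nonneg n), h]
  congr 1
  field_simp

lemma n_eq {l n : ℕ} (hl : 1 ≤ l) : (n : ℝ) = rho l n ^ (8 * l ^ 2) := by
  rw [← rpow_eq hl (e := 1) (by push_cast; ring), Real.rpow_one]

lemma rho_large {l : ℕ} (hl : 1 ≤ l) (B : ℝ) : ∃ n₀ : ℕ, ∀ n ≥ n₀, B ≤ rho l n := by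
  have hl' : (0 : ℝ) < 1 / (8 * (l : ℝ) ^ 2) := by
    have : (0 : ℝ) < l := by exact_mod_cast hl
    positivity
  have h := (tendsto_rpow_atTop hl').comp tendsto_natCast_atTop_atTop
  obtain ⟨n₀, hn⟩ := Filter.eventually_atTop.1 (h.eventually_ge_atTop B)
  exact ⟨n₀, fun n hn' => hn n hn'⟩

lemma ceil_le_two {x : ℝ} (hx : 1 ≤ x) : ((⌈x⌉₊ : ℕ) : ℝ) ≤ 2 * x := by
  have h := (Nat.ceil_lt_add_one (by linarith : 0 ≤ x)).le
  linarith

/-- The constant in the bound for `GG`. -/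
noncomputable def cG (l : ℕ) : ℝ :=
  30 * DD l + 2 * (5 * (4 * (l : ℝ) ^ 2 * (4 * l + 2)) * DD l) + 4 * (l : ℝ) ^ 2 * (4 * l + 2) +
    2 * R1 l

lemma cG_nonneg (l : ℕ) : 0 ≤ cG l := by unfold cG; positivity

lemma pmu_zero (l n : ℕ) : pmu l n 0 = pm0 l n := by
  unfold pmu
  rw [pow_zero, div_one, Nat.ceil_natCast]

lemma GG_le {l n : ℕ} (hl : 4 ≤ l) (hn : 2 ≤ n) :
    GG l (4 * l) (pQ l n) (2 * pmu l n 0 + 1) (Nat.clog 2 n) n ≤ cG l * rho l n ^ (4 * l ^ 2) := by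
  set r := rho l n with hr
  have hr1 : 1 ≤ r := one_le_rho (by omega)
  have hr0 : 0 < r := by linarith
  have hnr : (n : ℝ) = r ^ (8 * l ^ 2) := n_eq (by omega)
  have hsq : r ^ (8 * l ^ 2) = (r ^ (4 * l ^ 2)) ^ 2 := by rw [← pow_mul]; congr 1; ring
  set P := r ^ (4 * l ^ 2) with hP
  have hP1 : 1 ≤ P := one_le_pow₀ hr1
  have hD2 : (2 : ℝ) ≤ DD l := by exact_mod_cast two_le_DD hl
  have hR1 : (1 : ℝ) ≤ R1 l := by
    have : 1 ≤ R1 l := by
      unfold R1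
      have := two_le_DD hl
      omega
    exact_mod_cast this
  -- the first summand
  have h1 : √((2 : ℝ) ^ Nat.clog 2 n) ≤ 2 * P := by
    refine Real.sqrt_le_iff.2 ⟨by positivity, ?_⟩
    have h2 : 2 ^ Nat.clog 2 n ≤ 2 * n := by
      have h3 := Nat.pow_pred_clog_lt_self (b := 2) (by norm_num) (x := n) (by omega)
      have h4 : 0 < Nat.clog 2 n := Nat.clog_pos (by norm_num) (by omega)
      obtain ⟨c, hc⟩ : ∃ c, Nat.clog 2 n = c + 1 := ⟨Nat.clog 2 n - 1, by omega⟩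
      rw [hc] at h3 ⊢
      rw [pow_succ]
      simp only [Nat.pred_succ] at h3
      omega
    have h3 : ((2 : ℝ) ^ Nat.clog 2 n) ≤ 2 * n := by exact_mod_cast h2
    rw [mul_pow, ← hsq, ← hnr]
    have : (0 : ℝ) ≤ n := Nat.cast_nonneg n
    linarith
  -- the number of middle vertices
  have hQ : (pQ l n : ℝ) ≤ 2 * r ^ (4 * l ^ 2 - 8 * l) := ceil_le_two (one_le_pow₀ hr1)
  have hR2 : (R2 l (4 * l) (pQ l n) : ℝ) ≤
      (4 * (l : ℝ) ^ 2 * (4 * l + 2)) * r ^ (4 * l ^ 2 - 8 * l) := by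
    unfold R2
    push_cast
    calc 2 * (l : ℝ) ^ 2 * (4 * l + 2) * (pQ l n : ℝ) ≤
        2 * (l : ℝ) ^ 2 * (4 * l + 2) * (2 * r ^ (4 * l ^ 2 - 8 * l)) :=
          mul_le_mul_of_nonneg_left hQ (by positivity)
      _ = _ := by ring
  have hm0 : ((2 * pmu l n 0 + 1 : ℕ) : ℝ) ≤ 5 * r ^ (4 * l ^ 2 + 8 * l - 1) := by
    rw [pmu_zero]
    have h2 : (pm0 l n : ℝ) ≤ 2 * r ^ (4 * l ^ 2 + 8 * l - 1) := ceil_le_two (one_le_pow₀ hr1)
    have h3 : 1 ≤ r ^ (4 * l ^ 2 + 8 * l - 1) := one_le_pow₀ hr1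
    push_cast
    linarith
  set a : ℝ := 4 * (l : ℝ) ^ 2 * (4 * l + 2) with ha
  have hl' : (4 : ℝ) ≤ l := by exact_mod_cast hl
  have ha1 : 1 ≤ a := by
    have : (1 : ℝ) ≤ (l : ℝ) ^ 2 := one_le_pow₀ (by linarith)
    rw [ha]
    nlinarith
  have h3 : √(R2 l (4 * l) (pQ l n) * (((2 * pmu l n 0 + 1) * DD l : ℕ) : ℝ)) ≤
      (5 * a * DD l) * P := by
    refine Real.sqrt_le_iff.2 ⟨by positivity, ?_⟩
    rw [Nat.cast_mul]
    have e1 : r ^ (4 * l ^ 2 - 8 * l) * r ^ (4 * l ^ 2 + 8 * l - 1) ≤ P ^ 2 := by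
      rw [← pow_add, ← hsq]
      refine pow_le_pow_right₀ hr1 ?_
      have : 8 * l ≤ 4 * l ^ 2 := by nlinarith
      omega
    have e2 : (1 : ℝ) ≤ 5 * a * DD l := by nlinarith
    calc (R2 l (4 * l) (pQ l n) : ℝ) * (((2 * pmu l n 0 + 1 : ℕ) : ℝ) * (DD l : ℝ)) ≤
        (a * r ^ (4 * l ^ 2 - 8 * l)) * ((5 * r ^ (4 * l ^ 2 + 8 * l - 1)) * (DD l : ℝ)) := by
          gcongr
      _ = (5 * a * DD l) * (r ^ (4 * l ^ 2 - 8 * l) * r ^ (4 * l ^ 2 + 8 * l - 1)) := by ring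
      _ ≤ (5 * a * DD l) * P ^ 2 := mul_le_mul_of_nonneg_left e1 (by positivity)
      _ ≤ (5 * a * DD l) * P ^ 2 * (5 * a * DD l) := le_mul_of_one_le_right (by positivity) e2
      _ = _ := by ring
  have h4 : (R2 l (4 * l) (pQ l n) : ℝ) ≤ a * P :=
    hR2.trans (mul_le_mul_of_nonneg_left (pow_le_pow_right₀ hr1 (Nat.sub_le _ _)) (by linarith))
  have h5 : √((R1 l : ℝ) * n) ≤ R1 l * P := by
    refine Real.sqrt_le_iff.2 ⟨by positivity, ?_⟩
    rw [mul_pow, ← hsq, ← hnr]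
    exact mul_le_mul_of_nonneg_right (by nlinarith) (Nat.cast_nonneg n)
  unfold GG cG
  rw [← ha]
  have h6 : 14 * ((DD l : ℝ) * √((2 : ℝ) ^ Nat.clog 2 n)) ≤ 28 * DD l * P := by
    have := mul_le_mul_of_nonneg_left h1 (by positivity : (0 : ℝ) ≤ DD l)
    linarith
  have h7 : 2 * (DD l : ℝ) ≤ 2 * DD l * P := le_mul_of_one_le_right (by positivity) hP1
  calc _ ≤ 28 * DD l * P + 2 * DD l * P + 2 * ((5 * a * DD l) * P) + a * P +
        2 * (R1 l * P) := by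
          refine add_le_add (add_le_add (add_le_add (add_le_add h6 h7) ?_) h4) ?_
          · exact mul_le_mul_of_nonneg_left h3 (by norm_num)
          · exact mul_le_mul_of_nonneg_left h5 (by norm_num)
    _ = _ := by ring

end AsymC

open AsymC in
theorem asymCStmt : AsymCStmt := by
  intro l hev hl A
  -- the constants
  set c2 : ℝ := 2 * DD l + (2 ^ (l ^ 2) + 1) + cG l with hc2
  set c3 : ℝ := 2 ^ (l ^ 2) * 2 ^ l * (cG l * c2 ^ (l - 1)) with hc3
  obtain ⟨n₀, hn₀⟩ := rho_large (l := l) (by omega) (max (2 * l) (|A| + c3 + 2 ^ (l ^ 3)))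
  refine ⟨max n₀ 2, fun n hn => ?_⟩
  have hB := hn₀ n (le_of_max_le_left hn)
  have hn2 : 2 ≤ n := le_of_max_le_right hn
  have hGG := GG_le hl hn2
  set r := rho l n with hr
  have hr1 : 1 ≤ r := one_le_rho (by omega)
  have hr0 : 0 < r := by linarith
  have hnr : (n : ℝ) = r ^ (8 * l ^ 2) := n_eq (by omega)
  have hl' : (4 : ℝ) ≤ l := by exact_mod_cast hl
  have hl0 : (l : ℝ) ≠ 0 := by positivity
  have hD2 : (2 : ℝ) ≤ DD l := by exact_mod_cast two_le_DD hl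
  set G := GG l (4 * l) (pQ l n) (2 * pmu l n 0 + 1) (Nat.clog 2 n) n with hG
  have hG0 : 0 ≤ G := by rw [hG]; unfold GG; positivity
  -- the exponents
  have hsq : 8 * l + 2 ≤ 4 * l ^ 2 := by nlinarith
  set N := 8 * l ^ 2 - 1 with hN
  have hN1 : N + 1 = 8 * l ^ 2 := by omega
  have hLL : LL l n ≤ (2 ^ (l ^ 2) + 1) * r ^ N := by
    unfold LL
    have e0 : (n : ℝ) ^ ((1 : ℝ) / 2 + 1 / l) = r ^ (4 * l ^ 2 + 8 * l) :=
      rpow_eq (l := l) (by omega) (by push_cast; field_simp; ring)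
    rw [e0]
    have h1 : r ^ (4 * l ^ 2 + 8 * l) ≤ r ^ N := pow_le_pow_right₀ hr1 (by omega)
    have h2 : 1 ≤ r ^ N := one_le_pow₀ hr1
    have h3 : (0 : ℝ) ≤ 2 ^ (l ^ 2) := by positivity
    nlinarith
  have hm1 : r ^ N ≤ (pm l n : ℝ) := Nat.le_ceil _
  have hm2 : (pm l n : ℝ) ≤ 2 * r ^ N := ceil_le_two (one_le_pow₀ hr1)
  have hG2 : G ≤ cG l * r ^ N :=
    hGG.trans (mul_le_mul_of_nonneg_left (pow_le_pow_right₀ hr1 (by omega)) (cG_nonneg l))
  have hsum : (pm l n : ℝ) * DD l + LL l n + G ≤ c2 * r ^ N := by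
    have h1 : (pm l n : ℝ) * DD l ≤ 2 * r ^ N * DD l :=
      mul_le_mul_of_nonneg_right hm2 (by positivity)
    rw [hc2]
    linarith
  have hLL0 : 0 ≤ LL l n := by unfold LL; positivity
  have hsum0 : 0 ≤ (pm l n : ℝ) * DD l + LL l n + G := by positivity
  have hc20 : 0 ≤ c2 := by
    have := cG_nonneg l
    rw [hc2]
    positivity
  have hc30 : 0 ≤ c3 := by
    have := cG_nonneg l
    rw [hc3]
    positivity
  set E := l * N - 1 with hE
  have hlN : 1 ≤ l * N := by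
    have : 1 ≤ N := by omega
    nlinarith
  have hE1 : E + 1 = l * N := by omega
  obtain ⟨h, hlh⟩ : ∃ h, l = 2 * h := ⟨l / 2, by rcases hev with ⟨k, hk⟩; omega⟩
  have hh : 2 ≤ h := by omega
  -- the second summand
  have t2 : 2 ^ (l ^ 2) * 2 ^ l * (G * ((pm l n : ℝ) * DD l +
      LL l n + G) ^ (l - 1)) ≤ c3 * r ^ E := by
    have h1 : ((pm l n : ℝ) * DD l + LL l n + G) ^ (l - 1) ≤
        (c2 * r ^ N) ^ (l - 1) := pow_le_pow_left₀ hsum0 hsum _
    have h2 : r ^ (4 * l ^ 2) * (r ^ N) ^ (l - 1) ≤ r ^ E := by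
      rw [← pow_mul, ← pow_add]
      refine pow_le_pow_right₀ hr1 ?_
      have e1 : ∀ M : ℕ, M * (l - 1) + M = l * M := by
        intro M
        obtain ⟨p, hp⟩ : ∃ p, l = p + 1 := ⟨l - 1, by omega⟩
        rw [hp, Nat.add_sub_cancel]
        ring
      have e2 := e1 N
      omega
    calc _ ≤ 2 ^ (l ^ 2) * 2 ^ l * ((cG l * r ^ (4 * l ^ 2)) *
          (c2 * r ^ N) ^ (l - 1)) := by
          refine mul_le_mul_of_nonneg_left (mul_le_mul hGG h1 (pow_nonneg hsum0 _) ?_)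
            (by positivity)
          exact mul_nonneg (cG_nonneg _) (by positivity)
      _ = c3 * (r ^ (4 * l ^ 2) * (r ^ N) ^ (l - 1)) := by
          rw [hc3, mul_pow]
          ring
      _ ≤ _ := mul_le_mul_of_nonneg_left h2 hc30
  -- the third summand
  have t3 : 2 ^ (l ^ 3) * (n : ℝ) ^ (l / 2 + 1) ≤ 2 ^ (l ^ 3) * r ^ E := by
    refine mul_le_mul_of_nonneg_left ?_ (by positivity)
    rw [hnr, ← pow_mul]
    refine pow_le_pow_right₀ hr1 ?_
    have e1 : l / 2 = h := by omega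
    rw [e1]
    have e2 : E + 1 + l = l * (8 * l ^ 2) := by
      rw [← hN1, hE1]; ring
    have e3 : 8 * l ^ 2 * (h + 1) + l + 1 ≤ l * (8 * l ^ 2) := by
      rw [hlh]
      have e4 : 1 ≤ h ^ 2 := Nat.one_le_pow _ _ (by omega)
      have e5 : h ^ 2 * 2 ≤ h ^ 2 * h := Nat.mul_le_mul_left _ hh
      have e6 : h * 2 ≤ h * h := Nat.mul_le_mul_left _ hh
      nlinarith
    omega
  -- the comparison term
  have t1 : A * (n : ℝ) ^ ((l : ℝ) - 1 / (4 * (l : ℝ))) ≤ |A| * r ^ E := by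
    have e1 : (n : ℝ) ^ ((l : ℝ) - 1 / (4 * (l : ℝ))) =
        r ^ (8 * l ^ 3 - 2 * l) := by
      refine rpow_eq (by omega) ?_
      have e4 : 2 * l ≤ 8 * l ^ 3 := by
        have : 1 ≤ l ^ 2 := Nat.one_le_pow _ _ (by omega)
        have : l * 1 ≤ l * l ^ 2 := Nat.mul_le_mul_left _ this
        nlinarith
      rw [Nat.cast_sub e4]
      push_cast
      field_simp
      ring
    rw [e1]
    have e2 : r ^ (8 * l ^ 3 - 2 * l) ≤ r ^ E := by
      refine pow_le_pow_right₀ hr1 ?_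
      have e3 : E + 1 + l = 8 * l ^ 3 := by
        have : E + 1 + l = l * (N + 1) := by rw [hE1]; ring
        rw [this, hN1]; ring
      omega
    exact (mul_le_mul_of_nonneg_right (le_abs_self A) (by positivity)).trans
      (mul_le_mul_of_nonneg_left e2 (abs_nonneg A))
  -- the main term
  have t0 : r ^ (E + 1) ≤ (((pm l n * DD l).descFactorial l : ℕ) : ℝ) := by
    have hq : 2 * r ^ N ≤ ((pm l n * DD l : ℕ) : ℝ) := by
      rw [Nat.cast_mul]
      have := mul_le_mul hm1 hD2 (by norm_num) (by positivity)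
      linarith
    have hbig : 2 * l ≤ pm l n * DD l := by
      have h1 : ((2 * l : ℕ) : ℝ) ≤ ((pm l n * DD l : ℕ) : ℝ) := by
        refine le_trans ?_ hq
        have h2 : r ≤ r ^ N := le_self_pow₀ hr1 (by omega)
        have h3 := le_trans (le_max_left _ _) hB
        push_cast at h3 ⊢
        linarith
      exact_mod_cast h1
    have : NeZero l := ⟨by omega⟩
    have h2 := desc_lower (l := l) hbig (by omega)
    refine le_trans ?_ h2
    rw [hE1, mul_comm l N, pow_mul]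
    refine pow_le_pow_left₀ (by positivity) ?_ _
    linarith
  -- the sum
  have hfin : (|A| + c3 + 2 ^ (l ^ 3)) * r ^ E ≤ r ^ (E + 1) := by
    rw [pow_succ' r E]
    exact mul_le_mul_of_nonneg_right (le_trans (le_max_right _ _) hB)
      (pow_nonneg hr0.le E)
  unfold Low
  rw [← hG]
  have e : ((pm l n * DD l : ℕ) : ℝ) = (pm l n : ℝ) * DD l := by
    push_cast; ring
  linarith

end Full

end MP_90430c
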