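import Pool.Agent.Lib.MP_90430c_co.Full.Api

/-!
# Sequences with too many middle vertices
-/

open Finset

set_option linter.unusedSectionVars false

namespace MP_90430c

namespace Full

namespace Bad

/-- The step joins the levels `j - 1` and `j`. -/
def Lv (j p q : ℕ) : Prop := (p + 1 = j ∧ q = j) ∨ (q + 1 = j ∧ p = j)

/-- The middle levels. -/
def Md (s p : ℕ) : Prop := 2 ≤ p ∧ p < s

instance (s p : ℕ) : Decidable (Md s p) := by unfold Md; infer_instance

section count

variable {l : ℕ} [NeZero l]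

/-- The steps with two middle ends. -/
def sMM (s : ℕ) (L : Fin l → ℕ) : Finset (Fin l) :=
  univ.filter fun i => Md s (L i) ∧ Md s (L (i + 1))

/-- The steps with one middle end. -/
def sM (s : ℕ) (L : Fin l → ℕ) : Finset (Fin l) :=
  univ.filter fun i => ¬ (Md s (L i) ∧ Md s (L (i + 1))) ∧ (Md s (L i) ∨ Md s (L (i + 1)))

/-- The steps without middle ends. -/
def sC (s : ℕ) (L : Fin l → ℕ) : Finset (Fin l) :=
  univ.filter fun i => ¬ (Md s (L i) ∨ Md s (L (i + 1)))

lemma count_total (s : ℕ) (L : Fin l → ℕ) :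
    (sMM s L).card + (sM s L).card + (sC s L).card = l := by
  unfold sMM sM sC
  rw [Finset.card_filter, Finset.card_filter, Finset.card_filter, ← Finset.sum_add_distrib,
    ← Finset.sum_add_distrib]
  rw [Finset.sum_congr rfl (g := fun _ => 1)]
  · simp
  · intro i _
    by_cases h1 : Md s (L i) <;> by_cases h2 : Md s (L (i + 1)) <;> simp [h1, h2]

lemma count_places (s : ℕ) (L : Fin l → ℕ) :
    2 * (univ.filter fun i => Md s (L i)).card = 2 * (sMM s L).card + (sM s L).card := by
  unfold sMM sM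
  rw [Finset.card_filter, Finset.card_filter, Finset.card_filter]
  have h1 : ∑ i, (if Md s (L (i + 1)) then 1 else 0) = ∑ i, (if Md s (L i) then 1 else 0) :=
    Equiv.sum_comp (Equiv.addRight (1 : Fin l)) (fun i => if Md s (L i) then 1 else 0)
  have h2 : 2 * ∑ i, (if Md s (L i) then 1 else 0) =
      ∑ i, (if Md s (L i) then 1 else 0) + ∑ i, (if Md s (L (i + 1)) then 1 else 0) := by
    rw [h1]; ring
  rw [h2, Finset.mul_sum, ← Finset.sum_add_distrib, ← Finset.sum_add_distrib]
  refine Finset.sum_congr rfl fun i _ => ?_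
  by_cases h1 : Md s (L i) <;> by_cases h2 : Md s (L (i + 1)) <;> simp [h1, h2]

/-- All levels are used. -/
lemma count_mm {s : ℕ} {L : Fin l → ℕ}
    (hK : ∀ j ∈ Icc 2 s, ∃ i, Lv j (L i) (L (i + 1))) : s - 3 ≤ (sMM s L).card := by
  choose! e he using hK
  have h1 : (Icc 3 (s - 1)).card = s - 3 := by rw [Nat.card_Icc]; omega
  rw [← h1]
  refine Finset.card_le_card_of_injOn e ?_ ?_
  · intro j hj
    rw [Finset.mem_coe, Finset.mem_Icc] at hj
    have h2 := he j (Finset.mem_Icc.2 (by omega))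
    rw [Finset.mem_coe]
    unfold sMM
    rw [Finset.mem_filter]
    refine ⟨Finset.mem_univ _, ?_⟩
    unfold Lv at h2
    unfold Md
    omega
  · intro j hj j' hj' hjj
    rw [Finset.mem_coe, Finset.mem_Icc] at hj hj'
    have h2 := he j (Finset.mem_Icc.2 (by omega))
    have h3 := he j' (Finset.mem_Icc.2 (by omega))
    rw [hjj] at h2
    unfold Lv at h2 h3
    omega

lemma expo (x y z r l s : ℕ) (h1 : x + y + z = l) (h2 : 2 * r = 2 * x + y) (hr : s - 1 ≤ r)
    (hx : s - 3 ≤ x) (hy : 2 ≤ y) (hs : 3 ≤ s) (hl : s < l) (N Λ n' : ℝ) (hN : 0 ≤ N)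
    (hN2 : N ≤ Λ ^ 2) (hNn : N ≤ n') (hΛ : 1 ≤ Λ) (hΛn : Λ ≤ n') :
    √N ^ (y - 2) * Λ ^ z ≤ n' * Λ ^ (l - s - 1) := by
  have hn' : 0 ≤ n' := hN.trans hNn
  have hΛ0 : 0 ≤ Λ := by linarith
  obtain ⟨k, hk⟩ : ∃ k, y - 2 = 2 * k := ⟨r - x - 1, by omega⟩
  rw [hk, pow_mul, Real.sq_sqrt hN]
  rcases Nat.eq_zero_or_pos k with h0 | h0
  · subst h0
    rw [pow_zero, one_mul]
    calc Λ ^ z ≤ Λ ^ (l - s) := pow_le_pow_right₀ hΛ (by omega)
      _ = Λ * Λ ^ (l - s - 1) := by
          rw [← pow_succ']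
          congr 1
          omega
      _ ≤ n' * Λ ^ (l - s - 1) := mul_le_mul_of_nonneg_right hΛn (by positivity)
  · obtain ⟨k', rfl⟩ : ∃ k', k = k' + 1 := ⟨k - 1, by omega⟩
    calc N ^ (k' + 1) * Λ ^ z = N * (N ^ k' * Λ ^ z) := by ring
      _ ≤ n' * ((Λ ^ 2) ^ k' * Λ ^ z) := by
          refine mul_le_mul hNn (mul_le_mul_of_nonneg_right (pow_le_pow_left₀ hN hN2 _)
            (by positivity)) (by positivity) hn'
      _ = n' * Λ ^ (2 * k' + z) := by rw [← pow_mul, ← pow_add]
      _ ≤ n' * Λ ^ (l - s - 1) :=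
          mul_le_mul_of_nonneg_left (pow_le_pow_right₀ hΛ (by omega)) hn'

/-- The bounds for the steps. -/
noncomputable def cB (s : ℕ) (L : Fin l → ℕ) (e e' : Fin l) (A B C Λ : ℝ) (i : Fin l) : ℝ :=
  if Md s (L i) ∧ Md s (L (i + 1)) then 1
  else if Md s (L i) ∨ Md s (L (i + 1)) then (if i = e then A else if i = e' then B else C)
  else Λ

lemma prod_cB (s : ℕ) (L : Fin l → ℕ) {e e' : Fin l} (he : e ∈ sM s L) (he' : e' ∈ sM s L)
    (hne : e ≠ e') (A B C Λ : ℝ) :
    ∏ i, cB s L e e' A B C Λ i = A * B * (C ^ ((sM s L).card - 2) * Λ ^ (sC s L).card) := by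
  have h1 : ∏ i, cB s L e e' A B C Λ i =
      (∏ i ∈ sM s L, if i = e then A else if i = e' then B else C) * ∏ i ∈ sC s L, Λ := by
    unfold sM sC
    rw [Finset.prod_filter, Finset.prod_filter, ← Finset.prod_mul_distrib]
    refine Finset.prod_congr rfl fun i _ => ?_
    unfold cB
    by_cases h1 : Md s (L i) <;> by_cases h2 : Md s (L (i + 1)) <;> simp [h1, h2]
  have he2 : e' ∈ (sM s L).erase e := Finset.mem_erase.2 ⟨Ne.symm hne, he'⟩
  rw [h1, Finset.prod_const, ← Finset.mul_prod_erase _ _ he, ← Finset.mul_prod_erase _ _ he2,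
    if_pos rfl, if_neg (Ne.symm hne), if_pos rfl]
  rw [Finset.prod_congr rfl (g := fun _ => C)]
  · rw [Finset.prod_const, Finset.card_erase_of_mem he2, Finset.card_erase_of_mem he,
      Nat.sub_sub]
    ring
  · intro i hi
    rw [Finset.mem_erase, Finset.mem_erase] at hi
    rw [if_neg hi.2.1, if_neg hi.1]

end count

section blocks

variable {V : Type} [Fintype V] [DecidableEq V] {σ : V → V → ℤ}

lemma bd_one_left (hσ : IsSig σ) {P Q : Finset V} {m : ℝ} (hP : P.card ≤ 1)
    (hQ : (Q.card : ℝ) ≤ m) : Bd (rs P Q (rl σ)) (√m) := by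
  refine (bd_sig hσ P Q).mono (Real.sqrt_le_sqrt ?_)
  have h1 : (P.card : ℝ) ≤ 1 := by exact_mod_cast hP
  calc (P.card : ℝ) * Q.card ≤ 1 * Q.card :=
        mul_le_mul_of_nonneg_right h1 (Nat.cast_nonneg _)
    _ ≤ m := by rw [one_mul]; exact hQ

lemma bd_one_right (hσ : IsSig σ) {P Q : Finset V} {m : ℝ} (hQ : Q.card ≤ 1)
    (hP : (P.card : ℝ) ≤ m) : Bd (rs P Q (rl σ)) (√m) := by
  refine (bd_sig hσ P Q).mono (Real.sqrt_le_sqrt ?_)
  have h1 : (Q.card : ℝ) ≤ 1 := by exact_mod_cast hQ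
  calc (P.card : ℝ) * Q.card ≤ P.card * 1 :=
        mul_le_mul_of_nonneg_left h1 (Nat.cast_nonneg _)
    _ ≤ m := by rw [mul_one]; exact hP

variable {s a b : ℕ} {lab : V → ℕ × Bool}

/-- The class of a vertex: its label. -/
def cls (G : Gadget lab s a b) (x : V) : Fin (s + 1) × Bool :=
  (⟨(lab x).1, Nat.lt_succ_of_le (G.top x)⟩, (lab x).2)

/-- The label of a class. -/
def lab' (s : ℕ) (k : Fin (s + 1) × Bool) : ℕ × Bool := (k.1.val, k.2)

lemma lab'_cls (G : Gadget lab s a b) (x : V) : lab' s (cls G x) = lab x := rfl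

lemma card_mid (G : Gadget lab s a b) {k : Fin (s + 1) × Bool} (hk : Md s k.1.val) :
    (cl' (cls G) k).card ≤ 1 := by
  obtain ⟨x, _, hx⟩ := G.mid k.1.val hk.1 hk.2 k.2
  rw [Finset.card_le_one]
  intro y hy z hz
  rw [mem_cl'] at hy hz
  have h1 : lab y = (k.1.val, k.2) := by rw [← lab'_cls G y, hy]; rfl
  have h2 : lab z = (k.1.val, k.2) := by rw [← lab'_cls G z, hz]; rfl
  rw [hx y h1, hx z h2]

lemma card_first (G : Gadget lab s a b) {k : Fin (s + 1) × Bool} (hk : k.1.val = 1) :
    (cl' (cls G) k).card ≤ a := by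
  refine le_trans (Finset.card_le_card fun x hx => ?_) G.card_CC_one.le
  rw [mem_cl'] at hx
  rw [mem_CC, ← lab'_cls G x, hx]
  exact hk

lemma card_last (G : Gadget lab s a b) {k : Fin (s + 1) × Bool} (hk : k.1.val = s) :
    (cl' (cls G) k).card ≤ b := by
  refine le_trans (Finset.card_le_card fun x hx => ?_) G.card_CC_top.le
  rw [mem_cl'] at hx
  rw [mem_CC, ← lab'_cls G x, hx]
  exact hk

/-- The bound for one pattern. -/
lemma pattern_bad {l : ℕ} [NeZero l] {Λ n' : ℝ} (hs : 3 ≤ s) (hl : s < l)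
    (G : Gadget lab s a b) (hσ : IsSig σ) (hΛ : Bd (rl σ) Λ) (h1 : 1 ≤ Λ)
    (h2 : (Fintype.card V : ℝ) ≤ Λ ^ 2) (h3 : (Fintype.card V : ℝ) ≤ n') (h4 : Λ ≤ n')
    (lam : Fin l → Fin (s + 1) × Bool)
    (hK : ∀ j ∈ Icc 2 s, ∃ i, Lv j (lam i).1.val (lam (i + 1)).1.val)
    (hN : s - 1 ≤ (univ.filter fun i => Md s (lam i).1.val).card) :
    |((∑ f ∈ (inj l V).filter (fun f => ∀ i, cls G (f i) = lam i), cp l σ f : ℤ) : ℝ)| ≤
      2 ^ (l ^ 2) * (√(a * b) * n' * Λ ^ (l - s - 1)) := by
  set L : Fin l → ℕ := fun i => (lam i).1.val with hL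
  obtain ⟨e, he⟩ := hK 2 (Finset.mem_Icc.2 ⟨le_rfl, by omega⟩)
  obtain ⟨e', he'⟩ := hK s (Finset.mem_Icc.2 ⟨by omega, le_rfl⟩)
  have heM : e ∈ sM s L := by
    unfold sM
    rw [Finset.mem_filter]
    refine ⟨Finset.mem_univ _, ?_⟩
    simp only [hL]
    unfold Lv at he
    unfold Md
    omega
  have heM' : e' ∈ sM s L := by
    unfold sM
    rw [Finset.mem_filter]
    refine ⟨Finset.mem_univ _, ?_⟩
    simp only [hL]
    unfold Lv at he'
    unfold Md
    omega
  have hne : e ≠ e' := by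
    intro h
    rw [← h] at he'
    unfold Lv at he he'
    omega
  obtain ⟨i₀, hi₀⟩ : ∃ i, Md s (L i) := by
    have : 0 < (univ.filter fun i => Md s (lam i).1.val).card := by omega
    obtain ⟨i, hi⟩ := Finset.card_pos.1 this
    exact ⟨i, (Finset.mem_filter.1 hi).2⟩
  have hV : ∀ P : Finset V, (P.card : ℝ) ≤ Fintype.card V := fun P => by
    exact_mod_cast Finset.card_le_univ P
  have hblock : ∀ i, Bd (rs (cl' (cls G) (lam i)) (cl' (cls G) (lam (i + 1))) (rl σ))
      (cB s L e e' (√a) (√b) (√(Fintype.card V)) Λ i) := by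
    intro i
    unfold cB
    by_cases hm : Md s (L i)
    · by_cases hm' : Md s (L (i + 1))
      · rw [if_pos ⟨hm, hm'⟩]
        have h5 := bd_one_left hσ (card_mid G hm) (Q := cl' (cls G) (lam (i + 1))) (m := 1)
          (by exact_mod_cast card_mid G hm')
        rwa [Real.sqrt_one] at h5
      · rw [if_neg (fun h => hm' h.2), if_pos (Or.inl hm)]
        by_cases hie : i = e
        · rw [if_pos hie]
          refine bd_one_left hσ (card_mid G hm) ?_
          have : (lam (i + 1)).1.val = 1 := by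
            rw [← hie] at he
            unfold Lv at he
            unfold Md at hm'
            simp only [hL] at hm'
            omega
          exact_mod_cast card_first G this
        · rw [if_neg hie]
          by_cases hie' : i = e'
          · rw [if_pos hie']
            refine bd_one_left hσ (card_mid G hm) ?_
            have : (lam (i + 1)).1.val = s := by
              rw [← hie'] at he'
              unfold Lv at he'
              unfold Md at hm'
              simp only [hL] at hm'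
              omega
            exact_mod_cast card_last G this
          · rw [if_neg hie']
            exact bd_one_left hσ (card_mid G hm) (hV _)
    · by_cases hm' : Md s (L (i + 1))
      · rw [if_neg (fun h => hm h.1), if_pos (Or.inr hm')]
        by_cases hie : i = e
        · rw [if_pos hie]
          refine bd_one_right hσ (card_mid G hm') ?_
          have : (lam i).1.val = 1 := by
            rw [← hie] at he
            unfold Lv at he
            unfold Md at hm
            simp only [hL] at hm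
            omega
          exact_mod_cast card_first G this
        · rw [if_neg hie]
          by_cases hie' : i = e'
          · rw [if_pos hie']
            refine bd_one_right hσ (card_mid G hm') ?_
            have : (lam i).1.val = s := by
              rw [← hie'] at he'
              unfold Lv at he'
              unfold Md at hm
              simp only [hL] at hm
              omega
            exact_mod_cast card_last G this
          · rw [if_neg hie']
            exact bd_one_right hσ (card_mid G hm') (hV _)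
      · rw [if_neg (fun h => hm h.1), if_neg (fun h => h.elim hm hm')]
        exact hΛ.rs _ _
  obtain ⟨x₀, _, hx₀⟩ := G.mid (lam i₀).1.val hi₀.1 hi₀.2 (lam i₀).2
  have key := pattern_pin (cls G) σ lam (cB s L e e' (√a) (√b) (√(Fintype.card V)) Λ) i₀ x₀
    (fun x hx => hx₀ x (show lab x = _ by rw [← lab'_cls G x, hx]; rfl)) hblock
  refine key.trans (mul_le_mul_of_nonneg_left ?_ (by positivity))
  rw [prod_cB s L heM heM' hne, Real.sqrt_mul (Nat.cast_nonneg _), mul_assoc (√(a : ℝ) * √(b : ℝ))]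
  refine mul_le_mul_of_nonneg_left ?_ (by positivity)
  have hc2 : 2 ≤ (sM s L).card := by
    have : ({e, e'} : Finset (Fin l)) ⊆ sM s L := by
      intro i hi
      rw [Finset.mem_insert, Finset.mem_singleton] at hi
      rcases hi with rfl | rfl
      · exact heM
      · exact heM'
    rw [← Finset.card_pair hne]
    exact Finset.card_le_card this
  exact expo (sMM s L).card (sM s L).card (sC s L).card _ l s (count_total s L)
    (count_places s L) hN (count_mm hK) hc2 hs hl _ Λ n' (Nat.cast_nonneg _) h2 h3 h1 h4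

/-- The sum over all patterns. -/
lemma sum_bad {l : ℕ} [NeZero l] {Λ n' : ℝ} (hs : 3 ≤ s) (hl : s < l)
    (G : Gadget lab s a b) (hσ : IsSig σ) (hΛ : Bd (rl σ) Λ) (h1 : 1 ≤ Λ)
    (h2 : (Fintype.card V : ℝ) ≤ Λ ^ 2) (h3 : (Fintype.card V : ℝ) ≤ n') (h4 : Λ ≤ n')
    (p : (Fin l → Fin (s + 1) × Bool) → Prop) [DecidablePred p]
    (hp : ∀ lam, p lam → (∀ j ∈ Icc 2 s, ∃ i, Lv j (lam i).1.val (lam (i + 1)).1.val) ∧
      s - 1 ≤ (univ.filter fun i => Md s (lam i).1.val).card) :
    |((∑ f ∈ (inj l V).filter (fun f => p fun i => cls G (f i)), cp l σ f : ℤ) : ℝ)| ≤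
      2 ^ (l ^ 2) * (2 * l + 3) ^ l * (√(a * b) * n' * Λ ^ (l - s - 1)) := by
  have hn' : 0 ≤ n' := by linarith
  have hΛ0 : 0 ≤ Λ := by linarith
  push_cast
  rw [sum_patterns (cls G) p (fun f => ((cp l σ f : ℤ) : ℝ))]
  have hcard : ((univ.filter p).card : ℝ) ≤ (2 * l + 3) ^ l := by
    have h5 : (univ.filter p).card ≤ (2 * l + 3) ^ l := by
      refine (Finset.card_le_univ _).trans ?_
      rw [Fintype.card_fun, Fintype.card_prod, Fintype.card_fin, Fintype.card_fin,
        Fintype.card_bool]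
      exact Nat.pow_le_pow_left (by omega) l
    exact_mod_cast h5
  calc |∑ lam ∈ univ.filter p, ∑ f ∈ (inj l V).filter (fun f => ∀ i, cls G (f i) = lam i),
          ((cp l σ f : ℤ) : ℝ)|
      ≤ ∑ lam ∈ univ.filter p, |∑ f ∈ (inj l V).filter (fun f => ∀ i, cls G (f i) = lam i),
          ((cp l σ f : ℤ) : ℝ)| := Finset.abs_sum_le_sum_abs _ _
    _ ≤ ∑ _lam ∈ univ.filter p, 2 ^ (l ^ 2) * (√(a * b) * n' * Λ ^ (l - s - 1)) := by
        refine Finset.sum_le_sum fun lam hlam => ?_
        have h6 := hp lam (Finset.mem_filter.1 hlam).2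
        have h7 := pattern_bad hs hl G hσ hΛ h1 h2 h3 h4 lam h6.1 h6.2
        push_cast at h7
        exact h7
    _ = ((univ.filter p).card : ℝ) * (2 ^ (l ^ 2) * (√(a * b) * n' * Λ ^ (l - s - 1))) := by
        rw [Finset.sum_const, nsmul_eq_mul]
    _ ≤ (2 * l + 3) ^ l * (2 ^ (l ^ 2) * (√(a * b) * n' * Λ ^ (l - s - 1))) :=
        mul_le_mul_of_nonneg_right hcard (by positivity)
    _ = _ := by ring

end blocks

end Bad

open Bad in
theorem badStmt : BadStmt := by
  intro V _ _ l s a b _ lab σ₀ Λ n' hs hl G hσ hΛ h1 h2 h3 h4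
  constructor
  · have key := sum_bad hs hl G hσ hΛ h1 h2 h3 h4
      (fun lam => KK (gY (lab' s)) s lam ∧ s - 1 ≤ NM (lab' s) s lam) (fun lam h => ?_)
    · exact key
    · refine ⟨fun j hj => ?_, h.2⟩
      obtain ⟨i, hi⟩ := exists_up_Y (h.1 j hj)
      refine ⟨i, ?_⟩
      rcases hi with hi | hi
      · exact Or.inl ⟨hi.1, hi.2.1⟩
      · exact Or.inr ⟨hi.1, hi.2.1⟩
  · have key := sum_bad hs hl G hσ hΛ h1 h2 h3 h4
      (fun lam => KK (gX (lab' s)) s lam ∧ s - 1 ≤ NM (lab' s) s lam) (fun lam h => ?_)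
    · exact key
    · refine ⟨fun j hj => ?_, h.2⟩
      obtain ⟨i, hi⟩ := exists_up_X (h.1 j hj)
      have hj2 := (Finset.mem_Icc.1 hj).1
      refine ⟨i, ?_⟩
      rcases hi with hi | hi
      · exact Or.inl (upX_levels hj2 hi)
      · exact Or.inr (upX_levels hj2 hi)

end Full

end MP_90430c
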