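import Pool.Agent.Lib.MP_90430c_co.Full.Api

/-!
# Sequences without two consecutive old vertices
-/

open Finset

set_option linter.unusedSectionVars false

namespace MP_90430c

namespace Full

namespace Base

variable {V : Type} [Fintype V] [DecidableEq V]

/-- The three classes. -/
def cls (W Y : Finset V) (x : V) : Fin 3 := if x ∈ W then 0 else if x ∈ Y then 1 else 2

lemma cls_zero {W Y : Finset V} {x : V} : cls W Y x = 0 ↔ x ∈ W := by
  unfold cls
  by_cases h1 : x ∈ W <;> by_cases h2 : x ∈ Y <;> simp [h1, h2]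

lemma cls_one {W Y : Finset V} (hd : Disjoint W Y) {x : V} : cls W Y x = 1 ↔ x ∈ Y := by
  unfold cls
  by_cases h1 : x ∈ W
  · have h2 : x ∉ Y := Finset.disjoint_left.1 hd h1
    simp [h1, h2]
  · by_cases h2 : x ∈ Y <;> simp [h1, h2]

/-- Pinning the vertex at the place `i₀`. -/
lemma pin {l : ℕ} [NeZero l] (B : Fin l → V → V → ℝ) (c : ℝ) (i₀ : Fin l) (P : Finset V)
    (hP : ∀ x, x ∉ P → ∀ y, B i₀ x y = 0) (hB : ∀ i, Bd (B i) c) :
    |∑ f ∈ inj l V, ∏ i, B i (f i) (f (i + 1))| ≤ P.card * (2 ^ (l ^ 2) * c ^ l) := by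
  let Bx : V → Fin l → V → V → ℝ := fun x i y z =>
    if i = i₀ then (if y = x then 1 else 0) * B i₀ x z else B i y z
  have h1 : ∀ f : Fin l → V, ∏ i, B i (f i) (f (i + 1)) =
      ∑ x, ∏ i, Bx x i (f i) (f (i + 1)) := by
    intro f
    rw [Finset.sum_eq_single (f i₀)]
    · refine Finset.prod_congr rfl fun i _ => ?_
      by_cases hi : i = i₀
      · subst hi
        simp [Bx]
      · simp [Bx, hi]
    · intro x _ hx
      refine Finset.prod_eq_zero (Finset.mem_univ i₀) ?_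
      simp [Bx, Ne.symm hx]
    · intro h
      exact absurd (Finset.mem_univ _) h
  have h2 : ∑ f ∈ inj l V, ∏ i, B i (f i) (f (i + 1)) =
      ∑ x ∈ P, ∑ f ∈ inj l V, ∏ i, Bx x i (f i) (f (i + 1)) := by
    rw [Finset.sum_congr rfl fun f _ => h1 f, Finset.sum_comm]
    refine (Finset.sum_subset (Finset.subset_univ P) fun x _ hx => ?_).symm
    refine Finset.sum_eq_zero fun f _ => Finset.prod_eq_zero (Finset.mem_univ i₀) ?_
    simp [Bx, hP x hx]
  rw [h2]
  refine (Finset.abs_sum_le_sum_abs _ _).trans ?_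
  rw [← nsmul_eq_mul]
  refine Finset.sum_le_card_nsmul _ _ _ fun x _ => ?_
  have h3 := wordStmt V l (Bx x) (fun _ => c) i₀ (fun y => if y = x then 1 else 0)
    (fun z => B i₀ x z) (fun y z => by simp [Bx])
    (by rw [nrm_single, one_mul]; exact (hB i₀).row x)
    (fun i hi => (hB i).congr fun y z => by simp [Bx, hi])
  rwa [Finset.prod_const, Finset.card_univ, Fintype.card_fin] at h3

/-- The bound for one pattern which is not all positive. -/
lemma one_pattern {l : ℕ} [NeZero l] (τ : V → V → ℤ) (W Y : Finset V) (g : ℝ) (hτ : IsSig τ)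
    (hd : Disjoint W Y) (hY : ∀ x ∈ Y, ∀ y ∈ Y, τ x y = 1)
    (hB : Bd (fun x y => if (x ∈ Y ∧ y ∈ Y) ∨ (x ∈ W ∧ y ∈ W) then 0 else (τ x y : ℝ)) g)
    (hg : 1 ≤ g) (hgY : g ≤ Y.card) (lam : Fin l → Fin 3)
    (hp : ∀ i, ¬ (lam i = 0 ∧ lam (i + 1) = 0)) (hne : lam ≠ fun _ => 1) :
    |((∑ f ∈ (inj l V).filter (fun f => ∀ i, cls W Y (f i) = lam i), cp l τ f : ℤ) : ℝ)| ≤
      2 ^ (l ^ 2) * ((Y.card : ℝ) ^ (l - 1) * g + (Wᶜ.card : ℝ) * g ^ l) := by
  have hg0 : 0 ≤ g := zero_le_one.trans hg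
  -- steps which are not inside `Y`
  have hstep : ∀ i, ¬ (lam i = 1 ∧ lam (i + 1) = 1) →
      Bd (rs (cl' (cls W Y) (lam i)) (cl' (cls W Y) (lam (i + 1))) (rl τ)) g := by
    intro i hi
    refine (hB.rs (cl' (cls W Y) (lam i)) (cl' (cls W Y) (lam (i + 1)))).congr fun x y => ?_
    unfold rs
    by_cases h : x ∈ cl' (cls W Y) (lam i) ∧ y ∈ cl' (cls W Y) (lam (i + 1))
    · rw [if_pos h, if_pos h]
      rw [mem_cl', mem_cl'] at h
      refine if_neg ?_
      rintro (⟨h1, h2⟩ | ⟨h1, h2⟩)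
      · exact hi ⟨h.1.symm.trans ((cls_one hd).2 h1), h.2.symm.trans ((cls_one hd).2 h2)⟩
      · exact hp i ⟨h.1.symm.trans (cls_zero.2 h1), h.2.symm.trans (cls_zero.2 h2)⟩
    · rw [if_neg h, if_neg h]
  have hclY : cl' (cls W Y) 1 = Y := by
    ext x
    rw [mem_cl', cls_one hd]
  by_cases hYY : ∃ i, lam i = 1 ∧ lam (i + 1) = 1
  · obtain ⟨i₀, hi₀⟩ := hYY
    -- some step is not inside `Y`
    obtain ⟨j, hj⟩ : ∃ j, ¬ (lam j = 1 ∧ lam (j + 1) = 1) := by
      by_contra hcon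
      push Not at hcon
      exact hne (funext fun i => (hcon i).1)
    have h1 := pattern_clique (cls W Y) τ lam
      (fun i => if lam i = 1 ∧ lam (i + 1) = 1 then (Y.card : ℝ) else g) i₀
      (fun x y hx hy => hY x ((cls_one hd).1 (hx.trans hi₀.1)) y ((cls_one hd).1 (hy.trans hi₀.2)))
      (by
        simp only [hi₀.1, hi₀.2, hclY]
        rw [Real.mul_self_sqrt (Nat.cast_nonneg _)]
        simp)
      (fun i _ => by
        by_cases h : lam i = 1 ∧ lam (i + 1) = 1
        · simp only [h, and_self, if_true, hclY]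
          have h2 := bd_sig hτ Y Y
          rwa [Real.sqrt_mul_self (Nat.cast_nonneg _)] at h2
        · simp only [h, if_false]
          exact hstep i h)
    refine h1.trans (mul_le_mul_of_nonneg_left ?_ (by positivity))
    have h2 : ∏ i, (if lam i = 1 ∧ lam (i + 1) = 1 then (Y.card : ℝ) else g) ≤
        (Y.card : ℝ) ^ (l - 1) * g := by
      rw [← Finset.prod_erase_mul _ _ (Finset.mem_univ j)]
      have h3 : ∏ i ∈ univ.erase j, (if lam i = 1 ∧ lam (i + 1) = 1 then (Y.card : ℝ) else g) ≤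
          (Y.card : ℝ) ^ (l - 1) := by
        have h4 : (Y.card : ℝ) ^ (l - 1) = ∏ _i ∈ univ.erase j, (Y.card : ℝ) := by
          rw [Finset.prod_const, Finset.card_erase_of_mem (Finset.mem_univ j), Finset.card_univ,
            Fintype.card_fin]
        rw [h4]
        refine Finset.prod_le_prod (fun i _ => ?_) fun i _ => ?_
        · split_ifs
          · exact Nat.cast_nonneg _
          · exact hg0
        · split_ifs
          · exact le_rfl
          · exact hgY
      rw [if_neg hj]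
      exact mul_le_mul_of_nonneg_right h3 hg0
    have h3 : 0 ≤ (Wᶜ.card : ℝ) * g ^ l := by positivity
    linarith
  · push Not at hYY
    have hYY' : ∀ i, ¬ (lam i = 1 ∧ lam (i + 1) = 1) := fun i h => hYY i h.1 h.2
    obtain ⟨i₀, hi₀⟩ : ∃ i, lam i ≠ 0 := by
      by_contra hcon
      push Not at hcon
      exact hp 0 ⟨hcon _, hcon _⟩
    rw [pattern_eq]
    refine (pin _ g i₀ (cl' (cls W Y) (lam i₀)) (fun x hx y => ?_) fun i => hstep i (hYY' i)).trans ?_
    · unfold rs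
      rw [if_neg fun h => hx h.1]
    · have h1 : (cl' (cls W Y) (lam i₀)).card ≤ Wᶜ.card := by
        refine Finset.card_le_card fun x hx => ?_
        rw [mem_cl'] at hx
        rw [Finset.mem_compl]
        intro hxW
        exact hi₀ (hx.symm.trans (cls_zero.2 hxW))
      have h2 : ((cl' (cls W Y) (lam i₀)).card : ℝ) ≤ Wᶜ.card := Nat.cast_le.2 h1
      have h3 : 0 ≤ (Y.card : ℝ) ^ (l - 1) * g := by positivity
      have h4 : (0 : ℝ) ≤ 2 ^ (l ^ 2) * g ^ l := by positivity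
      calc ((cl' (cls W Y) (lam i₀)).card : ℝ) * (2 ^ (l ^ 2) * g ^ l)
          ≤ Wᶜ.card * (2 ^ (l ^ 2) * g ^ l) := mul_le_mul_of_nonneg_right h2 h4
        _ = 2 ^ (l ^ 2) * (Wᶜ.card * g ^ l) := by ring
        _ ≤ _ := mul_le_mul_of_nonneg_left (by linarith) (by positivity)

/-- The all positive pattern. -/
lemma all_pos {l : ℕ} [NeZero l] (τ : V → V → ℤ) (W Y : Finset V) (hd : Disjoint W Y)
    (hY : ∀ x ∈ Y, ∀ y ∈ Y, τ x y = 1) :
    |((∑ f ∈ (inj l V).filter (fun f => ∀ i, cls W Y (f i) = (fun _ => 1 : Fin l → Fin 3) i),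
      cp l τ f : ℤ) : ℝ)| ≤ (Y.card : ℝ) ^ l := by
  have h1 : ∑ f ∈ (inj l V).filter (fun f => ∀ i, cls W Y (f i) = (fun _ => 1 : Fin l → Fin 3) i),
      cp l τ f =
      (((inj l V).filter fun f => ∀ i, cls W Y (f i) = (fun _ => 1 : Fin l → Fin 3) i).card : ℤ) := by
    rw [Finset.card_eq_sum_ones, Nat.cast_sum]
    refine Finset.sum_congr rfl fun f hf => ?_
    have hf' := (Finset.mem_filter.1 hf).2
    unfold cp
    rw [Nat.cast_one]
    exact Finset.prod_eq_one fun i _ =>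
      hY _ ((cls_one hd).1 (hf' i)) _ ((cls_one hd).1 (hf' (i + 1)))
  rw [h1]
  push_cast
  rw [abs_of_nonneg (Nat.cast_nonneg _)]
  have h2 : ((inj l V).filter fun f => ∀ i, cls W Y (f i) = (fun _ => 1 : Fin l → Fin 3) i).card ≤
      Y.card ^ l := by
    have h3 : ((inj l V).filter fun f => ∀ i, cls W Y (f i) = (fun _ => 1 : Fin l → Fin 3) i) ⊆
        Fintype.piFinset fun _ : Fin l => Y := by
      intro f hf
      rw [Fintype.mem_piFinset]
      exact fun i => (cls_one hd).1 ((Finset.mem_filter.1 hf).2 i)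
    refine (Finset.card_le_card h3).trans (le_of_eq ?_)
    rw [Fintype.card_piFinset_const]
  exact_mod_cast h2

end Base

theorem baseStmt : BaseStmt := by
  intro V _ _ l _ τ W Y g hl hτ hd hY hB hg hgY
  have hg0 : 0 ≤ g := zero_le_one.trans hg
  have hK : 0 ≤ 2 ^ (l ^ 2) * ((Y.card : ℝ) ^ (l - 1) * g + (Wᶜ.card : ℝ) * g ^ l) := by positivity
  have h1 : ((∑ f ∈ (inj l V).filter (fun f => ∀ i, ¬ (f i ∈ W ∧ f (i + 1) ∈ W)),
        cp l τ f : ℤ) : ℝ) =
      ∑ lam ∈ (univ : Finset (Fin l → Fin 3)).filter (fun lam => ∀ i, ¬ (lam i = 0 ∧ lam (i + 1) = 0)),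
        ∑ f ∈ (inj l V).filter (fun f => ∀ i, Base.cls W Y (f i) = lam i),
          ((cp l τ f : ℤ) : ℝ) := by
    rw [← sum_patterns (Base.cls W Y) (fun lam => ∀ i, ¬ (lam i = 0 ∧ lam (i + 1) = 0))
      (fun f => ((cp l τ f : ℤ) : ℝ))]
    push_cast
    refine Finset.sum_congr (Finset.filter_congr fun f _ => ?_) fun _ _ => rfl
    refine forall_congr' fun i => ?_
    rw [Base.cls_zero, Base.cls_zero]
  rw [h1]
  refine (Finset.abs_sum_le_sum_abs _ _).trans ?_
  have h2 : ∀ lam ∈ (univ : Finset (Fin l → Fin 3)).filter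
      (fun lam => ∀ i, ¬ (lam i = 0 ∧ lam (i + 1) = 0)),
      |∑ f ∈ (inj l V).filter (fun f => ∀ i, Base.cls W Y (f i) = lam i), ((cp l τ f : ℤ) : ℝ)| ≤
      (if lam = (fun _ => 1) then (Y.card : ℝ) ^ l else 0) +
        2 ^ (l ^ 2) * ((Y.card : ℝ) ^ (l - 1) * g + (Wᶜ.card : ℝ) * g ^ l) := by
    intro lam hlam
    have hp := (Finset.mem_filter.1 hlam).2
    by_cases hne : lam = fun _ => 1
    · subst hne
      rw [if_pos rfl]
      have h3 := Base.all_pos (l := l) τ W Y hd hY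
      push_cast at h3
      linarith
    · rw [if_neg hne, zero_add]
      have h3 := Base.one_pattern τ W Y g hτ hd hY hB hg hgY lam hp hne
      push_cast at h3
      exact h3
  refine (Finset.sum_le_sum h2).trans ?_
  rw [Finset.sum_add_distrib]
  refine add_le_add ?_ ?_
  · rw [Finset.sum_ite_eq']
    split_ifs
    · exact le_rfl
    · positivity
  · rw [Finset.sum_const, nsmul_eq_mul]
    have h4 : (((univ : Finset (Fin l → Fin 3)).filter
        (fun lam => ∀ i, ¬ (lam i = 0 ∧ lam (i + 1) = 0))).card : ℝ) ≤ 3 ^ l := by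
      have h5 : ((univ : Finset (Fin l → Fin 3)).filter
          (fun lam => ∀ i, ¬ (lam i = 0 ∧ lam (i + 1) = 0))).card ≤ 3 ^ l := by
        refine (Finset.card_filter_le _ _).trans (le_of_eq ?_)
        rw [Finset.card_univ, Fintype.card_fun, Fintype.card_fin, Fintype.card_fin]
      exact_mod_cast h5
    calc _ ≤ 3 ^ l * (2 ^ (l ^ 2) * ((Y.card : ℝ) ^ (l - 1) * g + (Wᶜ.card : ℝ) * g ^ l)) :=
          mul_le_mul_of_nonneg_right h4 hK
      _ = _ := by ring

end Full

end MP_90430c
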