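import Pool.Agent.Lib.MP_90430c_co.Full.Stmts

/-!
# Module ConfA: numbers of vertices, gadgets, toggling
-/

open Finset

set_option synthInstance.maxSize 4096

namespace MP_90430c

namespace Full

namespace ConfA

section card

variable {l I Q w m D : ℕ} {j : ℕ → ℕ}

lemma card_CV : Fintype.card (CV l I Q w m D j) = w + m * D + Fintype.card (MP l I Q × Bool) +
      ∑ e : Fin (l - 2), 2 * (j e + 1) := by
  have h : Fintype.card (Σ e : Fin (l - 2), SV (j e + 2) 1 1) = ∑ e : Fin (l - 2), 2 * (j e + 1) := by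
    rw [Fintype.card_sigma]
    refine Finset.sum_congr rfl fun e _ => ?_
    simp only [Fintype.card_sum, Fintype.card_fin, Fintype.card_prod, Fintype.card_bool]
    omega
  rw [← h]
  simp only [Fintype.card_sum (α := Fin w), Fintype.card_sum (α := Fin m × Fin D),
    Fintype.card_sum (α := MP l I Q × Bool), Fintype.card_fin, Fintype.card_prod (Fin m) (Fin D)]
  omega

lemma card_MP_le : Fintype.card (MP l I Q × Bool) ≤ 2 * l ^ 2 * (I + 2) * Q := by
  have h1 : Fintype.card (MP l I Q) ≤ l ^ 2 * (I + 2) * Q := by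
    rw [Fintype.card_sigma]
    have h2 : ∀ i ∈ (univ : Finset (S1 l I Q)), Fintype.card (Fin ((i.1 : ℕ) + 1)) ≤ l := by
      intro i _
      rw [Fintype.card_fin]
      have := i.1.2
      omega
    refine (Finset.sum_le_card_nsmul _ _ _ h2).trans ?_
    rw [Finset.card_univ, Fintype.card_prod, Fintype.card_prod, Fintype.card_fin, Fintype.card_fin,
      Fintype.card_fin, smul_eq_mul]
    have h3 : (l - 2) * l ≤ l ^ 2 := by
      rw [pow_two]
      exact Nat.mul_le_mul_right _ (by omega)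
    calc (l - 2) * ((I + 2) * Q) * l = ((l - 2) * l) * ((I + 2) * Q) := by ring
      _ ≤ l ^ 2 * ((I + 2) * Q) := Nat.mul_le_mul_right _ h3
      _ = l ^ 2 * (I + 2) * Q := by ring
  rw [Fintype.card_prod, Fintype.card_bool]
  calc Fintype.card (MP l I Q) * 2 ≤ (l ^ 2 * (I + 2) * Q) * 2 := Nat.mul_le_mul_right _ h1
    _ = 2 * l ^ 2 * (I + 2) * Q := by ring

lemma card_IX_le : Fintype.card (IX l I Q w m) ≤ w + m + Fintype.card (MP l I Q × Bool) := by
  rw [Fintype.card_prod, Fintype.card_bool]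
  simp only [Fintype.card_sum (α := Fin w), Fintype.card_sum (α := Fin m), Fintype.card_fin]
  omega

end card

section toggle

variable {V J : Type} [DecidableEq J]

lemma SG_update (β : V → V → ℤ) (lab : J → V → ℕ × Bool) (s : J → ℕ) (Λ : Finset J)
    (τ : J → Bool) (i : J) (t : Bool) :
    SG β lab s (Λ.erase i) (Function.update τ i t) = SG β lab s (Λ.erase i) τ := by
  funext x y
  unfold SG
  congr 1
  refine Finset.prod_congr rfl fun i' hi' => ?_
  rw [Finset.mem_erase] at hi'
  rw [Function.update_of_ne hi'.1]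

lemma SG_true (β : V → V → ℤ) (lab : J → V → ℕ × Bool) (s : J → ℕ) (Λ : Finset J)
    (τ : J → Bool) (i : J) (hi : i ∈ Λ) (h : τ i = true) :
    SG β lab s Λ τ = sigY (SG β lab s (Λ.erase i) τ) (lab i) (s i) := by
  funext x y
  unfold SG sigY
  rw [← Finset.mul_prod_erase Λ _ hi]
  have : gst (lab i) (s i) (τ i) x y = ∏ j ∈ Icc 2 (s i), gY (lab i) j x y := by
    unfold gst; rw [h]; simp only [if_true]
  rw [this]
  ring

lemma SG_false (β : V → V → ℤ) (lab : J → V → ℕ × Bool) (s : J → ℕ) (Λ : Finset J)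
    (τ : J → Bool) (i : J) (hi : i ∈ Λ) (h : τ i = false) :
    SG β lab s Λ τ = sigX (SG β lab s (Λ.erase i) τ) (lab i) (s i) := by
  funext x y
  unfold SG sigX
  rw [← Finset.mul_prod_erase Λ _ hi]
  have : gst (lab i) (s i) (τ i) x y = ∏ j ∈ Icc 2 (s i), gX (lab i) j x y := by
    unfold gst; rw [h]; simp only [if_false, Bool.false_eq_true]
  rw [this]
  ring

end toggle

section unit

variable {l I Q w m D : ℕ} {j : ℕ → ℕ}

/-- The vertices of the unit gadgets. -/
abbrev un (e : Fin (l - 2)) (u : SV (j e + 2) 1 1) : CV l I Q w m D j :=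
  Sum.inr (Sum.inr (Sum.inr ⟨e, u⟩))

lemma lab2_self (e : Fin (l - 2)) (u : SV (j e + 2) 1 1) :
    lab2 e (un e u : CV l I Q w m D j) = lb (j e + 2) u := by
  simp [lab2]

lemma lab2_ne {e e' : Fin (l - 2)} (h : e' ≠ e) (u : SV (j e' + 2) 1 1) :
    lab2 e (un e' u : CV l I Q w m D j) = (0, false) := by
  simp [lab2, h]

lemma lab2_cases (e : Fin (l - 2)) (x : CV l I Q w m D j) (hx : lab2 e x ≠ (0, false)) :
    ∃ u : SV (j e + 2) 1 1, x = un e u ∧ lab2 e x = lb (j e + 2) u := by
  rcases x with x | x | x | ⟨e', u⟩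
  · exact absurd rfl hx
  · exact absurd rfl hx
  · exact absurd rfl hx
  · by_cases h : e' = e
    · subst h
      exact ⟨u, rfl, lab2_self _ _⟩
    · exact absurd (lab2_ne h u) hx

lemma un_inj (e : Fin (l - 2)) : Function.Injective (un e : _ → CV l I Q w m D j) := by
  intro u v h
  simpa [un] using h

theorem gadget2 (e : Fin (l - 2)) :
    Gadget (lab2 e : CV l I Q w m D j → ℕ × Bool) (j e + 2) 1 1 := by
  refine ⟨by omega, ?_, ?_, ?_, ?_, ?_, ?_⟩
  · rw [Finset.card_eq_one]
    refine ⟨un e (Sum.inl 0), ?_⟩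
    ext x
    simp only [Finset.mem_filter, Finset.mem_univ, true_and, Finset.mem_singleton]
    constructor
    · intro h
      obtain ⟨u, rfl, hu⟩ := lab2_cases e x (by rw [h]; simp)
      rw [h] at hu
      rcases u with u | u | u
      · rw [Subsingleton.elim u 0]
      · simp [lb] at hu
      · simp only [lb, Prod.mk.injEq, and_true] at hu; omega
    · rintro rfl
      rw [lab2_self]; rfl
  · intro x h
    obtain ⟨u, rfl, hu⟩ := lab2_cases e x (by rw [h]; simp)
    rw [h] at hu
    rcases u with u | u | u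
    · simp [lb] at hu
    · simp [lb] at hu
    · simp [lb] at hu
  · intro p hp1 hp2 t
    refine ⟨un e (Sum.inr (Sum.inl (⟨p - 2, by omega⟩, t))), ?_, ?_⟩
    · beta_reduce
      rw [lab2_self]
      simp only [lb]
      congr 1
      omega
    · intro x h
      obtain ⟨u, rfl, hu⟩ := lab2_cases e x (by rw [h]; intro h'; simp at h'; omega)
      rw [h] at hu
      rcases u with u | ⟨u, t'⟩ | u
      · simp only [lb, Prod.mk.injEq] at hu; omega
      · simp only [lb, Prod.mk.injEq] at hu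
        obtain ⟨h1, h2⟩ := hu
        subst h2
        have : u = ⟨p - 2, by omega⟩ := by
          apply Fin.ext
          simp only
          omega
        rw [this]
      · simp only [lb, Prod.mk.injEq] at hu; omega
  · rw [Finset.card_eq_one]
    refine ⟨un e (Sum.inr (Sum.inr 0)), ?_⟩
    ext x
    simp only [Finset.mem_filter, Finset.mem_univ, true_and, Finset.mem_singleton]
    constructor
    · intro h
      obtain ⟨u, rfl, hu⟩ := lab2_cases e x (by rw [h]; intro h'; simp at h')
      rw [h] at hu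
      rcases u with u | ⟨u, t⟩ | u
      · simp only [lb, Prod.mk.injEq, and_true] at hu; omega
      · simp only [lb, Prod.mk.injEq] at hu
        have := u.2
        omega
      · rw [Subsingleton.elim u 0]
    · rintro rfl
      rw [lab2_self]; rfl
  · intro x h
    obtain ⟨u, rfl, hu⟩ := lab2_cases e x (by rw [h]; simp)
    rw [h] at hu
    rcases u with u | ⟨u, t⟩ | u
    · simp [lb] at hu
    · simp only [lb, Prod.mk.injEq] at hu
      have := u.2
      omega
    · simp [lb] at hu
  · intro x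
    by_cases h : lab2 e x = (0, false)
    · rw [h]; simp
    · obtain ⟨u, rfl, hu⟩ := lab2_cases e x h
      rw [hu]
      rcases u with u | ⟨u, t⟩ | u
      · simp [lb]
      · simp only [lb]
        have := u.2
        omega
      · simp [lb]

end unit

section site

variable {l I Q w m D : ℕ} {j : ℕ → ℕ} {μ : ℕ → ℕ}

/-- The vertices of the blocks. -/
abbrev bk (c : Fin m) (r : Fin D) : CV l I Q w m D j := Sum.inr (Sum.inl (c, r))

/-- The middle vertices. -/
abbrev md (p : MP l I Q) (t : Bool) : CV l I Q w m D j := Sum.inr (Sum.inr (Sum.inl (p, t)))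

lemma not_inA_and_inB (hμ : ∀ i, 1 ≤ μ i ∧ μ i ≤ μ 0) (i c r : ℕ) (hA : inA I μ i c r)
    (hB : inB I μ i c r) : False := by
  unfold inA at hA
  unfold inB at hB
  have := hμ i
  split_ifs at hA hB
  · omega
  · omega

/-- The vertices with a label different from `(0, false)`. -/
lemma lab1_cases (i : S1 l I Q) (x : CV l I Q w m D j) (hx : lab1 μ i x ≠ (0, false)) :
    (∃ c r, x = bk c r ∧ inA I μ i.2.1 c r ∧ lab1 μ i x = (1, false)) ∨
    (∃ c r, x = bk c r ∧ ¬ inA I μ i.2.1 c r ∧ inB I μ i.2.1 c r ∧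
      lab1 μ i x = ((i.1 : ℕ) + 3, false)) ∨
    (∃ (q : Fin ((i.1 : ℕ) + 1)) (t : Bool), x = md ⟨i, q⟩ t ∧ lab1 μ i x = ((q : ℕ) + 2, t)) := by
  rcases x with x | ⟨c, r⟩ | ⟨⟨i', q⟩, t⟩ | u
  · exact absurd rfl hx
  · by_cases hA : inA I μ i.2.1 c r
    · left
      exact ⟨c, r, rfl, hA, by simp [lab1, hA]⟩
    · by_cases hB : inB I μ i.2.1 c r
      · right; left
        exact ⟨c, r, rfl, hA, hB, by simp [lab1, hA, hB]⟩
      · exact absurd (by simp [lab1, hA, hB]) hx
  · by_cases h : i' = i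
    · subst h
      right; right
      exact ⟨q, t, rfl, by simp [lab1]⟩
    · exact absurd (by simp [lab1, h]) hx
  · exact absurd rfl hx

lemma lab1_one (i : S1 l I Q) (x : CV l I Q w m D j) :
    lab1 μ i x = (1, false) ↔ ∃ c r, x = bk c r ∧ inA I μ i.2.1 c r := by
  constructor
  · intro h
    rcases lab1_cases i x (by rw [h]; simp) with ⟨c, r, rfl, hA, _⟩ | ⟨c, r, rfl, _, _, h'⟩ |
      ⟨q, t, rfl, h'⟩
    · exact ⟨c, r, rfl, hA⟩
    · rw [h] at h'; simp at h'
    · rw [h] at h'; simp at h'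
  · rintro ⟨c, r, rfl, hA⟩
    simp [lab1, hA]

lemma lab1_last (hμ : ∀ i, 1 ≤ μ i ∧ μ i ≤ μ 0) (i : S1 l I Q) (x : CV l I Q w m D j) :
    lab1 μ i x = ((i.1 : ℕ) + 3, false) ↔ ∃ c r, x = bk c r ∧ inB I μ i.2.1 c r := by
  constructor
  · intro h
    rcases lab1_cases i x (by rw [h]; simp) with ⟨c, r, rfl, _, h'⟩ | ⟨c, r, rfl, _, hB, _⟩ |
      ⟨q, t, rfl, h'⟩
    · rw [h] at h'; simp at h'
    · exact ⟨c, r, rfl, hB⟩
    · rw [h] at h'
      simp only [Prod.mk.injEq] at h'
      have := q.2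
      omega
  · rintro ⟨c, r, rfl, hB⟩
    have hA : ¬ inA I μ i.2.1 c r := fun hA => not_inA_and_inB hμ _ _ _ hA hB
    simp [lab1, hA, hB]

lemma bk_inj : Function.Injective (fun p : Fin m × Fin D => (bk p.1 p.2 : CV l I Q w m D j)) := by
  intro p q h
  simpa [bk] using h

lemma card_bk (P : ℕ → ℕ → Prop) [∀ c r, Decidable (P c r)] :
    ((univ : Finset (CV l I Q w m D j)).filter fun x => ∃ c r, x = bk c r ∧ P c r).card =
      ((univ : Finset (Fin m × Fin D)).filter fun p => P p.1 p.2).card := by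
  classical
  rw [← Finset.card_image_of_injective _ (bk_inj (l := l) (I := I) (Q := Q) (w := w) (m := m)
    (D := D) (j := j))]
  congr 1
  ext x
  simp only [Finset.mem_filter, Finset.mem_univ, true_and, Finset.mem_image, Prod.exists]
  constructor
  · rintro ⟨c, r, rfl, h⟩
    exact ⟨c, r, h, rfl⟩
  · rintro ⟨c, r, h, rfl⟩
    exact ⟨c, r, rfl, h⟩

lemma card_range (a b : ℕ) (hab : a + b ≤ m) :
    ((univ : Finset (Fin m × Fin D)).filter fun p => a ≤ (p.1 : ℕ) ∧ (p.1 : ℕ) < a + b).card =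
      D * b := by
  have h1 : ((univ : Finset (Fin m × Fin D)).filter
      fun p => a ≤ (p.1 : ℕ) ∧ (p.1 : ℕ) < a + b) =
      ((univ : Finset (Fin m)).filter fun c : Fin m => a ≤ (c : ℕ) ∧ (c : ℕ) < a + b) ×ˢ
        (univ : Finset (Fin D)) := by
    ext p
    simp
  rw [h1, Finset.card_product, Finset.card_univ, Fintype.card_fin, mul_comm]
  congr 1
  rw [← Finset.card_map Fin.valEmbedding]
  have h2 : Finset.map Fin.valEmbedding
      ((univ : Finset (Fin m)).filter fun c : Fin m => a ≤ (c : ℕ) ∧ (c : ℕ) < a + b) =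
        Ico a (a + b) := by
    ext c
    simp only [Finset.mem_map, Finset.mem_filter, Finset.mem_univ, true_and, Fin.valEmbedding_apply,
      Finset.mem_Ico]
    constructor
    · rintro ⟨c, h, rfl⟩; exact h
    · intro h; exact ⟨⟨c, by omega⟩, h, rfl⟩
  rw [h2, Nat.card_Ico]
  omega

lemma card_point (a b : ℕ) (ha : a < m) (hb : b < D) :
    ((univ : Finset (Fin m × Fin D)).filter fun p => (p.1 : ℕ) = a ∧ (p.2 : ℕ) = b).card = 1 := by
  rw [Finset.card_eq_one]
  refine ⟨(⟨a, ha⟩, ⟨b, hb⟩), ?_⟩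
  ext p
  simp only [Finset.mem_filter, Finset.mem_univ, true_and, Finset.mem_singleton, Prod.ext_iff,
    Fin.ext_iff]

theorem gadget1 (hD : 2 ≤ D) (hm : 2 * μ 0 < m) (hμ : ∀ i, 1 ≤ μ i ∧ μ i ≤ μ 0) (i : S1 l I Q) :
    Gadget (lab1 μ i : CV l I Q w m D j → ℕ × Bool) ((i.1 : ℕ) + 3)
      (if (i.2.1 : ℕ) ≤ I then D * μ i.2.1 else 1) (if (i.2.1 : ℕ) ≤ I then D * μ i.2.1 else 1) := by
  have hi := hμ i.2.1
  refine ⟨by omega, ?_, ?_, ?_, ?_, ?_, ?_⟩
  · rw [Finset.filter_congr fun x _ => lab1_one (μ := μ) i x]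
    rw [card_bk (fun c r => inA I μ i.2.1 c r)]
    by_cases h : (i.2.1 : ℕ) ≤ I
    · rw [if_pos h, ← card_range 0 (μ i.2.1) (m := m) (by omega)]
      refine congrArg _ (Finset.filter_congr fun p _ => ?_)
      unfold inA
      rw [if_pos h]
      omega
    · rw [if_neg h, ← card_point (2 * μ 0) 0 (m := m) (D := D) (by omega) (by omega)]
      refine congrArg _ (Finset.filter_congr fun p _ => ?_)
      unfold inA
      rw [if_neg h]
  · intro x h
    rcases lab1_cases i x (by rw [h]; simp) with ⟨c, r, rfl, _, h'⟩ | ⟨c, r, rfl, _, _, h'⟩ |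
      ⟨q, t, rfl, h'⟩
    · rw [h] at h'; simp at h'
    · rw [h] at h'; simp at h'
    · rw [h] at h'; simp at h'
  · intro p hp1 hp2 t
    refine ⟨md ⟨i, ⟨p - 2, by omega⟩⟩ t, ?_, ?_⟩
    · simp only [lab1, if_true]
      congr 1
      omega
    · intro x h
      rcases lab1_cases i x (by rw [h]; intro h'; simp at h'; omega) with
        ⟨c, r, rfl, _, h'⟩ | ⟨c, r, rfl, _, _, h'⟩ | ⟨q, t', rfl, h'⟩
      · rw [h] at h'; simp only [Prod.mk.injEq] at h'; omega
      · rw [h] at h'; simp only [Prod.mk.injEq] at h'; omega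
      · rw [h] at h'
        simp only [Prod.mk.injEq] at h'
        obtain ⟨h1, h2⟩ := h'
        subst h2
        have : q = ⟨p - 2, by omega⟩ := by
          apply Fin.ext
          simp only
          omega
        rw [this]
  · rw [Finset.filter_congr fun x _ => lab1_last hμ i x]
    rw [card_bk (fun c r => inB I μ i.2.1 c r)]
    by_cases h : (i.2.1 : ℕ) ≤ I
    · rw [if_pos h, ← card_range (μ 0) (μ i.2.1) (m := m) (by omega)]
      refine congrArg _ (Finset.filter_congr fun p _ => ?_)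
      unfold inB
      rw [if_pos h]
    · rw [if_neg h, ← card_point (2 * μ 0) 1 (m := m) (D := D) (by omega) (by omega)]
      refine congrArg _ (Finset.filter_congr fun p _ => ?_)
      unfold inB
      rw [if_neg h]
  · intro x h
    rcases lab1_cases i x (by rw [h]; simp) with ⟨c, r, rfl, _, h'⟩ | ⟨c, r, rfl, _, _, h'⟩ |
      ⟨q, t, rfl, h'⟩
    · rw [h] at h'; simp at h'
    · rw [h] at h'; simp at h'
    · rw [h] at h'
      simp only [Prod.mk.injEq] at h'
      have := q.2
      omega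
  · intro x
    by_cases h : lab1 μ i x = (0, false)
    · rw [h]; simp
    · rcases lab1_cases i x h with ⟨c, r, rfl, _, h'⟩ | ⟨c, r, rfl, _, _, h'⟩ | ⟨q, t, rfl, h'⟩
      · rw [h']; simp
      · rw [h']
      · rw [h']
        have := q.2
        simp only
        omega

end site

end ConfA

theorem confAStmt : ConfAStmt := by
  refine ⟨?_, ?_, ?_⟩
  · intro l I Q w m D j _
    refine ⟨?_, ConfA.card_CV, ConfA.card_MP_le, ConfA.card_IX_le⟩
    rw [ConfA.card_CV]
    omega
  · intro l I Q w m D j μ _ hD hm hμ i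
    rcases i with i | e
    · exact ConfA.gadget1 hD hm hμ i
    · exact ConfA.gadget2 e
  · intro V J _ β lab s Λ τ i hi
    refine ⟨ConfA.SG_update β lab s Λ τ i true, ConfA.SG_false β lab s Λ τ i hi, ?_⟩
    rw [ConfA.SG_true β lab s Λ (Function.update τ i true) i hi (by simp),
      ConfA.SG_update β lab s Λ τ i true]

end Full

end MP_90430c
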