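import Pool.Agent.Lib.MP_90430c_co.Full.Stmts

/-! Module ConfB: the local properties of the configuration. -/

open Finset

set_option synthInstance.maxSize 4096
set_option linter.unusedSectionVars false

namespace MP_90430c

namespace Full

namespace ConfB

section gst

variable {V : Type} {lab : V → ℕ × Bool} {s : ℕ}

lemma upX_lev {p q : ℕ × Bool} {k : ℕ} (h : upX k p q) : 1 ≤ p.1 ∧ q.1 = p.1 + 1 := by
  rcases h with ⟨_, rfl, rfl⟩ | ⟨_, h⟩
  · simp
  · exact ⟨h.2.2.1, by have h1 := h.1; have h2 := h.2.1; omega⟩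

lemma upY_lev {p q : ℕ × Bool} {k : ℕ} (h : upY k p q) : 1 ≤ p.1 ∧ q.1 = p.1 + 1 :=
  ⟨h.2.2.1, by have h1 := h.1; have h2 := h.2.1; omega⟩

lemma gst_one {t : Bool} {x y : V} (h1 : ¬ (1 ≤ (lab x).1 ∧ (lab y).1 = (lab x).1 + 1))
    (h2 : ¬ (1 ≤ (lab y).1 ∧ (lab x).1 = (lab y).1 + 1)) : gst lab s t x y = 1 := by
  unfold gst
  split_ifs
  · refine Finset.prod_eq_one fun k _ => ?_
    unfold gY
    rw [if_neg]
    rintro (h | h)
    · exact h1 (upY_lev h)
    · exact h2 (upY_lev h)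
  · refine Finset.prod_eq_one fun k _ => ?_
    unfold gX
    rw [if_neg]
    rintro (h | h)
    · exact h1 (upX_lev h)
    · exact h2 (upX_lev h)

lemma gst_left {t : Bool} {x y : V} (h : (lab x).1 = 0) : gst lab s t x y = 1 :=
  gst_one (by omega) (by omega)

lemma gst_right {t : Bool} {x y : V} (h : (lab y).1 = 0) : gst lab s t x y = 1 :=
  gst_one (by omega) (by omega)

lemma gst_congr {t : Bool} {x x' : V} (h : lab x = lab x') (y : V) :
    gst lab s t x y = gst lab s t x' y := by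
  unfold gst gX gY
  rw [h]

end gst

lemma isSig_gst {V : Type} [Fintype V] [DecidableEq V] (lab : V → ℕ × Bool) (s : ℕ) (t : Bool) :
    IsSig (gst lab s t) := by
  cases t
  · exact isSig_prod (Icc 2 s) (gX lab) (isSig_gX lab)
  · exact isSig_prod (Icc 2 s) (gY lab) (isSig_gY lab)

section conf

variable {l I Q w m D : ℕ} {j : ℕ → ℕ} {μ : ℕ → ℕ}

lemma idx_comm (c c' : Fin m) : idx c c' = idx c' c := by
  unfold idx
  rw [max_comm, min_comm]

lemma isSig_base {σW : Fin w → Fin w → ℤ} {h : IX l I Q w m → IX l I Q w m → ℤ} {m₀ t : ℕ}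
    (hW : IsSig σW) (hh : IsSig h) :
    IsSig (base σW h m₀ t : CV l I Q w m D j → CV l I Q w m D j → ℤ) := by
  constructor
  · rintro (x | ⟨c, r⟩ | ⟨p, b⟩ | u) (x' | ⟨c', r'⟩ | ⟨p', b'⟩ | u')
    · exact hW.symm x x'
    · exact hh.symm _ _
    · exact hh.symm _ _
    · rfl
    · exact hh.symm _ _
    · simp only [base]
      rw [idx_comm c' c, hh.symm (Sum.inr (Sum.inl c')) (Sum.inr (Sum.inl c))]
      exact if_congr (or_congr eq_comm Iff.rfl) rfl rfl
    · simp only [base]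
      rw [hh.symm (Sum.inr (Sum.inl c)) (Sum.inr (Sum.inr p'))]
    · rfl
    · exact hh.symm _ _
    · simp only [base]
      rw [hh.symm (Sum.inr (Sum.inr p)) (Sum.inr (Sum.inl c'))]
    · rfl
    · rfl
    · rfl
    · rfl
    · rfl
    · rfl
  · rintro (x | ⟨c, r⟩ | ⟨p, b⟩ | u) (x' | ⟨c', r'⟩ | ⟨p', b'⟩ | u')
    · exact hW.val x x'
    · exact hh.val _ _
    · exact hh.val _ _
    · exact Or.inl rfl
    · exact hh.val _ _
    · simp only [base]
      split_ifs
      · exact Or.inl rfl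
      · exact hh.val _ _
    · simp only [base]
      split_ifs
      · exact Or.inl rfl
      · exact hh.val _ _
    · exact Or.inl rfl
    · exact hh.val _ _
    · simp only [base]
      split_ifs
      · exact Or.inl rfl
      · exact hh.val _ _
    · exact Or.inl rfl
    · exact Or.inl rfl
    · exact Or.inl rfl
    · exact Or.inl rfl
    · exact Or.inl rfl
    · exact Or.inl rfl

lemma isSig_sC {σW : Fin w → Fin w → ℤ} {h : IX l I Q w m → IX l I Q w m → ℤ} {m₀ t : ℕ}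
    (Λ : Finset (St l I Q)) (τ : St l I Q → Bool) (hW : IsSig σW) (hh : IsSig h) :
    IsSig (sC' μ σW h m₀ t Λ τ : CV l I Q w m D j → CV l I Q w m D j → ℤ) :=
  (isSig_base hW hh).mul
    (isSig_prod Λ (fun i => gst (labC μ i) (sC j i) (τ i)) fun _ => isSig_gst _ _ _)

lemma mid_of (i : S1 l I Q) (x : CV l I Q w m D j) (h1 : 2 ≤ (lab1 μ i x).1)
    (h2 : (lab1 μ i x).1 < (i.1 : ℕ) + 3) :
    ∃ (p : MP l I Q) (b : Bool), x = Sum.inr (Sum.inr (Sum.inl (p, b))) ∧ p.1 = i ∧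
      (lab1 μ i x).1 = (p.2 : ℕ) + 2 := by
  rcases x with x | ⟨c, r⟩ | ⟨p, b⟩ | u
  · simp [lab1] at h1
  · exfalso
    simp only [lab1] at h1 h2
    split_ifs at h1 h2
    · simp at h1
    · simp at h2
    · simp at h1
  · refine ⟨p, b, rfl, ?_⟩
    simp only [lab1] at h1 ⊢
    by_cases h : p.1 = i
    · rw [if_pos h]
      exact ⟨h, rfl⟩
    · rw [if_neg h] at h1; simp at h1
  · simp [lab1] at h1

lemma fst_of (i : S1 l I Q) (x : CV l I Q w m D j) (h1 : (lab1 μ i x).1 = 1) :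
    ∃ (c : Fin m) (r : Fin D), x = Sum.inr (Sum.inl (c, r)) ∧ inA I μ i.2.1 c r := by
  rcases x with x | ⟨c, r⟩ | ⟨p, b⟩ | u
  · simp [lab1] at h1
  · refine ⟨c, r, rfl, ?_⟩
    by_contra h
    simp only [lab1] at h1
    rw [if_neg h] at h1
    by_cases h' : inB I μ i.2.1 c r
    · rw [if_pos h'] at h1; simp at h1
    · rw [if_neg h'] at h1; simp at h1
  · exfalso
    simp only [lab1] at h1
    by_cases h : p.1 = i
    · rw [if_pos h] at h1; simp at h1
    · rw [if_neg h] at h1; simp at h1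
  · simp [lab1] at h1

lemma lst_of (i : S1 l I Q) (x : CV l I Q w m D j) (h1 : (lab1 μ i x).1 = (i.1 : ℕ) + 3) :
    ∃ (c : Fin m) (r : Fin D), x = Sum.inr (Sum.inl (c, r)) ∧ inB I μ i.2.1 c r := by
  rcases x with x | ⟨c, r⟩ | ⟨p, b⟩ | u
  · simp [lab1] at h1
  · refine ⟨c, r, rfl, ?_⟩
    by_contra h
    simp only [lab1] at h1
    by_cases h' : inA I μ i.2.1 c r
    · rw [if_pos h'] at h1; simp at h1
    · rw [if_neg h', if_neg h] at h1; simp at h1
  · exfalso
    simp only [lab1] at h1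
    by_cases h : p.1 = i
    · rw [if_pos h] at h1
      have h2 := p.2.2
      have h3 : (p.1.1 : ℕ) = i.1 := by rw [h]
      simp only at h1
      omega
    · rw [if_neg h] at h1; simp at h1
  · simp [lab1] at h1

lemma lt_of_inA {m₀ i c r : ℕ} (hm : 2 * μ 0 < m₀) (hμ : ∀ i, 1 ≤ μ i ∧ μ i ≤ μ 0)
    (h : inA I μ i c r) : c < m₀ := by
  unfold inA at h
  have h1 := hμ i
  split_ifs at h <;> omega

lemma lt_of_inB {m₀ i c r : ℕ} (hm : 2 * μ 0 < m₀) (hμ : ∀ i, 1 ≤ μ i ∧ μ i ≤ μ 0)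
    (h : inB I μ i c r) : c < m₀ := by
  unfold inB at h
  have h1 := hμ i
  split_ifs at h <;> omega

/-- A middle vertex of the site `i` does not belong to the other gadgets. -/
lemma lab_mid {J : St l I Q} (p : MP l I Q) (b : Bool) (h : J ≠ Sum.inl p.1) :
    (labC μ J (Sum.inr (Sum.inr (Sum.inl (p, b))) : CV l I Q w m D j)) = (0, false) := by
  rcases J with i | e
  · simp only [labC, lab1]
    rw [if_neg]
    intro h'
    exact h (by rw [h'])
  · rfl

/-- A vertex of a block or an old vertex does not have middle levels. -/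
lemma lab_block (i : S1 l I Q) (c : Fin m) (r : Fin D) :
    (lab1 μ i (Sum.inr (Sum.inl (c, r)) : CV l I Q w m D j)).1 = 0 ∨
    (lab1 μ i (Sum.inr (Sum.inl (c, r)) : CV l I Q w m D j)).1 = 1 ∨
    (lab1 μ i (Sum.inr (Sum.inl (c, r)) : CV l I Q w m D j)).1 = (i.1 : ℕ) + 3 := by
  simp only [lab1]
  split_ifs <;> simp

lemma gst_blocks {J : St l I Q} {b : Bool} (c c' : Fin m) (r r' : Fin D) :
    gst (labC μ J) (sC j J) b (Sum.inr (Sum.inl (c, r)) : CV l I Q w m D j)
      (Sum.inr (Sum.inl (c', r'))) = 1 := by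
  rcases J with i | e
  · simp only [labC]
    have h1 := lab_block (μ := μ) (w := w) (j := j) i c r
    have h2 := lab_block (μ := μ) (w := w) (j := j) i c' r'
    exact gst_one (by omega) (by omega)
  · exact gst_left rfl

lemma idx_lt {m₀ t : ℕ} {c c' : Fin m} (hc : (c : ℕ) < m₀) (hc' : (c' : ℕ) < m₀)
    (ht : m₀ * m ≤ t) : idx c c' < t := by
  unfold idx
  have h1 : max (c : ℕ) c' + 1 ≤ m₀ := by
    rcases le_total (c : ℕ) c' with h | h
    · rw [max_eq_right h]; omega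
    · rw [max_eq_left h]; omega
  have h2 : min (c : ℕ) c' < m := lt_of_le_of_lt (min_le_left _ _) c.2
  have h3 := Nat.mul_le_mul_right m h1
  rw [Nat.add_mul] at h3
  omega

lemma sC_eq {σW : Fin w → Fin w → ℤ} {h : IX l I Q w m → IX l I Q w m → ℤ} {m₀ t : ℕ}
    {Λ : Finset (St l I Q)} {τ : St l I Q → Bool} {x y : CV l I Q w m D j}
    (hb : base σW h m₀ t x y = 1)
    (hg : ∀ J ∈ Λ, gst (labC μ J) (sC j J) (τ J) x y = 1) : sC' μ σW h m₀ t Λ τ x y = 1 := by
  unfold sC' SG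
  rw [hb, Finset.prod_eq_one hg, one_mul]

lemma sC_congr {σW : Fin w → Fin w → ℤ} {h : IX l I Q w m → IX l I Q w m → ℤ} {m₀ t t' : ℕ}
    {Λ : Finset (St l I Q)} {τ : St l I Q → Bool} {x y x' y' : CV l I Q w m D j}
    (hb : base σW h m₀ t x y = base σW h m₀ t' x' y')
    (hg : ∀ J ∈ Λ, gst (labC μ J) (sC j J) (τ J) x y = gst (labC μ J) (sC j J) (τ J) x' y') :
    sC' μ σW h m₀ t Λ τ x y = sC' μ σW h m₀ t' Λ τ x' y' := by
  unfold sC' SG
  rw [hb, Finset.prod_congr rfl hg]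

variable {σW : Fin w → Fin w → ℤ} {h : IX l I Q w m → IX l I Q w m → ℤ} {m₀ t : ℕ}
  {Λ : Finset (St l I Q)} {τ : St l I Q → Bool}

lemma tw (i : S1 l I Q) (hi : Sum.inl i ∉ Λ) :
    Tw (sC' μ σW h m₀ t Λ τ : CV l I Q w m D j → CV l I Q w m D j → ℤ) (lab1 μ i)
      ((i.1 : ℕ) + 3) := by
  intro x x' y hxx h2 h3
  obtain ⟨p, b, rfl, hp, hl⟩ := mid_of i x h2 h3
  obtain ⟨p', b', rfl, hp', hl'⟩ := mid_of i x' (hxx ▸ h2) (hxx ▸ h3)
  have hpp : p = p' := by
    have h4 : (p.2 : ℕ) = p'.2 := by omega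
    obtain ⟨p1, p2⟩ := p
    obtain ⟨p1', p2'⟩ := p'
    simp only at hp hp' h4
    subst hp
    subst hp'
    have h5 : p2 = p2' := Fin.ext h4
    rw [h5]
  subst hpp
  refine sC_congr ?_ fun J hJ => ?_
  · rcases y with y | ⟨c, r⟩ | ⟨q, a⟩ | u
    · rfl
    · rfl
    · rfl
    · rfl
  · have h5 : J ≠ Sum.inl p.1 := by rintro rfl; exact hi (hp ▸ hJ)
    rw [gst_left (by rw [lab_mid p b h5]), gst_left (by rw [lab_mid p b' h5])]

lemma base_mid_block {p : MP l I Q} {b : Bool} {c : Fin m} {r : Fin D} (hc : (c : ℕ) < m₀) :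
    (base σW h m₀ t (Sum.inr (Sum.inr (Sum.inl (p, b))) : CV l I Q w m D j)
      (Sum.inr (Sum.inl (c, r)))) = 1 := by
  simp only [base]
  rw [if_pos hc]

lemma base_block_mid {p : MP l I Q} {b : Bool} {c : Fin m} {r : Fin D} (hc : (c : ℕ) < m₀) :
    (base σW h m₀ t (Sum.inr (Sum.inl (c, r)) : CV l I Q w m D j)
      (Sum.inr (Sum.inr (Sum.inl (p, b))))) = 1 := by
  simp only [base]
  rw [if_pos hc]

lemma ps (hm : 2 * μ 0 < m₀) (hμ : ∀ i, 1 ≤ μ i ∧ μ i ≤ μ 0) (i : S1 l I Q)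
    (hi : Sum.inl i ∉ Λ) :
    Ps (sC' μ σW h m₀ t Λ τ : CV l I Q w m D j → CV l I Q w m D j → ℤ) (lab1 μ i)
      ((i.1 : ℕ) + 3) := by
  intro x y h1 h2 h3
  rcases Nat.lt_or_ge (lab1 μ i x).1 2 with hx | hx
  · have hx1 : (lab1 μ i x).1 = 1 := by omega
    obtain ⟨c, r, rfl, hc⟩ := fst_of i x hx1
    rw [hx1] at h3
    obtain ⟨p, b, rfl, hp, _⟩ := mid_of (μ := μ) i y (by rw [h3]) (by rw [h3]; omega)
    refine sC_eq (base_block_mid (lt_of_inA hm hμ hc)) fun J hJ => ?_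
    have h5 : J ≠ Sum.inl p.1 := by rintro rfl; exact hi (hp ▸ hJ)
    exact gst_right (by rw [lab_mid p b h5])
  · obtain ⟨p, b, rfl, hp, _⟩ := mid_of i x hx h2
    have h5 : ∀ J ∈ Λ, J ≠ Sum.inl p.1 := by rintro J hJ rfl; exact hi (hp ▸ hJ)
    refine sC_eq ?_ fun J hJ => gst_left (by rw [lab_mid p b (h5 J hJ)])
    rcases Nat.lt_or_ge (lab1 μ i y).1 ((i.1 : ℕ) + 3) with hy | hy
    · obtain ⟨p', b', rfl, hp', _⟩ := mid_of (μ := μ) i y (by rw [h3]; omega) hy
      rfl
    · obtain ⟨c, r, rfl, hc⟩ := lst_of (μ := μ) i y (by omega)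
      exact base_mid_block (lt_of_inB hm hμ hc)

lemma fl_one (hm : 2 * μ 0 < m₀) (hμ : ∀ i, 1 ≤ μ i ∧ μ i ≤ μ 0) (ht : m₀ * m ≤ t)
    (i : S1 l I Q) (x y : CV l I Q w m D j) (hx : (lab1 μ i x).1 = 1)
    (hy : (lab1 μ i y).1 = (i.1 : ℕ) + 3) : sC' μ σW h m₀ t Λ τ x y = 1 := by
  obtain ⟨c, r, rfl, hc⟩ := fst_of i x hx
  obtain ⟨c', r', rfl, hc'⟩ := lst_of i y hy
  refine sC_eq ?_ fun J _ => gst_blocks c c' r r'
  simp only [base]
  rw [if_pos]
  exact Or.inr (idx_lt (lt_of_inA hm hμ hc) (lt_of_inB hm hμ hc') ht)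

/-- The number of the block of a vertex. -/
def bl : CV l I Q w m D j → ℕ
  | Sum.inr (Sum.inl (c, _)) => c
  | _ => 0

lemma card_bl (i : S1 l I Q) (hI : (i.2.1 : ℕ) ≤ I)
    (x : CV l I Q w m D j) (hx : (lab1 μ i x).1 = 1) :
    (univ.filter fun y : CV l I Q w m D j => (lab1 μ i y).1 = 1 ∧ bl y = bl x).card = D := by
  obtain ⟨c, r, rfl, hc⟩ := fst_of i x hx
  have hA : ∀ r' : Fin D, inA I μ i.2.1 c r' := by
    intro r'
    unfold inA at hc ⊢
    rw [if_pos hI] at hc ⊢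
    exact hc
  have h1 : (univ.filter fun y : CV l I Q w m D j => (lab1 μ i y).1 = 1 ∧
      bl y = bl (Sum.inr (Sum.inl (c, r)) : CV l I Q w m D j)) =
      (univ : Finset (Fin D)).image
        (fun r' => (Sum.inr (Sum.inl (c, r')) : CV l I Q w m D j)) := by
    ext y
    simp only [Finset.mem_filter, Finset.mem_univ, true_and, Finset.mem_image]
    constructor
    · rintro ⟨h2, h3⟩
      obtain ⟨c', r', rfl, _⟩ := fst_of i y h2
      refine ⟨r', ?_⟩
      have h4 : c' = c := Fin.ext h3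
      rw [h4]
    · rintro ⟨r', rfl⟩
      refine ⟨?_, rfl⟩
      simp only [lab1]
      rw [if_pos (hA r')]
  rw [h1, Finset.card_image_of_injective, Finset.card_univ, Fintype.card_fin]
  intro a b hab
  simpa using hab

lemma twin (hμ : ∀ i, 1 ≤ μ i ∧ μ i ≤ μ 0) (i : S1 l I Q) (hI : (i.2.1 : ℕ) ≤ I)
    (x y z : CV l I Q w m D j) (hx : (lab1 μ i x).1 = 1) (hy : (lab1 μ i y).1 = 1)
    (hxy : bl x = bl y) : sC' μ σW h m₀ t Λ τ x z = sC' μ σW h m₀ t Λ τ y z := by
  obtain ⟨c, r, rfl, hc⟩ := fst_of i x hx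
  obtain ⟨c', r', rfl, _⟩ := fst_of i y hy
  have h4 : c = c' := Fin.ext hxy
  subst h4
  refine sC_congr ?_ fun J _ => ?_
  · rcases z with z | ⟨c', r''⟩ | ⟨q, a⟩ | u
    · rfl
    · rfl
    · rfl
    · rfl
  · refine gst_congr ?_ _
    rcases J with i' | e
    · have hc0 : (c : ℕ) < 2 * μ 0 := by
        unfold inA at hc
        rw [if_pos hI] at hc
        have h1 := hμ (i.2.1 : ℕ)
        have h2 := hμ 0
        omega
      have hA : inA I μ i'.2.1 c r ↔ inA I μ i'.2.1 c r' := by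
        unfold inA
        split_ifs
        · rfl
        · constructor
          · rintro ⟨h1, _⟩; omega
          · rintro ⟨h1, _⟩; omega
      have hB : inB I μ i'.2.1 c r ↔ inB I μ i'.2.1 c r' := by
        unfold inB
        split_ifs
        · rfl
        · constructor
          · rintro ⟨h1, _⟩; omega
          · rintro ⟨h1, _⟩; omega
      simp only [labC, lab1]
      exact if_congr hA rfl (if_congr hB rfl rfl)
    · rfl

lemma posAt (hW : IsSig σW) (hh : IsSig h) (e : Fin (l - 2)) (he : Sum.inr e ∉ Λ) :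
    PosAt (sC' μ σW h m₀ t Λ τ : CV l I Q w m D j → CV l I Q w m D j → ℤ) (lab2 e) := by
  have key : ∀ x y : CV l I Q w m D j, (lab2 e x).1 ≠ 0 → sC' μ σW h m₀ t Λ τ x y = 1 := by
    intro x y hx
    rcases x with x | ⟨c, r⟩ | ⟨p, b⟩ | u
    · exact absurd rfl hx
    · exact absurd rfl hx
    · exact absurd rfl hx
    · refine sC_eq ?_ fun J hJ => gst_left ?_
      · rcases y with y | ⟨c, r⟩ | ⟨p, b⟩ | u'
        · rfl
        · rfl
        · rfl
        · rfl
      · rcases J with i | e'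
        · rfl
        · simp only [labC, lab2]
          rw [if_neg]
          intro h1
          simp only [lab2] at hx
          by_cases h2 : u.1 = e
          · have h3 : e' = e := by rw [← h1, h2]
            exact he (h3 ▸ hJ)
          · rw [if_neg h2] at hx
            exact hx rfl
  intro x y hx
  refine ⟨key x y hx, ?_⟩
  rw [(isSig_sC Λ τ hW hh).symm]
  exact key x y hx

lemma step : ∃ P : Finset (CV l I Q w m D j × CV l I Q w m D j), P.card ≤ D ^ 2 ∧
    ∀ x y, (x, y) ∉ P → (y, x) ∉ P →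
      sC' μ σW h m₀ (t + 1) Λ τ x y = sC' μ σW h m₀ t Λ τ x y := by
  classical
  by_cases hm : 0 < m ∧ t / m < m
  · obtain ⟨hm0, hm1⟩ := hm
    let F : Fin D × Fin D → CV l I Q w m D j × CV l I Q w m D j := fun q =>
      (Sum.inr (Sum.inl (⟨t / m, hm1⟩, q.1)), Sum.inr (Sum.inl (⟨t % m, Nat.mod_lt _ hm0⟩, q.2)))
    refine ⟨univ.image F, ?_, ?_⟩
    · refine Finset.card_image_le.trans ?_
      rw [Finset.card_univ, Fintype.card_prod, Fintype.card_fin]
      exact le_of_eq (by ring)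
    · intro x y hxy hyx
      refine sC_congr ?_ fun J _ => rfl
      rcases x with x | ⟨c, r⟩ | ⟨p, b⟩ | u <;> rcases y with y | ⟨c', r'⟩ | ⟨p', b'⟩ | u' <;>
        try rfl
      simp only [base]
      refine if_congr (or_congr Iff.rfl ?_) rfl rfl
      have key : ∀ (a a' : Fin m) (q q' : Fin D), (a' : ℕ) ≤ a → (a : ℕ) * m + a' = t →
          ((Sum.inr (Sum.inl (a, q)), Sum.inr (Sum.inl (a', q'))) :
            CV l I Q w m D j × CV l I Q w m D j) ∈ univ.image F := by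
        intro a a' q q' _ hh
        rw [Finset.mem_image]
        refine ⟨(q, q'), Finset.mem_univ _, ?_⟩
        have e1 : t / m = a := by
          rw [← hh, mul_comm, Nat.mul_add_div hm0, Nat.div_eq_of_lt a'.2, add_zero]
        have e2 : t % m = a' := by
          rw [← hh, mul_comm, Nat.mul_add_mod, Nat.mod_eq_of_lt a'.2]
        have e3 : (⟨t / m, hm1⟩ : Fin m) = a := Fin.ext e1
        have e4 : (⟨t % m, Nat.mod_lt _ hm0⟩ : Fin m) = a' := Fin.ext e2
        simp only [F]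
        rw [e3, e4]
      have hne : idx c c' ≠ t := by
        intro hh
        unfold idx at hh
        rcases le_total (c : ℕ) c' with hle | hle
        · rw [max_eq_right hle, min_eq_left hle] at hh
          exact hyx (key c' c r' r hle hh)
        · rw [max_eq_left hle, min_eq_right hle] at hh
          exact hxy (key c c' r r' hle hh)
      omega
  · refine ⟨∅, by simp, ?_⟩
    intro x y _ _
    refine sC_congr ?_ fun J _ => rfl
    rcases x with x | ⟨c, r⟩ | ⟨p, b⟩ | u <;> rcases y with y | ⟨c', r'⟩ | ⟨p', b'⟩ | u' <;>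
      try rfl
    simp only [base]
    refine if_congr (or_congr Iff.rfl ?_) rfl rfl
    have hm0 : 0 < m := lt_of_le_of_lt (Nat.zero_le _) c.2
    have hlt : idx c c' < m * m := by
      unfold idx
      have h1 : max (c : ℕ) c' + 1 ≤ m := by
        rcases le_total (c : ℕ) c' with h | h
        · rw [max_eq_right h]; exact c'.2
        · rw [max_eq_left h]; exact c.2
      have h2 : min (c : ℕ) c' < m := lt_of_le_of_lt (min_le_left _ _) c.2
      have h3 := Nat.mul_le_mul_right m h1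
      rw [Nat.add_mul] at h3
      omega
    have hge : m * m ≤ t := by
      have h1 : m ≤ t / m := by
        by_contra h2
        exact hm ⟨hm0, by omega⟩
      exact (Nat.le_div_iff_mul_le hm0).1 h1
    omega

end conf

end ConfB

/-- Module ConfB. -/
theorem confBStmt : ConfBStmt := by
  intro l I Q w m D j μ σW h m₀ t Λ τ _ hD hm _ hμ hW hh ht
  refine ⟨ConfB.isSig_sC Λ τ hW hh, fun i hi => ⟨ConfB.tw i hi, ConfB.ps hm hμ i hi,
    fun x y => ConfB.fl_one hm hμ ht i x y, fun hI => ⟨ConfB.bl, ?_, ?_⟩⟩,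
    fun e he => ConfB.posAt hW hh e he, ConfB.step⟩
  · intro x hx
    rw [ConfB.card_bl i hI x hx, hD]
  · exact ConfB.twin hμ i hI

end Full

end MP_90430c
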