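import Pool.Agent.Lib.MP_90430c_co.Full.Stmts

/-!
# Norms, injectivity, words and patterns
-/

open Finset

set_option linter.unusedSectionVars false

namespace MP_90430c

namespace Full

variable {V : Type} [Fintype V] [DecidableEq V]

/-! ## The Euclidean norm -/

lemma nrm_nonneg (u : V → ℝ) : 0 ≤ nrm u := Real.sqrt_nonneg _

lemma nrm_sq (u : V → ℝ) : nrm u ^ 2 = ∑ x, u x ^ 2 :=
  Real.sq_sqrt (Finset.sum_nonneg fun _ _ => sq_nonneg _)

lemma inner_le (u v : V → ℝ) : |∑ x, u x * v x| ≤ nrm u * nrm v := by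
  apply Real.abs_le_sqrt (x := ∑ x, u x * v x) (y := (∑ x, u x ^ 2) * ∑ x, v x ^ 2)
    (Finset.sum_mul_sq_le_sq_mul_sq _ _ _) |>.trans
  rw [Real.sqrt_mul (Finset.sum_nonneg fun _ _ => sq_nonneg _)]
  rfl

lemma nrm_mono {u v : V → ℝ} (h : ∀ x, |u x| ≤ |v x|) : nrm u ≤ nrm v := by
  refine Real.sqrt_le_sqrt (Finset.sum_le_sum fun x _ => ?_)
  rw [← sq_abs (u x), ← sq_abs (v x)]
  exact pow_le_pow_left₀ (abs_nonneg _) (h x) 2

lemma nrm_zero : nrm (fun _ : V => (0 : ℝ)) = 0 := by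
  unfold nrm
  simp

lemma nrm_smul (c : ℝ) (u : V → ℝ) : nrm (fun x => c * u x) = |c| * nrm u := by
  unfold nrm
  have : ∑ x, (c * u x) ^ 2 = c ^ 2 * ∑ x, u x ^ 2 := by
    rw [Finset.mul_sum]
    exact Finset.sum_congr rfl fun x _ => by ring
  rw [this, Real.sqrt_mul (sq_nonneg c), Real.sqrt_sq_eq_abs]

lemma nrm_scale {u : V → ℝ} {p : V → ℝ} (hp : ∀ x, |p x| ≤ 1) : nrm (fun x => p x * u x) ≤ nrm u :=
  nrm_mono fun x => by
    rw [abs_mul]
    exact mul_le_of_le_one_left (abs_nonneg _) (hp x)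

/-- A vector with entries at most `1` on `P` and zero outside. -/
lemma nrm_le_card {u : V → ℝ} {P : Finset V} (h1 : ∀ x, |u x| ≤ 1) (h2 : ∀ x, x ∉ P → u x = 0) :
    nrm u ≤ √P.card := by
  refine Real.sqrt_le_sqrt ?_
  calc ∑ x, u x ^ 2 = ∑ x ∈ P, u x ^ 2 := by
        refine (Finset.sum_subset (Finset.subset_univ P) fun x _ hx => ?_).symm
        rw [h2 x hx]; ring
    _ ≤ ∑ _x ∈ P, (1 : ℝ) := Finset.sum_le_sum fun x _ => by
        rw [← sq_abs]
        exact pow_le_one₀ (abs_nonneg _) (h1 x)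
    _ = P.card := by simp

lemma nrm_single (a : V) : nrm (fun x => if x = a then (1 : ℝ) else 0) = 1 := by
  unfold nrm
  simp

/-- The norm from pairings. -/
lemma nrm_le_of {u : V → ℝ} {c : ℝ} (hc : 0 ≤ c) (h : ∀ w : V → ℝ, |∑ x, u x * w x| ≤ c * nrm w) :
    nrm u ≤ c := by
  have h1 := h u
  have h2 : ∑ x, u x * u x = nrm u ^ 2 := by
    rw [nrm_sq]
    exact Finset.sum_congr rfl fun x _ => by ring
  rw [h2, abs_of_nonneg (sq_nonneg _), sq] at h1
  rcases (nrm_nonneg u).eq_or_lt with h3 | h3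
  · rw [← h3]; exact hc
  · exact le_of_mul_le_mul_right h1 h3

/-! ## Bounded matrices -/

variable {A B : V → V → ℝ} {c c' : ℝ}

lemma Bd.nonneg (h : Bd A c) : 0 ≤ c := h.1

lemma Bd.mono (h : Bd A c) (hc : c ≤ c') : Bd A c' :=
  ⟨h.1.trans hc, fun u v => (h.2 u v).trans (mul_le_mul_of_nonneg_right
    (mul_le_mul_of_nonneg_right hc (nrm_nonneg u)) (nrm_nonneg v))⟩

lemma Bd.congr (h : Bd A c) (hAB : ∀ x y, A x y = B x y) : Bd B c := by
  have : A = B := funext fun x => funext fun y => hAB x y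
  rwa [← this]

lemma bd_zero : Bd (fun _ _ : V => (0 : ℝ)) 0 := by
  refine ⟨le_rfl, fun u v => ?_⟩
  simp

lemma Bd.add (h : Bd A c) (h' : Bd B c') : Bd (fun x y => A x y + B x y) (c + c') := by
  refine ⟨add_nonneg h.1 h'.1, fun u v => ?_⟩
  have e : ∑ x, ∑ y, u x * (A x y + B x y) * v y =
      ∑ x, ∑ y, u x * A x y * v y + ∑ x, ∑ y, u x * B x y * v y := by
    rw [← Finset.sum_add_distrib]
    refine Finset.sum_congr rfl fun x _ => ?_
    rw [← Finset.sum_add_distrib]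
    exact Finset.sum_congr rfl fun y _ => by ring
  rw [e]
  refine (abs_add_le _ _).trans ?_
  calc _ ≤ c * nrm u * nrm v + c' * nrm u * nrm v := add_le_add (h.2 u v) (h'.2 u v)
    _ = _ := by ring

lemma Bd.transpose (h : Bd A c) : Bd (fun x y => A y x) c := by
  refine ⟨h.1, fun u v => ?_⟩
  have e : ∑ x, ∑ y, u x * A y x * v y = ∑ x, ∑ y, v x * A x y * u y := by
    rw [Finset.sum_comm]
    exact Finset.sum_congr rfl fun x _ => Finset.sum_congr rfl fun y _ => by ring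
  rw [e]
  exact (h.2 v u).trans (le_of_eq (by ring))

lemma Bd.neg (h : Bd A c) : Bd (fun x y => -A x y) c := by
  refine ⟨h.1, fun u v => ?_⟩
  have e : ∑ x, ∑ y, u x * -A x y * v y = -∑ x, ∑ y, u x * A x y * v y := by
    rw [← Finset.sum_neg_distrib]
    refine Finset.sum_congr rfl fun x _ => ?_
    rw [← Finset.sum_neg_distrib]
    exact Finset.sum_congr rfl fun y _ => by ring
  rw [e, abs_neg]
  exact h.2 u v

/-- The norm of `A v`. -/
lemma Bd.mulVec (h : Bd A c) (v : V → ℝ) : nrm (fun x => ∑ y, A x y * v y) ≤ c * nrm v := by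
  refine nrm_le_of (mul_nonneg h.1 (nrm_nonneg v)) fun w => ?_
  have e : ∑ x, (∑ y, A x y * v y) * w x = ∑ x, ∑ y, w x * A x y * v y := by
    refine Finset.sum_congr rfl fun x _ => ?_
    rw [Finset.sum_mul]
    exact Finset.sum_congr rfl fun y _ => by ring
  rw [e]
  exact (h.2 w v).trans (le_of_eq (by ring))

/-- The norm of `uᵀ A`. -/
lemma Bd.vecMul (h : Bd A c) (u : V → ℝ) : nrm (fun y => ∑ x, u x * A x y) ≤ c * nrm u := by
  have h1 := h.transpose.mulVec u
  refine le_trans (le_of_eq ?_) h1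
  congr 1
  funext y
  exact Finset.sum_congr rfl fun x _ => by ring

lemma Bd.of_mulVec (hc : 0 ≤ c) (h : ∀ v : V → ℝ, nrm (fun x => ∑ y, A x y * v y) ≤ c * nrm v) :
    Bd A c := by
  refine ⟨hc, fun u v => ?_⟩
  have e : ∑ x, ∑ y, u x * A x y * v y = ∑ x, u x * ∑ y, A x y * v y := by
    refine Finset.sum_congr rfl fun x _ => ?_
    rw [Finset.mul_sum]
    exact Finset.sum_congr rfl fun y _ => by ring
  rw [e]
  refine (inner_le u _).trans ?_
  calc nrm u * nrm (fun x => ∑ y, A x y * v y) ≤ nrm u * (c * nrm v) :=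
        mul_le_mul_of_nonneg_left (h v) (nrm_nonneg u)
    _ = _ := by ring

lemma Bd.mul (h : Bd A c) (h' : Bd B c') : Bd (fun x z => ∑ y, A x y * B y z) (c * c') := by
  refine Bd.of_mulVec (mul_nonneg h.1 h'.1) fun v => ?_
  have e : (fun x => ∑ z, (∑ y, A x y * B y z) * v z) =
      fun x => ∑ y, A x y * ∑ z, B y z * v z := by
    funext x
    simp only [Finset.sum_mul, Finset.mul_sum]
    rw [Finset.sum_comm]
    exact Finset.sum_congr rfl fun y _ => Finset.sum_congr rfl fun z _ => by ring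
  rw [e]
  calc _ ≤ c * nrm (fun y => ∑ z, B y z * v z) := h.mulVec _
    _ ≤ c * (c' * nrm v) := mul_le_mul_of_nonneg_left (h'.mulVec v) h.1
    _ = _ := by ring

/-- Multiplication of rows and columns by numbers of absolute value at most `1`. -/
lemma Bd.scale (h : Bd A c) {p q : V → ℝ} (hp : ∀ x, |p x| ≤ 1) (hq : ∀ x, |q x| ≤ 1) :
    Bd (fun x y => p x * A x y * q y) c := by
  refine ⟨h.1, fun u v => ?_⟩
  have e : ∑ x, ∑ y, u x * (p x * A x y * q y) * v y =
      ∑ x, ∑ y, (p x * u x) * A x y * (q y * v y) :=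
    Finset.sum_congr rfl fun x _ => Finset.sum_congr rfl fun y _ => by ring
  rw [e]
  refine (h.2 _ _).trans ?_
  refine mul_le_mul (mul_le_mul_of_nonneg_left (nrm_scale hp) h.1) (nrm_scale hq) (nrm_nonneg _)
    (mul_nonneg h.1 (nrm_nonneg _))

lemma rs_eq (P Q : Finset V) (A : V → V → ℝ) (x y : V) :
    rs P Q A x y = (if x ∈ P then 1 else 0) * A x y * (if y ∈ Q then 1 else 0) := by
  unfold rs
  by_cases h1 : x ∈ P <;> by_cases h2 : y ∈ Q <;> simp [h1, h2]

lemma abs_ind (p : Prop) [Decidable p] : |(if p then (1 : ℝ) else 0)| ≤ 1 := by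
  split_ifs <;> simp

lemma Bd.rs (h : Bd A c) (P Q : Finset V) : Bd (rs P Q A) c :=
  (h.scale (p := fun x => if x ∈ P then 1 else 0) (q := fun x => if x ∈ Q then 1 else 0)
    (fun _ => abs_ind _) (fun _ => abs_ind _)).congr fun x y => (rs_eq P Q A x y).symm

/-- Blocks of blocks. -/
lemma rs_rs (P Q P' Q' : Finset V) (A : V → V → ℝ) (x y : V) :
    Full.rs P Q (Full.rs P' Q' A) x y = Full.rs (P ∩ P') (Q ∩ Q') A x y := by
  unfold Full.rs
  simp only [Finset.mem_inter]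
  by_cases h1 : x ∈ P <;> by_cases h2 : y ∈ Q <;> by_cases h3 : x ∈ P' <;> by_cases h4 : y ∈ Q' <;>
    simp [h1, h2, h3, h4]

/-- Monotonicity in the block. -/
lemma Bd.rs_mono {P Q P' Q' : Finset V} (h : Bd (Full.rs P' Q' A) c) (hP : P ⊆ P') (hQ : Q ⊆ Q') :
    Bd (Full.rs P Q A) c :=
  (h.rs P Q).congr fun x y => by
    rw [rs_rs, Finset.inter_eq_left.2 hP, Finset.inter_eq_left.2 hQ]

lemma bd_rank_one (p q : V → ℝ) : Bd (fun x y => p x * q y) (nrm p * nrm q) := by
  refine ⟨mul_nonneg (nrm_nonneg p) (nrm_nonneg q), fun u v => ?_⟩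
  have e : ∑ x, ∑ y, u x * (p x * q y) * v y = (∑ x, u x * p x) * ∑ y, q y * v y := by
    rw [Finset.sum_mul_sum]
    exact Finset.sum_congr rfl fun x _ => Finset.sum_congr rfl fun y _ => by ring
  rw [e, abs_mul]
  calc _ ≤ (nrm u * nrm p) * (nrm q * nrm v) :=
        mul_le_mul (inner_le u p) (inner_le q v) (abs_nonneg _)
          (mul_nonneg (nrm_nonneg _) (nrm_nonneg _))
    _ = _ := by ring

/-- The Frobenius norm. -/
lemma bd_frob (hc : 0 ≤ c) (h : ∑ x, ∑ y, A x y ^ 2 ≤ c ^ 2) : Bd A c := by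
  refine Bd.of_mulVec hc fun v => ?_
  apply Real.sqrt_le_iff.2
  refine ⟨mul_nonneg hc (nrm_nonneg v), ?_⟩
  calc ∑ x, (∑ y, A x y * v y) ^ 2 ≤ ∑ x, (∑ y, A x y ^ 2) * ∑ y, v y ^ 2 :=
        Finset.sum_le_sum fun x _ => Finset.sum_mul_sq_le_sq_mul_sq _ _ _
    _ = (∑ x, ∑ y, A x y ^ 2) * ∑ y, v y ^ 2 := by rw [Finset.sum_mul]
    _ ≤ c ^ 2 * ∑ y, v y ^ 2 :=
        mul_le_mul_of_nonneg_right h (Finset.sum_nonneg fun _ _ => sq_nonneg _)
    _ = (c * nrm v) ^ 2 := by rw [mul_pow, nrm_sq]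

/-- A block with entries of absolute value at most `a`. -/
lemma bd_card {a : ℝ} (ha : 0 ≤ a) {P Q : Finset V} (h : ∀ x ∈ P, ∀ y ∈ Q, |A x y| ≤ a) :
    Bd (Full.rs P Q A) (a * √(P.card * Q.card)) := by
  refine bd_frob (by positivity) ?_
  have e : (a * √((P.card : ℝ) * Q.card)) ^ 2 = P.card * (Q.card * a ^ 2) := by
    rw [mul_pow, Real.sq_sqrt (by positivity)]
    ring
  rw [e]
  calc ∑ x, ∑ y, Full.rs P Q A x y ^ 2 ≤ ∑ x ∈ P, ∑ y ∈ Q, a ^ 2 := by
        rw [← Finset.sum_subset (Finset.subset_univ P)]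
        · refine Finset.sum_le_sum fun x hx => ?_
          rw [← Finset.sum_subset (Finset.subset_univ Q)]
          · refine Finset.sum_le_sum fun y hy => ?_
            unfold Full.rs
            rw [if_pos ⟨hx, hy⟩, ← sq_abs]
            exact pow_le_pow_left₀ (abs_nonneg _) (h x hx y hy) 2
          · intro y _ hy
            unfold Full.rs
            rw [if_neg (fun h => hy h.2)]
            ring
        · intro x _ hx
          refine Finset.sum_eq_zero fun y _ => ?_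
          unfold Full.rs
          rw [if_neg (fun h => hx h.1)]
          ring
    _ = _ := by simp

lemma abs_rl {σ : V → V → ℤ} (hσ : IsSig σ) (x y : V) : |rl σ x y| = 1 := by
  unfold rl
  rcases hσ.val x y with h | h <;> rw [h] <;> simp

/-- A block of a signature. -/
lemma bd_sig {σ : V → V → ℤ} (hσ : IsSig σ) (P Q : Finset V) :
    Bd (Full.rs P Q (rl σ)) (√(P.card * Q.card)) := by
  have h := bd_card (A := rl σ) (P := P) (Q := Q) zero_le_one
    (fun x _ y _ => (abs_rl hσ x y).le)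
  rwa [one_mul] at h

lemma bd_one : Bd (fun x y : V => if x = y then (1 : ℝ) else 0) 1 := by
  refine ⟨zero_le_one, fun u v => ?_⟩
  have e : ∑ x, ∑ y, u x * (if x = y then (1 : ℝ) else 0) * v y = ∑ x, u x * v x := by
    refine Finset.sum_congr rfl fun x _ => ?_
    simp
  rw [e, one_mul]
  exact inner_le u v

/-- Row `x` of a bounded matrix. -/
lemma Bd.row (h : Bd A c) (x : V) : nrm (fun y => A x y) ≤ c := by
  have h1 := h.vecMul (fun z => if z = x then 1 else 0)
  rw [nrm_single, mul_one] at h1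
  refine le_trans (le_of_eq ?_) h1
  congr 1
  funext y
  simp

/-- Entries of a bounded matrix. -/
lemma Bd.entry (h : Bd A c) (x y : V) : |A x y| ≤ c := by
  have h1 := h.2 (fun z => if z = x then 1 else 0) (fun z => if z = y then 1 else 0)
  rw [nrm_single, nrm_single, mul_one, mul_one] at h1
  simpa using h1

lemma bd_prod : ∀ (m : ℕ) (B : Fin m → Matrix V V ℝ) (c : Fin m → ℝ), (∀ i, Bd (B i) (c i)) →
    Bd ((List.ofFn B).prod) (∏ i, c i) := by
  intro m
  induction m with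
  | zero =>
    intro B c _
    rw [List.ofFn_zero, List.prod_nil, Finset.univ_eq_empty, Finset.prod_empty]
    exact bd_one.congr fun x y => by rw [Matrix.one_apply]
  | succ m ih =>
    intro B c h
    rw [List.ofFn_succ, List.prod_cons, Fin.prod_univ_succ]
    exact (Bd.mul (h 0) (ih (fun i => B i.succ) (fun i => c i.succ) fun i => h i.succ)).congr
      fun x z => by rw [Matrix.mul_apply]

/-! ## Injectivity -/

/-- The product of the signs along `f`. -/
noncomputable def sp {l : ℕ} (ζ : Fin l → V → ℤˣ) (f : Fin l → V) : ℝ :=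
  ∏ i, (((ζ i (f i) : ℤˣ) : ℤ) : ℝ)

lemma sp_tw {l : ℕ} (ζ : Fin l → V → ℤˣ) (i j : Fin l) (η : V → ℤˣ) (f : Fin l → V) :
    sp (Top.tw ζ i j η) f = sp ζ f * ((((η (f i) : ℤˣ) : ℤ) : ℝ) * (((η (f j) : ℤˣ) : ℤ) : ℝ)) :=
  Top.sd_tw ζ i j η f

lemma inj_aux {l : ℕ} (G : (Fin l → V) → ℝ) {b : ℝ}
    (h : ∀ ζ : Fin l → V → ℤˣ, |∑ f, sp ζ f * G f| ≤ b) (P : Finset (Fin l × Fin l)) :
    ∀ ζ : Fin l → V → ℤˣ, |∑ f, sp ζ f * G f * ∏ p ∈ P, Top.nd p f| ≤ 2 ^ P.card * b := by
  induction P using Finset.induction_on with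
  | empty =>
    intro ζ
    simpa using h ζ
  | insert p P hp ih =>
    intro ζ
    have h1 : ∑ f, sp ζ f * G f * ∏ q ∈ insert p P, Top.nd q f =
        ∑ f, sp ζ f * G f * ∏ q ∈ P, Top.nd q f -
        Top.av (fun η : V → ℤˣ => ∑ f, sp (Top.tw ζ p.1 p.2 η) f * G f * ∏ q ∈ P, Top.nd q f) := by
      rw [Top.av_sum, ← Finset.sum_sub_distrib]
      refine Finset.sum_congr rfl fun f _ => ?_
      have h2 : (fun η : V → ℤˣ => sp (Top.tw ζ p.1 p.2 η) f * G f * ∏ q ∈ P, Top.nd q f) =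
          fun η => (sp ζ f * G f * ∏ q ∈ P, Top.nd q f) *
            ((((η (f p.1) : ℤˣ) : ℤ) : ℝ) * (((η (f p.2) : ℤˣ) : ℤ) : ℝ)) := by
        funext η
        rw [sp_tw]
        ring
      rw [h2, Top.av_mul, Top.av_two, Finset.prod_insert hp]
      unfold Top.nd
      ring
    have h2 : |Top.av (fun η : V → ℤˣ => ∑ f, sp (Top.tw ζ p.1 p.2 η) f * G f *
        ∏ q ∈ P, Top.nd q f)| ≤ 2 ^ P.card * b :=
      (Top.abs_av_le (h := fun _ => 2 ^ P.card * b) fun η => ih _).trans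
        (le_of_eq (Top.av_const _))
    rw [h1, Finset.card_insert_of_notMem hp, pow_succ]
    refine (abs_sub _ _).trans ?_
    have h3 := ih ζ
    linarith

/-- Sums over injective sequences are bounded if the sums over all sequences with arbitrary signs
are. -/
theorem inj_le {l : ℕ} (G : (Fin l → V) → ℝ) {b : ℝ}
    (h : ∀ ζ : Fin l → V → ℤˣ, |∑ f, sp ζ f * G f| ≤ b) :
    |∑ f ∈ (univ : Finset (Fin l → V)).filter Function.Injective, G f| ≤ 2 ^ (l ^ 2) * b := by
  have h1 := inj_aux G h (Finset.univ : Finset (Fin l)).offDiag (fun _ _ => 1)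
  have hb : 0 ≤ b := (abs_nonneg _).trans (h fun _ _ => 1)
  have h2 : ∑ f, sp (fun _ _ => 1) f * G f *
      ∏ p ∈ (Finset.univ : Finset (Fin l)).offDiag, Top.nd p f =
      ∑ f ∈ (univ : Finset (Fin l → V)).filter Function.Injective, G f := by
    rw [Finset.sum_filter]
    refine Finset.sum_congr rfl fun f _ => ?_
    rw [Top.prod_nd]
    have : sp (fun _ _ => 1) f = 1 := by unfold sp; simp
    rw [this]
    split_ifs <;> ring
  rw [h2] at h1
  refine h1.trans (mul_le_mul_of_nonneg_right (pow_le_pow_right₀ (by norm_num) ?_) hb)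
  rw [Finset.offDiag_card, Finset.card_univ, Fintype.card_fin, sq]
  exact Nat.sub_le _ _

/-! ## Words -/

lemma closed_first (m : ℕ) (B : Fin (m + 1) → V → V → ℝ) (c : Fin (m + 1) → ℝ) (p q : V → ℝ)
    (h0 : ∀ x y, B 0 x y = p x * q y) (hpq : nrm p * nrm q ≤ c 0)
    (hB : ∀ i, i ≠ 0 → Bd (B i) (c i)) :
    |∑ f : Fin (m + 1) → V, ∏ i, B i (f i) (f (i + 1))| ≤ ∏ i, c i := by
  have h1 := Top.sum_closed m (fun i => (Matrix.of (B i) : Matrix V V ℝ))
  simp only [Matrix.of_apply] at h1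
  rw [h1, List.ofFn_succ, List.prod_cons, Fin.prod_univ_succ]
  set R := (List.ofFn fun i : Fin m => (Matrix.of (B i.succ) : Matrix V V ℝ)).prod with hR
  have hRb : Bd R (∏ i : Fin m, c i.succ) :=
    bd_prod m _ _ fun i => hB i.succ (Fin.succ_ne_zero i)
  have h2 : (Matrix.of (B 0) * R : Matrix V V ℝ).trace = ∑ x, ∑ y, q x * R x y * p y := by
    unfold Matrix.trace
    simp only [Matrix.diag_apply, Matrix.mul_apply, Matrix.of_apply, h0]
    rw [Finset.sum_comm]
    exact Finset.sum_congr rfl fun x _ => Finset.sum_congr rfl fun y _ => by ring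
  rw [h2]
  refine (hRb.2 q p).trans ?_
  calc (∏ i : Fin m, c i.succ) * nrm q * nrm p = (nrm p * nrm q) * ∏ i : Fin m, c i.succ := by ring
    _ ≤ _ := mul_le_mul_of_nonneg_right hpq hRb.1

/-- Closed words with a rank one step. -/
lemma closed_word (l : ℕ) [NeZero l] (B : Fin l → V → V → ℝ) (c : Fin l → ℝ) (i₀ : Fin l)
    (p q : V → ℝ) (h0 : ∀ x y, B i₀ x y = p x * q y) (hpq : nrm p * nrm q ≤ c i₀)
    (hB : ∀ i, i ≠ i₀ → Bd (B i) (c i)) :
    |∑ f : Fin l → V, ∏ i, B i (f i) (f (i + 1))| ≤ ∏ i, c i := by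
  obtain ⟨m, rfl⟩ : ∃ m, l = m + 1 := ⟨l - 1, by have := NeZero.pos l; omega⟩
  have h1 := closed_first m (fun i => B (i + i₀)) (fun i => c (i + i₀)) p q
    (fun x y => by rw [zero_add]; exact h0 x y) (by rw [zero_add]; exact hpq)
    (fun i hi => hB _ fun h => hi (add_eq_right.1 h))
  have h2 : ∏ i, c (i + i₀) = ∏ i, c i := Equiv.prod_comp (Equiv.addRight i₀) c
  rw [h2] at h1
  refine le_trans (le_of_eq ?_) h1
  congr 1
  rw [← ((Equiv.addRight i₀).arrowCongr (Equiv.refl V)).sum_comp]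
  refine Finset.sum_congr rfl fun f _ => ?_
  have h3 : ∀ t : Fin (m + 1), ((Equiv.addRight i₀).arrowCongr (Equiv.refl V)) f (t + i₀) = f t := by
    intro t
    simp [Equiv.arrowCongr]
  rw [← Equiv.prod_comp (Equiv.addRight i₀)]
  refine Finset.prod_congr rfl fun t _ => ?_
  rw [Equiv.coe_addRight, h3, add_right_comm, h3]

lemma sgn_abs (u : ℤˣ) : |((u : ℤ) : ℝ)| ≤ 1 := by
  rcases Int.units_eq_one_or u with h | h <;> rw [h] <;> simp

theorem wordStmt : WordStmt := by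
  intro V _ _ l _ B c i₀ p q h0 hpq hB
  have key := inj_le (l := l) (fun f : Fin l → V => ∏ i, B i (f i) (f (i + 1)))
    (b := ∏ i, c i) fun ζ => ?_
  · exact key
  · have h1 := closed_word l (fun i x y => (((ζ i x : ℤˣ) : ℤ) : ℝ) * B i x y) c i₀
      (fun x => (((ζ i₀ x : ℤˣ) : ℤ) : ℝ) * p x) q (fun x y => by rw [h0]; ring)
      ((mul_le_mul_of_nonneg_right (nrm_scale fun x => sgn_abs _) (nrm_nonneg q)).trans hpq)
      (fun i hi => ((hB i hi).scale (p := fun x => (((ζ i x : ℤˣ) : ℤ) : ℝ)) (q := fun _ => 1)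
        (fun x => sgn_abs _) (fun x => by simp)).congr fun x y => by ring)
    refine le_trans (le_of_eq ?_) h1
    congr 1
    refine Finset.sum_congr rfl fun f _ => ?_
    unfold sp
    rw [← Finset.prod_mul_distrib]

/-! ## Patterns -/

variable {κ : Type} [Fintype κ] [DecidableEq κ]

/-- Splitting a sum over injective sequences by the classes of the vertices. -/
lemma sum_patterns {l : ℕ} (cls : V → κ) (p : (Fin l → κ) → Prop) [DecidablePred p]
    (G : (Fin l → V) → ℝ) :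
    ∑ f ∈ (inj l V).filter (fun f => p fun i => cls (f i)), G f =
      ∑ lam ∈ (univ : Finset (Fin l → κ)).filter p,
        ∑ f ∈ (inj l V).filter (fun f => ∀ i, cls (f i) = lam i), G f := by
  rw [← Finset.sum_fiberwise_of_maps_to (g := fun f i => cls (f i))
    (t := (univ : Finset (Fin l → κ)).filter p)]
  · refine Finset.sum_congr rfl fun lam hlam => ?_
    rw [Finset.filter_filter]
    refine Finset.sum_congr ?_ fun _ _ => rfl
    ext f
    simp only [Finset.mem_filter]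
    constructor
    · rintro ⟨h1, h2, h3⟩
      exact ⟨h1, fun i => congrFun h3 i⟩
    · rintro ⟨h1, h2⟩
      have h3 : (fun i => cls (f i)) = lam := funext h2
      exact ⟨h1, by rw [h3]; exact (Finset.mem_filter.1 hlam).2, h3⟩
  · intro f hf
    exact Finset.mem_filter.2 ⟨Finset.mem_univ _, (Finset.mem_filter.1 hf).2⟩

/-- The class of `k`. -/
def cl' (cls : V → κ) (k : κ) : Finset V := univ.filter fun x => cls x = k

lemma mem_cl' {cls : V → κ} {k : κ} {x : V} : x ∈ cl' cls k ↔ cls x = k := by simp [cl']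

/-- The sum over one pattern as a sum of products of blocks. -/
lemma pattern_eq {l : ℕ} [NeZero l] (cls : V → κ) (σ : V → V → ℤ) (lam : Fin l → κ) :
    ((∑ f ∈ (inj l V).filter (fun f => ∀ i, cls (f i) = lam i), cp l σ f : ℤ) : ℝ) =
      ∑ f ∈ inj l V, ∏ i, rs (cl' cls (lam i)) (cl' cls (lam (i + 1))) (rl σ) (f i) (f (i + 1)) := by
  rw [Finset.sum_filter]
  push_cast
  refine Finset.sum_congr rfl fun f _ => ?_
  by_cases h : ∀ i, cls (f i) = lam i
  · rw [if_pos h]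
    unfold cp
    push_cast
    refine Finset.prod_congr rfl fun i _ => ?_
    unfold rs rl
    rw [if_pos ⟨mem_cl'.2 (h i), mem_cl'.2 (h (i + 1))⟩]
  · rw [if_neg h]
    push Not at h
    obtain ⟨i, hi⟩ := h
    symm
    refine Finset.prod_eq_zero (Finset.mem_univ i) ?_
    unfold rs
    rw [if_neg fun h => hi (mem_cl'.1 h.1)]

/-- The bound for one pattern; the step `i₀` has rank one on its block. -/
theorem pattern_le {l : ℕ} [NeZero l] (cls : V → κ) (σ : V → V → ℤ) (lam : Fin l → κ)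
    (c : Fin l → ℝ) (i₀ : Fin l) (p q : V → ℝ)
    (h0 : ∀ x y, rs (cl' cls (lam i₀)) (cl' cls (lam (i₀ + 1))) (rl σ) x y = p x * q y)
    (hpq : nrm p * nrm q ≤ c i₀)
    (hB : ∀ i, i ≠ i₀ → Bd (rs (cl' cls (lam i)) (cl' cls (lam (i + 1))) (rl σ)) (c i)) :
    |((∑ f ∈ (inj l V).filter (fun f => ∀ i, cls (f i) = lam i), cp l σ f : ℤ) : ℝ)| ≤
      2 ^ (l ^ 2) * ∏ i, c i := by
  rw [pattern_eq]
  exact wordStmt V l _ c i₀ p q h0 hpq hB

/-- If the class at `i₀` has only one vertex, all steps may be bounded by their norms. -/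
theorem pattern_pin {l : ℕ} [NeZero l] (cls : V → κ) (σ : V → V → ℤ) (lam : Fin l → κ)
    (c : Fin l → ℝ) (i₀ : Fin l) (a : V) (ha : ∀ x, cls x = lam i₀ → x = a)
    (hB : ∀ i, Bd (rs (cl' cls (lam i)) (cl' cls (lam (i + 1))) (rl σ)) (c i)) :
    |((∑ f ∈ (inj l V).filter (fun f => ∀ i, cls (f i) = lam i), cp l σ f : ℤ) : ℝ)| ≤
      2 ^ (l ^ 2) * ∏ i, c i := by
  refine pattern_le cls σ lam c i₀ (fun x => if x = a then 1 else 0)
    (fun y => rs (cl' cls (lam i₀)) (cl' cls (lam (i₀ + 1))) (rl σ) a y) (fun x y => ?_) ?_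
    fun i _ => hB i
  · by_cases hx : x = a
    · rw [if_pos hx, one_mul, hx]
    · rw [if_neg hx, zero_mul]
      unfold rs
      rw [if_neg fun h => hx (ha x (mem_cl'.1 h.1))]
  · rw [nrm_single, one_mul]
    exact (hB i₀).row a

/-- A rank one step inside an all positive set. -/
theorem pattern_clique {l : ℕ} [NeZero l] (cls : V → κ) (σ : V → V → ℤ) (lam : Fin l → κ)
    (c : Fin l → ℝ) (i₀ : Fin l)
    (hpos : ∀ x y, cls x = lam i₀ → cls y = lam (i₀ + 1) → σ x y = 1)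
    (hc : √(cl' cls (lam i₀)).card * √(cl' cls (lam (i₀ + 1))).card ≤ c i₀)
    (hB : ∀ i, i ≠ i₀ → Bd (rs (cl' cls (lam i)) (cl' cls (lam (i + 1))) (rl σ)) (c i)) :
    |((∑ f ∈ (inj l V).filter (fun f => ∀ i, cls (f i) = lam i), cp l σ f : ℤ) : ℝ)| ≤
      2 ^ (l ^ 2) * ∏ i, c i := by
  refine pattern_le cls σ lam c i₀ (fun x => if x ∈ cl' cls (lam i₀) then 1 else 0)
    (fun x => if x ∈ cl' cls (lam (i₀ + 1)) then 1 else 0) (fun x y => ?_) ?_ hB
  · rw [rs_eq]
    by_cases hx : x ∈ cl' cls (lam i₀)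
    · by_cases hy : y ∈ cl' cls (lam (i₀ + 1))
      · have : rl σ x y = 1 := by
          unfold rl
          rw [hpos x y (mem_cl'.1 hx) (mem_cl'.1 hy)]
          simp
        rw [this, mul_one]
      · rw [if_neg hy, mul_zero, mul_zero]
    · rw [if_neg hx, zero_mul, zero_mul]
  · refine le_trans (mul_le_mul (nrm_le_card (fun _ => abs_ind _) fun x hx => if_neg hx)
      (nrm_le_card (fun _ => abs_ind _) fun x hx => if_neg hx) (nrm_nonneg _)
      (Real.sqrt_nonneg _)) hc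

end Full

end MP_90430c
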