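import Pool.Agent.Lib.MP_90430c_co.Full.ConfA
import Pool.Agent.Lib.MP_90430c_co.Full.Api
import Pool.Agent.Lib.MP_90430c_co.Bal

/-!
# Module ConfC: the geometry of the configuration
-/

open Finset

set_option synthInstance.maxSize 4096

namespace MP_90430c

namespace Full

namespace ConfC

open ConfA (bk md)

/-! ### The gadgets do not change most pairs -/

lemma gst_isSig {V : Type} [Fintype V] [DecidableEq V] (lab : V → ℕ × Bool) (s : ℕ) (t : Bool) : IsSig (gst lab s t) := by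
  constructor
  · intro x y
    unfold gst
    cases t
    · simp only [Bool.false_eq_true, if_false]
      exact Finset.prod_congr rfl fun i _ => gX_symm lab i x y
    · simp only [if_true]
      exact Finset.prod_congr rfl fun i _ => gY_symm lab i x y
  · intro x y
    unfold gst
    cases t
    · simp only [Bool.false_eq_true, if_false]
      apply Finset.prod_induction _ (fun z : ℤ => z = 1 ∨ z = -1)
      · rintro a b (rfl | rfl) (rfl | rfl) <;> simp
      · left; rfl
      · intro i _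
        exact (isSig_gX lab i).val x y
    · simp only [if_true]
      apply Finset.prod_induction _ (fun z : ℤ => z = 1 ∨ z = -1)
      · rintro a b (rfl | rfl) (rfl | rfl) <;> simp
      · left; rfl
      · intro i _
        exact (isSig_gY lab i).val x y

lemma gst_one {V : Type} (lab : V → ℕ × Bool) (s : ℕ) (t : Bool) (x y : V)
    (h : ¬ (1 ≤ (lab x).1 ∧ (lab y).1 = (lab x).1 + 1))
    (h' : ¬ (1 ≤ (lab y).1 ∧ (lab x).1 = (lab y).1 + 1)) : gst lab s t x y = 1 := by
  have hY : ∀ (i : ℕ) (p q : ℕ × Bool), upY i p q → 1 ≤ p.1 ∧ q.1 = p.1 + 1 := by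
    rintro i p q ⟨h1, h2, h3, _⟩
    omega
  have hX : ∀ (i : ℕ) (p q : ℕ × Bool), upX i p q → 1 ≤ p.1 ∧ q.1 = p.1 + 1 := by
    rintro i p q (⟨_, rfl, rfl⟩ | ⟨_, h1⟩)
    · simp
    · exact hY i p q h1
  unfold gst
  cases t
  · simp only [Bool.false_eq_true, if_false]
    refine Finset.prod_eq_one fun i _ => ?_
    unfold gX
    rw [if_neg]
    rintro (h1 | h1)
    · exact h (hX _ _ _ h1)
    · exact h' (hX _ _ _ h1)
  · simp only [if_true]
    refine Finset.prod_eq_one fun i _ => ?_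
    unfold gY
    rw [if_neg]
    rintro (h1 | h1)
    · exact h (hY _ _ _ h1)
    · exact h' (hY _ _ _ h1)

lemma gst_zl {V : Type} (lab : V → ℕ × Bool) (s : ℕ) (t : Bool) (x y : V) (h : (lab x).1 = 0) :
    gst lab s t x y = 1 := gst_one lab s t x y (by omega) (by omega)

lemma gst_zr {V : Type} (lab : V → ℕ × Bool) (s : ℕ) (t : Bool) (x y : V) (h : (lab y).1 = 0) :
    gst lab s t x y = 1 := gst_one lab s t x y (by omega) (by omega)

variable {l I Q w m D : ℕ} {j : ℕ → ℕ} {μ : ℕ → ℕ}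

lemma lab1_bk (i : S1 l I Q) (c : Fin m) (r : Fin D) :
    (lab1 μ i (bk c r : CV l I Q w m D j)).1 = 0 ∨ (lab1 μ i (bk c r : CV l I Q w m D j)).1 = 1 ∨
      (lab1 μ i (bk c r : CV l I Q w m D j)).1 = (i.1 : ℕ) + 3 := by
  simp only [lab1]
  split_ifs <;> simp

lemma lab1_bk_zero (hμ : ∀ i, 1 ≤ μ i ∧ μ i ≤ μ 0) {m₀ : ℕ} (h0 : 2 * μ 0 < m₀) (i : S1 l I Q)
    (c : Fin m) (r : Fin D) (hc : m₀ ≤ (c : ℕ)) :
    (lab1 μ i (bk c r : CV l I Q w m D j)).1 = 0 := by
  have h1 := hμ i.2.1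
  have hA : ¬ inA I μ i.2.1 c r := by
    unfold inA
    split_ifs <;> omega
  have hB : ¬ inB I μ i.2.1 c r := by
    unfold inB
    split_ifs <;> omega
  simp only [lab1, if_neg hA, if_neg hB]

/-- Only the site gadgets may change the sign of a pair unless both vertices are vertices of unit
gadgets. -/
lemma sC_eq (σW : Fin w → Fin w → ℤ) (h : IX l I Q w m → IX l I Q w m → ℤ) (m₀ t : ℕ)
    (Λ : Finset (St l I Q)) (τ : St l I Q → Bool) (x y : CV l I Q w m D j)
    (h1 : ∀ (i : S1 l I Q) (b : Bool), gst (lab1 μ i) ((i.1 : ℕ) + 3) b x y = 1)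
    (h2 : ∀ e : Fin (l - 2), (lab2 e x).1 = 0 ∨ (lab2 e y).1 = 0) :
    sC' μ σW h m₀ t Λ τ x y = base σW h m₀ t x y := by
  unfold sC' SG
  rw [Finset.prod_eq_one, mul_one]
  rintro (i | e) _
  · exact h1 i _
  · rcases h2 e with h3 | h3
    · exact gst_zl _ _ _ _ _ h3
    · exact gst_zr _ _ _ _ _ h3

variable (σW : Fin w → Fin w → ℤ) (h : IX l I Q w m → IX l I Q w m → ℤ) (m₀ t : ℕ)
  (Λ : Finset (St l I Q)) (τ : St l I Q → Bool)

lemma s_ww (x y : Fin w) :
    sC' (j := j) (D := D) μ σW h m₀ t Λ τ (Sum.inl x) (Sum.inl y) = σW x y :=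
  sC_eq σW h m₀ t Λ τ _ _ (fun _ _ => gst_zl _ _ _ _ _ rfl) (fun _ => Or.inl rfl)

lemma s_bw (c : Fin m) (r : Fin D) (y : Fin w) :
    sC' (j := j) μ σW h m₀ t Λ τ (bk c r) (Sum.inl y) = h (Sum.inr (Sum.inl c)) (Sum.inl y) :=
  sC_eq σW h m₀ t Λ τ _ _ (fun _ _ => gst_zr _ _ _ _ _ rfl) (fun _ => Or.inl rfl)

lemma s_bb (c c' : Fin m) (r r' : Fin D) :
    sC' (j := j) μ σW h m₀ t Λ τ (bk c r) (bk c' r') =
      if c = c' ∨ idx c c' < t then 1 else h (Sum.inr (Sum.inl c)) (Sum.inr (Sum.inl c')) := by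
  refine sC_eq σW h m₀ t Λ τ _ _ (fun i b => ?_) (fun e => Or.inl rfl)
  have h1 := lab1_bk (w := w) (j := j) (μ := μ) i c r
  have h2 := lab1_bk (w := w) (j := j) (μ := μ) i c' r'
  apply gst_one <;> omega

lemma s_wm (x : Fin w) (p : MP l I Q) (b : Bool) :
    sC' (j := j) (D := D) μ σW h m₀ t Λ τ (Sum.inl x) (md p b) = h (Sum.inl x) (Sum.inr (Sum.inr p)) :=
  sC_eq σW h m₀ t Λ τ _ _ (fun _ _ => gst_zl _ _ _ _ _ rfl) (fun _ => Or.inl rfl)

lemma s_bm (hμ : ∀ i, 1 ≤ μ i ∧ μ i ≤ μ 0) (h0 : 2 * μ 0 < m₀) (c : Fin m) (r : Fin D)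
    (hc : m₀ ≤ (c : ℕ)) (p : MP l I Q) (b : Bool) :
    sC' (j := j) μ σW h m₀ t Λ τ (bk c r) (md p b) =
      h (Sum.inr (Sum.inl c)) (Sum.inr (Sum.inr p)) := by
  refine (sC_eq σW h m₀ t Λ τ _ _ (fun i b => gst_zl _ _ _ _ _ (lab1_bk_zero hμ h0 i c r hc))
    (fun e => Or.inl rfl)).trans ?_
  simp only [base]
  rw [if_neg (by omega)]

lemma isSig_base {σW : Fin w → Fin w → ℤ} {h : IX l I Q w m → IX l I Q w m → ℤ} (hW : IsSig σW)
    (hh : IsSig h) (m₀ t : ℕ) : IsSig (base σW h m₀ t : CV l I Q w m D j → CV l I Q w m D j → ℤ) := by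
  constructor
  · rintro (x | ⟨c, r⟩ | ⟨p, b⟩ | u) (x' | ⟨c', r'⟩ | ⟨p', b'⟩ | u') <;> simp only [base]
    · exact hW.symm x x'
    · exact hh.symm _ _
    · exact hh.symm _ _
    · exact hh.symm _ _
    · rw [idx_symm c c', hh.symm (Sum.inr (Sum.inl c))]
      by_cases hc : c = c'
      · rw [if_pos (Or.inl hc), if_pos (Or.inl hc.symm)]
      · by_cases ht : idx c' c < t
        · rw [if_pos (Or.inr ht), if_pos (Or.inr ht)]
        · rw [if_neg, if_neg]
          · rintro (h1 | h1)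
            · exact hc h1.symm
            · exact ht h1
          · rintro (h1 | h1)
            · exact hc h1
            · exact ht h1
    · rw [hh.symm (Sum.inr (Sum.inl c))]
    · exact hh.symm _ _
    · rw [hh.symm (Sum.inr (Sum.inr p))]
  · rintro (x | ⟨c, r⟩ | ⟨p, b⟩ | u) (x' | ⟨c', r'⟩ | ⟨p', b'⟩ | u') <;> simp only [base]
    · exact hW.val x x'
    · exact hh.val _ _
    · exact hh.val _ _
    · simp
    · exact hh.val _ _
    · split_ifs
      · simp
      · exact hh.val _ _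
    · split_ifs
      · simp
      · exact hh.val _ _
    · simp
    · exact hh.val _ _
    · split_ifs
      · simp
      · exact hh.val _ _
    · simp
    · simp
    · simp
    · simp
    · simp
    · simp

lemma isSig_sC {σW : Fin w → Fin w → ℤ} {h : IX l I Q w m → IX l I Q w m → ℤ} (hW : IsSig σW)
    (hh : IsSig h) (μ : ℕ → ℕ) (m₀ t : ℕ) (Λ : Finset (St l I Q)) (τ : St l I Q → Bool) :
    IsSig (sC' μ σW h m₀ t Λ τ : CV l I Q w m D j → CV l I Q w m D j → ℤ) := by
  have hb := isSig_base (D := D) (j := j) hW hh m₀ t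
  constructor
  · intro x y
    unfold sC' SG
    rw [hb.symm x y]
    congr 1
    exact Finset.prod_congr rfl fun i _ => (gst_isSig _ _ _).symm x y
  · intro x y
    unfold sC' SG
    have h1 : ∏ i ∈ Λ, gst (labC μ i) (sC j i) (τ i) x y = 1 ∨
        ∏ i ∈ Λ, gst (labC μ i) (sC j i) (τ i) x y = -1 := by
      apply Finset.prod_induction _ (fun z : ℤ => z = 1 ∨ z = -1)
      · rintro a b (rfl | rfl) (rfl | rfl) <;> simp
      · left; rfl
      · intro i _
        exact (gst_isSig _ _ _).val x y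
    rcases hb.val x y with h2 | h2 <;> rcases h1 with h3 | h3 <;> rw [h2, h3] <;> simp

/-! ### Times -/

lemma idx_lt {c c' : Fin m} {t : ℕ} (hc : (c : ℕ) < t / m) (hc' : (c' : ℕ) < t / m) :
    idx c c' < t := by
  unfold idx
  have h1 : max (c : ℕ) c' < t / m := max_lt hc hc'
  have h2 : min (c : ℕ) c' < m := lt_of_le_of_lt (min_le_left _ _) c.2
  have h3 : (max (c : ℕ) c' + 1) * m ≤ t / m * m := Nat.mul_le_mul_right _ h1
  have h4 := Nat.div_mul_le_self t m
  rw [add_mul, one_mul] at h3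
  omega

lemma not_idx_lt {c c' : Fin m} {t : ℕ} (hc' : t / m < (c' : ℕ)) : ¬ idx c c' < t := by
  unfold idx
  have hm : 0 < m := lt_of_le_of_lt (Nat.zero_le _) c'.2
  have h1 : t / m + 1 ≤ max (c : ℕ) c' := le_trans hc' (le_max_right _ _)
  have h2 : (t / m + 1) * m ≤ max (c : ℕ) c' * m := Nat.mul_le_mul_right _ h1
  have h3 := Nat.div_add_mod t m
  have h4 := Nat.mod_lt t hm
  rw [add_mul, one_mul] at h2
  rw [mul_comm] at h3
  omega

/-! ### The matrices `H` and `E` -/

variable {k : ℕ}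

/-- The index of a vertex. -/
def pi (ι : IX l I Q w m → (Fin k → Bool)) : CV l I Q w m D j → (Fin k → Bool)
  | Sum.inl x => ι (Sum.inl x)
  | Sum.inr (Sum.inl (c, _)) => ι (Sum.inr (Sum.inl c))
  | Sum.inr (Sum.inr (Sum.inl (p, _))) => ι (Sum.inr (Sum.inr p))
  | Sum.inr (Sum.inr (Sum.inr _)) => fun _ => false

/-- The vertices of the blocks. -/
def isB : CV l I Q w m D j → Bool
  | Sum.inr (Sum.inl _) => true
  | _ => false

/-- The set of the vertices of the blocks. -/
def Bk : Finset (CV l I Q w m D j) := univ.filter fun x => isB x = true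

lemma clC_le (t : ℕ) (x : CV l I Q w m D j) : clC t x ≤ 4 := by
  rcases x with x | ⟨c, r⟩ | ⟨p, b⟩ | u <;> simp only [clC]
  · omega
  · split_ifs <;> omega
  · omega
  · omega

lemma cl_zero {t : ℕ} {x : CV l I Q w m D j} (hx : clC t x = 0) :
    ∃ c r, x = bk c r ∧ (c : ℕ) < t / m := by
  rcases x with x | ⟨c, r⟩ | ⟨p, b⟩ | u
  · simp [clC] at hx
  · refine ⟨c, r, rfl, ?_⟩
    simp only [clC] at hx
    by_contra hn
    rw [if_neg hn] at hx
    split_ifs at hx
  · simp [clC] at hx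
  · simp [clC] at hx

lemma cl_one {t : ℕ} {x : CV l I Q w m D j} (hx : clC t x = 1) :
    ∃ c r, x = bk c r ∧ t / m < (c : ℕ) := by
  rcases x with x | ⟨c, r⟩ | ⟨p, b⟩ | u
  · simp [clC] at hx
  · refine ⟨c, r, rfl, ?_⟩
    simp only [clC] at hx
    split_ifs at hx with h1 h2 <;> omega
  · simp [clC] at hx
  · simp [clC] at hx

lemma cl_two {t : ℕ} {x : CV l I Q w m D j} (hx : clC t x = 2) : ∃ a, x = Sum.inl a := by
  rcases x with x | ⟨c, r⟩ | ⟨p, b⟩ | u
  · exact ⟨x, rfl⟩
  · simp only [clC] at hx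
    split_ifs at hx <;> omega
  · simp [clC] at hx
  · simp [clC] at hx

lemma cl_three {t : ℕ} {x : CV l I Q w m D j} (hx : clC t x = 3) : ∃ p b, x = md p b := by
  rcases x with x | ⟨c, r⟩ | ⟨p, b⟩ | u
  · simp [clC] at hx
  · simp only [clC] at hx
    split_ifs at hx <;> omega
  · exact ⟨p, b, rfl⟩
  · simp [clC] at hx

lemma mem_Y0 {m₀ : ℕ} {x : CV l I Q w m D j} :
    x ∈ (Y0C m₀ : Finset (CV l I Q w m D j)) ↔ ∃ c r, x = bk c r ∧ (c : ℕ) < m₀ := by
  unfold Y0C
  rw [Finset.mem_filter]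
  constructor
  · rintro ⟨_, hx⟩
    rcases x with x | ⟨c, r⟩ | ⟨p, b⟩ | u
    · simp [inY0] at hx
    · exact ⟨c, r, rfl, by simpa [inY0] using hx⟩
    · simp [inY0] at hx
    · simp [inY0] at hx
  · rintro ⟨c, r, rfl, hc⟩
    exact ⟨Finset.mem_univ _, by simpa [inY0] using hc⟩

/-- The fibres of `pi` outside the unit gadgets have at most `D` elements. -/
lemma card_fibre (hD : 2 ≤ D) {ι : IX l I Q w m → (Fin k → Bool)} (hι : Function.Injective ι)
    (P : Finset (CV l I Q w m D j)) (hP : ∀ u, Sum.inr (Sum.inr (Sum.inr u)) ∉ P)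
    (z : Fin k → Bool) : (P.filter fun x => pi ι x = z).card ≤ D := by
  classical
  by_cases hz : ∃ a, ι a = z
  · obtain ⟨a, rfl⟩ := hz
    rcases a with a | c | p
    · refine (Finset.card_le_card (t := {Sum.inl a}) ?_).trans (by simp; omega)
      intro x hx
      rw [Finset.mem_filter] at hx
      obtain ⟨hx1, hx2⟩ := hx
      rw [Finset.mem_singleton]
      rcases x with x | ⟨c, r⟩ | ⟨p, b⟩ | u
      · simp only [pi] at hx2
        have := hι hx2
        simpa using this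
      · simp only [pi] at hx2
        have := hι hx2
        simp at this
      · simp only [pi] at hx2
        have := hι hx2
        simp at this
      · exact absurd hx1 (hP u)
    · refine (Finset.card_le_card (t := (univ : Finset (Fin D)).image fun r => bk c r) ?_).trans
        (Finset.card_image_le.trans (by simp))
      intro x hx
      rw [Finset.mem_filter] at hx
      obtain ⟨hx1, hx2⟩ := hx
      rw [Finset.mem_image]
      rcases x with x | ⟨c', r⟩ | ⟨p, b⟩ | u
      · simp only [pi] at hx2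
        have := hι hx2
        simp at this
      · simp only [pi] at hx2
        have := hι hx2
        simp only [Sum.inr.injEq, Sum.inl.injEq] at this
        subst this
        exact ⟨r, Finset.mem_univ _, rfl⟩
      · simp only [pi] at hx2
        have := hι hx2
        simp at this
      · exact absurd hx1 (hP u)
    · refine (Finset.card_le_card (t := (univ : Finset Bool).image fun b => md p b) ?_).trans
        (Finset.card_image_le.trans (by simp; omega))
      intro x hx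
      rw [Finset.mem_filter] at hx
      obtain ⟨hx1, hx2⟩ := hx
      rw [Finset.mem_image]
      rcases x with x | ⟨c', r⟩ | ⟨p', b⟩ | u
      · simp only [pi] at hx2
        have := hι hx2
        simp at this
      · simp only [pi] at hx2
        have := hι hx2
        simp at this
      · simp only [pi] at hx2
        have := hι hx2
        simp only [Sum.inr.injEq] at this
        subst this
        exact ⟨b, Finset.mem_univ _, rfl⟩
      · exact absurd hx1 (hP u)
  · have h1 : (P.filter fun x => pi ι x = z) = ∅ := by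
      rw [Finset.filter_eq_empty_iff]
      intro x hx hx2
      apply hz
      rcases x with x | ⟨c', r⟩ | ⟨p', b⟩ | u
      · exact ⟨_, hx2⟩
      · exact ⟨_, hx2⟩
      · exact ⟨_, hx2⟩
      · exact absurd hx (hP u)
    rw [h1, Finset.card_empty]
    omega

/-- The matrix `H`. -/
noncomputable def Hm (ι : IX l I Q w m → (Fin k → Bool)) (x y : CV l I Q w m D j) : ℝ :=
  ((BalAux.ch (pi ι x) (pi ι y) : ℤ) : ℝ)

/-- The diagonal correction. -/
noncomputable def Dg (k : ℕ) (z z' : Fin k → Bool) : ℝ :=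
  if z = z' then 1 - ((BalAux.ch z z' : ℤ) : ℝ) else 0

/-- The matrix `E`. -/
noncomputable def Em (ι : IX l I Q w m → (Fin k → Bool)) : CV l I Q w m D j → CV l I Q w m D j → ℝ :=
  rs Bk Bk fun x y => Dg k (pi ι x) (pi ι y)

lemma bd_Dg (k : ℕ) : Bd (Dg k) 2 := by
  have h1 : Bd (fun z z' : Fin k → Bool =>
      ((1 - ((BalAux.ch z z : ℤ) : ℝ)) / 2) * (if z = z' then (1 : ℝ) else 0) * 1) 1 :=
    bd_one.scale (p := fun z : Fin k → Bool => (1 - ((BalAux.ch z z : ℤ) : ℝ)) / 2)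
      (q := fun _ => 1) (fun z => by
        rcases BalAux.ch_val z z with h | h <;> rw [h] <;> norm_num) (fun z => by norm_num)
  have h2 := h1.add h1
  have h3 : (1 : ℝ) + 1 = 2 := by norm_num
  rw [h3] at h2
  refine h2.congr fun z z' => ?_
  unfold Dg
  by_cases hz : z = z'
  · subst hz
    simp only [if_true]
    ring
  · simp only [if_neg hz]
    ring


lemma card_Bk_fibre (hD : 2 ≤ D) {ι : IX l I Q w m → (Fin k → Bool)} (hι : Function.Injective ι)
    (z : Fin k → Bool) :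
    ((Bk : Finset (CV l I Q w m D j)).filter fun x => pi ι x = z).card ≤ D :=
  card_fibre hD hι _ (fun u hu => by
    have h1 : isB (Sum.inr (Sum.inr (Sum.inr u)) : CV l I Q w m D j) = true :=
      (Finset.mem_filter.1 hu).2
    exact Bool.noConfusion h1) z

lemma card_3_fibre (hD : 2 ≤ D) {ι : IX l I Q w m → (Fin k → Bool)} (hι : Function.Injective ι)
    (t : ℕ) (z : Fin k → Bool) :
    (((univ : Finset (CV l I Q w m D j)).filter fun x => clC t x ≤ 3).filter
      fun x => pi ι x = z).card ≤ D :=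
  card_fibre hD hι _ (fun u hu => by
    have h1 : clC t (Sum.inr (Sum.inr (Sum.inr u)) : CV l I Q w m D j) ≤ 3 :=
      (Finset.mem_filter.1 hu).2
    simp only [clC] at h1
    omega) z

lemma mem_Bk (c : Fin m) (r : Fin D) : (bk c r : CV l I Q w m D j) ∈ Bk :=
  Finset.mem_filter.2 ⟨Finset.mem_univ _, rfl⟩

lemma Em_bk (ι : IX l I Q w m → (Fin k → Bool)) (c c' : Fin m) (r r' : Fin D) :
    Em ι (bk c r : CV l I Q w m D j) (bk c' r') =
      Dg k (ι (Sum.inr (Sum.inl c))) (ι (Sum.inr (Sum.inl c'))) := by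
  unfold Em rs
  rw [if_pos ⟨mem_Bk _ _, mem_Bk _ _⟩]
  rfl

lemma mem_kd {t i : ℕ} {x : CV l I Q w m D j} : x ∈ kd (clC t) i ↔ clC t x = i := by
  simp only [kd, Finset.mem_filter, Finset.mem_univ, true_and]

lemma bd_W {σW : Fin w → Fin w → ℤ} {h : IX l I Q w m → IX l I Q w m → ℤ} {m₀ t : ℕ}
    {Λ : Finset (St l I Q)} {τ : St l I Q → Bool} {L : ℝ} (hL : Bd (rl σW) L) :
    Bd (rs (kd (clC t) 2) (kd (clC t) 2)
      (rl (sC' μ σW h m₀ t Λ τ : CV l I Q w m D j → CV l I Q w m D j → ℤ))) L := by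
  refine ⟨hL.1, fun u v => ?_⟩
  have hz : ∀ x y : CV l I Q w m D j, ¬ (clC t x = 2 ∧ clC t y = 2) →
      rs (kd (clC t) 2) (kd (clC t) 2)
        (rl (sC' μ σW h m₀ t Λ τ : CV l I Q w m D j → CV l I Q w m D j → ℤ)) x y = 0 := by
    intro x y hxy
    unfold rs
    rw [if_neg]
    simpa [kd] using hxy
  have h2 : ∀ x : (Fin m × Fin D) ⊕ ((MP l I Q × Bool) ⊕ (Σ e : Fin (l - 2), SV (j e + 2) 1 1)),
      clC t (Sum.inr x : CV l I Q w m D j) ≠ 2 := by
    intro x hx
    obtain ⟨a, ha⟩ := cl_two hx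
    simp at ha
  have h3 : ∑ x, ∑ y, u x * rs (kd (clC t) 2) (kd (clC t) 2)
        (rl (sC' μ σW h m₀ t Λ τ : CV l I Q w m D j → CV l I Q w m D j → ℤ)) x y * v y =
      ∑ a : Fin w, ∑ b : Fin w, u (Sum.inl a) * rl σW a b * v (Sum.inl b) := by
    rw [Fintype.sum_sum_type]
    have h4 : ∑ x : (Fin m × Fin D) ⊕ ((MP l I Q × Bool) ⊕ (Σ e : Fin (l - 2), SV (j e + 2) 1 1)),
        ∑ y, u (Sum.inr x) * rs (kd (clC t) 2) (kd (clC t) 2)
          (rl (sC' μ σW h m₀ t Λ τ : CV l I Q w m D j → CV l I Q w m D j → ℤ)) (Sum.inr x) y * v y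
          = 0 := by
      refine Finset.sum_eq_zero fun x _ => Finset.sum_eq_zero fun y _ => ?_
      rw [hz _ _ (fun hh => h2 x hh.1), mul_zero, zero_mul]
    rw [h4, add_zero]
    refine Finset.sum_congr rfl fun a _ => ?_
    rw [Fintype.sum_sum_type]
    have h5 : ∑ y : (Fin m × Fin D) ⊕ ((MP l I Q × Bool) ⊕ (Σ e : Fin (l - 2), SV (j e + 2) 1 1)),
        u (Sum.inl a) * rs (kd (clC t) 2) (kd (clC t) 2)
          (rl (sC' μ σW h m₀ t Λ τ : CV l I Q w m D j → CV l I Q w m D j → ℤ)) (Sum.inl a)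
          (Sum.inr y) * v (Sum.inr y) = 0 := by
      refine Finset.sum_eq_zero fun y _ => ?_
      rw [hz _ _ (fun hh => h2 y hh.2), mul_zero, zero_mul]
    rw [h5, add_zero]
    refine Finset.sum_congr rfl fun b _ => ?_
    congr 2
    unfold rs
    rw [if_pos ⟨mem_kd.2 rfl, mem_kd.2 rfl⟩]
    unfold rl
    rw [s_ww]
  have hn : ∀ u : CV l I Q w m D j → ℝ, nrm (fun a : Fin w => u (Sum.inl a)) ≤ nrm u := by
    intro u
    unfold nrm
    refine Real.sqrt_le_sqrt ?_
    rw [Fintype.sum_sum_type]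
    exact le_add_of_nonneg_right (Finset.sum_nonneg fun _ _ => sq_nonneg _)
  rw [h3]
  refine (hL.2 (fun a => u (Sum.inl a)) (fun a => v (Sum.inl a))).trans ?_
  exact mul_le_mul (mul_le_mul_of_nonneg_left (hn u) hL.1) (hn v) (nrm_nonneg _)
    (mul_nonneg hL.1 (nrm_nonneg _))

lemma le_div {m₀ t : ℕ} (ht : m₀ * m ≤ t) (c : Fin m) : m₀ ≤ t / m := by
  have hm : 0 < m := lt_of_le_of_lt (Nat.zero_le _) c.2
  exact (Nat.le_div_iff_mul_le hm).2 ht

theorem geo (hH : HadStmt) (hD : 2 ≤ D) {m₀ t : ℕ} (h0 : 2 * μ 0 < m₀)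
    (hμ : ∀ i, 1 ≤ μ i ∧ μ i ≤ μ 0) {σW : Fin w → Fin w → ℤ} (hW : IsSig σW)
    {ι : IX l I Q w m → (Fin k → Bool)} (hι : Function.Injective ι) (ht : m₀ * m ≤ t)
    (Λ : Finset (St l I Q)) (τ : St l I Q → Bool) {L : ℝ} (hL : Bd (rl σW) L) :
    Geo (sC' μ σW (fun a b => BalAux.ch (ι a) (ι b)) m₀ t Λ τ :
      CV l I Q w m D j → CV l I Q w m D j → ℤ) (clC t) (Y0C m₀) (Hm ι) (Em ι)
      (D * √(2 ^ k)) L D where
  sig := isSig_sC hW ⟨fun x y => BalAux.ch_symm _ _, fun x y => BalAux.ch_val _ _⟩ μ m₀ t Λ τ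
  le4 := clC_le t
  y0 := by
    intro x hx
    obtain ⟨c, r, rfl, hc⟩ := mem_Y0.1 hx
    have h1 := le_div ht c
    simp only [clC]
    rw [if_pos (by omega)]
  yy := by
    intro x y hx hy
    obtain ⟨c, r, rfl, hc⟩ := cl_zero hx
    obtain ⟨c', r', rfl, hc'⟩ := cl_zero hy
    rw [s_bb, if_pos (Or.inr (idx_lt hc hc'))]
  yh := by
    intro x y hx hy
    obtain ⟨c, r, rfl, hc⟩ := cl_zero hx
    rcases hy with hy | hy
    · obtain ⟨c', r', rfl, hc'⟩ := cl_one hy
      rw [s_bb, if_neg]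
      · rfl
      · rintro (h1 | h1)
        · subst h1; omega
        · exact not_idx_lt hc' h1
    · obtain ⟨a, rfl⟩ := cl_two hy
      rw [s_bw]
      rfl
  ym := by
    intro x y hx hx0 hy
    obtain ⟨c, r, rfl, hc⟩ := cl_zero hx
    obtain ⟨p, b, rfl⟩ := cl_three hy
    have h1 : m₀ ≤ (c : ℕ) := by
      by_contra hn
      exact hx0 (mem_Y0.2 ⟨c, r, rfl, by omega⟩)
    rw [s_bm _ _ _ _ _ _ hμ h0 c r h1]
    rfl
  xx := by
    intro x y hx hy
    obtain ⟨c, r, rfl, hc⟩ := cl_one hx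
    obtain ⟨c', r', rfl, hc'⟩ := cl_one hy
    rw [s_bb, Em_bk]
    by_cases h1 : c = c'
    · subst h1
      rw [if_pos (Or.inl rfl)]
      unfold Dg Hm
      rw [if_pos rfl]
      simp only [pi]
      push_cast
      ring
    · rw [if_neg]
      · unfold Dg Hm
        rw [if_neg]
        · simp only [pi, add_zero]
        · intro h2
          have := hι h2
          simp only [Sum.inr.injEq, Sum.inl.injEq] at this
          exact h1 this
      · rintro (h2 | h2)
        · exact h1 h2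
        · exact not_idx_lt hc' h2
  xw := by
    intro x y hx hy
    obtain ⟨c, r, rfl, hc⟩ := cl_one hx
    obtain ⟨a, rfl⟩ := cl_two hy
    rw [s_bw]
    rfl
  xm := by
    intro x y hx hy
    obtain ⟨p, b, rfl⟩ := cl_three hy
    rcases hx with hx | hx
    · obtain ⟨c, r, rfl, hc⟩ := cl_one hx
      have h1 := le_div ht c
      rw [s_bm _ _ _ _ _ _ hμ h0 c r (by omega)]
      rfl
    · obtain ⟨a, rfl⟩ := cl_two hx
      rw [s_wm]
      rfl
  hs := by
    intro x y
    unfold Hm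
    rw [BalAux.ch_symm]
  bH := hH.2 (CV l I Q w m D j) (Fin k → Bool) (fun z z' => ((BalAux.ch z z' : ℤ) : ℝ)) _
    (pi ι) _ _ D (hH.1 k) (card_3_fibre hD hι t) (card_3_fibre hD hι t)
  bE := by
    have h1 := hH.2 (CV l I Q w m D j) (Fin k → Bool) (Dg k) 2 (pi ι) Bk Bk D (bd_Dg k)
      (card_Bk_fibre hD hι) (card_Bk_fibre hD hι)
    rw [mul_comm] at h1
    exact h1
  bW := bd_W hL

/-! ### Cardinalities -/

lemma card_zero {t : ℕ} (ht : t ≤ m * m) :
    (kd (clC t : CV l I Q w m D j → ℕ) 0).card = t / m * D := by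
  have h1 : kd (clC t : CV l I Q w m D j → ℕ) 0 =
      (univ : Finset (CV l I Q w m D j)).filter fun x => ∃ c r, x = bk c r ∧
        (0 ≤ (c : ℕ) ∧ (c : ℕ) < 0 + t / m) := by
    ext x
    rw [mem_kd, Finset.mem_filter]
    constructor
    · intro hx
      obtain ⟨c, r, h1, h2⟩ := cl_zero hx
      exact ⟨Finset.mem_univ _, c, r, h1, Nat.zero_le _, by omega⟩
    · rintro ⟨_, c, r, rfl, _, h2⟩
      simp only [clC]
      rw [if_pos (by omega)]
  rw [h1, ConfA.card_bk (fun c _ => 0 ≤ c ∧ c < 0 + t / m), ConfA.card_range, mul_comm]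
  rw [zero_add]
  exact Nat.div_le_of_le_mul ht

lemma card_Y0 {m₀ : ℕ} (hm : m₀ ≤ m) :
    (Y0C m₀ : Finset (CV l I Q w m D j)).card = m₀ * D := by
  have h1 : (Y0C m₀ : Finset (CV l I Q w m D j)) =
      (univ : Finset (CV l I Q w m D j)).filter fun x => ∃ c r, x = bk c r ∧
        (0 ≤ (c : ℕ) ∧ (c : ℕ) < 0 + m₀) := by
    ext x
    rw [mem_Y0, Finset.mem_filter]
    constructor
    · rintro ⟨c, r, h1, h2⟩
      exact ⟨Finset.mem_univ _, c, r, h1, Nat.zero_le _, by omega⟩
    · rintro ⟨_, c, r, h1, _, h2⟩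
      exact ⟨c, r, h1, by omega⟩
  rw [h1, ConfA.card_bk (fun c _ => 0 ≤ c ∧ c < 0 + m₀), ConfA.card_range, mul_comm]
  omega

lemma card_three (t : ℕ) :
    (kd (clC t : CV l I Q w m D j → ℕ) 3).card = Fintype.card (MP l I Q × Bool) := by
  have hinj : Function.Injective
      (fun p : MP l I Q × Bool => (md p.1 p.2 : CV l I Q w m D j)) := by
    intro p q hpq
    simpa [md] using hpq
  rw [← Finset.card_univ, ← Finset.card_image_of_injective _ hinj]
  congr 1
  ext x
  rw [mem_kd, Finset.mem_image]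
  constructor
  · intro hx
    obtain ⟨p, b, rfl⟩ := cl_three hx
    exact ⟨(p, b), Finset.mem_univ _, rfl⟩
  · rintro ⟨p, _, rfl⟩
    rfl

lemma card_four (t : ℕ) :
    (kd (clC t : CV l I Q w m D j → ℕ) 4).card ≤ D + ∑ e : Fin (l - 2), 2 * (j e + 1) := by
  classical
  have h : Fintype.card (Σ e : Fin (l - 2), SV (j e + 2) 1 1) = ∑ e : Fin (l - 2), 2 * (j e + 1) := by
    rw [Fintype.card_sigma]
    refine Finset.sum_congr rfl fun e _ => ?_
    simp only [Fintype.card_sum, Fintype.card_fin, Fintype.card_prod, Fintype.card_bool]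
    omega
  rw [← h]
  have h1 : kd (clC t : CV l I Q w m D j → ℕ) 4 ⊆
      ((univ : Finset (CV l I Q w m D j)).filter fun x => ∃ c r, x = bk c r ∧
        (c : ℕ) = t / m) ∪
      (univ : Finset (Σ e : Fin (l - 2), SV (j e + 2) 1 1)).image
        fun u => (Sum.inr (Sum.inr (Sum.inr u)) : CV l I Q w m D j) := by
    intro x hx
    rw [mem_kd] at hx
    rw [Finset.mem_union, Finset.mem_filter, Finset.mem_image]
    rcases x with x | ⟨c, r⟩ | ⟨p, b⟩ | u
    · simp [clC] at hx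
    · left
      refine ⟨Finset.mem_univ _, c, r, rfl, ?_⟩
      simp only [clC] at hx
      split_ifs at hx with h1 h2 <;> first | exact h2 | omega
    · simp [clC] at hx
    · right
      exact ⟨u, Finset.mem_univ _, rfl⟩
  refine (Finset.card_le_card h1).trans ((Finset.card_union_le _ _).trans ?_)
  refine Nat.add_le_add ?_ (Finset.card_image_le.trans (le_of_eq Finset.card_univ))
  rw [ConfA.card_bk (fun c _ => c = t / m)]
  have h2 : ((univ : Finset (Fin m × Fin D)).filter fun p => (p.1 : ℕ) = t / m).card ≤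
      ((univ : Finset (Fin D))).card := by
    refine Finset.card_le_card_of_injOn (fun p => p.2) (fun _ _ => Finset.mem_univ _) ?_
    rintro ⟨c, r⟩ hp ⟨c', r'⟩ hp' hpp
    rw [Finset.mem_coe, Finset.mem_filter] at hp hp'
    simp only at hp hp' hpp
    have : c = c' := Fin.ext (by omega)
    rw [this, hpp]
  rw [Finset.card_univ, Fintype.card_fin] at h2
  exact h2

end ConfC

/-- Module ConfC. -/
theorem confCStmt (hH : HadStmt) : ConfCStmt := by
  intro l I Q w m D j μ σW k ι m₀ t Λ τ L _ hD h0 hm hμ hW hι ht ht' hL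
  refine ⟨⟨ConfC.Hm ι, ConfC.Em ι, ConfC.geo hH hD h0 hμ hW hι ht Λ τ hL⟩,
    ConfC.card_zero ht', ConfC.card_Y0 hm, ConfC.card_three t, ConfC.card_four t, ?_, ?_⟩
  · intro x
    rw [ConfC.mem_kd]
    constructor
    · intro hx
      obtain ⟨a, rfl⟩ := ConfC.cl_two hx
      rfl
    · intro hx
      rcases x with x | x
      · rfl
      · exact Bool.noConfusion hx
  · intro i x
    constructor
    · intro hx
      have h1 : lab1 μ i x ≠ (0, false) := by
        intro h2
        rw [h2] at hx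
        simp at hx
      have hi := hμ i.2.1
      rcases ConfA.lab1_cases i x h1 with ⟨c, r, rfl, hA, h2⟩ | ⟨c, r, rfl, hA, hB, h2⟩ |
        ⟨q, b, rfl, h2⟩
      · refine ConfC.mem_Y0.2 ⟨c, r, rfl, ?_⟩
        unfold inA at hA
        split_ifs at hA <;> omega
      · refine ConfC.mem_Y0.2 ⟨c, r, rfl, ?_⟩
        unfold inB at hB
        split_ifs at hB <;> omega
      · rw [h2] at hx
        simp only at hx
        have := q.2
        omega
    · intro hx1 hx2 hx3
      rw [ConfC.mem_kd] at hx3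
      obtain ⟨c, r, rfl, hc⟩ := ConfC.cl_zero hx3
      rcases ConfC.lab1_bk (w := w) (j := j) (μ := μ) i c r with h1 | h1 | h1 <;> omega

end Full

end MP_90430c
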