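import Pool.Agent.Lib.MP_90430c_co.Window
import Pool.Agent.Lib.MP_90430c_co.TopG
import Pool.Agent.Lib.MP_90430c_co.Greedy
import Pool.Agent.Lib.MP_90430c_co.EnvPath

/-!
# No gaps up to the top: definitions and statements of the modules

For even `l` all multiples of `g(n,l)` between `C n^(l-3/2)` and `max S(n,l)` minus a small error
occur. Complete proofs: team store `full_90430c_blueprint.md`.
-/

open Finset

set_option synthInstance.maxSize 4096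

namespace MP_90430c

namespace Full

/-! ## Norms -/

section norms

variable {V : Type} [Fintype V] [DecidableEq V]

/-- The Euclidean norm. -/
noncomputable def nrm (u : V → ℝ) : ℝ := √(∑ x, u x ^ 2)

/-- `|uᵀ A v| ≤ c |u| |v|` for all `u`, `v`. -/
def Bd (A : V → V → ℝ) (c : ℝ) : Prop :=
  0 ≤ c ∧ ∀ u v : V → ℝ, |∑ x, ∑ y, u x * A x y * v y| ≤ c * nrm u * nrm v

/-- The block of `A` with rows in `P` and columns in `Q`. -/
def rs (P Q : Finset V) (A : V → V → ℝ) (x y : V) : ℝ := if x ∈ P ∧ y ∈ Q then A x y else 0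

/-- A signature as a real matrix (with its diagonal). -/
def rl (σ : V → V → ℤ) (x y : V) : ℝ := (σ x y : ℝ)

/-- The sign vectors on `B` have, as seen from outside `Y`, norm at most `c`. -/
def Ex (σ : V → V → ℤ) (Y B : Finset V) (c : ℝ) : Prop :=
  ∀ ζ w : V → ℝ, (∀ x, |ζ x| ≤ 1) → (∀ x, x ∉ B → ζ x = 0) → (∀ x, x ∈ Y → w x = 0) →
    |∑ x, ∑ y, ζ x * (σ x y : ℝ) * w y| ≤ c * nrm w

end norms

/-- Module Word. Sums over injective closed sequences of a product of matrices, one of which has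
rank one. -/
def WordStmt : Prop :=
  ∀ (V : Type) [Fintype V] [DecidableEq V] (l : ℕ) [NeZero l] (B : Fin l → V → V → ℝ)
    (c : Fin l → ℝ) (i₀ : Fin l) (p q : V → ℝ),
    (∀ x y, B i₀ x y = p x * q y) → nrm p * nrm q ≤ c i₀ → (∀ i, i ≠ i₀ → Bd (B i) (c i)) →
    |∑ f ∈ inj l V, ∏ i, B i (f i) (f (i + 1))| ≤ 2 ^ (l ^ 2) * ∏ i, c i

/-! ## The effect of a gadget -/

section gadget

variable {V : Type} [Fintype V] [DecidableEq V]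

/-- The middle vertices of the gadget are twins. -/
def Tw (σ₀ : V → V → ℤ) (lab : V → ℕ × Bool) (s : ℕ) : Prop :=
  ∀ x x' y, (lab x).1 = (lab x').1 → 2 ≤ (lab x).1 → (lab x).1 < s → σ₀ x y = σ₀ x' y

/-- `σ₀` is positive between consecutive levels. -/
def Ps (σ₀ : V → V → ℤ) (lab : V → ℕ × Bool) (s : ℕ) : Prop :=
  ∀ x y, 1 ≤ (lab x).1 → (lab x).1 < s → (lab y).1 = (lab x).1 + 1 → σ₀ x y = 1

/-- The number of places with a middle vertex. -/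
def NM {l : ℕ} (lab : V → ℕ × Bool) (s : ℕ) (f : Fin l → V) : ℕ :=
  (univ.filter fun i => 2 ≤ (lab (f i)).1 ∧ (lab (f i)).1 < s).card

/-- The signed number of paths with `k` inner vertices from the last level to the first level which
do not use middle vertices. -/
def PS (σ₀ : V → V → ℤ) (lab : V → ℕ × Bool) (s k : ℕ) : ℤ :=
  ∑ h ∈ (univ : Finset (Fin (k + 2) → V)).filter (fun h => Function.Injective h ∧
      lab (h 0) = (s, false) ∧ lab (h (Fin.last (k + 1))) = (1, false) ∧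
      ∀ i, ¬ (2 ≤ (lab (h i)).1 ∧ (lab (h i)).1 < s)),
    ∏ i : Fin (k + 1), σ₀ (h i.castSucc) (h i.succ)

end gadget

/-- Module Ident. -/
def IdentStmt : Prop :=
  ∀ (V : Type) [Fintype V] [DecidableEq V] (l s a b : ℕ) [NeZero l] (lab : V → ℕ × Bool)
    (σ₀ : V → V → ℤ), Gadget lab s a b → IsSig σ₀ → Tw σ₀ lab s →
    Z l (sigY σ₀ lab s) - Z l (sigX σ₀ lab s)
      = ∑ f ∈ inj l V, cp l σ₀ f * (∏ j ∈ Icc 2 s, (cp l (gY lab j) f - 1)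
        - ∏ j ∈ Icc 2 s, (cp l (gX lab j) f - 1))

/-- Module Decomp. The closed sequences which use each level an odd number of times. -/
def DecompStmt : Prop :=
  ∀ (V : Type) [Fintype V] [DecidableEq V] (l s a b : ℕ) [NeZero l] (lab : V → ℕ × Bool)
    (σ₀ : V → V → ℤ), 3 ≤ s → s ≤ l → Gadget lab s a b → IsSig σ₀ → Ps σ₀ lab s →
    (∑ f ∈ (inj l V).filter (fun f => KK (gY lab) s f ∧ NM lab s f = s - 2), cp l σ₀ f
      = 2 * l * PS σ₀ lab s (l - s)) ∧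
    (∀ f ∈ inj l V, KK (gX lab) s f → s - 1 ≤ NM lab s f) ∧
    (∀ f ∈ inj l V, KK (gY lab) s f → s - 2 ≤ NM lab s f)

/-- Module Bad. Sequences with too many middle vertices (for both states). -/
def BadStmt : Prop :=
  ∀ (V : Type) [Fintype V] [DecidableEq V] (l s a b : ℕ) [NeZero l] (lab : V → ℕ × Bool)
    (σ₀ : V → V → ℤ) (Λ n' : ℝ), 3 ≤ s → s < l → Gadget lab s a b → IsSig σ₀ →
    Bd (rl σ₀) Λ → 1 ≤ Λ → (Fintype.card V : ℝ) ≤ Λ ^ 2 → (Fintype.card V : ℝ) ≤ n' → Λ ≤ n' →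
    |((∑ f ∈ (inj l V).filter (fun f => KK (gY lab) s f ∧ s - 1 ≤ NM lab s f),
        cp l σ₀ f : ℤ) : ℝ)| ≤
      2 ^ (l ^ 2) * (2 * l + 3) ^ l * (√(a * b) * n' * Λ ^ (l - s - 1)) ∧
    |((∑ f ∈ (inj l V).filter (fun f => KK (gX lab) s f ∧ s - 1 ≤ NM lab s f),
        cp l σ₀ f : ℤ) : ℝ)| ≤
      2 ^ (l ^ 2) * (2 * l + 3) ^ l * (√(a * b) * n' * Λ ^ (l - s - 1))

/-- Module Main. The main term: `Y` is an all positive set which contains the first and the last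
level and no middle vertices. -/
def MainStmt : Prop :=
  ∀ (V : Type) [Fintype V] [DecidableEq V] (s a b k : ℕ) (lab : V → ℕ × Bool)
    (σ₀ : V → V → ℤ) (Y : Finset V) (ε Λ : ℝ), 3 ≤ s → 1 ≤ k → Gadget lab s a b → IsSig σ₀ →
    (∀ x ∈ Y, ∀ y ∈ Y, σ₀ x y = 1) → (∀ x, (lab x).1 = 1 → x ∈ Y) → (∀ x, (lab x).1 = s → x ∈ Y) →
    (∀ x, 2 ≤ (lab x).1 → (lab x).1 < s → x ∉ Y) → 0 ≤ ε →
    Ex σ₀ Y (CC lab 1) (a * √Y.card) → Ex σ₀ Y (CC lab s) (ε * b * √Y.card) →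
    Ex σ₀ Y Y (ε * Y.card * √Y.card) → Bd (rl σ₀) Λ → (Y.card : ℝ) ≤ Λ →
    |(PS σ₀ lab s k : ℝ) - a * b * ((Y.card - 2).descFactorial k : ℕ)| ≤
      2 ^ ((k + 2) ^ 2) * 2 ^ k * (ε * (a * b) * Y.card * Λ ^ (k - 1))

/-- The constants of the effect theorem. -/
noncomputable def cE (l : ℕ) (C : ℝ) : ℝ := 8 * 2 ^ (l ^ 2) * (2 * l + 3) ^ l * C ^ l

/-- Module Eff. The size of the effect of a gadget with `s < l` levels. -/
def EffStmt : Prop :=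
  ∀ (V : Type) [Fintype V] [DecidableEq V] (l s b : ℕ) [NeZero l] (lab : V → ℕ × Bool)
    (σ₀ : V → V → ℤ) (Y : Finset V) (ε Λ C : ℝ), 3 ≤ s → s < l → l ≤ Fintype.card V →
    Gadget lab s b b → IsSig σ₀ → Tw σ₀ lab s → Ps σ₀ lab s →
    (∀ x ∈ Y, ∀ y ∈ Y, σ₀ x y = 1) → (∀ x, (lab x).1 = 1 → x ∈ Y) → (∀ x, (lab x).1 = s → x ∈ Y) →
    (∀ x, 2 ≤ (lab x).1 → (lab x).1 < s → x ∉ Y) → 0 < ε → ε ≤ 1 →
    Ex σ₀ Y (CC lab 1) (ε * b * √Y.card) → Ex σ₀ Y (CC lab s) (ε * b * √Y.card) →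
    Ex σ₀ Y Y (ε * Y.card * √Y.card) → Bd (rl σ₀) Λ → (Y.card : ℝ) ≤ Λ → 1 ≤ C →
    Λ ≤ C * Y.card → (Fintype.card V : ℝ) ≤ Λ ^ 2 → 8 * (l : ℝ) ^ 2 ≤ Y.card →
    ε * cE l C ≤ 1 → cE l C * Fintype.card V ≤ Y.card * b →
    1 / 2 * (2 ^ (s - 2) * (b : ℝ) ^ 2 * (Y.card : ℝ) ^ (l - s)) ≤
        (((-1) ^ s * (cc l (sigY σ₀ lab s) - cc l (sigX σ₀ lab s)) : ℤ) : ℝ) ∧
      (((-1) ^ s * (cc l (sigY σ₀ lab s) - cc l (sigX σ₀ lab s)) : ℤ) : ℝ) ≤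
        2 * (2 ^ (s - 2) * (b : ℝ) ^ 2 * (Y.card : ℝ) ^ (l - s))

/-- Module Last. The exact effect of a gadget with `l` levels. -/
def LastStmt : Prop :=
  ∀ (V : Type) [Fintype V] [DecidableEq V] (l a b : ℕ) [NeZero l] (lab : V → ℕ × Bool)
    (σ₀ : V → V → ℤ), 3 ≤ l → l ≤ Fintype.card V → Gadget lab l a b → IsSig σ₀ → Tw σ₀ lab l →
    Ps σ₀ lab l → (∀ x y, (lab x).1 = 1 → (lab y).1 = l → σ₀ x y = 1) →
    (-1) ^ l * (cc l (sigY σ₀ lab l) - cc l (sigX σ₀ lab l)) = 2 ^ (l - 2) * ((a * b : ℕ) : ℤ)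

/-- Module Dvd. The first level is a disjoint union of classes of `l 2^l` twins. -/
def DvdStmt : Prop :=
  ∀ (V : Type) [Fintype V] [DecidableEq V] (l s a b : ℕ) [NeZero l] (lab : V → ℕ × Bool)
    (σ₀ : V → V → ℤ) (bl : V → ℕ), 3 ≤ l → l ≤ Fintype.card V → Gadget lab s a b → IsSig σ₀ →
    Tw σ₀ lab s →
    (∀ x, (lab x).1 = 1 →
      (univ.filter fun y => (lab y).1 = 1 ∧ bl y = bl x).card = l * 2 ^ l) →
    (∀ x y z, (lab x).1 = 1 → (lab y).1 = 1 → bl x = bl y → σ₀ x z = σ₀ y z) →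
    (2 ^ (l - 2) : ℤ) ∣ cc l (sigY σ₀ lab s) - cc l (sigX σ₀ lab s)

/-- Module Step. Changing the signs of few pairs. -/
def StepStmt : Prop :=
  ∀ (V : Type) [Fintype V] [DecidableEq V] (l : ℕ) [NeZero l] (σ σ' : V → V → ℤ)
    (P : Finset (V × V)) (Λ : ℝ), 3 ≤ l → l ≤ Fintype.card V → IsSig σ → IsSig σ' →
    (∀ x y, (x, y) ∉ P → (y, x) ∉ P → σ' x y = σ x y) → Bd (rl σ) Λ →
    ((|cc l σ' - cc l σ| : ℤ) : ℝ) ≤
      P.card * (2 ^ (l ^ 2) * Fintype.card V * (Λ + 2 * P.card) ^ (l - 3))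

/-- Module Step. The effect of a unit gadget. -/
def UnitStmt : Prop :=
  ∀ (V : Type) [Fintype V] [DecidableEq V] (l s : ℕ) [NeZero l] (lab : V → ℕ × Bool)
    (σ₀ : V → V → ℤ) (Λ : ℝ), 3 ≤ l → l ≤ Fintype.card V → Gadget lab s 1 1 → IsSig σ₀ →
    Bd (rl (sigX σ₀ lab s)) Λ →
    ((|cc l (sigY σ₀ lab s) - cc l (sigX σ₀ lab s)| : ℤ) : ℝ) ≤
      2 * (2 ^ (l ^ 2) * Fintype.card V * (Λ + 4) ^ (l - 3))

/-! ## The base count and the final count -/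

/-- Module Trace. Signatures with nonpositive `Z` have small norm. -/
def TraceStmt : Prop :=
  ∀ (V : Type) [Fintype V] [DecidableEq V] (l : ℕ) [NeZero l] (σ : V → V → ℤ), Even l → 4 ≤ l →
    IsSig σ → Z l σ ≤ 0 →
    Bd (rl σ) (2 ^ (l ^ 2) * (Fintype.card V : ℝ) ^ ((1 : ℝ) / 2 + 1 / l) + 1)

/-- Module Rem. Removing `r` vertices. -/
def RemStmt : Prop :=
  ∀ (l n r : ℕ) [NeZero l], l ≤ n → ∀ σ : Fin (n + r) → Fin (n + r) → ℤ, IsSig σ → Z l σ ≤ 0 →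
    ∃ σ' : Fin n → Fin n → ℤ, IsSig σ' ∧ Z l σ' ≤ 0 ∧
      ((n : ℤ) + 1) * Z l σ' ≤ ((n : ℤ) + 1 - l * r) * Z l σ

/-- The signature `τ` with the part on `W` replaced by `σW`, switched by `d`. -/
def sw {W K : Type} (σW : W → W → ℤ) (τ : W ⊕ K → W ⊕ K → ℤ) (d : W → ℤˣ) :
    W ⊕ K → W ⊕ K → ℤ
  | Sum.inl x, Sum.inl y => σW x y * ((d x : ℤˣ) : ℤ) * ((d y : ℤˣ) : ℤ)
  | x, y => τ x y

/-- Module Switch. -/
def SwitchStmt : Prop :=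
  ∀ (W K : Type) [Fintype W] [DecidableEq W] [Fintype K] [DecidableEq K] (l : ℕ) [NeZero l]
    (σW : W → W → ℤ) (τ : W ⊕ K → W ⊕ K → ℤ), 3 ≤ l → IsSig σW → IsSig τ →
    ∃ d : W → ℤˣ, Z l (sw σW τ d) ≤ Z l σW +
      ∑ f ∈ (inj l (W ⊕ K)).filter (fun f => ∀ i, ¬ ((f i).isLeft ∧ (f (i + 1)).isLeft)), cp l τ f

/-- Module Base. Sequences without two consecutive vertices in `W`. -/
def BaseStmt : Prop :=
  ∀ (V : Type) [Fintype V] [DecidableEq V] (l : ℕ) [NeZero l] (τ : V → V → ℤ) (W Y : Finset V)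
    (g : ℝ), 3 ≤ l → IsSig τ → Disjoint W Y → (∀ x ∈ Y, ∀ y ∈ Y, τ x y = 1) →
    Bd (fun x y => if (x ∈ Y ∧ y ∈ Y) ∨ (x ∈ W ∧ y ∈ W) then 0 else (τ x y : ℝ)) g →
    1 ≤ g → g ≤ Y.card →
    |((∑ f ∈ (inj l V).filter (fun f => ∀ i, ¬ (f i ∈ W ∧ f (i + 1) ∈ W)), cp l τ f : ℤ) : ℝ)| ≤
      (Y.card : ℝ) ^ l + 2 ^ (l ^ 2) * 3 ^ l *
        ((Y.card : ℝ) ^ (l - 1) * g + (Wᶜ.card : ℝ) * g ^ l)

/-- Module Fin. The count for a large all positive set. -/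
def FinStmt : Prop :=
  ∀ (V : Type) [Fintype V] [DecidableEq V] (l : ℕ) [NeZero l] (σ : V → V → ℤ) (Y : Finset V)
    (g Λ : ℝ), Even l → 4 ≤ l → IsSig σ → (∀ x ∈ Y, ∀ y ∈ Y, σ x y = 1) →
    Bd (rs Y Yᶜ (rl σ)) g → Bd (rl σ) Λ → (Y.card : ℝ) ≤ Λ →
    (Y.card.descFactorial l : ℝ) - 2 ^ (l ^ 2) * 2 ^ l * (g * Λ ^ (l - 1)) -
      2 ^ (l ^ 3) * (Fintype.card V : ℝ) ^ (l / 2 + 1) ≤ ((Z l σ : ℤ) : ℝ)

/-! ## The geometry of the configuration -/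

/-- Module Had. -/
def HadStmt : Prop :=
  (∀ k : ℕ, Bd (fun x y : Fin k → Bool => ((BalAux.ch x y : ℤ) : ℝ)) (√(2 ^ k))) ∧
  ∀ (V U : Type) [Fintype V] [DecidableEq V] [Fintype U] [DecidableEq U] (H : U → U → ℝ)
    (c : ℝ) (π : V → U) (P Q : Finset V) (r : ℕ), Bd H c →
    (∀ z, (P.filter fun x => π x = z).card ≤ r) → (∀ z, (Q.filter fun x => π x = z).card ≤ r) →
    Bd (rs P Q fun x y => H (π x) (π y)) (r * c)

section geo

variable {V : Type} [Fintype V] [DecidableEq V]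

/-- The vertices of kind `i`: `0` the all positive set, `1` blocks not yet joined, `2` the old
vertices, `3` middle vertices, `4` few exceptional vertices. -/
def kd (cl : V → ℕ) (i : ℕ) : Finset V := univ.filter fun x => cl x = i

/-- The geometry of a configuration. -/
structure Geo (σ : V → V → ℤ) (cl : V → ℕ) (Y0 : Finset V) (H E : V → V → ℝ) (g L D : ℝ) :
    Prop where
  sig : IsSig σ
  le4 : ∀ x, cl x ≤ 4
  y0 : ∀ x ∈ Y0, cl x = 0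
  yy : ∀ x y, cl x = 0 → cl y = 0 → σ x y = 1
  yh : ∀ x y, cl x = 0 → cl y = 1 ∨ cl y = 2 → (σ x y : ℝ) = H x y
  ym : ∀ x y, cl x = 0 → x ∉ Y0 → cl y = 3 → (σ x y : ℝ) = H x y
  xx : ∀ x y, cl x = 1 → cl y = 1 → (σ x y : ℝ) = H x y + E x y
  xw : ∀ x y, cl x = 1 → cl y = 2 → (σ x y : ℝ) = H x y
  xm : ∀ x y, cl x = 1 ∨ cl x = 2 → cl y = 3 → (σ x y : ℝ) = H x y
  hs : ∀ x y, H x y = H y x
  bH : Bd (rs (univ.filter fun x => cl x ≤ 3) (univ.filter fun x => cl x ≤ 3) H) g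
  bE : Bd E (2 * D)
  bW : Bd (rs (kd cl 2) (kd cl 2) (rl σ)) L

/-- The norm of everything except the old and the all positive part. -/
noncomputable def G0 (cl : V → ℕ) (Y0 : Finset V) (g D : ℝ) : ℝ :=
  14 * g + 2 * D + 2 * √((kd cl 3).card * Y0.card) + (kd cl 3).card +
    2 * √((kd cl 4).card * Fintype.card V)

end geo

/-- Module Geo. -/
def GeoStmt : Prop :=
  ∀ (V : Type) [Fintype V] [DecidableEq V] (σ : V → V → ℤ) (cl : V → ℕ) (Y0 : Finset V)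
    (H E : V → V → ℝ) (g L D : ℝ), Geo σ cl Y0 H E g L D →
    Bd (fun x y => if (x ∈ kd cl 0 ∧ y ∈ kd cl 0) ∨ (x ∈ kd cl 2 ∧ y ∈ kd cl 2) then 0
      else (σ x y : ℝ)) (G0 cl Y0 g D) ∧
    Bd (rl σ) ((kd cl 0).card + L + G0 cl Y0 g D) ∧
    ∀ B ⊆ Y0, Ex σ (kd cl 0) B
      (√B.card * g + B.card * √(kd cl 3).card + B.card * √(kd cl 4).card)

/-! ## Numerical modules -/

/-- Sites: `(s - 3, i, q)` where `s` is the number of levels, `i` the size and `q` the number. -/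
abbrev S1 (l I Q : ℕ) : Type := Fin (l - 2) × Fin (I + 2) × Fin Q

/-- Module Stage. The greedy algorithm at one stage. Here `y` is the size of the all positive set,
`is` the number of the smallest size which is used for levels `s < l`, `m i` the number of
vertices of the first level for size `i ≤ I`. -/
def StageStmt : Prop :=
  ∀ (l I Q is y t : ℕ) (m : ℕ → ℕ) (D : ℕ) (c : (S1 l I Q → Bool) → ℤ) (x : ℤ), 4 ≤ l → is ≤ I →
    1 ≤ y → (∀ i, 1 ≤ m i) → (∀ i < I, m i ≤ t * m (i + 1)) → m I = D → D ^ 2 ≤ Q →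
    4 * t ^ 2 ≤ Q → 4 * m is ^ 2 * y ≤ Q * m 0 ^ 2 →
    (∀ (p : S1 l I Q) (τ : S1 l I Q → Bool), τ p = false → (p.1 : ℕ) + 3 < l → (p.2.1 : ℕ) ≤ is →
      (1 / 2 * (2 ^ ((p.1 : ℕ) + 1) * (m p.2.1 : ℝ) ^ 2 * (y : ℝ) ^ (l - ((p.1 : ℕ) + 3))) ≤
        (((-1) ^ ((p.1 : ℕ) + 3) * (c (Function.update τ p true) - c τ) : ℤ) : ℝ) ∧
      (((-1) ^ ((p.1 : ℕ) + 3) * (c (Function.update τ p true) - c τ) : ℤ) : ℝ) ≤
        2 * (2 ^ ((p.1 : ℕ) + 1) * (m p.2.1 : ℝ) ^ 2 * (y : ℝ) ^ (l - ((p.1 : ℕ) + 3)))) ∧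
      (2 ^ (l - 2) : ℤ) ∣ c (Function.update τ p true) - c τ) →
    (∀ (p : S1 l I Q) (τ : S1 l I Q → Bool), τ p = false → (p.1 : ℕ) + 3 = l → (p.2.1 : ℕ) ≤ I →
      (-1) ^ l * (c (Function.update τ p true) - c τ) = 2 ^ (l - 2) * ((m p.2.1 ^ 2 : ℕ) : ℤ)) →
    (∀ (p : S1 l I Q) (τ : S1 l I Q → Bool), τ p = false → (p.1 : ℕ) + 3 = l →
      (p.2.1 : ℕ) = I + 1 → (-1) ^ l * (c (Function.update τ p true) - c τ) = 2 ^ (l - 2)) →
    (2 ^ (l - 2) : ℤ) ∣ x - c (fun _ => false) → x ≤ c (fun _ => false) →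
    ((c (fun _ => false) - x : ℤ) : ℝ) ≤ Q * (m 0 : ℝ) ^ 2 * (y : ℝ) ^ (l - 3) →
    ∃ τ, c τ = x

/-- Module Fixed. The whole algorithm for fixed `n`: `T0 ≤ t ≤ T1` is the time, `y t` the size of
the all positive set at time `t`, `is t` the number of the smallest size used at time `t`. -/
def FixedStmt : Prop :=
  ∀ (l I Q t₀ D n v T0 T1 : ℕ) (y is : ℕ → ℕ) (m : ℕ → ℕ) (K : ℝ)
    (c : ℕ → (S1 l I Q ⊕ Fin (l - 2) → Bool) → ℤ) (x : ℤ), 4 ≤ l → v ≤ l - 2 → T0 ≤ T1 → 0 ≤ K →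
    (∀ t, T0 ≤ t → t ≤ T1 → is t ≤ I ∧ 1 ≤ y t) →
    (∀ t, T0 ≤ t → t < T1 → y t ≤ y (t + 1) ∧ y (t + 1) ≤ 2 * y t) →
    (∀ i, 1 ≤ m i) → (∀ i < I, m i ≤ t₀ * m (i + 1)) → m I = D → D ^ 2 ≤ Q → 4 * t₀ ^ 2 ≤ Q →
    (∀ t, T0 ≤ t → t ≤ T1 → 4 * m (is t) ^ 2 * y t ≤ Q * m 0 ^ 2) →
    2 ^ l * l * K * n ≤ Q * (m 0 : ℝ) ^ 2 →
    (∀ t τ, (2 ^ v : ℤ) ∣ c t τ) →
    (∀ t, T0 ≤ t → t < T1 → ((|c (t + 1) (fun _ => false) - c t (fun _ => false)| : ℤ) : ℝ) ≤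
      K * n * (y t : ℝ) ^ (l - 3)) →
    (∀ t, T0 ≤ t → t ≤ T1 → ∀ (p : S1 l I Q) (τ : S1 l I Q ⊕ Fin (l - 2) → Bool),
      τ (Sum.inl p) = false → (p.1 : ℕ) + 3 < l → (p.2.1 : ℕ) ≤ is t →
      (1 / 2 * (2 ^ ((p.1 : ℕ) + 1) * (m p.2.1 : ℝ) ^ 2 * (y t : ℝ) ^ (l - ((p.1 : ℕ) + 3))) ≤
        (((-1) ^ ((p.1 : ℕ) + 3) * (c t (Function.update τ (Sum.inl p) true) - c t τ) : ℤ) : ℝ) ∧
      (((-1) ^ ((p.1 : ℕ) + 3) * (c t (Function.update τ (Sum.inl p) true) - c t τ) : ℤ) : ℝ) ≤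
        2 * (2 ^ ((p.1 : ℕ) + 1) * (m p.2.1 : ℝ) ^ 2 * (y t : ℝ) ^ (l - ((p.1 : ℕ) + 3)))) ∧
      (2 ^ (l - 2) : ℤ) ∣ c t (Function.update τ (Sum.inl p) true) - c t τ) →
    (∀ t, T0 ≤ t → t ≤ T1 → ∀ (p : S1 l I Q) (τ : S1 l I Q ⊕ Fin (l - 2) → Bool),
      τ (Sum.inl p) = false → (p.1 : ℕ) + 3 = l → (p.2.1 : ℕ) ≤ I →
      (-1) ^ l * (c t (Function.update τ (Sum.inl p) true) - c t τ) =
        2 ^ (l - 2) * ((m p.2.1 ^ 2 : ℕ) : ℤ)) →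
    (∀ t, T0 ≤ t → t ≤ T1 → ∀ (p : S1 l I Q) (τ : S1 l I Q ⊕ Fin (l - 2) → Bool),
      τ (Sum.inl p) = false → (p.1 : ℕ) + 3 = l → (p.2.1 : ℕ) = I + 1 →
      (-1) ^ l * (c t (Function.update τ (Sum.inl p) true) - c t τ) = 2 ^ (l - 2)) →
    (∀ t, T0 ≤ t → t ≤ T1 → ∀ (e : Fin (l - 2)) (τ : S1 l I Q ⊕ Fin (l - 2) → Bool),
      τ (Sum.inr e) = false → v ≤ e →
      (∃ z, c t (Function.update τ (Sum.inr e) true) - c t τ = 2 ^ (e : ℕ) * (2 * z + 1)) ∧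
      ((|c t (Function.update τ (Sum.inr e) true) - c t τ| : ℤ) : ℝ) ≤
        K * n * (y t : ℝ) ^ (l - 3)) →
    (2 ^ v : ℤ) ∣ x → c T1 (fun _ => false) ≤ x →
    (x : ℝ) + 2 ^ l * l * K * n * (y T0 : ℝ) ^ (l - 3) ≤ (c T0 (fun _ => false) : ℤ) →
    ∃ t τ, c t τ = x

/-! ## The configuration -/

/-- All sites; the sites `Sum.inr e` are unit gadgets for the residues. -/
abbrev St (l I Q : ℕ) : Type := S1 l I Q ⊕ Fin (l - 2)

/-- Pairs of middle vertices. -/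
abbrev MP (l I Q : ℕ) : Type := Σ i : S1 l I Q, Fin ((i.1 : ℕ) + 1)

/-- The vertex set: `w` old vertices, `m` blocks of `D` twins, middle vertices and the vertices of
the unit gadgets. -/
abbrev CV (l I Q w m D : ℕ) (j : ℕ → ℕ) : Type :=
  Fin w ⊕ ((Fin m × Fin D) ⊕ ((MP l I Q × Bool) ⊕ (Σ e : Fin (l - 2), SV (j e + 2) 1 1)))

/-- The index set of the Hadamard matrix: old vertices, blocks and pairs of middle vertices. -/
abbrev IX (l I Q w m : ℕ) : Type := Fin w ⊕ (Fin m ⊕ MP l I Q)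

section conf

variable {l I Q w m D : ℕ} {j : ℕ → ℕ}

/-- The first level of the gadgets of size `i`. -/
def inA (I : ℕ) (μ : ℕ → ℕ) (i c r : ℕ) : Prop :=
  if i ≤ I then c < μ i else c = 2 * μ 0 ∧ r = 0

/-- The last level of the gadgets of size `i`. -/
def inB (I : ℕ) (μ : ℕ → ℕ) (i c r : ℕ) : Prop :=
  if i ≤ I then μ 0 ≤ c ∧ c < μ 0 + μ i else c = 2 * μ 0 ∧ r = 1

instance (I : ℕ) (μ : ℕ → ℕ) (i c r : ℕ) : Decidable (inA I μ i c r) := by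
  unfold inA; infer_instance

instance (I : ℕ) (μ : ℕ → ℕ) (i c r : ℕ) : Decidable (inB I μ i c r) := by
  unfold inB; infer_instance

/-- The labels of a site. -/
def lab1 (μ : ℕ → ℕ) (i : S1 l I Q) : CV l I Q w m D j → ℕ × Bool
  | Sum.inl _ => (0, false)
  | Sum.inr (Sum.inl (c, r)) =>
    if inA I μ i.2.1 c r then (1, false)
    else if inB I μ i.2.1 c r then ((i.1 : ℕ) + 3, false) else (0, false)
  | Sum.inr (Sum.inr (Sum.inl (p, t))) => if p.1 = i then ((p.2 : ℕ) + 2, t) else (0, false)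
  | Sum.inr (Sum.inr (Sum.inr _)) => (0, false)

/-- The labels of a unit gadget. -/
def lab2 (e : Fin (l - 2)) : CV l I Q w m D j → ℕ × Bool
  | Sum.inr (Sum.inr (Sum.inr u)) => if u.1 = e then lb (j u.1 + 2) u.2 else (0, false)
  | _ => (0, false)

/-- The labels of the sites. -/
def labC (μ : ℕ → ℕ) : St l I Q → CV l I Q w m D j → ℕ × Bool
  | Sum.inl i => lab1 μ i
  | Sum.inr e => lab2 e

/-- The numbers of levels. -/
def sC (j : ℕ → ℕ) : St l I Q → ℕ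
  | Sum.inl i => (i.1 : ℕ) + 3
  | Sum.inr e => j e + 2

/-- The numbers of vertices of the first and of the last level. -/
def bC (D : ℕ) (μ : ℕ → ℕ) : St l I Q → ℕ
  | Sum.inl i => if (i.2.1 : ℕ) ≤ I then D * μ i.2.1 else 1
  | Sum.inr _ => 1

/-- The basic signature at time `t`. -/
def base (σW : Fin w → Fin w → ℤ) (h : IX l I Q w m → IX l I Q w m → ℤ) (m₀ t : ℕ) :
    CV l I Q w m D j → CV l I Q w m D j → ℤ
  | Sum.inl x, Sum.inl y => σW x y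
  | Sum.inl x, Sum.inr (Sum.inl (c, _)) => h (Sum.inl x) (Sum.inr (Sum.inl c))
  | Sum.inr (Sum.inl (c, _)), Sum.inl x => h (Sum.inr (Sum.inl c)) (Sum.inl x)
  | Sum.inr (Sum.inl (c, _)), Sum.inr (Sum.inl (c', _)) =>
    if c = c' ∨ idx c c' < t then 1 else h (Sum.inr (Sum.inl c)) (Sum.inr (Sum.inl c'))
  | Sum.inl x, Sum.inr (Sum.inr (Sum.inl (p, _))) => h (Sum.inl x) (Sum.inr (Sum.inr p))
  | Sum.inr (Sum.inr (Sum.inl (p, _))), Sum.inl x => h (Sum.inr (Sum.inr p)) (Sum.inl x)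
  | Sum.inr (Sum.inl (c, _)), Sum.inr (Sum.inr (Sum.inl (p, _))) =>
    if (c : ℕ) < m₀ then 1 else h (Sum.inr (Sum.inl c)) (Sum.inr (Sum.inr p))
  | Sum.inr (Sum.inr (Sum.inl (p, _))), Sum.inr (Sum.inl (c, _)) =>
    if (c : ℕ) < m₀ then 1 else h (Sum.inr (Sum.inr p)) (Sum.inr (Sum.inl c))
  | Sum.inr (Sum.inr (Sum.inl _)), Sum.inr (Sum.inr (Sum.inl _)) => 1
  | Sum.inr (Sum.inr (Sum.inr _)), _ => 1
  | _, Sum.inr (Sum.inr (Sum.inr _)) => 1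

end conf

section gen

variable {V J : Type} [DecidableEq J]

/-- The signature of a gadget in the state `t`. -/
def gst (lab : V → ℕ × Bool) (s : ℕ) (t : Bool) (x y : V) : ℤ :=
  if t then ∏ j ∈ Icc 2 s, gY lab j x y else ∏ j ∈ Icc 2 s, gX lab j x y

/-- The basic signature `β` with the gadgets in `Λ`. -/
def SG (β : V → V → ℤ) (lab : J → V → ℕ × Bool) (s : J → ℕ) (Λ : Finset J) (τ : J → Bool)
    (x y : V) : ℤ :=
  β x y * ∏ i ∈ Λ, gst (lab i) (s i) (τ i) x y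

end gen

/-- The signature of a configuration with the gadgets in `Λ`. -/
def sC' {l I Q w m D : ℕ} {j : ℕ → ℕ} (μ : ℕ → ℕ) (σW : Fin w → Fin w → ℤ)
    (h : IX l I Q w m → IX l I Q w m → ℤ) (m₀ t : ℕ) (Λ : Finset (St l I Q)) (τ : St l I Q → Bool) :
    CV l I Q w m D j → CV l I Q w m D j → ℤ :=
  SG (base σW h m₀ t) (labC μ) (sC j) Λ τ

/-- Module ConfA. Numbers of vertices, gadgets, toggling. -/
def ConfAStmt : Prop :=
  (∀ (l I Q w m D : ℕ) (j : ℕ → ℕ), 4 ≤ l →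
    w + m * D ≤ Fintype.card (CV l I Q w m D j) ∧
    Fintype.card (CV l I Q w m D j) = w + m * D + Fintype.card (MP l I Q × Bool) +
      ∑ e : Fin (l - 2), 2 * (j e + 1) ∧
    Fintype.card (MP l I Q × Bool) ≤ 2 * l ^ 2 * (I + 2) * Q ∧
    Fintype.card (IX l I Q w m) ≤ w + m + Fintype.card (MP l I Q × Bool)) ∧
  (∀ (l I Q w m D : ℕ) (j : ℕ → ℕ) (μ : ℕ → ℕ), 4 ≤ l → 2 ≤ D → 2 * μ 0 < m →
    (∀ i, 1 ≤ μ i ∧ μ i ≤ μ 0) → ∀ i : St l I Q,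
      Gadget (labC μ i : CV l I Q w m D j → ℕ × Bool) (sC j i) (bC D μ i) (bC D μ i)) ∧
  (∀ (V J : Type) [DecidableEq J] (β : V → V → ℤ) (lab : J → V → ℕ × Bool)
    (s : J → ℕ) (Λ : Finset J) (τ : J → Bool) (i : J), i ∈ Λ →
    (SG β lab s (Λ.erase i) (Function.update τ i true) = SG β lab s (Λ.erase i) τ) ∧
    (τ i = false → SG β lab s Λ τ = sigX (SG β lab s (Λ.erase i) τ) (lab i) (s i)) ∧
    (SG β lab s Λ (Function.update τ i true) = sigY (SG β lab s (Λ.erase i) τ) (lab i) (s i)))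

/-- Module ConfB. The gadget `i ∉ Λ` in the configuration with the gadgets in `Λ`. -/
def ConfBStmt : Prop :=
  ∀ (l I Q w m D : ℕ) (j : ℕ → ℕ) (μ : ℕ → ℕ) (σW : Fin w → Fin w → ℤ)
    (h : IX l I Q w m → IX l I Q w m → ℤ) (m₀ t : ℕ) (Λ : Finset (St l I Q)) (τ : St l I Q → Bool),
    4 ≤ l → D = l * 2 ^ l → 2 * μ 0 < m₀ → m₀ ≤ m → (∀ i, 1 ≤ μ i ∧ μ i ≤ μ 0) → IsSig σW →
    IsSig h → m₀ * m ≤ t →
    IsSig (sC' μ σW h m₀ t Λ τ : CV l I Q w m D j → CV l I Q w m D j → ℤ) ∧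
    (∀ i : S1 l I Q, Sum.inl i ∉ Λ →
      Tw (sC' μ σW h m₀ t Λ τ : CV l I Q w m D j → CV l I Q w m D j → ℤ) (lab1 μ i)
        ((i.1 : ℕ) + 3) ∧
      Ps (sC' μ σW h m₀ t Λ τ : CV l I Q w m D j → CV l I Q w m D j → ℤ) (lab1 μ i)
        ((i.1 : ℕ) + 3) ∧
      (∀ x y : CV l I Q w m D j, (lab1 μ i x).1 = 1 → (lab1 μ i y).1 = (i.1 : ℕ) + 3 →
        sC' μ σW h m₀ t Λ τ x y = 1) ∧
      ((i.2.1 : ℕ) ≤ I → ∃ bl : CV l I Q w m D j → ℕ,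
        (∀ x, (lab1 μ i x).1 = 1 →
          (univ.filter fun y => (lab1 μ i y).1 = 1 ∧ bl y = bl x).card = l * 2 ^ l) ∧
        (∀ x y z, (lab1 μ i x).1 = 1 → (lab1 μ i y).1 = 1 → bl x = bl y →
          sC' μ σW h m₀ t Λ τ x z = sC' μ σW h m₀ t Λ τ y z))) ∧
    (∀ e : Fin (l - 2), Sum.inr e ∉ Λ →
      PosAt (sC' μ σW h m₀ t Λ τ : CV l I Q w m D j → CV l I Q w m D j → ℤ) (lab2 e)) ∧
    (∃ P : Finset (CV l I Q w m D j × CV l I Q w m D j), P.card ≤ D ^ 2 ∧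
      ∀ x y, (x, y) ∉ P → (y, x) ∉ P →
        sC' μ σW h m₀ (t + 1) Λ τ x y = sC' μ σW h m₀ t Λ τ x y)

section conf2

variable {l I Q w m D : ℕ} {j : ℕ → ℕ}

/-- The kinds of the vertices at time `t`. -/
def clC (t : ℕ) : CV l I Q w m D j → ℕ
  | Sum.inl _ => 2
  | Sum.inr (Sum.inl (c, _)) => if (c : ℕ) < t / m then 0 else if (c : ℕ) = t / m then 4 else 1
  | Sum.inr (Sum.inr (Sum.inl _)) => 3
  | Sum.inr (Sum.inr (Sum.inr _)) => 4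

/-- The vertices of the first `m₀` blocks. -/
def inY0 (m₀ : ℕ) : CV l I Q w m D j → Bool
  | Sum.inr (Sum.inl (c, _)) => decide ((c : ℕ) < m₀)
  | _ => false

/-- The initial all positive set. -/
def Y0C (m₀ : ℕ) : Finset (CV l I Q w m D j) := univ.filter fun x => inY0 m₀ x = true

end conf2

/-- Module ConfC. The geometry of the configuration. -/
def ConfCStmt : Prop :=
  ∀ (l I Q w m D : ℕ) (j : ℕ → ℕ) (μ : ℕ → ℕ) (σW : Fin w → Fin w → ℤ) (k : ℕ)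
    (ι : IX l I Q w m → (Fin k → Bool)) (m₀ t : ℕ) (Λ : Finset (St l I Q)) (τ : St l I Q → Bool)
    (L : ℝ), 4 ≤ l → 2 ≤ D → 2 * μ 0 < m₀ → m₀ ≤ m → (∀ i, 1 ≤ μ i ∧ μ i ≤ μ 0) → IsSig σW →
    Function.Injective ι → m₀ * m ≤ t → t ≤ m * m → Bd (rl σW) L →
    (∃ H E : CV l I Q w m D j → CV l I Q w m D j → ℝ,
      Geo (sC' μ σW (fun a b => BalAux.ch (ι a) (ι b)) m₀ t Λ τ) (clC t) (Y0C m₀) H E
        (D * √(2 ^ k)) L D) ∧
    (kd (clC t : CV l I Q w m D j → ℕ) 0).card = t / m * D ∧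
    (Y0C m₀ : Finset (CV l I Q w m D j)).card = m₀ * D ∧
    (kd (clC t : CV l I Q w m D j → ℕ) 3).card = Fintype.card (MP l I Q × Bool) ∧
    (kd (clC t : CV l I Q w m D j → ℕ) 4).card ≤ D + ∑ e : Fin (l - 2), 2 * (j e + 1) ∧
    (∀ x : CV l I Q w m D j, x ∈ kd (clC t) 2 ↔ x.isLeft = true) ∧
    (∀ (i : S1 l I Q) (x : CV l I Q w m D j),
      ((lab1 μ i x).1 = 1 ∨ (lab1 μ i x).1 = (i.1 : ℕ) + 3 → x ∈ (Y0C m₀ : Finset _)) ∧
      (2 ≤ (lab1 μ i x).1 → (lab1 μ i x).1 < (i.1 : ℕ) + 3 → x ∉ kd (clC t) 0))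

end Full

end MP_90430c
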