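import Pool.Agent.Lib.MP_90430c_co.Main
import Pool.Agent.Lib.MP_90430c_co.Full.Stmts

/-!
# Module Decomp

The closed sequences which use each level of a gadget an odd number of times and have as few
middle vertices as possible.
-/

open Finset

set_option linter.unusedSectionVars false

namespace MP_90430c

namespace Full

namespace DecompAux

section

variable {V : Type} [Fintype V] [DecidableEq V] {lab : V → ℕ × Bool} {s a b : ℕ}
  {l : ℕ} [NeZero l] {σ₀ : V → V → ℤ}

lemma le_NM {f : Fin l → V} (h : ∀ p, 1 ≤ p → p ≤ s → ∃ i, (lab (f i)).1 = p) :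
    s - 2 ≤ NM lab s f := by
  classical
  have h1 : Icc 2 (s - 1) ⊆ (univ.filter fun i => 2 ≤ (lab (f i)).1 ∧ (lab (f i)).1 < s).image
      fun i => (lab (f i)).1 := by
    intro p hp
    rw [Finset.mem_Icc] at hp
    obtain ⟨i, hi⟩ := h p (by omega) (by omega)
    rw [Finset.mem_image]
    refine ⟨i, ?_, hi⟩
    rw [Finset.mem_filter]
    exact ⟨Finset.mem_univ _, by omega, by omega⟩
  have h2 := (Finset.card_le_card h1).trans Finset.card_image_le
  rw [Nat.card_Icc] at h2
  unfold NM
  omega

lemma mid_unique {f : Fin l → V} (h : ∀ p, 1 ≤ p → p ≤ s → ∃ i, (lab (f i)).1 = p)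
    (hN : NM lab s f = s - 2) {i j : Fin l} (hi : 2 ≤ (lab (f i)).1) (hi' : (lab (f i)).1 < s)
    (hij : (lab (f i)).1 = (lab (f j)).1) : i = j := by
  classical
  have h1 : (univ.filter fun i => 2 ≤ (lab (f i)).1 ∧ (lab (f i)).1 < s).image
      (fun i => (lab (f i)).1) = Icc 2 (s - 1) := by
    ext p
    rw [Finset.mem_image, Finset.mem_Icc]
    constructor
    · rintro ⟨i, hi, rfl⟩
      rw [Finset.mem_filter] at hi
      omega
    · rintro ⟨h2, h3⟩
      obtain ⟨i, hi⟩ := h p (by omega) (by omega)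
      refine ⟨i, ?_, hi⟩
      rw [Finset.mem_filter]
      exact ⟨Finset.mem_univ _, by omega, by omega⟩
  have h2 : ((univ.filter fun i => 2 ≤ (lab (f i)).1 ∧ (lab (f i)).1 < s).image
      (fun i => (lab (f i)).1)).card
      = (univ.filter fun i => 2 ≤ (lab (f i)).1 ∧ (lab (f i)).1 < s).card := by
    rw [h1, Nat.card_Icc]
    unfold NM at hN
    omega
  rw [Finset.card_image_iff] at h2
  refine h2 ?_ ?_ hij
  · rw [Finset.mem_coe, Finset.mem_filter]
    exact ⟨Finset.mem_univ _, hi, hi'⟩
  · rw [Finset.mem_coe, Finset.mem_filter]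
    exact ⟨Finset.mem_univ _, by omega, by omega⟩

/-- The closed sequences which run through the gadget once, starting with level `1`. -/
def M1 (lab : V → ℕ × Bool) (s : ℕ) (f : Fin l → V) : Prop :=
  (∀ i : Fin l, (i : ℕ) < s → lab (f i) = ((i : ℕ) + 1, false)) ∧
    ∀ i : Fin l, s ≤ (i : ℕ) → ¬ (2 ≤ (lab (f i)).1 ∧ (lab (f i)).1 < s)

instance (lab : V → ℕ × Bool) (s : ℕ) (f : Fin l → V) : Decidable (M1 lab s f) := by
  unfold M1; infer_instance

lemma val_one' (hl : 3 ≤ l) : ((1 : Fin l) : ℕ) = 1 := by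
  have : (1 : Fin l) = Fin.ofNat l 1 := rfl
  rw [this]
  simp [Fin.ofNat, Nat.mod_eq_of_lt (by omega : 1 < l)]

lemma M1_of (G : Gadget lab s a b) (hs : 3 ≤ s) (hsl : s ≤ l) {f : Fin l → V}
    (hK : KK (gY lab) s f) (hN : NM lab s f = s - 2) (h0 : (lab (f 0)).1 = 1)
    (h1 : (lab (f 1)).1 = 2) : M1 lab s f := by
  have hit := hit_Y (by omega) hK
  have huniq : ∀ {i j : Fin l}, 2 ≤ (lab (f i)).1 → (lab (f i)).1 < s →
      (lab (f i)).1 = (lab (f j)).1 → i = j :=
    fun hi hi' hij => mid_unique hit hN hi hi' hij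
  have v0 : ((0 : Fin l) : ℕ) = 0 := by simp
  have v1 : ((1 : Fin l) : ℕ) = 1 := val_one' (by omega)
  have key : ∀ p : ℕ, ∀ i : Fin l, (i : ℕ) = p → p < s → lab (f i) = (p + 1, false) := by
    intro p
    induction p using Nat.strong_induction_on with
    | _ p ih =>
      intro i hip hps
      rcases Nat.eq_zero_or_pos p with rfl | hp
      · have : i = 0 := Fin.ext (by rw [hip, v0])
        rw [this]
        exact G.lab_one h0
      · rcases Nat.lt_or_ge 1 p with hp2 | hp2
        · -- the vertex before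
          set i' : Fin l := ⟨p - 1, by omega⟩ with hi'
          have hlab' := ih (p - 1) (by omega) i' rfl (by omega)
          have hi'1 : i' + 1 = i := by
            apply Fin.ext
            rw [val_add_one_of_lt' (by rw [hi']; simp only; omega)]
            rw [hi']; simp only; omega
          have hlev' : (lab (f i')).1 = p := by rw [hlab']; simp only; omega
          obtain ⟨k, hk⟩ := exists_up_Y (hK (p + 1) (Finset.mem_Icc.2 ⟨by omega, by omega⟩))
          rcases hk with hk | hk
          · have hk1 : k = i' :=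
              huniq (by have := hk.1; omega) (by have := hk.1; omega)
                (by rw [hlev']; have := hk.1; omega)
            rw [hk1, hi'1] at hk
            apply Prod.ext
            · exact hk.2.1
            · simp only
              rw [← hk.2.2.2, hlab']
          · have hk1 : k + 1 = i' :=
              huniq (by have := hk.1; omega) (by have := hk.1; omega)
                (by rw [hlev']; have := hk.1; omega)
            exfalso
            set i'' : Fin l := ⟨p - 2, by omega⟩ with hi''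
            have h2 : i'' + 1 = i' := by
              apply Fin.ext
              rw [val_add_one_of_lt' (by rw [hi'']; simp only; omega)]
              rw [hi', hi'']; simp only; omega
            have h3 : k = i'' := add_right_cancel (hk1.trans h2.symm)
            have h4 := ih (p - 2) (by omega) i'' rfl (by omega)
            have h5 := hk.2.1
            rw [h3, h4] at h5
            simp only at h5
            omega
        · have hp1 : p = 1 := by omega
          subst hp1
          have hi1 : i = 1 := Fin.ext (by rw [hip, v1])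
          rw [hi1]
          apply Prod.ext
          · exact h1
          · simp only
            obtain ⟨k, hk⟩ := exists_up_Y (hK 2 (Finset.mem_Icc.2 ⟨le_rfl, by omega⟩))
            rcases hk with hk | hk
            · have e1 : k + 1 = 1 :=
                huniq (by have := hk.2.1; omega) (by have := hk.2.1; omega)
                  (by rw [h1]; exact hk.2.1)
              have e2 : lab (f k) = (1, false) := G.lab_one (by have := hk.1; omega)
              rw [← e1, ← hk.2.2.2, e2]
            · have e1 : k = 1 :=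
                huniq (by have := hk.2.1; omega) (by have := hk.2.1; omega)
                  (by rw [h1]; exact hk.2.1)
              have e2 : lab (f (k + 1)) = (1, false) := G.lab_one (by have := hk.1; omega)
              rw [← e1, ← hk.2.2.2, e2]
  refine ⟨fun i hi => key i i rfl hi, fun i hi hcon => ?_⟩
  set q := (lab (f i)).1 with hq
  set j : Fin l := ⟨q - 1, by omega⟩ with hj
  have h2 := key (q - 1) j rfl (by omega)
  have h3 : i = j := huniq hcon.1 hcon.2 (by rw [h2, ← hq]; simp only; omega)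
  rw [h3, hj] at hi
  simp only at hi
  omega

lemma not_up (G : Gadget lab s a b) (hs : 3 ≤ s) {x y : V}
    (hx : ¬ (2 ≤ (lab x).1 ∧ (lab x).1 < s)) (hy : ¬ (2 ≤ (lab y).1 ∧ (lab y).1 < s)) (j : ℕ) :
    ¬ upY j (lab x) (lab y) := by
  rintro ⟨h1, h2, h3, _⟩
  have := G.top x
  have := G.top y
  omega

lemma M1.nonmid {f : Fin l → V} (h : M1 lab s f) {i : Fin l} (hi : s - 1 ≤ (i : ℕ)) :
    ¬ (2 ≤ (lab (f i)).1 ∧ (lab (f i)).1 < s) := by
  rcases Nat.lt_or_ge (i : ℕ) s with h1 | h1
  · rw [h.1 i h1]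
    simp only
    omega
  · exact h.2 i h1

lemma M1.KK (G : Gadget lab s a b) (hs : 3 ≤ s) (hsl : s ≤ l) {f : Fin l → V}
    (h : M1 lab s f) : KK (gY lab) s f := by
  intro j hj
  rw [Finset.mem_Icc] at hj
  unfold cp
  have hil : j - 2 < l := by omega
  set i0 : Fin l := ⟨j - 2, hil⟩ with hi0
  have e0 : ((i0 + 1 : Fin l) : ℕ) = j - 1 := by
    rw [val_add_one_of_lt' (by rw [hi0]; simp only; omega)]
    rw [hi0]; simp only; omega
  rw [Finset.prod_eq_single i0]
  · rw [gY_eq_neg']
    left
    rw [h.1 i0 (by rw [hi0]; simp only; omega), h.1 (i0 + 1) (by rw [e0]; omega), e0]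
    refine ⟨?_, ?_, ?_, rfl⟩
    · rw [hi0]; simp only; omega
    · simp only; omega
    · simp only; omega
  · intro i _ hne
    have hne' : (i : ℕ) ≠ j - 2 := fun e => hne (Fin.ext (by rw [e]))
    unfold gY
    rw [if_neg]
    have hcases : ((i + 1 : Fin l) : ℕ) = i + 1 ∧ (i : ℕ) + 1 < l
        ∨ ((i + 1 : Fin l) : ℕ) = 0 ∧ (i : ℕ) + 1 = l := by
      have := i.2
      rcases Nat.lt_or_ge ((i : ℕ) + 1) l with h1 | h1
      · exact Or.inl ⟨val_add_one_of_lt' h1, h1⟩
      · exact Or.inr ⟨val_add_one_of_last' (by omega), by omega⟩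
    rcases Nat.lt_or_ge ((i : ℕ) + 1) s with h1 | h1
    · rcases hcases with ⟨e1, e2⟩ | ⟨e1, e2⟩
      · rw [h.1 i (by omega), h.1 (i + 1) (by omega), e1]
        rintro (⟨u1, u2, u3, _⟩ | ⟨u1, u2, u3, _⟩)
        · simp only at u1 u2 u3; omega
        · simp only at u1 u2 u3; omega
      · omega
    · have hn1 : ¬ (2 ≤ (lab (f i)).1 ∧ (lab (f i)).1 < s) := h.nonmid (by omega)
      have hn2 : ¬ (2 ≤ (lab (f (i + 1))).1 ∧ (lab (f (i + 1))).1 < s) := by
        rcases hcases with ⟨e1, e2⟩ | ⟨e1, e2⟩
        · exact h.nonmid (by omega)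
        · rw [h.1 (i + 1) (by omega), e1]
          simp only
          omega
      rintro (hu | hu)
      · exact not_up G hs hn1 hn2 j hu
      · exact not_up G hs hn2 hn1 j hu
  · simp

lemma M1.NM (hs : 3 ≤ s) (hsl : s ≤ l) {f : Fin l → V} (h : M1 lab s f) :
    NM lab s f = s - 2 := by
  unfold Full.NM
  have h1 : (univ.filter fun i => 2 ≤ (lab (f i)).1 ∧ (lab (f i)).1 < s)
      = (Ico 1 (s - 1)).attachFin (fun n hn => by rw [Finset.mem_Ico] at hn; omega) := by
    ext i
    rw [Finset.mem_filter, Finset.mem_attachFin, Finset.mem_Ico]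
    constructor
    · rintro ⟨_, h2⟩
      rcases Nat.lt_or_ge (i : ℕ) (s - 1) with h3 | h3
      · rw [h.1 i (by omega)] at h2
        simp only at h2
        omega
      · exact absurd h2 (h.nonmid h3)
    · rintro ⟨h2, h3⟩
      refine ⟨Finset.mem_univ _, ?_⟩
      rw [h.1 i (by omega)]
      simp only
      omega
  rw [h1, Finset.card_attachFin, Nat.card_Ico]
  omega

lemma NM_rot (c : Fin l) (f : Fin l → V) : Full.NM lab s (fun i => f (i + c)) = Full.NM lab s f := by
  unfold Full.NM
  refine Finset.card_nbij' (fun i => i + c) (fun i => i - c) ?_ ?_ ?_ ?_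
  · intro i hi; simpa using hi
  · intro i hi; simpa using hi
  · intro i _; simp
  · intro i _; simp

lemma NM_refl (f : Fin l → V) : Full.NM lab s (fun i => f (1 - i)) = Full.NM lab s f := by
  unfold Full.NM
  refine Finset.card_nbij' (fun i => 1 - i) (fun i => 1 - i) ?_ ?_ ?_ ?_
  · intro i hi; simpa using hi
  · intro i hi; simpa using hi
  · intro i _; simp
  · intro i _; simp

/-! ## The sum over the sequences in normal form -/

lemma cp_range (σ : V → V → ℤ) (f : Fin l → V) :
    cp l σ f = ∏ i ∈ range l, σ (f (Fin.ofNat l i)) (f (Fin.ofNat l (i + 1))) := by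
  rw [← Fin.prod_univ_eq_prod_range (fun i => σ (f (Fin.ofNat l i)) (f (Fin.ofNat l (i + 1)))) l]
  unfold cp
  refine Finset.prod_congr rfl fun i _ => ?_
  have e1 : Fin.ofNat l (i : ℕ) = i := by
    apply Fin.ext
    rw [Fin.val_ofNat]
    exact Nat.mod_eq_of_lt i.2
  have e2 : Fin.ofNat l ((i : ℕ) + 1) = i + 1 := by
    apply Fin.ext
    rw [Fin.val_ofNat]
    rcases Nat.lt_or_ge ((i : ℕ) + 1) l with h1 | h1
    · rw [val_add_one_of_lt' h1, Nat.mod_eq_of_lt h1]
    · have h2 : (i : ℕ) + 1 = l := by have := i.2; omega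
      rw [val_add_one_of_last' h2, h2, Nat.mod_self]
  rw [e1, e2]

end

section

variable {V : Type} [Fintype V] [DecidableEq V] {lab : V → ℕ × Bool} {s a b : ℕ}
  {σ₀ : V → V → ℤ}

/-- The outer part of a sequence. -/
def ph (s k : ℕ) [NeZero (s + k)] (f : Fin (s + k) → V) (j : Fin (k + 2)) : V :=
  f (Fin.ofNat (s + k) (s - 1 + j))

/-- The sequence with given outer part. -/
def ps (s k : ℕ) (v : ℕ → V) (h : Fin (k + 2) → V) (i : Fin (s + k)) : V :=
  if (i : ℕ) = 0 then h (Fin.last (k + 1))
  else if hi : s - 1 ≤ (i : ℕ) then h ⟨(i : ℕ) - (s - 1), by have := i.2; omega⟩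
  else v ((i : ℕ) + 1)

lemma sum_M1 (G : Gadget lab s a b) (hs : 3 ≤ s) (h0 : Ps σ₀ lab s) (k : ℕ)
    [NeZero (s + k)] :
    ∑ f ∈ inj (s + k) V, (if M1 lab s f then cp (s + k) σ₀ f else 0) = PS σ₀ lab s k := by
  classical
  obtain ⟨v, hv⟩ : ∃ v : ℕ → V, ∀ p, 2 ≤ p → p < s → lab (v p) = (p, false) := by
    obtain ⟨x0, _⟩ := (G.mid 2 le_rfl (by omega) false).exists
    refine ⟨fun p => if hp : 2 ≤ p ∧ p < s then (G.mid p hp.1 hp.2 false).exists.choose else x0,
      fun p h1 h2 => ?_⟩
    have hp : 2 ≤ p ∧ p < s := ⟨h1, h2⟩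
    simp only [dif_pos hp]
    exact (G.mid p hp.1 hp.2 false).exists.choose_spec
  have vofNat : ∀ n, ((Fin.ofNat (s + k) n : Fin (s + k)) : ℕ) = n % (s + k) := fun n => rfl
  -- the places
  have place : ∀ j : Fin (k + 2), ((j : ℕ) ≤ k ∧
        ((Fin.ofNat (s + k) (s - 1 + j) : Fin (s + k)) : ℕ) = s - 1 + j) ∨
      ((j : ℕ) = k + 1 ∧ ((Fin.ofNat (s + k) (s - 1 + j) : Fin (s + k)) : ℕ) = 0) := by
    intro j
    have hj := j.2
    rcases Nat.lt_or_ge k (j : ℕ) with h1 | h1
    · right
      have h2 : (j : ℕ) = k + 1 := by omega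
      refine ⟨h2, ?_⟩
      rw [vofNat, h2]
      have : s - 1 + (k + 1) = s + k := by omega
      rw [this, Nat.mod_self]
    · left
      refine ⟨h1, ?_⟩
      rw [vofNat, Nat.mod_eq_of_lt (by omega)]
  rw [← Finset.sum_filter]
  unfold PS
  refine Finset.sum_nbij' (ph s k) (ps s k v) ?_ ?_ ?_ ?_ ?_
  · -- the outer part is a path
    intro f hf
    rw [Finset.mem_filter, mem_inj] at hf
    obtain ⟨hinj, hM⟩ := hf
    rw [Finset.mem_filter]
    refine ⟨Finset.mem_univ _, ?_, ?_, ?_, ?_⟩
    · intro j j' hjj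
      unfold ph at hjj
      have h1 := congrArg Fin.val (hinj hjj)
      apply Fin.ext
      rcases place j with ⟨a1, a2⟩ | ⟨a1, a2⟩ <;> rcases place j' with ⟨b1, b2⟩ | ⟨b1, b2⟩ <;>
        rw [a2, b2] at h1 <;> omega
    · unfold ph
      rcases place 0 with ⟨a1, a2⟩ | ⟨a1, a2⟩
      · have a3 : ((0 : Fin (k + 2)) : ℕ) = 0 := rfl
        rw [a3] at a2
        rw [hM.1 _ (by rw [a3, a2]; omega)]
        rw [a3, a2]
        apply Prod.ext
        · simp only; omega
        · rfl
      · exact absurd a1 (by simp)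
    · unfold ph
      rcases place (Fin.last (k + 1)) with ⟨a1, a2⟩ | ⟨a1, a2⟩
      · rw [Fin.val_last] at a1; omega
      · rw [hM.1 _ (by rw [a2]; omega), a2]
    · intro j
      unfold ph
      rcases place j with ⟨a1, a2⟩ | ⟨a1, a2⟩
      · exact hM.nonmid (by rw [a2]; omega)
      · rw [hM.1 _ (by rw [a2]; omega), a2]
        simp only
        omega
  · -- the sequence is in normal form
    intro h hh
    rw [Finset.mem_filter] at hh
    obtain ⟨_, hinj, hA, hB, hC⟩ := hh
    rw [Finset.mem_filter, mem_inj]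
    have hmid : ∀ i : Fin (s + k), (i : ℕ) ≠ 0 → (i : ℕ) < s - 1 →
        lab (ps s k v h i) = ((i : ℕ) + 1, false) := by
      intro i h1 h2
      unfold ps
      rw [if_neg h1, dif_neg (by omega)]
      exact hv _ (by omega) (by omega)
    have hout : ∀ i : Fin (s + k), ((i : ℕ) = 0 ∨ s - 1 ≤ (i : ℕ)) →
        ∃ j : Fin (k + 2), ps s k v h i = h j ∧
          ((i : ℕ) = 0 ∧ (j : ℕ) = k + 1 ∨ (i : ℕ) = s - 1 + j) := by
      intro i hi
      by_cases h1 : (i : ℕ) = 0
      · refine ⟨Fin.last (k + 1), ?_, Or.inl ⟨h1, rfl⟩⟩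
        unfold ps
        rw [if_pos h1]
      · have h2 : s - 1 ≤ (i : ℕ) := by omega
        refine ⟨⟨(i : ℕ) - (s - 1), by have := i.2; omega⟩, ?_, Or.inr (by simp only; omega)⟩
        unfold ps
        rw [if_neg h1, dif_pos h2]
    refine ⟨?_, ?_, ?_⟩
    · intro i i' hii
      by_cases h1 : (i : ℕ) = 0 ∨ s - 1 ≤ (i : ℕ)
      · by_cases h2 : (i' : ℕ) = 0 ∨ s - 1 ≤ (i' : ℕ)
        · obtain ⟨j, e1, e2⟩ := hout i h1
          obtain ⟨j', e1', e2'⟩ := hout i' h2
          rw [e1, e1'] at hii
          have h3 := hinj hii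
          rw [h3] at e2
          apply Fin.ext
          have := i.2
          have := i'.2
          omega
        · exfalso
          obtain ⟨j, e1, _⟩ := hout i h1
          have h3 := hmid i' (by omega) (by omega)
          rw [← hii, e1] at h3
          have h4 := hC j
          rw [h3] at h4
          simp only at h4
          omega
      · by_cases h2 : (i' : ℕ) = 0 ∨ s - 1 ≤ (i' : ℕ)
        · exfalso
          obtain ⟨j, e1, _⟩ := hout i' h2
          have h3 := hmid i (by omega) (by omega)
          rw [hii, e1] at h3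
          have h4 := hC j
          rw [h3] at h4
          simp only at h4
          omega
        · have h3 := hmid i (by omega) (by omega)
          have h4 := hmid i' (by omega) (by omega)
          rw [hii, h4] at h3
          have h5 := congrArg Prod.fst h3
          simp only at h5
          apply Fin.ext
          omega
    · intro i hi
      by_cases h1 : (i : ℕ) = 0
      · unfold ps
        rw [if_pos h1, hB, h1]
      · by_cases h2 : (i : ℕ) = s - 1
        · have h3 : ps s k v h i = h 0 := by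
            unfold ps
            rw [if_neg h1, dif_pos (by omega)]
            congr 1
            apply Fin.ext
            simp only [Fin.val_zero]
            omega
          rw [h3, hA]
          apply Prod.ext
          · simp only; omega
          · rfl
        · exact hmid i h1 (by omega)
    · intro i hi
      obtain ⟨j, e1, _⟩ := hout i (Or.inr (by omega))
      rw [e1]
      exact hC j
  · -- left inverse
    intro f hf
    rw [Finset.mem_filter, mem_inj] at hf
    obtain ⟨hinj, hM⟩ := hf
    funext i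
    have hi := i.2
    unfold ps ph
    split_ifs with h1 h2
    · congr 1
      apply Fin.ext
      rw [vofNat, Fin.val_last, h1]
      have : s - 1 + (k + 1) = s + k := by omega
      rw [this, Nat.mod_self]
    · congr 1
      apply Fin.ext
      rw [vofNat]
      simp only
      have : s - 1 + ((i : ℕ) - (s - 1)) = i := by omega
      rw [this, Nat.mod_eq_of_lt hi]
    · obtain ⟨x, _, hx⟩ := G.mid ((i : ℕ) + 1) (by omega) (by omega) false
      rw [hx _ (hv _ (by omega) (by omega)), hx _ (hM.1 i (by omega))]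
  · -- right inverse
    intro h hh
    funext j
    unfold ph ps
    rcases place j with ⟨a1, a2⟩ | ⟨a1, a2⟩
    · rw [if_neg (by rw [a2]; omega), dif_pos (by rw [a2]; omega)]
      congr 1
      apply Fin.ext
      simp only
      rw [a2]
      omega
    · rw [if_pos a2]
      congr 1
      apply Fin.ext
      rw [Fin.val_last, a1]
  · -- the sign
    intro f hf
    rw [Finset.mem_filter, mem_inj] at hf
    obtain ⟨hinj, hM⟩ := hf
    rw [cp_range]
    have e : s + k = (s - 1) + (k + 1) := by omega
    have hsplit : ∏ i ∈ range (s + k),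
        σ₀ (f (Fin.ofNat (s + k) i)) (f (Fin.ofNat (s + k) (i + 1)))
        = (∏ i ∈ range (s - 1), σ₀ (f (Fin.ofNat (s + k) i)) (f (Fin.ofNat (s + k) (i + 1)))) *
          ∏ i ∈ range (k + 1), σ₀ (f (Fin.ofNat (s + k) (s - 1 + i)))
            (f (Fin.ofNat (s + k) (s - 1 + i + 1))) := by
      conv_lhs => rw [show range (s + k) = range ((s - 1) + (k + 1)) by rw [← e]]
      exact Finset.prod_range_add _ _ _
    rw [hsplit]
    have h1 : ∏ i ∈ range (s - 1),
        σ₀ (f (Fin.ofNat (s + k) i)) (f (Fin.ofNat (s + k) (i + 1))) = 1 := by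
      refine Finset.prod_eq_one fun i hi => ?_
      rw [Finset.mem_range] at hi
      have a1 : ((Fin.ofNat (s + k) i : Fin (s + k)) : ℕ) = i := by
        rw [vofNat, Nat.mod_eq_of_lt (by omega)]
      have a2 : ((Fin.ofNat (s + k) (i + 1) : Fin (s + k)) : ℕ) = i + 1 := by
        rw [vofNat, Nat.mod_eq_of_lt (by omega)]
      have b1 := hM.1 (Fin.ofNat (s + k) i) (by rw [a1]; omega)
      have b2 := hM.1 (Fin.ofNat (s + k) (i + 1)) (by rw [a2]; omega)
      rw [a1] at b1
      rw [a2] at b2
      apply h0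
      · rw [b1]; simp only; omega
      · rw [b1]; simp only; omega
      · rw [b1, b2]
    rw [h1, one_mul, ← Fin.prod_univ_eq_prod_range (fun i => σ₀ (f (Fin.ofNat (s + k) (s - 1 + i)))
      (f (Fin.ofNat (s + k) (s - 1 + i + 1)))) (k + 1)]
    refine Finset.prod_congr rfl fun i _ => ?_
    unfold ph
    rw [Fin.val_castSucc, Fin.val_succ, add_assoc]

end

section

variable {V : Type} [Fintype V] [DecidableEq V] {lab : V → ℕ × Bool} {s a b : ℕ}
  {l : ℕ} [NeZero l] {σ₀ : V → V → ℤ}

/-- The neighbours of the vertex of level `2`. -/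
lemma neighbours (hs : 3 ≤ s) {f : Fin l → V} (hK : KK (gY lab) s f)
    (hN : Full.NM lab s f = s - 2) :
    ∃ i1 i2 i3 : Fin l, (lab (f i1)).1 = 1 ∧ (lab (f i2)).1 = 2 ∧ (lab (f i3)).1 = 3 ∧
      ((i1 + 1 = i2 ∧ i2 + 1 = i3) ∨ (i3 + 1 = i2 ∧ i2 + 1 = i1)) := by
  have hit := hit_Y (by omega) hK
  have huniq : ∀ {i j : Fin l}, 2 ≤ (lab (f i)).1 → (lab (f i)).1 < s →
      (lab (f i)).1 = (lab (f j)).1 → i = j :=
    fun hi hi' hij => mid_unique hit hN hi hi' hij
  obtain ⟨i, hi⟩ := exists_up_Y (hK 2 (Finset.mem_Icc.2 ⟨le_rfl, by omega⟩))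
  obtain ⟨k, hk⟩ := exists_up_Y (hK 3 (Finset.mem_Icc.2 ⟨by omega, hs⟩))
  rcases hi with hi | hi
  · rcases hk with hk | hk
    · have e1 : k = i + 1 :=
        huniq (by have := hk.1; omega) (by have := hk.1; omega)
          (by have := hk.1; have := hi.2.1; omega)
      refine ⟨i, i + 1, k + 1, by have := hi.1; omega, hi.2.1, hk.2.1, Or.inl ⟨rfl, by rw [e1]⟩⟩
    · have e1 : k + 1 = i + 1 :=
        huniq (by have := hk.1; omega) (by have := hk.1; omega)
          (by have := hk.1; have := hi.2.1; omega)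
      have e2 : k = i := add_right_cancel e1
      have h1 := hk.2.1
      have h2 := hi.1
      rw [e2] at h1
      omega
  · rcases hk with hk | hk
    · have e1 : k = i :=
        huniq (by have := hk.1; omega) (by have := hk.1; omega)
          (by have := hk.1; have := hi.2.1; omega)
      have h1 := hk.2.1
      have h2 := hi.1
      rw [e1] at h1
      omega
    · have e1 : k + 1 = i :=
        huniq (by have := hk.1; omega) (by have := hk.1; omega)
          (by have := hk.1; have := hi.2.1; omega)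
      refine ⟨i + 1, i, k, by have := hi.1; omega, hi.2.1, hk.2.1, Or.inr ⟨e1, rfl⟩⟩

lemma main_sum' (G : Gadget lab s a b) (hσ : IsSig σ₀) (h0 : Ps σ₀ lab s) (hs : 3 ≤ s)
    (hsl : s ≤ l) :
    ∑ f ∈ inj l V, (if KK (gY lab) s f ∧ Full.NM lab s f = s - 2 then cp l σ₀ f else 0)
      = 2 * l * PS σ₀ lab s (l - s) := by
  set F : (Fin l → V) → ℤ :=
    fun f => if KK (gY lab) s f ∧ Full.NM lab s f = s - 2 then cp l σ₀ f else 0 with hF
  have hD : Dih F := by
    refine ⟨fun c f => ?_, fun f => ?_⟩
    · rw [hF]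
      dsimp only
      rw [NM_rot, cp_rot]
      refine if_congr (and_congr_left fun _ => ?_) rfl rfl
      unfold KK
      simp only [cp_rot]
    · rw [hF]
      dsimp only
      rw [NM_refl, cp_refl hσ.symm]
      refine if_congr (and_congr_left fun _ => ?_) rfl rfl
      unfold KK
      simp only [cp_refl (gY_symm lab _)]
  have step1 : ∀ f ∈ inj l V, F f
      = ∑ x ∈ CC lab 1, ∑ y ∈ CC lab 2, (if Uses f x y then F f else 0) := by
    intro f hf
    by_cases hc : KK (gY lab) s f ∧ Full.NM lab s f = s - 2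
    · obtain ⟨hK, hN⟩ := hc
      have hit := hit_Y (by omega) hK
      have huniq : ∀ {i j : Fin l}, 2 ≤ (lab (f i)).1 → (lab (f i)).1 < s →
          (lab (f i)).1 = (lab (f j)).1 → i = j :=
        fun hi hi' hij => mid_unique hit hN hi hi' hij
      obtain ⟨i1, i2, i3, hi1, hi2, hi3, hn⟩ := neighbours hs hK hN
      have hU : Uses f (f i1) (f i2) := by
        rcases hn with ⟨n1, n2⟩ | ⟨n1, n2⟩
        · exact ⟨i1, Or.inl ⟨rfl, by rw [n1]⟩⟩
        · exact ⟨i2, Or.inr ⟨rfl, by rw [n2]⟩⟩
      have hy : ∀ x y, (lab y).1 = 2 → Uses f x y → y = f i2 := by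
        rintro x y hy ⟨i, ⟨_, h1⟩ | ⟨h1, _⟩⟩
        · rw [← h1, huniq (i := i + 1) (j := i2) (by rw [h1]; omega) (by rw [h1]; omega)
            (by rw [h1]; omega)]
        · rw [← h1, huniq (i := i) (j := i2) (by rw [h1]; omega) (by rw [h1]; omega)
            (by rw [h1]; omega)]
      have hx : ∀ x y, (lab x).1 = 1 → (lab y).1 = 2 → Uses f x y → x = f i1 := by
        rintro x y hx hy ⟨i, ⟨h1, h2⟩ | ⟨h2, h1⟩⟩
        · have e1 : i + 1 = i2 := huniq (by rw [h2]; omega) (by rw [h2]; omega)
            (by rw [h2]; omega)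
          rcases hn with ⟨n1, n2⟩ | ⟨n1, n2⟩
          · have e2 : i = i1 := add_right_cancel (e1.trans n1.symm)
            rw [← h1, e2]
          · have e2 : i = i3 := add_right_cancel (e1.trans n1.symm)
            rw [e2] at h1
            rw [h1] at hi3
            omega
        · have e1 : i = i2 := huniq (by rw [h2]; omega) (by rw [h2]; omega)
            (by rw [h2]; omega)
          rcases hn with ⟨n1, n2⟩ | ⟨n1, n2⟩
          · rw [e1, n2] at h1
            rw [h1] at hi3
            omega
          · rw [e1, n2] at h1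
            exact h1.symm
      rw [Finset.sum_eq_single (f i1), Finset.sum_eq_single (f i2), if_pos hU]
      · intro y hy1 hne
        rw [if_neg]
        intro h
        exact hne (hy _ _ (mem_CC.1 hy1) h)
      · intro h
        exact absurd (mem_CC.2 hi2) h
      · intro x hx1 hne
        refine Finset.sum_eq_zero fun y hy1 => ?_
        rw [if_neg]
        intro h
        exact hne (hx _ _ (mem_CC.1 hx1) (mem_CC.1 hy1) h)
      · intro h
        exact absurd (mem_CC.2 hi1) h
    · have hz : F f = 0 := by rw [hF]; dsimp only; rw [if_neg hc]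
      rw [hz]
      simp
  rw [Finset.sum_congr rfl step1, Finset.sum_comm]
  have step2 : ∀ x ∈ CC lab 1, ∑ f ∈ inj l V, ∑ y ∈ CC lab 2, (if Uses f x y then F f else 0)
      = 2 * l * ∑ f ∈ inj l V, ∑ y ∈ CC lab 2, (if f 0 = x ∧ f 1 = y then F f else 0) := by
    intro x _
    rw [Finset.sum_comm, Finset.sum_comm (s := inj l V), Finset.mul_sum]
    exact Finset.sum_congr rfl fun y _ => root (by omega) hD
  rw [Finset.sum_congr rfl step2, ← Finset.mul_sum, Finset.sum_comm]
  have hM1 : ∑ f ∈ inj l V, (if M1 lab s f then cp l σ₀ f else 0) = PS σ₀ lab s (l - s) := by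
    obtain ⟨k, rfl⟩ : ∃ k, l = s + k := ⟨l - s, by omega⟩
    rw [Nat.add_sub_cancel_left]
    exact sum_M1 G hs h0 k
  rw [← hM1]
  congr 1
  refine Finset.sum_congr rfl fun f hf => ?_
  have step3 : ∑ x ∈ CC lab 1, ∑ y ∈ CC lab 2, (if f 0 = x ∧ f 1 = y then F f else 0)
      = if f 0 ∈ CC lab 1 ∧ f 1 ∈ CC lab 2 then F f else 0 := by
    by_cases h1 : f 0 ∈ CC lab 1
    · by_cases h2 : f 1 ∈ CC lab 2
      · rw [if_pos ⟨h1, h2⟩, Finset.sum_eq_single (f 0), Finset.sum_eq_single (f 1),
          if_pos ⟨rfl, rfl⟩]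
        · intro y _ hne
          rw [if_neg]; rintro ⟨_, h⟩; exact hne h.symm
        · intro h; exact absurd h2 h
        · intro x _ hne
          refine Finset.sum_eq_zero fun y _ => ?_
          rw [if_neg]; rintro ⟨h, _⟩; exact hne h.symm
        · intro h; exact absurd h1 h
      · rw [if_neg (fun h => h2 h.2)]
        refine Finset.sum_eq_zero fun x _ => Finset.sum_eq_zero fun y hy => ?_
        rw [if_neg]
        rintro ⟨_, h⟩
        exact h2 (h ▸ hy)
    · rw [if_neg (fun h => h1 h.1)]
      refine Finset.sum_eq_zero fun x hx => Finset.sum_eq_zero fun y _ => ?_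
      rw [if_neg]
      rintro ⟨h, _⟩
      exact h1 (h ▸ hx)
  rw [step3]
  by_cases hM : M1 lab s f
  · have v1 : ((1 : Fin l) : ℕ) = 1 := val_one' (by omega)
    have v0 : ((0 : Fin l) : ℕ) = 0 := by simp
    have c1 : f 0 ∈ CC lab 1 := by
      rw [mem_CC, hM.1 0 (by rw [v0]; omega), v0]
    have c2 : f 1 ∈ CC lab 2 := by
      rw [mem_CC, hM.1 1 (by rw [v1]; omega), v1]
    rw [if_pos hM, if_pos ⟨c1, c2⟩, hF]
    dsimp only
    rw [if_pos ⟨hM.KK G hs hsl, hM.NM hs hsl⟩]
  · rw [if_neg hM]
    split_ifs with hc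
    · rw [hF]
      dsimp only
      rw [if_neg]
      rintro ⟨hK, hN⟩
      exact hM (M1_of G hs hsl hK hN (mem_CC.1 hc.1) (mem_CC.1 hc.2))
    · rfl

lemma KX_many' (G : Gadget lab s a b) (hs : 3 ≤ s) {f : Fin l → V} (hK : KK (gX lab) s f) :
    s - 1 ≤ Full.NM lab s f := by
  have hit := hit_X (by omega) hK
  by_contra hcon
  have hN : Full.NM lab s f = s - 2 := by
    have := le_NM hit
    omega
  have huniq : ∀ {i j : Fin l}, 2 ≤ (lab (f i)).1 → (lab (f i)).1 < s →
      (lab (f i)).1 = (lab (f j)).1 → i = j :=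
    fun hi hi' hij => mid_unique hit hN hi hi' hij
  have key : ∀ p, 2 ≤ p → p ≤ s → ∃ i, lab (f i) = (p, true) := by
    intro p hp
    induction p, hp using Nat.le_induction with
    | base =>
      intro _
      obtain ⟨i, hi | hi⟩ := exists_up_X (hK 2 (Finset.mem_Icc.2 ⟨le_rfl, by omega⟩))
      · rcases hi with ⟨_, _, h3⟩ | ⟨h, _⟩
        · exact ⟨i + 1, h3⟩
        · exact absurd rfl h
      · rcases hi with ⟨_, _, h3⟩ | ⟨h, _⟩
        · exact ⟨i, h3⟩
        · exact absurd rfl h
    | succ p hp ih =>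
      intro hps
      obtain ⟨i0, hi0⟩ := ih (by omega)
      obtain ⟨i, hi | hi⟩ := exists_up_X (hK (p + 1) (Finset.mem_Icc.2 ⟨by omega, hps⟩))
      · rcases hi with ⟨h, _⟩ | ⟨_, h⟩
        · omega
        · have e : i = i0 := huniq (by have := h.1; omega) (by have := h.1; omega)
            (by rw [hi0]; have := h.1; simp only; omega)
          refine ⟨i + 1, Prod.ext h.2.1 ?_⟩
          simp only
          rw [← h.2.2.2, e, hi0]
      · rcases hi with ⟨h, _⟩ | ⟨_, h⟩
        · omega
        · have e : i + 1 = i0 := huniq (by have := h.1; omega) (by have := h.1; omega)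
            (by rw [hi0]; have := h.1; simp only; omega)
          refine ⟨i, Prod.ext h.2.1 ?_⟩
          simp only
          rw [← h.2.2.2, e, hi0]
  obtain ⟨i, hi⟩ := key s (by omega) le_rfl
  exact G.noB _ hi

end

end DecompAux

/-- Module Decomp. -/
theorem decompStmt : DecompStmt := by
  intro V _ _ l s a b _ lab σ₀ hs hsl G hσ h0
  refine ⟨?_, fun f _ hK => DecompAux.KX_many' G hs hK, fun f _ hK => ?_⟩
  · rw [Finset.sum_filter]
    exact DecompAux.main_sum' G hσ h0 hs hsl
  · exact DecompAux.le_NM (hit_Y (by omega) hK)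

end Full

end MP_90430c
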