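import Pool.Agent.Lib.MP_90430c_co.Full.Stmts

/-! Module Dvd of project TF. -/

open Finset

set_option linter.unusedSectionVars false

namespace MP_90430c

namespace Full

namespace DvdAux

variable {V : Type} [Fintype V] [DecidableEq V] {l : ℕ} [NeZero l]

/-- A sum over `A` of a function which is constant on classes of size `D`. -/
lemma dvd_sum_const (A : Finset V) (bl : V → ℕ) (D : ℕ)
    (hD : ∀ x ∈ A, (A.filter fun y => bl y = bl x).card = D) (S : V → ℤ)
    (hS : ∀ x ∈ A, ∀ y ∈ A, bl x = bl y → S x = S y) : (D : ℤ) ∣ ∑ x ∈ A, S x := by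
  rw [← Finset.sum_fiberwise_of_maps_to (t := A.image bl) (g := bl)
    (fun x hx => Finset.mem_image_of_mem bl hx)]
  refine Finset.dvd_sum fun c hc => ?_
  obtain ⟨x0, hx0, rfl⟩ := Finset.mem_image.1 hc
  rw [Finset.sum_congr rfl (g := fun _ => S x0) fun x hx => by
    rw [Finset.mem_filter] at hx
    exact hS x hx.1 x0 hx0 hx.2]
  rw [Finset.sum_const, nsmul_eq_mul, hD x0 hx0]
  exact dvd_mul_right _ _

lemma dvd_sum_classes (A : Finset V) (bl : V → ℕ) (D : ℕ)
    (hD : ∀ x ∈ A, (A.filter fun y => bl y = bl x).card = D) (F : (Fin l → V) → ℤ)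
    (h0 : ∀ f : Fin l → V, (∀ i, f i ∉ A) → F f = 0)
    (hperm : ∀ x ∈ A, ∀ y ∈ A, bl x = bl y →
      ∀ f : Fin l → V, F (fun i => Equiv.swap x y (f i)) = F f) :
    (D : ℤ) ∣ ∑ f ∈ inj l V, F f := by
  classical
  have h1 : ∀ f : Fin l → V, F f
      = ∑ i, ∑ x ∈ A, (if f i = x ∧ ∀ j < i, f j ∉ A then F f else 0) := by
    intro f
    by_cases hf : ∀ i, f i ∉ A
    · rw [h0 f hf]; simp
    · push Not at hf
      have hne : (univ.filter fun i => f i ∈ A).Nonempty := by
        obtain ⟨i, hi⟩ := hf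
        exact ⟨i, by simp [hi]⟩
      set i0 := (univ.filter fun i => f i ∈ A).min' hne with hi0
      have m0 : f i0 ∈ A := by
        have := Finset.min'_mem _ hne
        rw [← hi0] at this
        simpa using this
      have m1 : ∀ j < i0, f j ∉ A := by
        intro j hj hA
        have := Finset.min'_le (univ.filter fun i => f i ∈ A) j (by simp [hA])
        rw [← hi0] at this
        exact absurd hj (not_lt.2 this)
      rw [Finset.sum_eq_single i0, Finset.sum_eq_single (f i0), if_pos ⟨rfl, m1⟩]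
      · intro x _ hne
        rw [if_neg]
        rintro ⟨h, _⟩
        exact hne h.symm
      · intro h; exact absurd m0 h
      · intro i _ hne
        refine Finset.sum_eq_zero fun x hx => ?_
        rw [if_neg]
        rintro ⟨h2, h3⟩
        have hiA : f i ∈ A := h2 ▸ hx
        rcases lt_trichotomy i i0 with h4 | h4 | h4
        · exact m1 i h4 hiA
        · exact hne h4
        · exact h3 i0 h4 m0
      · simp
  rw [Finset.sum_congr rfl fun f _ => h1 f, Finset.sum_comm]
  refine Finset.dvd_sum fun i _ => ?_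
  rw [Finset.sum_comm]
  refine dvd_sum_const A bl D hD _ fun x hx x0 hx0 hb => ?_
  rw [← sum_comp_perm (Equiv.swap x x0)
    (fun f => if f i = x ∧ ∀ j < i, f j ∉ A then F f else 0)]
  refine Finset.sum_congr rfl fun f _ => ?_
  rw [hperm x hx x0 hx0 hb]
  refine if_congr ?_ rfl rfl
  simp only [swap_mem_iff hx hx0]
  refine and_congr_left fun _ => ?_
  constructor
  · intro h
    have := congrArg (Equiv.swap x x0) h
    rw [Equiv.swap_apply_self, Equiv.swap_apply_left] at this
    exact this
  · intro h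
    rw [h, Equiv.swap_apply_right]

end DvdAux

theorem dvdStmt (hI : IdentStmt) : DvdStmt := by
  intro V _ _ l s a b _ lab σ₀ bl hl hn G hσ hT hc hb
  have hs := G.two_le
  have h1 : ((l * 2 ^ l : ℕ) : ℤ) ∣ Z l (sigY σ₀ lab s) - Z l (sigX σ₀ lab s) := by
    rw [hI V l s a b lab σ₀ G hσ hT]
    have hlab : ∀ x ∈ CC lab 1, ∀ y ∈ CC lab 1, ∀ z, lab (Equiv.swap x y z) = lab z := by
      intro x hx y hy z
      have ex := G.lab_one (mem_CC.1 hx)
      have ey := G.lab_one (mem_CC.1 hy)
      rcases eq_or_ne z x with rfl | h1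
      · rw [Equiv.swap_apply_left, ex, ey]
      · rcases eq_or_ne z y with rfl | h2
        · rw [Equiv.swap_apply_right, ex, ey]
        · rw [Equiv.swap_apply_of_ne_of_ne h1 h2]
    have hone : ∀ x ∈ CC lab 1, ∀ y ∈ CC lab 1, bl x = bl y → ∀ u v,
        σ₀ (Equiv.swap x y u) v = σ₀ u v := by
      intro x hx y hy hxy u v
      rcases eq_or_ne u x with rfl | h1
      · rw [Equiv.swap_apply_left]
        exact (hb _ _ v (mem_CC.1 hx) (mem_CC.1 hy) hxy).symm
      · rcases eq_or_ne u y with rfl | h2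
        · rw [Equiv.swap_apply_right]
          exact hb _ _ v (mem_CC.1 hx) (mem_CC.1 hy) hxy
        · rw [Equiv.swap_apply_of_ne_of_ne h1 h2]
    apply DvdAux.dvd_sum_classes (CC lab 1) bl
    · intro x hx
      rw [← hc x (mem_CC.1 hx)]
      congr 1
      ext y
      rw [Finset.mem_filter, Finset.mem_filter, mem_CC]
      exact ⟨fun h => ⟨Finset.mem_univ _, h⟩, fun h => h.2⟩
    · intro f hf
      have hf' : ∀ i, (lab (f i)).1 ≠ 1 := fun i h => hf i (mem_CC.2 h)
      rw [kappa (isSig_gY lab), kappa (isSig_gX lab), if_neg, if_neg]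
      · simp
      · intro hK
        obtain ⟨i, hi⟩ := hit_X hs hK 1 le_rfl (by omega)
        exact hf' i hi
      · intro hK
        obtain ⟨i, hi⟩ := hit_Y hs hK 1 le_rfl (by omega)
        exact hf' i hi
    · intro x hx y hy hxy f
      have e0 : cp l σ₀ (fun i => Equiv.swap x y (f i)) = cp l σ₀ f := by
        unfold cp
        refine Finset.prod_congr rfl fun i _ => ?_
        dsimp only
        rw [hone x hx y hy hxy, hσ.symm, hone x hx y hy hxy, hσ.symm]
      have e1 : ∀ j, cp l (gY lab j) (fun i => Equiv.swap x y (f i)) = cp l (gY lab j) f := by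
        intro j
        unfold cp gY
        simp only [hlab x hx y hy]
      have e2 : ∀ j, cp l (gX lab j) (fun i => Equiv.swap x y (f i)) = cp l (gX lab j) f := by
        intro j
        unfold cp gX
        simp only [hlab x hx y hy]
      simp only [e0, e1, e2]
  have h2 := cc_sub hl hn (isSig_sigY hσ lab s) (isSig_sigX hσ lab s)
  obtain ⟨k, hk⟩ := h1
  have e : (2 : ℤ) ^ l = 4 * 2 ^ (l - 2) := by
    conv_lhs => rw [show l = (l - 2) + 2 by omega, pow_add]
    ring
  refine ⟨-k, ?_⟩
  have hl0 : (4 * (l : ℤ)) ≠ 0 := by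
    have : (l : ℤ) ≠ 0 := by exact_mod_cast (by omega : l ≠ 0)
    positivity
  refine mul_left_cancel₀ hl0 ?_
  rw [h2]
  push_cast at hk
  rw [e] at hk
  linear_combination -hk

end Full

end MP_90430c
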