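import Pool.Agent.Lib.MP_90430c_co.Full.Stmts

/-!
# The size of the effect of a gadget with `s < l` levels (module Eff)
-/

open Finset

set_option synthInstance.maxSize 4096

namespace MP_90430c

namespace Full

namespace Eff

section identity

variable {V : Type} [Fintype V] [DecidableEq V] {lab : V → ℕ × Bool} {s a b : ℕ}
  {l : ℕ} [NeZero l] {σ₀ : V → V → ℤ}

/-- Sequences with too many middle vertices, state `Y`. -/
def bY (l : ℕ) [NeZero l] (σ₀ : V → V → ℤ) (lab : V → ℕ × Bool) (s : ℕ) : ℤ :=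
  ∑ f ∈ (inj l V).filter (fun f => KK (gY lab) s f ∧ s - 1 ≤ NM lab s f), cp l σ₀ f

/-- Sequences with too many middle vertices, state `X`. -/
def bX (l : ℕ) [NeZero l] (σ₀ : V → V → ℤ) (lab : V → ℕ × Bool) (s : ℕ) : ℤ :=
  ∑ f ∈ (inj l V).filter (fun f => KK (gX lab) s f ∧ s - 1 ≤ NM lab s f), cp l σ₀ f

lemma Z_diff (hI : IdentStmt) (hD : DecompStmt) (hs : 3 ≤ s) (hsl : s ≤ l) (G : Gadget lab s a b)
    (hσ : IsSig σ₀) (ht : Tw σ₀ lab s) (hp : Ps σ₀ lab s) :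
    Z l (sigY σ₀ lab s) - Z l (sigX σ₀ lab s)
      = (-2) ^ (s - 1) * (2 * l * PS σ₀ lab s (l - s) + bY l σ₀ lab s - bX l σ₀ lab s) := by
  rw [hI V l s a b lab σ₀ G hσ ht]
  obtain ⟨h1, h2, h3⟩ := hD V l s a b lab σ₀ hs hsl G hσ hp
  have e1 : ∀ f ∈ inj l V, cp l σ₀ f * (∏ j ∈ Icc 2 s, (cp l (gY lab j) f - 1)
        - ∏ j ∈ Icc 2 s, (cp l (gX lab j) f - 1))
      = (if KK (gY lab) s f then (-2) ^ (s - 1) * cp l σ₀ f else 0)
        - (if KK (gX lab) s f then (-2) ^ (s - 1) * cp l σ₀ f else 0) := by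
    intro f _
    rw [kappa (isSig_gY lab), kappa (isSig_gX lab)]
    split_ifs <;> ring
  rw [Finset.sum_congr rfl e1, Finset.sum_sub_distrib, ← Finset.sum_filter, ← Finset.sum_filter,
    ← Finset.mul_sum, ← Finset.mul_sum]
  have e2 : ∑ f ∈ (inj l V).filter (fun f => KK (gY lab) s f), cp l σ₀ f
      = 2 * l * PS σ₀ lab s (l - s) + bY l σ₀ lab s := by
    rw [← h1, bY, ← Finset.sum_union]
    · refine Finset.sum_congr ?_ fun _ _ => rfl
      ext f
      simp only [Finset.mem_filter, Finset.mem_union]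
      constructor
      · rintro ⟨hf, hK⟩
        have := h3 f hf hK
        rcases Nat.lt_or_ge (NM lab s f) (s - 1) with h | h
        · exact Or.inl ⟨hf, hK, by omega⟩
        · exact Or.inr ⟨hf, hK, h⟩
      · rintro (⟨hf, hK, _⟩ | ⟨hf, hK, _⟩)
        · exact ⟨hf, hK⟩
        · exact ⟨hf, hK⟩
    · rw [Finset.disjoint_left]
      intro f hf hf'
      simp only [Finset.mem_filter] at hf hf'
      have h4 := hf.2.2
      have h5 := hf'.2.2
      omega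
  have e3 : ∑ f ∈ (inj l V).filter (fun f => KK (gX lab) s f), cp l σ₀ f = bX l σ₀ lab s := by
    rw [bX]
    refine Finset.sum_congr ?_ fun _ _ => rfl
    ext f
    simp only [Finset.mem_filter]
    constructor
    · rintro ⟨hf, hK⟩
      exact ⟨hf, hK, h2 f hf hK⟩
    · rintro ⟨hf, hK, _⟩
      exact ⟨hf, hK⟩
  rw [e2, e3]
  ring

lemma cc_diff (hI : IdentStmt) (hD : DecompStmt) (hs : 3 ≤ s) (hsl : s ≤ l)
    (hn : l ≤ Fintype.card V) (G : Gadget lab s a b)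
    (hσ : IsSig σ₀) (ht : Tw σ₀ lab s) (hp : Ps σ₀ lab s) :
    4 * (l : ℤ) * ((-1) ^ s * (cc l (sigY σ₀ lab s) - cc l (sigX σ₀ lab s)))
      = 2 ^ (s - 1) * (2 * l * PS σ₀ lab s (l - s) + bY l σ₀ lab s - bX l σ₀ lab s) := by
  have h1 := Z_diff hI hD hs hsl G hσ ht hp
  have h2 := cc_sub (by omega : 3 ≤ l) hn (isSig_sigY hσ lab s) (isSig_sigX hσ lab s)
  set E := 2 * l * PS σ₀ lab s (l - s) + bY l σ₀ lab s - bX l σ₀ lab s with hE
  obtain ⟨t, rfl⟩ : ∃ t, s = t + 1 := ⟨s - 1, by omega⟩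
  have e1 : t + 1 - 1 = t := by omega
  rw [e1] at h1 ⊢
  have e4 : (-2 : ℤ) ^ t = (-1) ^ t * 2 ^ t := by
    rw [← mul_pow]; norm_num
  rw [e4] at h1
  have e5 : (-1 : ℤ) ^ (t + 1) * (-1) ^ t = -1 := by
    rw [← pow_add]
    have : Odd (t + 1 + t) := ⟨t, by ring⟩
    exact this.neg_one_pow
  linear_combination (-1 : ℤ) ^ (t + 1) * h2 - (-1 : ℤ) ^ (t + 1) * h1 - (2 ^ t * E) * e5

end identity

lemma ex_mono {V : Type} [Fintype V] [DecidableEq V] {σ : V → V → ℤ} {Y B : Finset V} {c c' : ℝ}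
    (h : Ex σ Y B c) (hc : c ≤ c') : Ex σ Y B c' := by
  intro ζ w h1 h2 h3
  refine (h ζ w h1 h2 h3).trans (mul_le_mul_of_nonneg_right hc ?_)
  unfold nrm
  exact Real.sqrt_nonneg _

lemma desc_bounds {y k l : ℕ} (hk : k + 1 ≤ l) (hy : 8 * (l : ℝ) ^ 2 ≤ y) :
    3 / 4 * (y : ℝ) ^ k ≤ (((y - 2).descFactorial k : ℕ) : ℝ) ∧
      (((y - 2).descFactorial k : ℕ) : ℝ) ≤ (y : ℝ) ^ k := by
  have hl1 : 1 ≤ l := by omega
  have hl : (1 : ℝ) ≤ l := by exact_mod_cast hl1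
  have hkl : (k : ℝ) + 1 ≤ l := by exact_mod_cast hk
  have hk0 : (0 : ℝ) ≤ k := by positivity
  have hy0 : (0 : ℝ) < y := by nlinarith
  have hyn : k + 2 ≤ y := by
    have : ((k + 2 : ℕ) : ℝ) ≤ y := by push_cast; nlinarith
    exact_mod_cast this
  constructor
  · have h1 := Nat.pow_sub_le_descFactorial (y - 2) k
    have h2 : (((y - 2 + 1 - k) ^ k : ℕ) : ℝ) ≤ (((y - 2).descFactorial k : ℕ) : ℝ) := by
      exact_mod_cast h1
    refine le_trans ?_ h2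
    have e : ((y - 2 + 1 - k : ℕ) : ℝ) = y - (k + 1) := by
      have : y - 2 + 1 - k = y - (k + 1) := by omega
      rw [this, Nat.cast_sub (by omega)]
      push_cast; ring
    push_cast
    rw [e]
    have e2 : (y : ℝ) - (k + 1) = y * (1 + (-((k + 1) / y))) := by field_simp; ring
    rw [e2, mul_pow]
    have h3 : (k + 1) / (y : ℝ) ≤ 1 / (8 * l) := by
      rw [div_le_div_iff₀ hy0 (by positivity)]
      nlinarith
    have h4 : (1 : ℝ) / (8 * l) ≤ 1 := by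
      rw [div_le_one (by positivity)]; linarith
    have h5 := one_add_mul_le_pow (a := -((k + 1) / (y : ℝ))) (by linarith) k
    have h6 : (k : ℝ) * ((k + 1) / y) ≤ 1 / 4 := by
      calc (k : ℝ) * ((k + 1) / y) ≤ k * (1 / (8 * l)) := mul_le_mul_of_nonneg_left h3 hk0
        _ ≤ l * (1 / (8 * l)) := mul_le_mul_of_nonneg_right (by linarith) (by positivity)
        _ = 1 / 8 := by field_simp
        _ ≤ 1 / 4 := by norm_num
    calc 3 / 4 * (y : ℝ) ^ k = y ^ k * (3 / 4) := by ring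
      _ ≤ y ^ k * (1 + -((k + 1) / (y : ℝ))) ^ k := by
        refine mul_le_mul_of_nonneg_left ?_ (by positivity)
        refine le_trans ?_ h5
        linarith
  · have h1 := Nat.descFactorial_le_pow (y - 2) k
    have h2 : (((y - 2).descFactorial k : ℕ) : ℝ) ≤ (((y - 2 : ℕ) : ℝ)) ^ k := by exact_mod_cast h1
    refine h2.trans (pow_le_pow_left₀ (by positivity) ?_ k)
    exact_mod_cast Nat.sub_le _ _

end Eff

open Eff

theorem effStmt (hI : IdentStmt) (hD : DecompStmt) (hB : BadStmt) (hM : MainStmt) : EffStmt := by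
  intro V _ _ l s b _ lab σ₀ Y ε Λ C hs hsl hn G hσ ht hp hYY h1Y hsY hmY hε hε1 hE1 hEs hEY hbd
    hYΛ hC hΛC hnΛ hy8 hεc hcn
  set n : ℝ := (Fintype.card V : ℝ) with hndef
  set y : ℝ := (Y.card : ℝ) with hydef
  obtain ⟨k, rfl⟩ : ∃ k, l = s + (k + 1) := ⟨l - s - 1, by omega⟩
  set l : ℕ := s + (k + 1) with hldef
  have ek : l - s = k + 1 := by omega
  have ek1 : l - s - 1 = k := by omega
  have hl4 : 4 ≤ l := by omega
  have hlr : (4 : ℝ) ≤ l := by exact_mod_cast hl4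
  have hy1 : 1 ≤ y := by nlinarith
  have hy0 : 0 < y := by linarith
  have hΛ1 : 1 ≤ Λ := hy1.trans hYΛ
  have hyn : y ≤ n := by
    rw [hydef, hndef]
    exact_mod_cast Finset.card_le_univ Y
  have hn0 : 0 < n := by linarith
  have hC0 : 0 < C := by linarith
  have hb0 : (0 : ℝ) ≤ b := by positivity
  have h1 := cc_diff (l := l) hI hD hs hsl.le hn G hσ ht hp
  rw [ek] at h1
  set D : ℤ := (-1) ^ s * (cc l (sigY σ₀ lab s) - cc l (sigX σ₀ lab s)) with hDdef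
  -- the bad terms
  have hbadn : √((b : ℝ) * b) * (C * n) * Λ ^ (l - s - 1) ≤ b * (C * n) * (C * y) ^ k := by
    rw [Real.sqrt_mul_self hb0, ek1]
    exact mul_le_mul_of_nonneg_left (pow_le_pow_left₀ (by linarith) hΛC k) (by positivity)
  have hbad := hB V l s b b lab σ₀ Λ (C * n) hs hsl G hσ hbd hΛ1 hnΛ
    (by nlinarith) (hΛC.trans (mul_le_mul_of_nonneg_left hyn hC0.le))
  have hCk : C ^ (k + 1) ≤ C ^ l := pow_le_pow_right₀ hC (by omega)
  have hcE : cE l C = 8 * (2 ^ (l ^ 2) * (2 * l + 3) ^ l * C ^ l) := by unfold cE; ring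
  have hkey : (2 : ℝ) ^ (l ^ 2) * (2 * l + 3) ^ l * (b * (C * n) * (C * y) ^ k)
      ≤ b ^ 2 * y ^ (k + 1) / 8 := by
    calc (2 : ℝ) ^ (l ^ 2) * (2 * l + 3) ^ l * (b * (C * n) * (C * y) ^ k)
        = (2 : ℝ) ^ (l ^ 2) * (2 * l + 3) ^ l * C ^ (k + 1) * (b * n * y ^ k) := by
          rw [mul_pow]; ring
      _ ≤ (2 : ℝ) ^ (l ^ 2) * (2 * l + 3) ^ l * C ^ l * (b * n * y ^ k) := by
          refine mul_le_mul_of_nonneg_right (mul_le_mul_of_nonneg_left hCk (by positivity))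
            (by positivity)
      _ = (cE l C * n) * (b * y ^ k) / 8 := by rw [hcE]; ring
      _ ≤ (y * b) * (b * y ^ k) / 8 := by
          refine div_le_div_of_nonneg_right ?_ (by norm_num)
          exact mul_le_mul_of_nonneg_right hcn (by positivity)
      _ = b ^ 2 * y ^ (k + 1) / 8 := by ring
  have hcst : (0 : ℝ) ≤ 2 ^ (l ^ 2) * (2 * l + 3) ^ l := by positivity
  have hY' : |((bY l σ₀ lab s : ℤ) : ℝ)| ≤ b ^ 2 * y ^ (k + 1) / 8 :=
    hbad.1.trans ((mul_le_mul_of_nonneg_left hbadn hcst).trans hkey)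
  have hX' : |((bX l σ₀ lab s : ℤ) : ℝ)| ≤ b ^ 2 * y ^ (k + 1) / 8 :=
    hbad.2.trans ((mul_le_mul_of_nonneg_left hbadn hcst).trans hkey)
  -- the main term
  have hmain := hM V s b b (k + 1) lab σ₀ Y ε Λ hs (by omega) G hσ hYY h1Y hsY hmY hε.le
    (ex_mono hE1 (by
      refine mul_le_mul_of_nonneg_right ?_ (Real.sqrt_nonneg _)
      exact mul_le_of_le_one_left hb0 hε1)) hEs hEY hbd hYΛ
  have hpow : (2 : ℝ) ^ ((k + 1 + 2) ^ 2) * 2 ^ (k + 1) ≤ 2 ^ (l ^ 2) := by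
    rw [← pow_add]
    refine pow_le_pow_right₀ (by norm_num) ?_
    have : l = s + (k + 1) := hldef
    have h3 : k + 4 ≤ l := by omega
    nlinarith
  have hmain2 : |((PS σ₀ lab s (k + 1) : ℤ) : ℝ) - b * b * (((Y.card - 2).descFactorial (k + 1) : ℕ) : ℝ)|
      ≤ b ^ 2 * y ^ (k + 1) / 8 := by
    refine hmain.trans ?_
    have e : k + 1 - 1 = k := by omega
    rw [e]
    have h2l : (1 : ℝ) ≤ (2 * l + 3) ^ l := one_le_pow₀ (by linarith)
    have hCk' : C ^ k ≤ C ^ l := pow_le_pow_right₀ hC (by omega)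
    calc (2 : ℝ) ^ ((k + 1 + 2) ^ 2) * 2 ^ (k + 1) * (ε * (b * b) * y * Λ ^ k)
        ≤ 2 ^ (l ^ 2) * (ε * (b * b) * y * (C * y) ^ k) := by
          refine mul_le_mul hpow ?_ (by positivity) (by positivity)
          exact mul_le_mul_of_nonneg_left (pow_le_pow_left₀ (by linarith) hΛC k) (by positivity)
      _ = 2 ^ (l ^ 2) * 1 * C ^ k * ε * (b ^ 2 * y ^ (k + 1)) := by rw [mul_pow]; ring
      _ ≤ 2 ^ (l ^ 2) * (2 * l + 3) ^ l * C ^ l * ε * (b ^ 2 * y ^ (k + 1)) := by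
          refine mul_le_mul_of_nonneg_right (mul_le_mul_of_nonneg_right ?_ hε.le) (by positivity)
          refine mul_le_mul (mul_le_mul_of_nonneg_left h2l (by positivity)) hCk' (by positivity)
            (by positivity)
      _ = (ε * cE l C) * (b ^ 2 * y ^ (k + 1)) / 8 := by rw [hcE]; ring
      _ ≤ 1 * (b ^ 2 * y ^ (k + 1)) / 8 := by
          refine div_le_div_of_nonneg_right ?_ (by norm_num)
          exact mul_le_mul_of_nonneg_right hεc (by positivity)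
      _ = _ := by ring
  obtain ⟨hd1, hd2⟩ := desc_bounds (y := Y.card) (k := k + 1) (l := l) (by omega) hy8
  rw [← hydef] at hd1 hd2
  set F : ℝ := (((Y.card - 2).descFactorial (k + 1) : ℕ) : ℝ) with hF
  set P : ℝ := ((PS σ₀ lab s (k + 1) : ℤ) : ℝ) with hP
  -- the formula in the reals
  have hl0 : (0 : ℝ) < l := by linarith
  have e1 : (2 : ℝ) ^ (s - 1) = 2 * 2 ^ (s - 2) := by
    rw [← pow_succ']; congr 1; omega
  have h1' : 4 * (l : ℝ) * (D : ℝ) = 2 ^ (s - 1) * (2 * l * P + ((bY l σ₀ lab s : ℤ) : ℝ)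
      - ((bX l σ₀ lab s : ℤ) : ℝ)) := by
    have := congrArg (fun z : ℤ => (z : ℝ)) h1
    push_cast at this
    rw [hP]
    exact this
  rw [e1] at h1'
  set R : ℝ := (((bY l σ₀ lab s : ℤ) : ℝ) - ((bX l σ₀ lab s : ℤ) : ℝ)) / (2 * l) with hR
  have h3 : (D : ℝ) = 2 ^ (s - 2) * (P + R) := by
    rw [hR]
    field_simp
    linarith
  have hR' : |R| ≤ b ^ 2 * y ^ (k + 1) / 8 := by
    rw [hR, abs_div, abs_of_pos (by positivity : (0 : ℝ) < 2 * l), div_le_iff₀ (by positivity)]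
    have h5 : |((bY l σ₀ lab s : ℤ) : ℝ) - ((bX l σ₀ lab s : ℤ) : ℝ)|
        ≤ |((bY l σ₀ lab s : ℤ) : ℝ)| + |((bX l σ₀ lab s : ℤ) : ℝ)| := abs_sub _ _
    refine h5.trans ((add_le_add hY' hX').trans ?_)
    have h6 : 0 ≤ (b : ℝ) ^ 2 * y ^ (k + 1) / 8 := by positivity
    nlinarith
  have hB2 : 0 ≤ (b : ℝ) ^ 2 := by positivity
  have hlow : b ^ 2 * (3 / 4 * y ^ (k + 1)) ≤ b * b * F := by
    rw [← sq]; exact mul_le_mul_of_nonneg_left hd1 hB2
  have hupp : b * b * F ≤ b ^ 2 * y ^ (k + 1) := by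
    rw [← sq]; exact mul_le_mul_of_nonneg_left hd2 hB2
  have a1 := abs_le.1 hmain2
  have a2 := abs_le.1 hR'
  have hnn : 0 ≤ (b : ℝ) ^ 2 * y ^ (k + 1) := by positivity
  have h2p : (0 : ℝ) < 2 ^ (s - 2) := by positivity
  rw [h3, ek]
  constructor
  · have : 1 / 2 * ((b : ℝ) ^ 2 * y ^ (k + 1)) ≤ P + R := by linarith
    calc 1 / 2 * (2 ^ (s - 2) * (b : ℝ) ^ 2 * y ^ (k + 1))
        = 2 ^ (s - 2) * (1 / 2 * ((b : ℝ) ^ 2 * y ^ (k + 1))) := by ring
      _ ≤ _ := mul_le_mul_of_nonneg_left this h2p.le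
  · have : P + R ≤ 2 * ((b : ℝ) ^ 2 * y ^ (k + 1)) := by linarith
    calc 2 ^ (s - 2) * (P + R) ≤ 2 ^ (s - 2) * (2 * ((b : ℝ) ^ 2 * y ^ (k + 1))) :=
          mul_le_mul_of_nonneg_left this h2p.le
      _ = _ := by ring

end Full

end MP_90430c
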