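import Pool.Agent.Lib.MP_90430c_co.Full.Api

/-!
# The count for a large all positive set
-/

open Finset

set_option linter.unusedSectionVars false

namespace MP_90430c

namespace Full

namespace FinM

variable {V : Type} [Fintype V] [DecidableEq V]

/-- The signature with the signs `ω` on the pairs inside `Y`. -/
def rg (σ : V → V → ℤ) (Y : Finset V) (ω : Sym2 V → ℤˣ) (x y : V) : ℤ :=
  if x ∈ Y ∧ y ∈ Y then ((ω s(x, y) : ℤˣ) : ℤ) else σ x y

lemma isSig_rg {σ : V → V → ℤ} (hσ : IsSig σ) (Y : Finset V) (ω : Sym2 V → ℤˣ) :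
    IsSig (rg σ Y ω) := by
  constructor
  · intro x y
    unfold rg
    by_cases h : x ∈ Y ∧ y ∈ Y
    · rw [if_pos h, if_pos h.symm, Sym2.eq_swap]
    · rw [if_neg h, if_neg fun h' => h h'.symm, hσ.symm x y]
  · intro x y
    unfold rg
    split_ifs
    · rcases Int.units_eq_one_or (ω s(x, y)) with h | h <;> rw [h] <;> simp
    · exact hσ.val x y

lemma edge_inj {l : ℕ} [NeZero l] (hl : 3 ≤ l) {f : Fin l → V} (hf : Function.Injective f) :
    Function.Injective fun i => s(f i, f (i + 1)) := by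
  obtain ⟨m, rfl⟩ : ∃ m, l = m + 3 := ⟨l - 3, by omega⟩
  exact Circ.edge_inj hf

/-- Change the sign at `e`. -/
def fl (e : Sym2 V) : (Sym2 V → ℤˣ) ≃ (Sym2 V → ℤˣ) where
  toFun ω := Function.update ω e (-ω e)
  invFun ω := Function.update ω e (-ω e)
  left_inv ω := by simp
  right_inv ω := by simp

lemma cp_fl {l : ℕ} [NeZero l] (hl : 3 ≤ l) (σ : V → V → ℤ) (Y : Finset V) {f : Fin l → V}
    (hf : Function.Injective f) {i : Fin l} (h1 : f i ∈ Y) (h2 : f (i + 1) ∈ Y)
    (ω : Sym2 V → ℤˣ) :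
    cp l (rg σ Y (fl s(f i, f (i + 1)) ω)) f = -cp l (rg σ Y ω) f := by
  unfold cp
  rw [← Finset.mul_prod_erase univ (fun j => rg σ Y (fl s(f i, f (i + 1)) ω) (f j) (f (j + 1)))
      (Finset.mem_univ i),
    ← Finset.mul_prod_erase univ (fun j => rg σ Y ω (f j) (f (j + 1))) (Finset.mem_univ i),
    ← neg_mul]
  congr 1
  · unfold rg
    rw [if_pos ⟨h1, h2⟩, if_pos ⟨h1, h2⟩]
    simp [fl]
  · refine Finset.prod_congr rfl fun j hj => ?_
    have hji : s(f j, f (j + 1)) ≠ s(f i, f (i + 1)) := fun h =>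
      (Finset.ne_of_mem_erase hj) (edge_inj hl hf h)
    unfold rg
    split_ifs
    · simp [fl, Function.update_of_ne hji]
    · rfl

lemma sum_cp_zero {l : ℕ} [NeZero l] (hl : 3 ≤ l) (σ : V → V → ℤ) (Y : Finset V) {f : Fin l → V}
    (hf : Function.Injective f) {i : Fin l} (h1 : f i ∈ Y) (h2 : f (i + 1) ∈ Y) :
    ∑ ω : Sym2 V → ℤˣ, cp l (rg σ Y ω) f = 0 := by
  have h : ∑ ω : Sym2 V → ℤˣ, cp l (rg σ Y ω) f = -∑ ω : Sym2 V → ℤˣ, cp l (rg σ Y ω) f := by
    rw [← Finset.sum_neg_distrib, ← (fl s(f i, f (i + 1))).sum_comp]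
    exact Finset.sum_congr rfl fun ω _ => cp_fl hl σ Y hf h1 h2 ω
  linarith

/-- The sequences without two consecutive vertices in `Y`. -/
def noYY (l : ℕ) [NeZero l] (Y : Finset V) (f : Fin l → V) : Prop :=
  ∀ i, ¬ (f i ∈ Y ∧ f (i + 1) ∈ Y)

instance (l : ℕ) [NeZero l] (Y : Finset V) : DecidablePred (noYY l Y : (Fin l → V) → Prop) := by
  unfold noYY
  infer_instance

lemma sum_Z {l : ℕ} [NeZero l] (hl : 3 ≤ l) (σ : V → V → ℤ) (Y : Finset V) :
    ∑ ω : Sym2 V → ℤˣ, Z l (rg σ Y ω) =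
      Fintype.card (Sym2 V → ℤˣ) * ∑ f ∈ (inj l V).filter (noYY l Y), cp l σ f := by
  unfold Z
  rw [Finset.sum_comm, Finset.sum_filter, Finset.mul_sum]
  refine Finset.sum_congr rfl fun f hf => ?_
  split_ifs with h
  · have h1 : ∀ ω : Sym2 V → ℤˣ, cp l (rg σ Y ω) f = cp l σ f := by
      intro ω
      unfold cp rg
      exact Finset.prod_congr rfl fun i _ => if_neg (h i)
    rw [Finset.sum_congr rfl fun ω _ => h1 ω, Finset.sum_const, Finset.card_univ, nsmul_eq_mul]
  · unfold noYY at h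
    push Not at h
    obtain ⟨i, h1, h2⟩ := h
    rw [sum_cp_zero hl σ Y (mem_inj.1 hf) h1 h2, mul_zero]

/-- The first part. -/
lemma part_one {k : ℕ} {σ : V → V → ℤ} (hσ : IsSig σ) (Y : Finset V) :
    -(2 ^ ((2 * k + 4) ^ 3) * (Fintype.card V : ℝ) ^ (k + 3)) ≤
      ((∑ f ∈ (inj (k + 2 + (k + 2)) V).filter (noYY _ Y), cp (k + 2 + (k + 2)) σ f : ℤ) : ℝ) := by
  set b : ℝ := -(2 ^ ((2 * k + 4) ^ 3) * (Fintype.card V : ℝ) ^ (k + 3)) with hb
  set S : ℤ := ∑ f ∈ (inj (k + 2 + (k + 2)) V).filter (noYY _ Y), cp (k + 2 + (k + 2)) σ f with hS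
  have h1 := sum_Z (l := k + 2 + (k + 2)) (by omega) σ Y
  have h2 : ∑ _ω : Sym2 V → ℤˣ, b ≤ ∑ ω : Sym2 V → ℤˣ, ((Z (k + 2 + (k + 2)) (rg σ Y ω) : ℤ) : ℝ) :=
    Finset.sum_le_sum fun ω _ => Top.Z_lower k (isSig_rg hσ Y ω)
  rw [← Int.cast_sum, h1, Finset.sum_const, Finset.card_univ, nsmul_eq_mul] at h2
  push_cast at h2
  have h3 : (0 : ℝ) < Fintype.card (Sym2 V → ℤˣ) := by
    exact_mod_cast Fintype.card_pos
  have h4 : (Fintype.card (Sym2 V → ℤˣ) : ℝ) * b ≤ Fintype.card (Sym2 V → ℤˣ) * (S : ℝ) := by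
    rw [hS]
    push_cast
    exact h2
  exact le_of_mul_le_mul_left h4 h3

/-- The second part. -/
lemma part_two {l : ℕ} [NeZero l] {σ : V → V → ℤ} {Y : Finset V}
    (hY : ∀ x ∈ Y, ∀ y ∈ Y, σ x y = 1) :
    ∑ f ∈ (inj l V).filter (fun f => ∀ i, f i ∈ Y), cp l σ f = (Y.card.descFactorial l : ℕ) := by
  have h1 : ∀ f ∈ (inj l V).filter (fun f => ∀ i, f i ∈ Y), cp l σ f = 1 := by
    intro f hf
    unfold cp
    exact Finset.prod_eq_one fun i _ => hY _ ((Finset.mem_filter.1 hf).2 i) _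
      ((Finset.mem_filter.1 hf).2 (i + 1))
  rw [Finset.sum_congr rfl h1, Finset.sum_const, nsmul_eq_mul, mul_one]
  congr 1
  have h2 : ((inj l V).filter (fun f => ∀ i, f i ∈ Y)).card = (inj l Y).card := by
    refine Finset.card_bij' (fun f hf i => ⟨f i, (Finset.mem_filter.1 hf).2 i⟩)
      (fun f _ i => (f i).1) ?_ ?_ ?_ ?_
    · intro f hf
      rw [Finset.mem_filter, mem_inj] at hf
      rw [mem_inj]
      intro i j h
      exact hf.1 (congrArg Subtype.val h)
    · intro f hf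
      rw [mem_inj] at hf
      rw [Finset.mem_filter, mem_inj]
      exact ⟨fun i j h => hf (Subtype.ext h), fun i => (f i).2⟩
    · intro f _; rfl
    · intro f _; rfl
  rw [h2, card_inj, Fintype.card_coe]

/-- The class of a vertex. -/
def cY (Y : Finset V) (x : V) : Bool := decide (x ∈ Y)

lemma cl_true (Y : Finset V) : cl' (cY Y) true = Y := by
  ext x
  rw [mem_cl']
  simp [cY]

lemma cl_false (Y : Finset V) : cl' (cY Y) false = Yᶜ := by
  ext x
  rw [mem_cl']
  simp [cY]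

/-- A pattern which is neither constant nor without two consecutive `true`. -/
def Mx {l : ℕ} [NeZero l] (lam : Fin l → Bool) : Prop :=
  (∃ i, lam i = true ∧ lam (i + 1) = true) ∧ ¬ ∀ i, lam i = true

instance {l : ℕ} [NeZero l] : DecidablePred (Mx : (Fin l → Bool) → Prop) := by
  unfold Mx
  infer_instance

/-- In a mixed closed pattern there is a step from `true` to `false`. -/
lemma exists_step {l : ℕ} [NeZero l] {lam : Fin l → Bool} (h : Mx lam) :
    ∃ i, lam i = true ∧ lam (i + 1) = false := by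
  by_contra hcon
  push Not at hcon
  obtain ⟨⟨i₀, h0, -⟩, h2⟩ := h
  apply h2
  have h3 : ∀ m : ℕ, lam (i₀ + Fin.ofNat l m) = true := by
    intro m
    induction m with
    | zero =>
      have : Fin.ofNat l 0 = 0 := by
        apply Fin.ext
        simp [Fin.ofNat]
      rw [this, add_zero]
      exact h0
    | succ m ih =>
      have e1 : Fin.ofNat l (m + 1) = Fin.ofNat l m + 1 := by
        apply Fin.ext
        rw [Fin.val_add, Fin.val_one']
        simp [Fin.ofNat]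
      rw [e1, ← add_assoc]
      have := hcon _ ih
      simpa using this
  intro i
  have h4 := h3 ((i - i₀ : Fin l) : ℕ)
  have e2 : Fin.ofNat l ((i - i₀ : Fin l) : ℕ) = i - i₀ := by
    apply Fin.ext
    show ((i - i₀ : Fin l) : ℕ) % l = _
    exact Nat.mod_eq_of_lt (i - i₀).2
  rw [e2] at h4
  have e3 : i₀ + (i - i₀) = i := by
    rw [add_comm]
    exact sub_add_cancel i i₀
  rwa [e3] at h4

/-- The third part. -/
lemma part_three {l : ℕ} [NeZero l] {σ : V → V → ℤ} {Y : Finset V} {g Λ : ℝ}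
    (hY : ∀ x ∈ Y, ∀ y ∈ Y, σ x y = 1) (hg : Bd (rs Y Yᶜ (rl σ)) g) (hΛ : Bd (rl σ) Λ)
    (hYΛ : (Y.card : ℝ) ≤ Λ) :
    |((∑ f ∈ (inj l V).filter (fun f => Mx fun i => cY Y (f i)), cp l σ f : ℤ) : ℝ)| ≤
      2 ^ (l ^ 2) * 2 ^ l * (g * Λ ^ (l - 1)) := by
  rw [Int.cast_sum, sum_patterns (cY Y) Mx (fun f => ((cp l σ f : ℤ) : ℝ))]
  refine (Finset.abs_sum_le_sum_abs _ _).trans ?_
  have hterm : ∀ lam ∈ (univ : Finset (Fin l → Bool)).filter Mx,
      |(∑ f ∈ (inj l V).filter (fun f => ∀ i, cY Y (f i) = lam i), ((cp l σ f : ℤ) : ℝ))| ≤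
        2 ^ (l ^ 2) * (g * Λ ^ (l - 1)) := by
    intro lam hlam
    have hM := (Finset.mem_filter.1 hlam).2
    obtain ⟨i₁, h1, h2⟩ := exists_step hM
    obtain ⟨⟨i₀, h3, h4⟩, -⟩ := hM
    have h01 : i₁ ≠ i₀ := by
      intro h
      rw [h, h4] at h2
      exact Bool.noConfusion h2
    have key := pattern_clique (cY Y) σ lam (fun i => if i = i₁ then g else Λ) i₀
      (fun x y hx hy => hY x (by
        rw [h3] at hx
        simpa [cY] using hx) y (by
        rw [h4] at hy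
        simpa [cY] using hy))
      (by
        rw [h3, h4, cl_true, if_neg (Ne.symm h01), Real.mul_self_sqrt (by positivity)]
        exact hYΛ)
      (fun i _ => by
        by_cases hi : i = i₁
        · rw [if_pos hi, hi, h1, h2, cl_true, cl_false]
          exact hg
        · rw [if_neg hi]
          exact hΛ.rs _ _)
    rw [Int.cast_sum] at key
    refine key.trans (le_of_eq ?_)
    congr 1
    rw [Finset.prod_ite, Finset.prod_const, Finset.prod_const, Finset.filter_eq' univ i₁,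
      if_pos (Finset.mem_univ i₁), Finset.card_singleton, pow_one]
    congr 2
    have e1 : univ.filter (fun i : Fin l => ¬ i = i₁) = univ.erase i₁ := by
      ext i
      simp
    rw [e1, Finset.card_erase_of_mem (Finset.mem_univ i₁), Finset.card_univ, Fintype.card_fin]
  refine (Finset.sum_le_sum hterm).trans ?_
  rw [Finset.sum_const, nsmul_eq_mul]
  have h5 : (((univ : Finset (Fin l → Bool)).filter Mx).card : ℝ) ≤ 2 ^ l := by
    have : ((univ : Finset (Fin l → Bool)).filter Mx).card ≤ 2 ^ l := by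
      refine (Finset.card_filter_le _ _).trans (le_of_eq ?_)
      simp
    exact_mod_cast this
  have h6 : 0 ≤ g := hg.nonneg
  have h7 : 0 ≤ Λ := hΛ.nonneg
  calc _ ≤ (2 : ℝ) ^ l * (2 ^ (l ^ 2) * (g * Λ ^ (l - 1))) :=
        mul_le_mul_of_nonneg_right h5 (by positivity)
    _ = _ := by ring

/-- The three parts. -/
lemma split {l : ℕ} [NeZero l] (σ : V → V → ℤ) (Y : Finset V) :
    Z l σ = ∑ f ∈ (inj l V).filter (noYY l Y), cp l σ f +
      ∑ f ∈ (inj l V).filter (fun f => ∀ i, f i ∈ Y), cp l σ f +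
      ∑ f ∈ (inj l V).filter (fun f => Mx fun i => cY Y (f i)), cp l σ f := by
  unfold Z
  rw [Finset.sum_filter, Finset.sum_filter, Finset.sum_filter, ← Finset.sum_add_distrib,
    ← Finset.sum_add_distrib]
  refine Finset.sum_congr rfl fun f _ => ?_
  by_cases h1 : noYY l Y f
  · have h2 : ¬ ∀ i, f i ∈ Y := fun h => h1 0 ⟨h _, h _⟩
    have h3 : ¬ Mx fun i => cY Y (f i) := by
      rintro ⟨⟨i, h4, h5⟩, -⟩
      exact h1 i ⟨by simpa [cY] using h4, by simpa [cY] using h5⟩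
    rw [if_pos h1, if_neg h2, if_neg h3, add_zero, add_zero]
  · rw [if_neg h1, zero_add]
    by_cases h2 : ∀ i, f i ∈ Y
    · have h3 : ¬ Mx fun i => cY Y (f i) := by
        rintro ⟨-, h4⟩
        exact h4 fun i => by simpa [cY] using h2 i
      rw [if_pos h2, if_neg h3, add_zero]
    · have h3 : Mx fun i => cY Y (f i) := by
        constructor
        · unfold noYY at h1
          push Not at h1
          obtain ⟨i, h4, h5⟩ := h1
          exact ⟨i, by simpa [cY] using h4, by simpa [cY] using h5⟩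
        · intro h4
          exact h2 fun i => by simpa [cY] using h4 i
      rw [if_neg h2, if_pos h3, zero_add]

end FinM

/-- Module Fin. -/
theorem finStmt : FinStmt := by
  intro V _ _ l hne σ Y g Λ he hl hσ hY hg hΛ hYΛ
  have h3 := FinM.part_three (l := l) hY hg hΛ hYΛ
  have h2 := FinM.part_two (l := l) hY
  have h0 := FinM.split (l := l) σ Y
  have h1 : -(2 ^ (l ^ 3) * (Fintype.card V : ℝ) ^ (l / 2 + 1)) ≤
      ((∑ f ∈ (inj l V).filter (FinM.noYY l Y), cp l σ f : ℤ) : ℝ) := by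
    obtain ⟨c, hc⟩ := he
    obtain ⟨k, rfl⟩ : ∃ k, c = k + 2 := ⟨c - 2, by omega⟩
    subst hc
    have h4 := FinM.part_one (k := k) hσ Y
    have e1 : 2 * k + 4 = k + 2 + (k + 2) := by ring
    have e2 : k + 3 = (k + 2 + (k + 2)) / 2 + 1 := by omega
    rw [e1] at h4
    rw [← e2]
    exact h4
  have h5 := (abs_le.1 h3).1
  rw [h0, h2]
  push_cast at h1 h5 ⊢
  linarith

end Full

end MP_90430c
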