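import Pool.Agent.Lib.MP_90430c_co.Full.SysD

/-!
# The theorem
-/

open Finset

namespace MP_90430c

namespace Full

/-- The exponent of the error at the upper end. -/
noncomputable def eu (l : ℕ) : ℝ :=
  if Even l then (l : ℝ) / 2 + 1 - 1 / (8 * (l : ℝ) ^ 2) else (l : ℝ) - 3 / 2

lemma exists_max {S : Set ℕ} (h1 : S.Nonempty) {B : ℕ} (h2 : ∀ x ∈ S, x ≤ B) :
    ∃ M ∈ S, ∀ x ∈ S, x ≤ M :=
  ⟨sSup S, Nat.sSup_mem h1 ⟨B, h2⟩, fun _ hx => le_csSup ⟨B, h2⟩ hx⟩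

theorem even_top (hS : SysStmt) (hA : AsymAStmt) (hB : AsymBStmt) (hC : AsymCStmt) {l : ℕ}
    (he : Even l) (hl : 4 ≤ l) :
    ∃ C : ℝ, 0 < C ∧ ∀ n : ℕ, l ≤ n → ∀ y ∈ SS n l, (∀ z ∈ SS n l, z ≤ y) → ∀ x : ℕ,
      gg n l ∣ x → C * (n : ℝ) ^ ((l : ℝ) - 3 / 2) ≤ x →
      (x : ℝ) ≤ y - C * (n : ℝ) ^ ((l : ℝ) / 2 + 1 - 1 / (8 * (l : ℝ) ^ 2)) → x ∈ SS n l := by
  have : NeZero l := ⟨by omega⟩
  have hl3 : 3 ≤ l := by omega
  have hlR : (4 : ℝ) ≤ l := by exact_mod_cast hl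
  obtain ⟨Cw, hCw, hw⟩ := window_even hl3
  obtain ⟨nA, hA⟩ := hA l he hl
  obtain ⟨K, nB, hB⟩ := hB l he hl
  obtain ⟨nC, hC⟩ := hC l he hl (4 * l * Cw)
  set n₀ := max nA (max nB nC) with hn₀
  refine ⟨Cw + |K| + (1 + 2 ^ (l ^ 3)) * ((n₀ : ℝ) + 1) ^ 2, by positivity, ?_⟩
  intro n hln y hy hymax x hgx hx0 hx1
  have hn1 : (1 : ℝ) ≤ n := by exact_mod_cast (by omega : 1 ≤ n)
  have hn0 : (0 : ℝ) < n := by linarith
  obtain ⟨hup, x1, hx1S, hx1M⟩ := Top.topEnd l n he hl hln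
  unfold top at hup hx1M
  rw [if_pos he] at hx1M
  have hup' := hup y hy
  rw [if_pos he] at hup'
  have hK0 := abs_nonneg K
  have hE0 : (0 : ℝ) ≤ (n : ℝ) ^ ((l : ℝ) / 2 + 1 - 1 / (8 * (l : ℝ) ^ 2)) := by positivity
  have hP0 : (0 : ℝ) < (n : ℝ) ^ ((l : ℝ) - 3 / 2) := by positivity
  have hN0 : (0 : ℝ) ≤ (1 + 2 ^ (l ^ 3)) * ((n₀ : ℝ) + 1) ^ 2 := by positivity
  have hxy : (x : ℝ) ≤ y := by
    have : 0 ≤ (Cw + |K| + (1 + 2 ^ (l ^ 3)) * ((n₀ : ℝ) + 1) ^ 2) *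
      (n : ℝ) ^ ((l : ℝ) / 2 + 1 - 1 / (8 * (l : ℝ) ^ 2)) := by positivity
    linarith
  rcases Nat.lt_or_ge n n₀ with hn | hn
  · -- small `n`
    exfalso
    have h1 : (y : ℝ) ≤ (1 + 2 ^ (l ^ 3)) * (n : ℝ) ^ l := by
      have h2 : (n.descFactorial l : ℝ) / (4 * l) ≤ (n : ℝ) ^ l := by
        rw [div_le_iff₀ (by positivity)]
        have h4 := desc_le n l
        have h5 : (0 : ℝ) ≤ (n : ℝ) ^ l := by positivity
        nlinarith
      have h3 : (2 : ℝ) ^ (l ^ 3) / (4 * l) * (n : ℝ) ^ (l / 2 + 1) ≤ 2 ^ (l ^ 3) * (n : ℝ) ^ l := by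
        refine mul_le_mul ?_ (pow_le_pow_right₀ hn1 (by omega)) (by positivity) (by positivity)
        rw [div_le_iff₀ (by positivity)]
        have h5 : (0 : ℝ) ≤ 2 ^ (l ^ 3) := by positivity
        nlinarith
      linarith
    have h2 : (n : ℝ) ^ l ≤ (n : ℝ) ^ 2 * (n : ℝ) ^ ((l : ℝ) - 3 / 2) := by
      rw [← Real.rpow_natCast n 2, ← Real.rpow_add hn0, ← Real.rpow_natCast]
      refine Real.rpow_le_rpow_of_exponent_le hn1 ?_
      push_cast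
      linarith
    have h3 : (n : ℝ) ^ 2 < ((n₀ : ℝ) + 1) ^ 2 := by
      have : (n : ℝ) < n₀ := by exact_mod_cast hn
      nlinarith
    have h4 : (1 + 2 ^ (l ^ 3)) * (n : ℝ) ^ l <
        (Cw + |K| + (1 + 2 ^ (l ^ 3)) * ((n₀ : ℝ) + 1) ^ 2) * (n : ℝ) ^ ((l : ℝ) - 3 / 2) := by
      calc (1 + 2 ^ (l ^ 3)) * (n : ℝ) ^ l
          ≤ (1 + 2 ^ (l ^ 3)) * ((n : ℝ) ^ 2 * (n : ℝ) ^ ((l : ℝ) - 3 / 2)) :=
            mul_le_mul_of_nonneg_left h2 (by positivity)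
        _ < (1 + 2 ^ (l ^ 3)) * (((n₀ : ℝ) + 1) ^ 2 * (n : ℝ) ^ ((l : ℝ) - 3 / 2)) :=
            mul_lt_mul_of_pos_left (mul_lt_mul_of_pos_right h3 hP0) (by positivity)
        _ = ((1 + 2 ^ (l ^ 3)) * ((n₀ : ℝ) + 1) ^ 2) * (n : ℝ) ^ ((l : ℝ) - 3 / 2) := by ring
        _ ≤ _ := mul_le_mul_of_nonneg_right (by linarith) hP0.le
    linarith
  · have hnA : nA ≤ n := by omega
    have hnB : nB ≤ n := by omega
    have hnC : nC ≤ n := by omega
    rcases le_or_gt (x : ℝ) ((n.descFactorial l : ℝ) / (4 * l) -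
      Cw * (n : ℝ) ^ ((l : ℝ) - 1 / (4 * l))) with hx | hx
    · refine hw n hln x hgx (le_trans (mul_le_mul_of_nonneg_right ?_ hP0.le) hx0) hx
      linarith
    · obtain ⟨σ, hσ, hc⟩ := (mem_SS hl3 hln y).1 hy
      have hcs := cc_spec hl3 (by rw [Fintype.card_fin]; exact hln) hσ
      rw [Fintype.card_fin, hc] at hcs
      have hcsR : 4 * (l : ℝ) * y = (n.descFactorial l : ℝ) - ((Z l σ : ℤ) : ℝ) := by
        exact_mod_cast hcs
      have hZ : Z l σ ≤ 0 := by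
        have h1 : (x1 : ℝ) ≤ y := by exact_mod_cast hymax x1 hx1S
        have h2 : (0 : ℝ) ≤ ((n : ℝ) / (2 * l)) ^ (l / 2 + 1) / (4 * l) := by positivity
        have h3 : (n.descFactorial l : ℝ) / (4 * l) ≤ y := by linarith
        rw [div_le_iff₀ (by positivity)] at h3
        have h4 : ((Z l σ : ℤ) : ℝ) ≤ 0 := by linarith
        exact_mod_cast h4
      refine hS l n _ _ _ _ _ _ _ he hl (hA n hnA) σ hσ hZ x hgx ?_ ?_
      · have h1 := hC n hnC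
        have h2 : 4 * (l : ℝ) * ((n.descFactorial l : ℝ) / (4 * l) -
            Cw * (n : ℝ) ^ ((l : ℝ) - 1 / (4 * l))) < 4 * l * x :=
          mul_lt_mul_of_pos_left hx (by positivity)
        have h3 : 4 * (l : ℝ) * ((n.descFactorial l : ℝ) / (4 * l) -
            Cw * (n : ℝ) ^ ((l : ℝ) - 1 / (4 * l))) = (n.descFactorial l : ℝ) -
            4 * l * Cw * (n : ℝ) ^ ((l : ℝ) - 1 / (4 * l)) := by
          field_simp
        linarith
      · have h1 := hB n hnB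
        rw [hc]
        have h2 : K * (n : ℝ) ^ ((l : ℝ) / 2 + 1 - 1 / (8 * (l : ℝ) ^ 2)) ≤
            4 * l * ((Cw + |K| + (1 + 2 ^ (l ^ 3)) * ((n₀ : ℝ) + 1) ^ 2) *
              (n : ℝ) ^ ((l : ℝ) / 2 + 1 - 1 / (8 * (l : ℝ) ^ 2))) := by
          rw [← mul_assoc]
          refine mul_le_mul_of_nonneg_right ?_ hE0
          have h3 := le_abs_self K
          have h4 : 0 ≤ Cw + |K| + (1 + 2 ^ (l ^ 3)) * ((n₀ : ℝ) + 1) ^ 2 := by positivity
          nlinarith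
        have h3 : 4 * (l : ℝ) * x ≤ 4 * l * (y - (Cw + |K| + (1 + 2 ^ (l ^ 3)) *
            ((n₀ : ℝ) + 1) ^ 2) * (n : ℝ) ^ ((l : ℝ) / 2 + 1 - 1 / (8 * (l : ℝ) ^ 2))) :=
          mul_le_mul_of_nonneg_left hx1 (by positivity)
        push_cast
        linarith

/-- The theorem, from the modules. -/
theorem full (hS : SysStmt) (hA : AsymAStmt) (hB : AsymBStmt) (hC : AsymCStmt) (l : ℕ)
    (hl : 3 ≤ l) : ∃ C : ℝ, ∀ n : ℕ, l ≤ n → ∃ M ∈ SS n l,
      (∀ x ∈ SS n l, gg n l ∣ x ∧ x ≤ M) ∧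
      (Odd l → 2 * l * M = n.descFactorial l) ∧
      (Even l → top n l + ((n : ℝ) / (2 * l)) ^ (l / 2 + 1) / (4 * l) ≤ M ∧
        (M : ℝ) ≤ top n l + 2 ^ (l ^ 3) / (4 * l) * (n : ℝ) ^ (l / 2 + 1)) ∧
      ∀ x : ℕ, gg n l ∣ x → C * (n : ℝ) ^ ((l : ℝ) - 3 / 2) ≤ x →
        (x : ℝ) ≤ M - C * (n : ℝ) ^ eu l → x ∈ SS n l := by
  have : NeZero l := ⟨by omega⟩
  have hl0 : (0 : ℝ) < l := by exact_mod_cast (by omega : 0 < l)
  rcases Nat.even_or_odd l with he | ho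
  · have hl4 : 4 ≤ l := by
      rcases hl.eq_or_lt with h | h
      · rw [← h] at he
        exact absurd he (by decide)
      · exact h
    obtain ⟨C, hC0, h⟩ := even_top hS hA hB hC he hl4
    refine ⟨C, fun n hln => ?_⟩
    obtain ⟨hup, x1, hx1S, hx1M⟩ := Top.topEnd l n he hl4 hln
    obtain ⟨M, hM, hmax⟩ := exists_max (S := SS n l) ⟨x1, hx1S⟩
      (B := ⌈top n l + 2 ^ (l ^ 3) / (4 * l) * (n : ℝ) ^ (l / 2 + 1)⌉₊) (by
        intro x hx
        exact_mod_cast (hup x hx).trans (Nat.le_ceil _))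
    refine ⟨M, hM, fun x hx => ⟨SS_dvd hl hln hx, hmax x hx⟩, fun ho => ?_, fun _ => ⟨?_, hup M hM⟩,
      ?_⟩
    · exact absurd he (Nat.not_even_iff_odd.2 ho)
    · exact hx1M.trans (by exact_mod_cast hmax x1 hx1S)
    · intro x hgx hx0 hx1
      unfold eu at hx1
      rw [if_pos he] at hx1
      exact h n hln M hM hmax x hgx hx0 hx1
  · have hne : ¬ Even l := Nat.not_even_iff_odd.2 ho
    obtain ⟨C, hC⟩ := window l hl
    refine ⟨C, fun n hln => ?_⟩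
    obtain ⟨T, hT, hTS⟩ := total_mem hl hln ho
    have hTr : (n.descFactorial l : ℝ) = 2 * l * T := by exact_mod_cast hT.symm
    have hT2 : top n l = T := by
      unfold top
      rw [if_neg hne, hTr]
      field_simp
    refine ⟨T, hTS, fun x hx => ⟨SS_dvd hl hln hx, ?_⟩, fun _ => hT, fun he => absurd he hne, ?_⟩
    · have hn' : l ≤ Fintype.card (Fin n) := by rw [Fintype.card_fin]; exact hln
      obtain ⟨σ, hσ, hc⟩ := (mem_SS hl hln x).1 hx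
      have h1 := cc_compl hl hn' ho hσ
      have h2 := cc_spec hl hn' hσ.neg
      have h3 : Z l (fun x y => -σ x y) ≤ ((Fintype.card (Fin n)).descFactorial l : ℤ) := by
        unfold Z
        rw [← card_inj (V := Fin n)]
        refine (le_abs_self _).trans ((Finset.abs_sum_le_sum_abs _ _).trans ?_)
        rw [Finset.sum_congr rfl fun f _ => abs_cp hσ.neg f, Finset.sum_const, nsmul_eq_mul, mul_one]
      have h4 : 0 ≤ 4 * (l : ℤ) * cc l (fun x y => -σ x y) := by rw [h2]; linarith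
      rw [hc, Fintype.card_fin] at h1
      have h5 : 2 * (l : ℤ) * x ≤ 2 * (l : ℤ) * T := by
        have : (2 * (l : ℤ) * T) = (n.descFactorial l : ℤ) := by exact_mod_cast hT
        rw [this]
        linarith
      have h6 : (0 : ℤ) < 2 * (l : ℤ) := by
        have : (0 : ℤ) < l := by exact_mod_cast (by omega : 0 < l)
        linarith
      exact_mod_cast le_of_mul_le_mul_left h5 h6
    · intro x hgx hx0 hx1
      unfold eu at hx1
      rw [if_neg hne] at hx1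
      refine (hC n hln).2 x hgx hx0 ?_
      unfold ex
      rw [if_neg hne, hT2]
      exact hx1

end Full

end MP_90430c
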