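import Pool.Agent.Lib.MP_90430c_co.Full.Api

/-!
# The geometry of a configuration: norms of the blocks
-/

open Finset

set_option linter.unusedSectionVars false

namespace MP_90430c

namespace Full

namespace GeoAux

variable {V : Type} [Fintype V] [DecidableEq V]

lemma mem_kd {cl : V → ℕ} {i : ℕ} {x : V} : x ∈ kd cl i ↔ cl x = i := by simp [kd]

lemma sqrt_self (n : ℕ) : √((n : ℝ) * n) = n := Real.sqrt_mul_self (Nat.cast_nonneg n)

lemma bd_restrict {A : V → V → ℝ} {c : ℝ} {P Q P' Q' : Finset V} (h : Bd (rs P' Q' A) c)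
    (hP : P ⊆ P') (hQ : Q ⊆ Q') : Bd (rs P Q A) c := h.rs_mono hP hQ

variable {σ : V → V → ℤ} {cl : V → ℕ} {Y0 : Finset V} {H E : V → V → ℝ} {g L D : ℝ}

/-- The set of vertices of kind at most three. -/
def U3 (cl : V → ℕ) : Finset V := univ.filter fun x => cl x ≤ 3

lemma kd_sub {i : ℕ} (hi : i ≤ 3) : kd cl i ⊆ U3 cl := by
  intro x hx
  rw [mem_kd] at hx
  simp only [U3, mem_filter, mem_univ, true_and]
  omega

/-- The decomposition into blocks. -/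
lemma decomp (h : Geo σ cl Y0 H E g L D) (x y : V) :
    rs (U3 cl) (U3 cl) H x y + -rs (kd cl 0) (kd cl 0) H x y + -rs (kd cl 2) (kd cl 2) H x y +
      -rs (kd cl 3) (kd cl 3) H x y + -rs Y0 (kd cl 3) H x y + -rs (kd cl 3) Y0 H x y +
      rs (kd cl 1) (kd cl 1) E x y + rs Y0 (kd cl 3) (rl σ) x y + rs (kd cl 3) Y0 (rl σ) x y +
      rs (kd cl 3) (kd cl 3) (rl σ) x y + rs (kd cl 4) univ (rl σ) x y +
      rs (kd cl 4)ᶜ (kd cl 4) (rl σ) x y =
    if (x ∈ kd cl 0 ∧ y ∈ kd cl 0) ∨ (x ∈ kd cl 2 ∧ y ∈ kd cl 2) then 0 else (σ x y : ℝ) := by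
  have hsym : (σ x y : ℝ) = σ y x := by rw [h.sig.symm x y]
  have hH := h.hs x y
  have hx : cl x = 0 ∨ cl x = 1 ∨ cl x = 2 ∨ cl x = 3 ∨ cl x = 4 := by
    have := h.le4 x; omega
  have hy : cl y = 0 ∨ cl y = 1 ∨ cl y = 2 ∨ cl y = 3 ∨ cl y = 4 := by
    have := h.le4 y; omega
  have hx0 : x ∈ Y0 → cl x = 0 := h.y0 x
  have hy0 : y ∈ Y0 → cl y = 0 := h.y0 y
  unfold rs rl U3
  simp only [mem_kd, mem_filter, mem_univ, true_and, mem_compl, and_true]
  rcases hx with hx | hx | hx | hx | hx <;> rcases hy with hy | hy | hy | hy | hy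
  · -- 0 0
    simp [hx, hy]
  · simp [hx, hy, h.yh x y hx (Or.inl hy)]
  · simp [hx, hy, h.yh x y hx (Or.inr hy)]
  · by_cases hm : x ∈ Y0
    · simp [hx, hy, hm]
    · simp [hx, hy, hm, h.ym x y hx hm hy]
  · simp [hx, hy]
  · rw [hsym]
    simp [hx, hy, h.yh y x hy (Or.inl hx), hH]
  · simp [hx, hy, h.xx x y hx hy]
  · simp [hx, hy, h.xw x y hx hy]
  · simp [hx, hy, h.xm x y (Or.inl hx) hy, mt hx0, mt hy0]
  · simp [hx, hy]
  · rw [hsym]
    simp [hx, hy, h.yh y x hy (Or.inr hx), hH]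
  · rw [hsym]
    simp [hx, hy, h.xw y x hy hx, hH]
  · simp [hx, hy]
  · simp [hx, hy, h.xm x y (Or.inr hx) hy, mt hx0, mt hy0]
  · simp [hx, hy]
  · by_cases hm : y ∈ Y0
    · simp [hx, hy, hm]
    · rw [hsym]
      simp [hx, hy, hm, h.ym y x hy hm hx, hH]
  · rw [hsym]
    simp [hx, hy, h.xm y x (Or.inl hy) hx, hH, mt hx0, mt hy0]
  · rw [hsym]
    simp [hx, hy, h.xm y x (Or.inr hy) hx, hH, mt hx0, mt hy0]
  · simp [hx, hy, mt hx0, mt hy0]
  · simp [hx, hy, mt hx0, mt hy0]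
  all_goals simp [hx, hy, mt hx0, mt hy0]

lemma sub_U3 {i : ℕ} {P : Finset V} (hP : P ⊆ kd cl i) (hi : i ≤ 3) : P ⊆ U3 cl :=
  hP.trans (kd_sub hi)

lemma y0_sub (h : Geo σ cl Y0 H E g L D) : Y0 ⊆ kd cl 0 := fun x hx => mem_kd.2 (h.y0 x hx)

/-- The norm of everything except the parts `0` and `2`. -/
lemma bd_main (h : Geo σ cl Y0 H E g L D) :
    Bd (fun x y => if (x ∈ kd cl 0 ∧ y ∈ kd cl 0) ∨ (x ∈ kd cl 2 ∧ y ∈ kd cl 2) then 0
      else (σ x y : ℝ)) (G0 cl Y0 g D) := by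
  have hU : Bd (rs (U3 cl) (U3 cl) H) g := h.bH
  have hY : Y0 ⊆ U3 cl := sub_U3 (y0_sub h) (by norm_num)
  have hk : ∀ i, i ≤ 3 → kd cl i ⊆ U3 cl := fun i hi => kd_sub hi
  have b0 := (hU.rs_mono (hk 0 (by norm_num)) (hk 0 (by norm_num))).neg
  have b2 := (hU.rs_mono (hk 2 (by norm_num)) (hk 2 (by norm_num))).neg
  have b3 := (hU.rs_mono (hk 3 le_rfl) (hk 3 le_rfl)).neg
  have b4 := (hU.rs_mono hY (hk 3 le_rfl)).neg
  have b5 := (hU.rs_mono (hk 3 le_rfl) hY).neg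
  have e1 := h.bE.rs (kd cl 1) (kd cl 1)
  have s1 := bd_sig h.sig Y0 (kd cl 3)
  have s2 := bd_sig h.sig (kd cl 3) Y0
  have s3 := bd_sig h.sig (kd cl 3) (kd cl 3)
  have s4 := bd_sig h.sig (kd cl 4) univ
  have s5 := bd_sig h.sig (kd cl 4)ᶜ (kd cl 4)
  have key := ((((((((((hU.add b0).add b2).add b3).add b4).add b5).add e1).add s1).add s2).add
    s3).add s4).add s5
  refine (key.congr fun x y => decomp h x y).mono ?_
  have hg : 0 ≤ g := h.bH.1
  unfold G0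
  rw [sqrt_self, mul_comm (Y0.card : ℝ) ((kd cl 3).card : ℝ), card_univ]
  have h5 : √((((kd cl 4)ᶜ.card : ℕ) : ℝ) * (kd cl 4).card) ≤
      √(((kd cl 4).card : ℝ) * Fintype.card V) := by
    rw [mul_comm]
    refine Real.sqrt_le_sqrt (mul_le_mul_of_nonneg_left ?_ (Nat.cast_nonneg _))
    exact_mod_cast card_le_univ _
  linarith

lemma bd_all (h : Geo σ cl Y0 H E g L D) :
    Bd (rl σ) ((kd cl 0).card + L + G0 cl Y0 g D) := by
  have s0 := bd_sig h.sig (kd cl 0) (kd cl 0)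
  rw [sqrt_self] at s0
  refine ((s0.add h.bW).add (bd_main h)).congr fun x y => ?_
  unfold rs rl
  simp only [mem_kd]
  by_cases hx0 : cl x = 0
  · by_cases hy0 : cl y = 0 <;> simp [hx0, hy0]
  · by_cases hx2 : cl x = 2
    · by_cases hy2 : cl y = 2 <;> simp [hx2, hy2]
    · simp [hx0, hx2]

lemma ex_all (h : Geo σ cl Y0 H E g L D) (B : Finset V) (hB : B ⊆ Y0) :
    Ex σ (kd cl 0) B
      (√B.card * g + B.card * √(kd cl 3).card + B.card * √(kd cl 4).card) := by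
  intro ζ w hζ hζB hw
  have hU : Bd (rs (U3 cl) (U3 cl) H) g := h.bH
  have hBU : B ⊆ U3 cl := sub_U3 (hB.trans (y0_sub h)) (by norm_num)
  have hk : kd cl 1 ∪ kd cl 2 ⊆ U3 cl :=
    union_subset (kd_sub (by norm_num)) (kd_sub (by norm_num))
  have b1 := hU.rs_mono hBU hk
  have b2 := bd_sig h.sig B (kd cl 3)
  have b3 := bd_sig h.sig B (kd cl 4)
  have key := ((b1.add b2).add b3).2 ζ w
  have e : ∑ x, ∑ y, ζ x * (σ x y : ℝ) * w y = ∑ x, ∑ y, ζ x *
      (rs B (kd cl 1 ∪ kd cl 2) H x y + rs B (kd cl 3) (rl σ) x y + rs B (kd cl 4) (rl σ) x y) *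
        w y := by
    refine sum_congr rfl fun x _ => sum_congr rfl fun y _ => ?_
    by_cases hxB : x ∈ B
    · have hx : cl x = 0 := h.y0 x (hB hxB)
      have hy : cl y = 0 ∨ cl y = 1 ∨ cl y = 2 ∨ cl y = 3 ∨ cl y = 4 := by
        have := h.le4 y; omega
      unfold rs rl
      simp only [mem_kd, mem_union]
      rcases hy with hy | hy | hy | hy | hy
      · rw [hw y (mem_kd.2 hy)]
        simp
      · simp [hxB, hy, h.yh x y hx (Or.inl hy)]
      · simp [hxB, hy, h.yh x y hx (Or.inr hy)]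
      · simp [hxB, hy]
      · simp [hxB, hy]
    · rw [hζB x hxB]
      simp
  rw [e]
  refine key.trans (mul_le_mul_of_nonneg_right ?_ (nrm_nonneg w))
  have hn : nrm ζ ≤ √B.card := nrm_le_card hζ hζB
  have hs : √(B.card : ℝ) * √B.card = B.card := Real.mul_self_sqrt (Nat.cast_nonneg _)
  refine (mul_le_mul_of_nonneg_left hn (((b1.add b2).add b3).1)).trans (le_of_eq ?_)
  rw [Real.sqrt_mul (Nat.cast_nonneg _), Real.sqrt_mul (Nat.cast_nonneg _)]
  calc (g + √(B.card : ℝ) * √(kd cl 3).card + √(B.card : ℝ) * √(kd cl 4).card) * √B.card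
      = √(B.card : ℝ) * g + (√(B.card : ℝ) * √B.card) * √(kd cl 3).card +
        (√(B.card : ℝ) * √B.card) * √(kd cl 4).card := by ring
    _ = _ := by rw [hs]

end GeoAux

/-- Module Geo. -/
theorem geoStmt : GeoStmt := fun _ _ _ _ _ _ _ _ _ _ _ h =>
  ⟨GeoAux.bd_main h, GeoAux.bd_all h, fun B hB => GeoAux.ex_all h B hB⟩

end Full

end MP_90430c
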