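import Pool.Agent.Lib.MP_90430c_co.Full.Api
import Pool.Agent.Lib.MP_90430c_co.Bal

/-!
# Module Had: the Hadamard matrix of characters and pull-backs
-/

open Finset

set_option linter.unusedSectionVars false

namespace MP_90430c

namespace Full

namespace Had

lemma bd_ch (k : ℕ) : Bd (fun x y : Fin k → Bool => ((BalAux.ch x y : ℤ) : ℝ)) (√(2 ^ k)) := by
  refine Bd.of_mulVec (Real.sqrt_nonneg _) fun v => ?_
  have h1 : ∑ x, (∑ y, ((BalAux.ch x y : ℤ) : ℝ) * v y) ^ 2 = 2 ^ k * ∑ y, v y ^ 2 := by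
    have h2 : ∀ x : Fin k → Bool, (∑ y, ((BalAux.ch x y : ℤ) : ℝ) * v y) ^ 2 =
        ∑ y, ∑ y', ((BalAux.ch x y * BalAux.ch x y' : ℤ) : ℝ) * (v y * v y') := by
      intro x
      rw [sq, Finset.sum_mul_sum]
      refine Finset.sum_congr rfl fun y _ => Finset.sum_congr rfl fun y' _ => ?_
      push_cast
      ring
    rw [Finset.sum_congr rfl fun x _ => h2 x, Finset.sum_comm, Finset.mul_sum]
    refine Finset.sum_congr rfl fun y _ => ?_
    rw [Finset.sum_comm]
    have h3 : ∀ y' : Fin k → Bool, ∑ x : Fin k → Bool,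
        ((BalAux.ch x y * BalAux.ch x y' : ℤ) : ℝ) * (v y * v y') =
        if y = y' then 2 ^ k * (v y * v y') else 0 := by
      intro y'
      rw [← Finset.sum_mul, ← Int.cast_sum, BalAux.ch_orth]
      split_ifs
      · push_cast
        rfl
      · simp
    rw [Finset.sum_congr rfl fun y' _ => h3 y', Finset.sum_ite_eq, if_pos (Finset.mem_univ y)]
    ring
  unfold nrm
  rw [h1, Real.sqrt_mul (by positivity)]

variable {V U : Type} [Fintype V] [DecidableEq V] [Fintype U] [DecidableEq U]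

/-- The push-forward of a vector on `P`. -/
def pf (π : V → U) (P : Finset V) (u : V → ℝ) (z : U) : ℝ := ∑ x ∈ P.filter fun x => π x = z, u x

lemma sum_pf (π : V → U) (P : Finset V) (u : V → ℝ) (g : U → ℝ) :
    ∑ x ∈ P, u x * g (π x) = ∑ z, pf π P u z * g z := by
  rw [← Finset.sum_fiberwise (s := P) (g := π)]
  refine Finset.sum_congr rfl fun z _ => ?_
  unfold pf
  rw [Finset.sum_mul]
  refine Finset.sum_congr rfl fun x hx => ?_
  rw [(Finset.mem_filter.1 hx).2]

lemma nrm_pf (π : V → U) (P : Finset V) (u : V → ℝ) (r : ℕ)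
    (h : ∀ z, (P.filter fun x => π x = z).card ≤ r) : nrm (pf π P u) ≤ √r * nrm u := by
  unfold nrm
  rw [← Real.sqrt_mul (Nat.cast_nonneg r)]
  refine Real.sqrt_le_sqrt ?_
  calc ∑ z, pf π P u z ^ 2 ≤ ∑ z, (r : ℝ) * ∑ x ∈ P.filter fun x => π x = z, u x ^ 2 := by
        refine Finset.sum_le_sum fun z _ => ?_
        refine sq_sum_le_card_mul_sum_sq.trans ?_
        exact mul_le_mul_of_nonneg_right (by exact_mod_cast h z)
          (Finset.sum_nonneg fun _ _ => sq_nonneg _)
    _ = r * ∑ x ∈ P, u x ^ 2 := by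
        rw [← Finset.mul_sum, Finset.sum_fiberwise]
    _ ≤ r * ∑ x, u x ^ 2 := by
        refine mul_le_mul_of_nonneg_left ?_ (Nat.cast_nonneg r)
        exact Finset.sum_le_sum_of_subset_of_nonneg (Finset.subset_univ P)
          fun _ _ _ => sq_nonneg _

lemma bd_pull (H : U → U → ℝ) (c : ℝ) (π : V → U) (P Q : Finset V) (r : ℕ) (hH : Bd H c)
    (hP : ∀ z, (P.filter fun x => π x = z).card ≤ r)
    (hQ : ∀ z, (Q.filter fun x => π x = z).card ≤ r) :
    Bd (rs P Q fun x y => H (π x) (π y)) (r * c) := by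
  refine ⟨mul_nonneg (Nat.cast_nonneg r) hH.1, fun u v => ?_⟩
  have h1 : ∑ x, ∑ y, u x * rs P Q (fun x y => H (π x) (π y)) x y * v y =
      ∑ z, ∑ w, pf π P u z * H z w * pf π Q v w := by
    have h2 : ∀ x, ∑ y, u x * rs P Q (fun x y => H (π x) (π y)) x y * v y =
        if x ∈ P then u x * ∑ w, pf π Q v w * H (π x) w else 0 := by
      intro x
      split_ifs with hx
      · rw [← sum_pf π Q v (fun w => H (π x) w), Finset.mul_sum,
          ← Finset.sum_subset (Finset.subset_univ Q)]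
        · refine Finset.sum_congr rfl fun y hy => ?_
          unfold rs
          rw [if_pos ⟨hx, hy⟩]
          ring
        · intro y _ hy
          unfold rs
          rw [if_neg fun h => hy h.2, mul_zero, zero_mul]
      · refine Finset.sum_eq_zero fun y _ => ?_
        unfold rs
        rw [if_neg fun h => hx h.1, mul_zero, zero_mul]
    rw [Finset.sum_congr rfl fun x _ => h2 x, ← Finset.sum_filter, Finset.filter_mem_eq_inter,
      Finset.univ_inter, sum_pf π P u (fun z => ∑ w, pf π Q v w * H z w)]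
    refine Finset.sum_congr rfl fun z _ => ?_
    rw [Finset.mul_sum]
    exact Finset.sum_congr rfl fun w _ => by ring
  rw [h1]
  refine (hH.2 _ _).trans ?_
  have hr : √(r : ℝ) * √(r : ℝ) = r := Real.mul_self_sqrt (Nat.cast_nonneg r)
  calc c * nrm (pf π P u) * nrm (pf π Q v) ≤ c * (√r * nrm u) * (√r * nrm v) :=
        mul_le_mul (mul_le_mul_of_nonneg_left (nrm_pf π P u r hP) hH.1) (nrm_pf π Q v r hQ)
          (nrm_nonneg _) (mul_nonneg hH.1 (mul_nonneg (Real.sqrt_nonneg _) (nrm_nonneg _)))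
    _ = (√r * √r) * c * nrm u * nrm v := by ring
    _ = _ := by rw [hr]

end Had

/-- Module Had. -/
theorem hadStmt : HadStmt :=
  ⟨Had.bd_ch, fun _ _ _ _ _ _ H c π P Q r hH hP hQ => Had.bd_pull H c π P Q r hH hP hQ⟩

end Full

end MP_90430c
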