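import Pool.Agent.Lib.MP_90430c_co.Full.Stmts

/-!
# Module Last: the exact effect of a gadget with `l` levels
-/

open Finset

set_option synthInstance.maxSize 4096
set_option linter.unusedSectionVars false

namespace MP_90430c

namespace Full

namespace Last

variable {V : Type} [Fintype V] [DecidableEq V]

theorem NM_le {l s : ℕ} {lab : V → ℕ × Bool} {f : Fin l → V} (hs : 2 ≤ s) {i j : Fin l}
    (hi : (lab (f i)).1 = 1) (hj : (lab (f j)).1 = s) : NM lab s f ≤ l - 2 := by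
  have hne : j ≠ i := by
    rintro rfl
    omega
  have hsub : (univ.filter fun k => 2 ≤ (lab (f k)).1 ∧ (lab (f k)).1 < s)
      ⊆ ((univ : Finset (Fin l)).erase i).erase j := by
    intro k hk
    rw [Finset.mem_filter] at hk
    rw [Finset.mem_erase, Finset.mem_erase]
    refine ⟨?_, ?_, Finset.mem_univ _⟩
    · rintro rfl
      omega
    · rintro rfl
      omega
  have h1 : (((univ : Finset (Fin l)).erase i).erase j).card = l - 2 := by
    rw [Finset.card_erase_of_mem (Finset.mem_erase.2 ⟨hne, Finset.mem_univ _⟩),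
      Finset.card_erase_of_mem (Finset.mem_univ _), Finset.card_univ, Fintype.card_fin]
    omega
  have h2 := Finset.card_le_card hsub
  rw [h1] at h2
  exact h2

theorem PS_zero {s a b : ℕ} {lab : V → ℕ × Bool} {σ₀ : V → V → ℤ} (hs : 3 ≤ s)
    (G : Gadget lab s a b) (hσ : IsSig σ₀)
    (h1 : ∀ x y, (lab x).1 = 1 → (lab y).1 = s → σ₀ x y = 1) :
    PS σ₀ lab s 0 = ((a * b : ℕ) : ℤ) := by
  classical
  unfold PS
  have hone : ∀ h ∈ (univ : Finset (Fin (0 + 2) → V)).filter (fun h => Function.Injective h ∧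
      lab (h 0) = (s, false) ∧ lab (h (Fin.last (0 + 1))) = (1, false) ∧
      ∀ i, ¬ (2 ≤ (lab (h i)).1 ∧ (lab (h i)).1 < s)),
      (∏ i : Fin (0 + 1), σ₀ (h i.castSucc) (h i.succ)) = 1 := by
    intro h hh
    rw [Finset.mem_filter] at hh
    rw [Fin.prod_univ_one, hσ.symm]
    refine h1 _ _ ?_ ?_
    · change (lab (h (Fin.last (0 + 1)))).1 = 1
      rw [hh.2.2.2.1]
    · change (lab (h 0)).1 = s
      rw [hh.2.2.1]
  rw [Finset.sum_congr rfl hone, Finset.sum_const, nsmul_eq_mul, mul_one]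
  congr 1
  rw [← G.cardA, ← G.cardB, ← Finset.card_product]
  refine Finset.card_bij' (fun h _ => (h (Fin.last (0 + 1)), h 0)) (fun p _ => ![p.2, p.1])
    ?_ ?_ ?_ ?_
  · intro h hh
    rw [Finset.mem_filter] at hh
    rw [Finset.mem_product, Finset.mem_filter, Finset.mem_filter]
    exact ⟨⟨Finset.mem_univ _, hh.2.2.2.1⟩, ⟨Finset.mem_univ _, hh.2.2.1⟩⟩
  · intro p hp
    rw [Finset.mem_product, Finset.mem_filter, Finset.mem_filter] at hp
    rw [Finset.mem_filter]
    obtain ⟨⟨_, hp1⟩, ⟨_, hp2⟩⟩ := hp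
    have hne : p.2 ≠ p.1 := by
      intro h
      rw [h, hp1] at hp2
      have := congrArg Prod.fst hp2
      simp only at this
      omega
    refine ⟨Finset.mem_univ _, ?_, hp2, hp1, ?_⟩
    · intro i j hij
      fin_cases i <;> fin_cases j
      · rfl
      · exact absurd hij hne
      · exact absurd hij.symm hne
      · rfl
    · intro i
      fin_cases i
      · change ¬ (2 ≤ (lab p.2).1 ∧ (lab p.2).1 < s)
        rw [hp2]
        simp
      · change ¬ (2 ≤ (lab p.1).1 ∧ (lab p.1).1 < s)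
        rw [hp1]
        simp
  · intro h _
    funext i
    fin_cases i <;> rfl
  · intro p _
    rfl

end Last

/-- Module Last. -/
theorem lastStmt (hI : IdentStmt) (hD : DecompStmt) : LastStmt := by
  intro V _ _ l a b _ lab σ₀ hl hn G hσ hT hP h1
  obtain ⟨d1, d2, d3⟩ := hD V l l a b lab σ₀ hl le_rfl G hσ hP
  have hX : (inj l V).filter (fun f => KK (gX lab) l f) = ∅ := by
    rw [Finset.filter_eq_empty_iff]
    intro f hf hK
    obtain ⟨i, hi⟩ := hit_X (by omega) hK 1 le_rfl (by omega)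
    obtain ⟨j, hj⟩ := hit_X (by omega) hK l (by omega) le_rfl
    have e1 := d2 f hf hK
    have e2 := Last.NM_le (by omega) hi hj
    omega
  have hY : (inj l V).filter (fun f => KK (gY lab) l f)
      = (inj l V).filter (fun f => KK (gY lab) l f ∧ NM lab l f = l - 2) := by
    refine Finset.filter_congr fun f hf => ?_
    refine ⟨fun hK => ⟨hK, ?_⟩, fun h => h.1⟩
    obtain ⟨i, hi⟩ := hit_Y (by omega) hK 1 le_rfl (by omega)
    obtain ⟨j, hj⟩ := hit_Y (by omega) hK l (by omega) le_rfl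
    have e1 := d3 f hf hK
    have e2 := Last.NM_le (by omega) hi hj
    omega
  have hid := hI V l l a b lab σ₀ G hσ hT
  have hsum : ∑ f ∈ inj l V, cp l σ₀ f * (∏ j ∈ Icc 2 l, (cp l (gY lab j) f - 1)
        - ∏ j ∈ Icc 2 l, (cp l (gX lab j) f - 1))
      = (-2) ^ (l - 1) * (∑ f ∈ (inj l V).filter (fun f => KK (gY lab) l f), cp l σ₀ f
        - ∑ f ∈ (inj l V).filter (fun f => KK (gX lab) l f), cp l σ₀ f) := by
    rw [Finset.sum_filter, Finset.sum_filter, ← Finset.sum_sub_distrib, Finset.mul_sum]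
    refine Finset.sum_congr rfl fun f _ => ?_
    rw [kappa (fun j => isSig_gY lab j) f, kappa (fun j => isSig_gX lab j) f]
    split_ifs <;> ring
  rw [hsum, hX, Finset.sum_empty, sub_zero, hY, d1, Nat.sub_self,
    Last.PS_zero hl G hσ h1] at hid
  have h4 := cc_sub hl hn (isSig_sigY hσ lab l) (isSig_sigX hσ lab l)
  have h5 : Z l (sigX σ₀ lab l) - Z l (sigY σ₀ lab l)
      = -((-2) ^ (l - 1) * (2 * l * ((a * b : ℕ) : ℤ))) := by
    rw [← hid]
    ring
  rw [h5] at h4
  obtain ⟨t, rfl⟩ : ∃ t, l = t + 2 := ⟨l - 2, by omega⟩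
  have e1 : t + 2 - 1 = t + 1 := by omega
  have e2 : t + 2 - 2 = t := by omega
  rw [e1] at h4
  rw [e2]
  have e4 : (-2 : ℤ) ^ (t + 1) = (-1) ^ (t + 1) * 2 ^ (t + 1) := by
    rw [← mul_pow]; norm_num
  have e5 : (-1 : ℤ) ^ (t + 2) * (-1) ^ (t + 1) = -1 := by
    rw [← pow_add]
    have : Odd (t + 2 + (t + 1)) := ⟨t + 1, by ring⟩
    exact this.neg_one_pow
  rw [e4] at h4
  have hl0 : (4 * ((t + 2 : ℕ) : ℤ)) ≠ 0 := by positivity
  refine mul_left_cancel₀ hl0 ?_
  have h6 : 4 * ((t + 2 : ℕ) : ℤ) * ((-1) ^ (t + 2) *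
      (cc (t + 2) (sigY σ₀ lab (t + 2)) - cc (t + 2) (sigX σ₀ lab (t + 2))))
      = (-1) ^ (t + 2) * (4 * ((t + 2 : ℕ) : ℤ) *
        (cc (t + 2) (sigY σ₀ lab (t + 2)) - cc (t + 2) (sigX σ₀ lab (t + 2)))) := by ring
  rw [h6, h4]
  linear_combination (-(2 : ℤ) ^ (t + 1) * (2 * ((t + 2 : ℕ) : ℤ) * ((a * b : ℕ) : ℤ))) * e5

end Full

end MP_90430c
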