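import Pool.Agent.Lib.MP_90430c_co.Full.Api
import Pool.Agent.Lib.MP_90430c_co.LowCount

/-!
# Paths out of the all positive set
-/

open Finset

set_option linter.unusedSectionVars false

namespace MP_90430c

namespace Full

namespace Main

variable {V : Type} [Fintype V] [DecidableEq V]

/-- The weighted sum over all walks with `m` steps; `u` is a weight at the start. -/
noncomputable def Wk (σ : V → V → ℤ) (m : ℕ) (u : V → ℝ) (φ : Fin (m + 1) → V → ℝ) : ℝ :=
  ∑ h : Fin (m + 1) → V, u (h 0) * (∏ i, φ i (h i)) *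
    ∏ i : Fin m, (σ (h i.castSucc) (h i.succ) : ℝ)

lemma Wk_succ (σ : V → V → ℤ) (m : ℕ) (u : V → ℝ) (φ : Fin (m + 2) → V → ℝ) :
    Wk σ (m + 1) u φ =
      Wk σ m (fun y => ∑ x, u x * φ 0 x * (σ x y : ℝ)) (fun i => φ i.succ) := by
  unfold Wk
  rw [← (Fin.consEquiv (fun _ : Fin (m + 2) => V)).sum_comp, Fintype.sum_prod_type, Finset.sum_comm]
  refine Finset.sum_congr rfl fun h _ => ?_
  rw [Finset.sum_mul, Finset.sum_mul]
  refine Finset.sum_congr rfl fun x _ => ?_
  simp only [Fin.consEquiv_apply, Fin.cons_zero, Fin.cons_succ]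
  have h1 : ∏ i, φ i ((Fin.cons x h : Fin (m + 2) → V) i) = φ 0 x * ∏ i, φ i.succ (h i) := by
    rw [Fin.prod_univ_succ]
    rfl
  have h2 : ∏ i : Fin (m + 1), (σ ((Fin.cons x h : Fin (m + 2) → V) i.castSucc) (h i) : ℝ) =
      σ x (h 0) * ∏ i : Fin m, (σ (h i.castSucc) (h i.succ) : ℝ) := by
    rw [Fin.prod_univ_succ]
    rfl
  rw [h1, h2]
  ring

lemma Wk_zero (σ : V → V → ℤ) (u : V → ℝ) (φ : Fin 1 → V → ℝ) :
    Wk σ 0 u φ = ∑ x, u x * φ 0 x := by
  unfold Wk
  rw [← (Equiv.funUnique (Fin 1) V).symm.sum_comp]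
  refine Finset.sum_congr rfl fun x _ => ?_
  simp

lemma Wk_smul (σ : V → V → ℤ) (m : ℕ) (c : ℝ) (φ : Fin (m + 1) → V → ℝ) :
    Wk σ m (fun _ => c) φ = c * Wk σ m (fun _ => 1) φ := by
  unfold Wk
  rw [Finset.mul_sum]
  refine Finset.sum_congr rfl fun h _ => ?_
  ring

lemma Wk_congr (σ : V → V → ℤ) (m : ℕ) {u u' : V → ℝ} {φ : Fin (m + 1) → V → ℝ}
    (h : ∀ x, φ 0 x ≠ 0 → u x = u' x) : Wk σ m u φ = Wk σ m u' φ := by
  unfold Wk
  refine Finset.sum_congr rfl fun g _ => ?_
  rcases eq_or_ne (φ 0 (g 0)) 0 with h0 | h0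
  · have : ∏ i, φ i (g i) = 0 := Finset.prod_eq_zero (Finset.mem_univ 0) h0
    rw [this]; ring
  · rw [h _ h0]

/-- The support is in `Y`. -/
def InY (Y : Finset V) (u : V → ℝ) : Prop := ∀ x, x ∉ Y → u x = 0

/-- The support is outside `Y`. -/
def OffY (Y : Finset V) (u : V → ℝ) : Prop := ∀ x ∈ Y, u x = 0

lemma sum_le_card {P : Finset V} {u : V → ℝ} (h1 : ∀ x, |u x| ≤ 1) (h2 : InY P u) :
    |∑ x, u x| ≤ P.card := by
  calc |∑ x, u x| = |∑ x ∈ P, u x| := by
        rw [← Finset.sum_subset (Finset.subset_univ P) fun x _ hx => h2 x hx]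
    _ ≤ ∑ x ∈ P, |u x| := Finset.abs_sum_le_sum_abs _ _
    _ ≤ ∑ _x ∈ P, (1 : ℝ) := Finset.sum_le_sum fun x _ => h1 x
    _ = P.card := by simp

variable {σ : V → V → ℤ} {Y A : Finset V} {a ε Λ : ℝ}

/-- The last part of a path. -/
lemma tail_le (hσ : IsSig σ) (hY : ∀ x ∈ Y, ∀ y ∈ Y, σ x y = 1) (hA : A ⊆ Y) (ha : (A.card : ℝ) = a)
    (hEx : Ex σ Y A (a * √Y.card)) (hΛ : Bd (rl σ) Λ) :
    ∀ (m : ℕ) (u : V → ℝ) (φ : Fin (m + 2) → V → ℝ), (∀ i x, |φ i x| ≤ 1) →
      (∀ i : Fin (m + 1), InY Y (φ i.castSucc) ∨ OffY Y (φ i.castSucc)) →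
      InY A (φ (Fin.last (m + 1))) → |Wk σ (m + 1) u φ| ≤ a * √Y.card * Λ ^ m * nrm u := by
  have ha0 : 0 ≤ a := by rw [← ha]; positivity
  intro m
  induction m with
  | zero =>
    intro u φ h1 h2 h3
    rw [Wk_succ, Wk_zero]
    have e : ∑ x, (∑ x_1, u x_1 * φ 0 x_1 * (σ x_1 x : ℝ)) * φ (Fin.succ 0) x =
        ∑ x, ∑ y, φ 1 x * (σ x y : ℝ) * (φ 0 y * u y) := by
      refine Finset.sum_congr rfl fun x _ => ?_
      rw [Finset.sum_mul]
      refine Finset.sum_congr rfl fun y _ => ?_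
      rw [hσ.symm x y]
      have : (Fin.succ 0 : Fin 2) = 1 := rfl
      rw [this]
      ring
    rw [e, pow_zero, mul_one]
    rcases h2 0 with h | h
    · have e2 : ∑ x, ∑ y, φ 1 x * (σ x y : ℝ) * (φ 0 y * u y) = (∑ x, φ 1 x) * ∑ y, φ 0 y * u y := by
        rw [Finset.sum_mul_sum]
        refine Finset.sum_congr rfl fun x _ => Finset.sum_congr rfl fun y _ => ?_
        by_cases hx : x ∈ A
        · by_cases hy : y ∈ Y
          · rw [hY x (hA hx) y hy]; push_cast; ring
          · have : φ 0 y = 0 := h y hy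
            rw [this]; ring
        · have : φ 1 x = 0 := h3 x hx
          rw [this]; ring
      rw [e2, abs_mul]
      have h4 : |∑ x, φ 1 x| ≤ a := by rw [← ha]; exact sum_le_card (h1 1) h3
      have h5 : |∑ y, φ 0 y * u y| ≤ √Y.card * nrm u :=
        (inner_le (φ 0) u).trans (mul_le_mul_of_nonneg_right (nrm_le_card (h1 0) h) (nrm_nonneg u))
      calc |∑ x, φ 1 x| * |∑ y, φ 0 y * u y| ≤ a * (√Y.card * nrm u) :=
            mul_le_mul h4 h5 (abs_nonneg _) ha0
        _ = a * √Y.card * nrm u := by ring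
    · refine (hEx (φ 1) (fun y => φ 0 y * u y) (h1 1) h3 (fun y hy => ?_)).trans ?_
      · have : φ 0 y = 0 := h y hy
        rw [this]; ring
      · exact mul_le_mul_of_nonneg_left (nrm_scale (h1 0)) (by positivity)
  | succ m ih =>
    intro u φ h1 h2 h3
    rw [Wk_succ]
    refine (ih _ (fun i => φ i.succ) (fun i x => h1 _ x) (fun i => ?_) h3).trans ?_
    · have := h2 i.succ
      rwa [← Fin.succ_castSucc] at this
    · have h4 : nrm (fun y => ∑ x, u x * φ 0 x * (σ x y : ℝ)) ≤ Λ * nrm u := by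
        have h5 := hΛ.vecMul (fun x => u x * φ 0 x)
        refine h5.trans (mul_le_mul_of_nonneg_left ?_ hΛ.nonneg)
        exact nrm_mono fun x => by
          rw [abs_mul]
          exact mul_le_of_le_one_right (abs_nonneg _) (h1 0 x)
      have h5 : 0 ≤ a * √Y.card * Λ ^ m := by
        have := hΛ.nonneg
        positivity
      calc a * √Y.card * Λ ^ m * nrm (fun y => ∑ x, u x * φ 0 x * (σ x y : ℝ))
          ≤ a * √Y.card * Λ ^ m * (Λ * nrm u) := mul_le_mul_of_nonneg_left h4 h5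
        _ = a * √Y.card * Λ ^ (m + 1) * nrm u := by rw [pow_succ]; ring

/-- Leaving `Y`. -/
lemma exit_le {P : Finset V} {c : ℝ} (hc : 0 ≤ c) (hEx : Ex σ Y P c) {φ : V → ℝ}
    (h1 : ∀ x, |φ x| ≤ 1) (h2 : InY P φ) :
    nrm (fun y => if y ∈ Y then 0 else ∑ x, φ x * (σ x y : ℝ)) ≤ c := by
  refine nrm_le_of hc fun w => ?_
  have h3 := hEx φ (fun y => if y ∈ Y then 0 else w y) h1 h2 fun x hx => if_pos hx
  have e : ∑ x, ∑ y, φ x * (σ x y : ℝ) * (if y ∈ Y then 0 else w y) =
      ∑ y, (if y ∈ Y then 0 else ∑ x, φ x * (σ x y : ℝ)) * w y := by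
    rw [Finset.sum_comm]
    refine Finset.sum_congr rfl fun y _ => ?_
    by_cases hy : y ∈ Y
    · simp [hy]
    · simp only [if_neg hy]
      rw [Finset.sum_mul]
  rw [e] at h3
  refine h3.trans (mul_le_mul_of_nonneg_left (nrm_mono fun x => ?_) hc)
  split_ifs
  · simp
  · exact le_rfl

/-- Paths which leave `Y`. -/
lemma path_le (hσ : IsSig σ) (hY : ∀ x ∈ Y, ∀ y ∈ Y, σ x y = 1) (hA : A ⊆ Y) (ha : (A.card : ℝ) = a)
    (hEx : Ex σ Y A (a * √Y.card)) (hΛ : Bd (rl σ) Λ) (hε : 0 ≤ ε)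
    (hYY : Ex σ Y Y (ε * Y.card * √Y.card)) (hYΛ : (Y.card : ℝ) ≤ Λ) :
    ∀ (m : ℕ) (P : Finset V) (φ : Fin (m + 3) → V → ℝ), P ⊆ Y →
      Ex σ Y P (ε * P.card * √Y.card) → (∀ i x, |φ i x| ≤ 1) → InY P (φ 0) →
      InY A (φ (Fin.last (m + 2))) →
      (∀ i : Fin (m + 1), InY Y (φ i.castSucc.succ) ∨ OffY Y (φ i.castSucc.succ)) →
      (∃ i : Fin (m + 1), OffY Y (φ i.castSucc.succ)) →
      |Wk σ (m + 2) (fun _ => 1) φ| ≤ ε * P.card * a * Y.card * Λ ^ m := by
  have ha0 : 0 ≤ a := by rw [← ha]; positivity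
  have hΛ0 := hΛ.nonneg
  -- leaving at once
  have now : ∀ (m : ℕ) (P : Finset V) (φ : Fin (m + 3) → V → ℝ),
      Ex σ Y P (ε * P.card * √Y.card) → (∀ i x, |φ i x| ≤ 1) → InY P (φ 0) →
      InY A (φ (Fin.last (m + 2))) →
      (∀ i : Fin (m + 1), InY Y (φ i.castSucc.succ) ∨ OffY Y (φ i.castSucc.succ)) →
      OffY Y (φ (0 : Fin (m + 1)).castSucc.succ) →
      |Wk σ (m + 2) (fun _ => 1) φ| ≤ ε * P.card * a * Y.card * Λ ^ m := by
    intro m P φ hP h1 h2 h3 h4 h5
    rw [Wk_succ]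
    have e : Wk σ (m + 1) (fun y => ∑ x, (1 : ℝ) * φ 0 x * (σ x y : ℝ)) (fun i => φ i.succ) =
        Wk σ (m + 1) (fun y => if y ∈ Y then 0 else ∑ x, φ 0 x * (σ x y : ℝ))
          (fun i => φ i.succ) := by
      refine Wk_congr σ _ fun y hy => ?_
      have hy' : y ∉ Y := fun h => hy (h5 y h)
      rw [if_neg hy']
      simp only [one_mul]
    rw [e]
    refine (tail_le hσ hY hA ha hEx hΛ m _ (fun i => φ i.succ) (fun i x => h1 _ x)
      (fun i => h4 i) h3).trans ?_
    have h6 := exit_le (by positivity) hP (h1 0) h2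
    have h7 : 0 ≤ a * √Y.card * Λ ^ m := by positivity
    calc _ ≤ a * √Y.card * Λ ^ m * (ε * P.card * √Y.card) := mul_le_mul_of_nonneg_left h6 h7
      _ = ε * P.card * a * (√Y.card * √Y.card) * Λ ^ m := by ring
      _ = _ := by rw [Real.mul_self_sqrt (by positivity)]
  intro m
  induction m with
  | zero =>
    intro P φ hPY hP h1 h2 h3 h4 h5
    obtain ⟨i, hi⟩ := h5
    have hi0 : i = 0 := Fin.ext (by have := i.isLt; simp)
    rw [hi0] at hi
    exact now 0 P φ hP h1 h2 h3 h4 hi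
  | succ m ih =>
    intro P φ hPY hP h1 h2 h3 h4 h5
    rcases h4 0 with h6 | h6
    · obtain ⟨i, hi⟩ := h5
      rcases Fin.eq_zero_or_eq_succ i with rfl | ⟨j, rfl⟩
      · exact now _ P φ hP h1 h2 h3 h4 hi
      · rw [Wk_succ]
        have e : Wk σ (m + 2) (fun y => ∑ x, (1 : ℝ) * φ 0 x * (σ x y : ℝ)) (fun i => φ i.succ) =
            Wk σ (m + 2) (fun _ => ∑ x, φ 0 x) (fun i => φ i.succ) := by
          refine Wk_congr σ _ fun y hy => ?_
          have hy' : y ∈ Y := by
            by_contra h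
            exact hy (h6 y h)
          refine Finset.sum_congr rfl fun x _ => ?_
          by_cases hx : x ∈ P
          · rw [hY x (hPY hx) y hy']; push_cast; ring
          · rw [h2 x hx]; ring
        rw [e, Wk_smul, abs_mul]
        have h7 := ih Y (fun i => φ i.succ) (Finset.Subset.refl _) hYY (fun i x => h1 _ x) h6 h3
          (fun i => ?_) ⟨j, ?_⟩
        · have h8 : |∑ x, φ 0 x| ≤ P.card := sum_le_card (h1 0) h2
          calc _ ≤ (P.card : ℝ) * (ε * Y.card * a * Y.card * Λ ^ m) :=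
                mul_le_mul h8 h7 (abs_nonneg _) (by positivity)
            _ = (ε * P.card * a * Y.card * Λ ^ m) * Y.card := by ring
            _ ≤ (ε * P.card * a * Y.card * Λ ^ m) * Λ :=
                mul_le_mul_of_nonneg_left hYΛ (by positivity)
            _ = _ := by rw [pow_succ]; ring
        · have := h4 i.succ
          rwa [← Fin.succ_castSucc] at this
        · rwa [← Fin.succ_castSucc] at hi
    · exact now _ P φ hP h1 h2 h3 h4 h6

/-! ## The paths inside `Y` -/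

/-- The number of injective sequences with given first and last entry. -/
lemma card_fiber (k : ℕ) (Y : Finset V) {β α : V} (hβ : β ∈ Y) (hα : α ∈ Y) (hne : β ≠ α) :
    ((univ : Finset (Fin (k + 2) → V)).filter (fun h => Function.Injective h ∧ h 0 = β ∧
      h (Fin.last (k + 1)) = α ∧ ∀ j : Fin k, h j.castSucc.succ ∈ Y)).card =
      (Y.card - 2).descFactorial k := by
  have h1 : (av k ((Y \ {β, α})ᶜ) : Finset (Fin k → V)).card = (Y.card - 2).descFactorial k := by
    have h := card_av (V := V) k ((Y \ {β, α})ᶜ)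
    rw [compl_compl, Finset.card_sdiff_of_subset (by
      intro x hx
      rcases Finset.mem_insert.1 hx with rfl | hx
      · exact hβ
      · rw [Finset.mem_singleton.1 hx]; exact hα), Finset.card_pair hne] at h
    exact_mod_cast h
  rw [← h1]
  refine Finset.card_nbij' (fun h j => h j.castSucc.succ)
    (fun g => (Fin.cons β (Fin.snoc g α : Fin (k + 1) → V) : Fin (k + 2) → V)) ?_ ?_ ?_ ?_
  · intro h hh
    obtain ⟨-, h2, h3, h4, h5⟩ := Finset.mem_filter.1 hh
    refine mem_av.2 ⟨fun i j hij => ?_, fun i hi => ?_⟩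
    · exact Fin.castSucc_injective _ (Fin.succ_injective _ (h2 hij))
    · rw [Finset.mem_compl, Finset.mem_sdiff, not_and_or, not_not] at hi
      rcases hi with hi | hi
      · exact hi (h5 i)
      · rcases Finset.mem_insert.1 hi with hi | hi
        · have := h2 (hi.trans h3.symm)
          exact Fin.succ_ne_zero _ this
        · have := h2 ((Finset.mem_singleton.1 hi).trans h4.symm)
          rw [← Fin.succ_last] at this
          have h6 := Fin.succ_injective _ this
          exact (Fin.castSucc_lt_last i).ne h6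
  · intro g hg
    obtain ⟨h2, h3⟩ := mem_av.1 hg
    have h4 : ∀ j, g j ∈ Y ∧ g j ≠ β ∧ g j ≠ α := by
      intro j
      have := h3 j
      rw [Finset.mem_compl, not_not, Finset.mem_sdiff, Finset.mem_insert, Finset.mem_singleton,
        not_or] at this
      exact this
    refine Finset.mem_filter.2 ⟨Finset.mem_univ _, ?_, rfl, ?_, fun j => ?_⟩
    · rw [Fin.cons_injective_iff, Fin.snoc_injective_iff]
      refine ⟨?_, h2, ?_⟩
      · rintro ⟨i, hi⟩
        induction i using Fin.lastCases with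
        | last => rw [Fin.snoc_last] at hi; exact hne hi.symm
        | cast j => rw [Fin.snoc_castSucc] at hi; exact (h4 j).2.1 hi
      · rintro ⟨i, hi⟩
        exact (h4 i).2.2 hi
    · beta_reduce
      rw [← Fin.succ_last, Fin.cons_succ, Fin.snoc_last]
    · beta_reduce
      rw [Fin.cons_succ, Fin.snoc_castSucc]
      exact (h4 j).1
  · intro h hh
    obtain ⟨-, h2, h3, h4, h5⟩ := Finset.mem_filter.1 hh
    funext i
    beta_reduce
    induction i using Fin.cases with
    | zero => rw [Fin.cons_zero, h3]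
    | succ i =>
      rw [Fin.cons_succ]
      induction i using Fin.lastCases with
      | last => rw [Fin.snoc_last, Fin.succ_last, h4]
      | cast j => rw [Fin.snoc_castSucc]
  · intro g hg
    funext j
    simp only [Fin.cons_succ, Fin.snoc_castSucc]

lemma card_inside (k : ℕ) {Y A B : Finset V} (hA : A ⊆ Y) (hB : B ⊆ Y) (hAB : Disjoint B A) :
    ((univ : Finset (Fin (k + 2) → V)).filter (fun h => Function.Injective h ∧ h 0 ∈ B ∧
      h (Fin.last (k + 1)) ∈ A ∧ ∀ j : Fin k, h j.castSucc.succ ∈ Y)).card =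
      A.card * B.card * (Y.card - 2).descFactorial k := by
  rw [Finset.card_eq_sum_card_fiberwise (f := fun h => (h 0, h (Fin.last (k + 1)))) (t := B ×ˢ A)
    (fun h hh => by
      obtain ⟨-, h2, h3, h4, h5⟩ := Finset.mem_filter.1 hh
      exact Finset.mem_coe.2 (Finset.mem_product.2 ⟨h3, h4⟩))]
  have h1 : ∀ p ∈ B ×ˢ A, (((univ : Finset (Fin (k + 2) → V)).filter (fun h =>
      Function.Injective h ∧ h 0 ∈ B ∧ h (Fin.last (k + 1)) ∈ A ∧
      ∀ j : Fin k, h j.castSucc.succ ∈ Y)).filter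
      (fun h => (h 0, h (Fin.last (k + 1))) = p)).card = (Y.card - 2).descFactorial k := by
    rintro ⟨β, α⟩ hp
    obtain ⟨hβ, hα⟩ := Finset.mem_product.1 hp
    have hne : β ≠ α := by
      rintro rfl
      exact Finset.disjoint_left.1 hAB hβ hα
    rw [← card_fiber k Y (hB hβ) (hA hα) hne, Finset.filter_filter]
    congr 1
    ext h
    simp only [Finset.mem_filter, Finset.mem_univ, true_and, Prod.mk.injEq]
    constructor
    · rintro ⟨⟨h2, h3, h4, h5⟩, h6, h7⟩
      exact ⟨h2, h6, h7, h5⟩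
    · rintro ⟨h2, h6, h7, h5⟩
      exact ⟨⟨h2, h6 ▸ hβ, h7 ▸ hα, h5⟩, h6, h7⟩
  rw [Finset.sum_congr rfl h1, Finset.sum_const, Finset.card_product, smul_eq_mul]
  ring

/-! ## Patterns -/

/-- The sets of a pattern. -/
def PSt (Y M A B : Finset V) (k : ℕ) (lam : Fin k → Bool) : Fin (k + 2) → Finset V :=
  Fin.cons B (Fin.snoc (fun j => if lam j then Y else M) A : Fin (k + 1) → Finset V)

lemma PSt_zero (Y M A B : Finset V) (k : ℕ) (lam : Fin k → Bool) : PSt Y M A B k lam 0 = B := rfl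

lemma PSt_last (Y M A B : Finset V) (k : ℕ) (lam : Fin k → Bool) :
    PSt Y M A B k lam (Fin.last (k + 1)) = A := by
  unfold PSt
  rw [← Fin.succ_last, Fin.cons_succ, Fin.snoc_last]

lemma PSt_mid (Y M A B : Finset V) (k : ℕ) (lam : Fin k → Bool) (j : Fin k) :
    PSt Y M A B k lam j.castSucc.succ = if lam j then Y else M := by
  unfold PSt
  rw [Fin.cons_succ, Fin.snoc_castSucc]

lemma forall_iff {k : ℕ} {P : Fin (k + 2) → Prop} :
    (∀ i, P i) ↔ P 0 ∧ P (Fin.last (k + 1)) ∧ ∀ j : Fin k, P j.castSucc.succ := by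
  constructor
  · intro h
    exact ⟨h _, h _, fun j => h _⟩
  · rintro ⟨h1, h2, h3⟩ i
    induction i using Fin.cases with
    | zero => exact h1
    | succ i =>
      induction i using Fin.lastCases with
      | last => exact h2
      | cast j => exact h3 j

/-- Splitting by patterns. -/
lemma split_pattern {Y M A B : Finset V} (hYM : Disjoint Y M) (k : ℕ) (h : Fin (k + 2) → V)
    (c : ℝ) (N : V → Prop) [DecidablePred N] (hN : ∀ x, N x ↔ x ∈ Y ∨ x ∈ M)
    (hA : A ⊆ Y) (hB : B ⊆ Y) :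
    (if h 0 ∈ B ∧ h (Fin.last (k + 1)) ∈ A ∧ ∀ i, N (h i) then c else 0) =
      ∑ lam : Fin k → Bool, if ∀ i, h i ∈ PSt Y M A B k lam i then c else 0 := by
  have key : ∀ lam : Fin k → Bool, (∀ i, h i ∈ PSt Y M A B k lam i) ↔
      h 0 ∈ B ∧ h (Fin.last (k + 1)) ∈ A ∧
        ∀ j : Fin k, h j.castSucc.succ ∈ if lam j then Y else M := by
    intro lam
    rw [forall_iff, PSt_zero, PSt_last]
    simp only [PSt_mid]
  by_cases hc : h 0 ∈ B ∧ h (Fin.last (k + 1)) ∈ A ∧ ∀ i, N (h i)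
  · rw [if_pos hc]
    obtain ⟨h1, h2, h3⟩ := hc
    rw [Finset.sum_eq_single (fun j : Fin k => decide (h j.castSucc.succ ∈ Y))]
    · rw [if_pos]
      rw [key]
      refine ⟨h1, h2, fun j => ?_⟩
      by_cases hj : h j.castSucc.succ ∈ Y
      · simp [hj]
      · simp only [hj, decide_false, Bool.false_eq_true, if_false]
        exact ((hN _).1 (h3 _)).resolve_left hj
    · intro lam _ hne
      rw [if_neg]
      rw [key]
      rintro ⟨-, -, h4⟩
      apply hne
      funext j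
      have h5 := h4 j
      by_cases hj : lam j
      · rw [if_pos hj] at h5
        rw [hj]
        simp [h5]
      · rw [if_neg hj] at h5
        have h6 : h j.castSucc.succ ∉ Y := fun h => Finset.disjoint_left.1 hYM h h5
        simp [h6, hj]
    · intro h
      exact absurd (Finset.mem_univ _) h
  · rw [if_neg hc, Finset.sum_eq_zero]
    intro lam _
    rw [if_neg]
    rw [key]
    rintro ⟨h1, h2, h3⟩
    apply hc
    refine ⟨h1, h2, ?_⟩
    rw [forall_iff]
    refine ⟨(hN _).2 (Or.inl (hB h1)), (hN _).2 (Or.inl (hA h2)), fun j => (hN _).2 ?_⟩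
    have h5 := h3 j
    split_ifs at h5
    · exact Or.inl h5
    · exact Or.inr h5

/-- One pattern which leaves `Y`. -/
lemma pattern_bound (hσ : IsSig σ) (hY : ∀ x ∈ Y, ∀ y ∈ Y, σ x y = 1) (hA : A ⊆ Y)
    (ha : (A.card : ℝ) = a) (hEx : Ex σ Y A (a * √Y.card)) (hΛ : Bd (rl σ) Λ) (hε : 0 ≤ ε)
    (hYY : Ex σ Y Y (ε * Y.card * √Y.card)) (hYΛ : (Y.card : ℝ) ≤ Λ) {M B : Finset V}
    (hYM : Disjoint Y M) (hB : B ⊆ Y) (hExB : Ex σ Y B (ε * B.card * √Y.card)) (m : ℕ)
    (lam : Fin (m + 1) → Bool) (hlam : lam ≠ fun _ => true) :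
    |∑ h ∈ (univ : Finset (Fin (m + 3) → V)).filter Function.Injective,
      (if ∀ i, h i ∈ PSt Y M A B (m + 1) lam i then
        ∏ i : Fin (m + 2), (σ (h i.castSucc) (h i.succ) : ℝ) else 0)| ≤
      2 ^ ((m + 3) ^ 2) * (ε * B.card * a * Y.card * Λ ^ m) := by
  refine inj_le _ fun ζ => ?_
  set φ : Fin (m + 3) → V → ℝ := fun i x =>
    (((ζ i x : ℤˣ) : ℤ) : ℝ) * (if x ∈ PSt Y M A B (m + 1) lam i then 1 else 0) with hφ
  have e : ∑ h : Fin (m + 3) → V, sp ζ h * (if ∀ i, h i ∈ PSt Y M A B (m + 1) lam i then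
        ∏ i : Fin (m + 2), (σ (h i.castSucc) (h i.succ) : ℝ) else 0) =
      Wk σ (m + 2) (fun _ => 1) φ := by
    unfold Wk sp
    refine Finset.sum_congr rfl fun h _ => ?_
    have h1 : ∏ i, φ i (h i) = (∏ i, (((ζ i (h i) : ℤˣ) : ℤ) : ℝ)) *
        (if ∀ i, h i ∈ PSt Y M A B (m + 1) lam i then 1 else 0) := by
      rw [hφ]
      simp only
      rw [Finset.prod_mul_distrib]
      congr 1
      by_cases hh : ∀ i, h i ∈ PSt Y M A B (m + 1) lam i
      · rw [if_pos hh]
        exact Finset.prod_eq_one fun i _ => if_pos (hh i)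
      · rw [if_neg hh]
        push Not at hh
        obtain ⟨i, hi⟩ := hh
        exact Finset.prod_eq_zero (Finset.mem_univ i) (if_neg hi)
    rw [h1]
    split_ifs <;> ring
  rw [e]
  have hφ0 : ∀ i x, x ∉ PSt Y M A B (m + 1) lam i → φ i x = 0 := by
    intro i x hx
    rw [hφ]
    simp only
    rw [if_neg hx, mul_zero]
  have hmid : ∀ j : Fin (m + 1), lam j = true → InY Y (φ j.castSucc.succ) := by
    intro j hj x hx
    refine hφ0 _ _ ?_
    rw [PSt_mid, if_pos hj]
    exact hx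
  have hmid' : ∀ j : Fin (m + 1), lam j = false → OffY Y (φ j.castSucc.succ) := by
    intro j hj x hx
    refine hφ0 _ _ ?_
    rw [PSt_mid, if_neg (by rw [hj]; simp)]
    exact Finset.disjoint_left.1 hYM hx
  refine path_le hσ hY hA ha hEx hΛ hε hYY hYΛ m B φ hB hExB (fun i x => ?_) (fun x hx => ?_)
    (fun x hx => ?_) (fun j => ?_) ?_
  · rw [hφ]
    simp only
    rw [abs_mul]
    exact mul_le_one₀ (sgn_abs _) (abs_nonneg _) (abs_ind _)
  · exact hφ0 _ _ hx
  · refine hφ0 _ _ ?_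
    rw [PSt_last]
    exact hx
  · rcases Bool.eq_false_or_eq_true (lam j) with hj | hj
    · exact Or.inl (hmid j hj)
    · exact Or.inr (hmid' j hj)
  · by_contra hcon
    push Not at hcon
    apply hlam
    funext j
    by_contra hj
    exact hcon j (hmid' j (by simpa using hj))

end Main

open Main in
theorem mainStmt : MainStmt := by
  intro V _ _ s a b k lab σ Y ε Λ hs hk G hσ hY h1Y hsY hmid hε hExA hExB hYY hΛ hYΛ
  set A : Finset V := CC lab 1 with hAdef
  set B : Finset V := CC lab s with hBdef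
  have hA : A ⊆ Y := fun x hx => h1Y x (mem_CC.1 hx)
  have hB : B ⊆ Y := fun x hx => hsY x (mem_CC.1 hx)
  have hlabA : ∀ x, x ∈ A ↔ lab x = (1, false) := by
    intro x
    rw [hAdef, mem_CC]
    exact ⟨fun h => G.lab_one h, fun h => by rw [h]⟩
  have hlabB : ∀ x, x ∈ B ↔ lab x = (s, false) := by
    intro x
    rw [hBdef, mem_CC]
    constructor
    · intro h
      rcases hx : lab x with ⟨p, t⟩
      rw [hx] at h
      simp only at h
      subst h
      cases t with
      | false => rfl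
      | true => exact absurd hx (G.noB x)
    · intro h
      rw [h]
  have hAB : Disjoint B A := by
    rw [Finset.disjoint_left]
    intro x hx hx'
    rw [hBdef, mem_CC] at hx
    rw [hAdef, mem_CC] at hx'
    omega
  have hcA : A.card = a := by
    rw [← G.cardA]
    congr 1
    ext x
    simp only [Finset.mem_filter, Finset.mem_univ, true_and]
    exact hlabA x
  have hcB : B.card = b := by
    rw [← G.cardB]
    congr 1
    ext x
    simp only [Finset.mem_filter, Finset.mem_univ, true_and]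
    exact hlabB x
  obtain ⟨m, rfl⟩ : ∃ m, k = m + 1 := ⟨k - 1, by omega⟩
  set M : Finset V := univ.filter fun x => x ∉ Y ∧ ¬ (2 ≤ (lab x).1 ∧ (lab x).1 < s) with hM
  have hYM : Disjoint Y M := by
    rw [Finset.disjoint_left]
    intro x hx hx'
    exact (Finset.mem_filter.1 hx').2.1 hx
  have hN : ∀ x, ¬ (2 ≤ (lab x).1 ∧ (lab x).1 < s) ↔ x ∈ Y ∨ x ∈ M := by
    intro x
    constructor
    · intro h
      by_cases hx : x ∈ Y
      · exact Or.inl hx
      · exact Or.inr (Finset.mem_filter.2 ⟨Finset.mem_univ _, hx, h⟩)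
    · rintro (h | h) ⟨h1, h2⟩
      · exact hmid x h1 h2 h
      · exact (Finset.mem_filter.1 h).2.2 ⟨h1, h2⟩
  -- the sum over all patterns
  have hPS : (PS σ lab s (m + 1) : ℝ) = ∑ lam : Fin (m + 1) → Bool,
      ∑ h ∈ (univ : Finset (Fin (m + 3) → V)).filter Function.Injective,
      (if ∀ i, h i ∈ PSt Y M A B (m + 1) lam i then
        ∏ i : Fin (m + 2), (σ (h i.castSucc) (h i.succ) : ℝ) else 0) := by
    rw [Finset.sum_comm]
    unfold PS
    push_cast
    rw [← Finset.filter_filter, Finset.sum_filter]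
    refine Finset.sum_congr rfl fun h _ => ?_
    rw [← split_pattern hYM (m + 1) h _ (fun x => ¬ (2 ≤ (lab x).1 ∧ (lab x).1 < s)) hN hA hB]
    refine if_congr ?_ rfl rfl
    rw [hlabA, hlabB]
  have hmain : ∑ h ∈ (univ : Finset (Fin (m + 3) → V)).filter Function.Injective,
      (if ∀ i, h i ∈ PSt Y M A B (m + 1) (fun _ => true) i then
        ∏ i : Fin (m + 2), (σ (h i.castSucc) (h i.succ) : ℝ) else 0) =
      a * b * ((Y.card - 2).descFactorial (m + 1) : ℕ) := by
    have h2 := card_inside (m + 1) hA hB hAB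
    rw [hcA, hcB] at h2
    have h3 : ((a * b * (Y.card - 2).descFactorial (m + 1) : ℕ) : ℝ) =
        a * b * ((Y.card - 2).descFactorial (m + 1) : ℕ) := by push_cast; ring
    rw [← h3, ← h2, ← Finset.filter_filter, Finset.card_filter, Nat.cast_sum]
    refine Finset.sum_congr rfl fun h _ => ?_
    rw [Nat.cast_ite, Nat.cast_one, Nat.cast_zero]
    have h4 : (∀ i, h i ∈ PSt Y M A B (m + 1) (fun _ => true) i) ↔
        (h 0 ∈ B ∧ h (Fin.last (m + 1 + 1)) ∈ A ∧ ∀ j : Fin (m + 1), h j.castSucc.succ ∈ Y) := by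
      rw [forall_iff, PSt_zero, PSt_last]
      simp only [PSt_mid, if_true]
    by_cases h5 : h 0 ∈ B ∧ h (Fin.last (m + 1 + 1)) ∈ A ∧ ∀ j : Fin (m + 1), h j.castSucc.succ ∈ Y
    · rw [if_pos (h4.2 h5), if_pos h5]
      have h6 : ∀ i, h i ∈ Y := by
        rw [forall_iff]
        exact ⟨hB h5.1, hA h5.2.1, h5.2.2⟩
      refine Finset.prod_eq_one fun i _ => ?_
      rw [hY _ (h6 _) _ (h6 _)]
      norm_num
    · rw [if_neg (fun h => h5 (h4.1 h)), if_neg h5]
  rw [hPS, ← Finset.add_sum_erase _ _ (Finset.mem_univ (fun _ => true)), hmain, add_sub_cancel_left]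
  refine (Finset.abs_sum_le_sum_abs _ _).trans ?_
  have h7 : ∀ lam ∈ (univ : Finset (Fin (m + 1) → Bool)).erase (fun _ => true),
      |∑ h ∈ (univ : Finset (Fin (m + 3) → V)).filter Function.Injective,
      (if ∀ i, h i ∈ PSt Y M A B (m + 1) lam i then
        ∏ i : Fin (m + 2), (σ (h i.castSucc) (h i.succ) : ℝ) else 0)| ≤
      2 ^ ((m + 3) ^ 2) * (ε * b * a * Y.card * Λ ^ m) := by
    intro lam hlam
    have := pattern_bound (a := (a : ℝ)) hσ hY hA (by rw [hcA]) hExA hΛ hε hYY hYΛ hYM hB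
      (by rw [hcB]; exact hExB) m lam (Finset.ne_of_mem_erase hlam)
    rwa [hcB] at this
  refine (Finset.sum_le_sum h7).trans ?_
  rw [Finset.sum_const, nsmul_eq_mul]
  have h8 : (((univ : Finset (Fin (m + 1) → Bool)).erase (fun _ => true)).card : ℝ) ≤
      2 ^ (m + 1) := by
    have := Finset.card_le_card (Finset.erase_subset (fun _ => true)
      (univ : Finset (Fin (m + 1) → Bool)))
    rw [Finset.card_univ, Fintype.card_fun, Fintype.card_bool, Fintype.card_fin] at this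
    exact_mod_cast this
  have hΛ0 := hΛ.nonneg
  have h9 : 0 ≤ ε * b * a * Y.card * Λ ^ m :=
    mul_nonneg (mul_nonneg (mul_nonneg (mul_nonneg hε (Nat.cast_nonneg _)) (Nat.cast_nonneg _))
      (Nat.cast_nonneg _)) (pow_nonneg hΛ0 _)
  have h10 : (0 : ℝ) ≤ 2 ^ ((m + 3) ^ 2) := pow_nonneg (by norm_num) _
  calc _ ≤ (2 : ℝ) ^ (m + 1) * (2 ^ ((m + 3) ^ 2) * (ε * b * a * Y.card * Λ ^ m)) :=
        mul_le_mul_of_nonneg_right h8 (mul_nonneg h10 h9)
    _ = _ := by
        rw [Nat.add_sub_cancel]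
        ring

end Full

end MP_90430c
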