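import Pool.Agent.Lib.MP_90430c_co.Full.Stmts

set_option autoImplicit false

/-!
# Removing vertices
-/

open Finset

namespace MP_90430c

namespace Full

namespace Rem

/-- The signature without the vertex `v`. -/
theorem Z_remove (l N : ℕ) [NeZero l] (σ : Fin (N + 1) → Fin (N + 1) → ℤ) (v : Fin (N + 1)) :
    Z l (fun x y : Fin N => σ (v.succAbove x) (v.succAbove y)) =
      ∑ g ∈ (inj l (Fin (N + 1))).filter (fun g => ∀ i, g i ≠ v), cp l σ g := by
  classical
  unfold Z
  refine Finset.sum_nbij (fun f i => v.succAbove (f i)) ?_ ?_ ?_ ?_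
  · intro f hf
    rw [inj, mem_filter] at hf
    rw [mem_filter, inj, mem_filter]
    exact ⟨⟨mem_univ _, fun i j hij => hf.2 (Fin.succAbove_right_injective hij)⟩,
      fun i => Fin.succAbove_ne v _⟩
  · intro f _ f' _ h
    funext i
    exact Fin.succAbove_right_injective (congrFun h i)
  · intro g hg
    rw [mem_coe, mem_filter, inj, mem_filter] at hg
    have h1 : ∀ i, ∃ z, v.succAbove z = g i := fun i => Fin.exists_succAbove_eq (hg.2 i)
    choose f hf using h1
    refine ⟨f, ?_, funext hf⟩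
    rw [mem_coe, inj, mem_filter]
    refine ⟨mem_univ _, fun i j hij => hg.1.2 ?_⟩
    rw [← hf i, ← hf j, hij]
  · intro f _
    rfl

/-- The average. -/
theorem sum_remove (l N : ℕ) [NeZero l] (σ : Fin (N + 1) → Fin (N + 1) → ℤ) :
    ∑ v : Fin (N + 1), Z l (fun x y : Fin N => σ (v.succAbove x) (v.succAbove y)) =
      ((N : ℤ) + 1 - l) * Z l σ := by
  classical
  simp only [Z_remove, sum_filter]
  rw [sum_comm]
  unfold Z
  rw [mul_sum]
  refine sum_congr rfl fun g hg => ?_
  rw [← sum_filter, sum_const, nsmul_eq_mul]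
  congr 1
  rw [inj, mem_filter] at hg
  have h1 : (univ.filter fun v : Fin (N + 1) => ∀ i, g i ≠ v) = (univ.image g)ᶜ := by
    ext v
    simp
  have h2 : (univ.image g).card = l := by
    rw [card_image_of_injective _ hg.2, card_univ, Fintype.card_fin]
  have h3 : l ≤ N + 1 := by
    rw [← h2]
    exact (card_le_univ _).trans (by rw [Fintype.card_fin])
  rw [h1, card_compl, h2, Fintype.card_fin, Nat.cast_sub h3]
  push_cast
  ring

end Rem

open Rem in
/-- Removing vertices. -/
theorem remStmt : RemStmt := by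
  intro l n r _ hl
  induction r with
  | zero =>
    intro σ hσ hZ
    refine ⟨σ, hσ, hZ, ?_⟩
    simp
  | succ r ih =>
    intro σ hσ hZ
    have hav := sum_remove l (n + r) σ
    obtain ⟨v, hv⟩ : ∃ v : Fin (n + r + 1), (((n + r : ℕ) : ℤ) + 1) *
        Z l (fun x y : Fin (n + r) => σ (v.succAbove x) (v.succAbove y)) ≤
          (((n + r : ℕ) : ℤ) + 1 - l) * Z l σ := by
      by_contra hcon
      push Not at hcon
      have h1 : ∑ v : Fin (n + r + 1), (((n + r : ℕ) : ℤ) + 1 - l) * Z l σ <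
          ∑ v : Fin (n + r + 1), (((n + r : ℕ) : ℤ) + 1) *
            Z l (fun x y : Fin (n + r) => σ (v.succAbove x) (v.succAbove y)) :=
        sum_lt_sum_of_nonempty univ_nonempty fun v _ => hcon v
      rw [← mul_sum, ← mul_sum, hav, sum_const, card_univ, Fintype.card_fin, nsmul_eq_mul] at h1
      push_cast at h1
      nlinarith
    set σv := fun x y : Fin (n + r) => σ (v.succAbove x) (v.succAbove y) with hσv
    have hsig : IsSig σv := ⟨fun x y => hσ.symm _ _, fun x y => hσ.val _ _⟩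
    have hN : (0 : ℤ) < ((n + r : ℕ) : ℤ) + 1 := by positivity
    have hlN : (0 : ℤ) ≤ ((n + r : ℕ) : ℤ) + 1 - l := by
      push_cast
      have : (l : ℤ) ≤ n := by exact_mod_cast hl
      have : (0 : ℤ) ≤ r := by positivity
      linarith
    have hZv : Z l σv ≤ 0 := by
      by_contra hcon
      push Not at hcon
      have h1 : 0 < (((n + r : ℕ) : ℤ) + 1) * Z l σv := mul_pos hN hcon
      have h2 : (((n + r : ℕ) : ℤ) + 1 - l) * Z l σ ≤ 0 := mul_nonpos_of_nonneg_of_nonpos hlN hZ
      linarith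
    obtain ⟨σ', h1, h2, h3⟩ := ih σv hsig hZv
    refine ⟨σ', h1, h2, ?_⟩
    rcases le_or_gt ((n : ℤ) + 1 - l * ((r + 1 : ℕ) : ℤ)) 0 with hc | hc
    · refine le_trans (mul_nonpos_of_nonneg_of_nonpos (by positivity) h2) ?_
      exact mul_nonneg_of_nonpos_of_nonpos hc hZ
    · have hl0 : (0 : ℤ) ≤ l := by positivity
      have hr0 : (0 : ℤ) ≤ r := by positivity
      have hc2 : (0 : ℤ) < (n : ℤ) + 1 - l * r := by
        push_cast at hc
        nlinarith
      have h4 : (((n + r : ℕ) : ℤ) + 1) * (((n : ℤ) + 1) * Z l σ') ≤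
          ((n : ℤ) + 1 - l * r) * ((((n + r : ℕ) : ℤ) + 1 - l) * Z l σ) := by
        calc (((n + r : ℕ) : ℤ) + 1) * (((n : ℤ) + 1) * Z l σ') ≤
              (((n + r : ℕ) : ℤ) + 1) * (((n : ℤ) + 1 - l * r) * Z l σv) :=
              mul_le_mul_of_nonneg_left h3 hN.le
          _ = ((n : ℤ) + 1 - l * r) * ((((n + r : ℕ) : ℤ) + 1) * Z l σv) := by ring
          _ ≤ _ := mul_le_mul_of_nonneg_left hv hc2.le
      have h5 : ((n : ℤ) + 1 - l * r) * ((((n + r : ℕ) : ℤ) + 1 - l) * Z l σ) ≤
          (((n + r : ℕ) : ℤ) + 1) * (((n : ℤ) + 1 - l * ((r + 1 : ℕ) : ℤ)) * Z l σ) := by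
        have h6 : (0 : ℤ) ≤ l * (r + l * r) := by positivity
        push_cast
        nlinarith [mul_nonneg h6 (neg_nonneg.mpr hZ)]
      exact le_of_mul_le_mul_left (h4.trans h5) hN

end Full

end MP_90430c
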