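import Pool.Agent.Lib.MP_90430c_co.Full.Stmts

/-!
# Module Stage

The greedy algorithm at one stage: groups `(s, i)` in lexicographic order.
-/

open Finset

set_option synthInstance.maxSize 4096

namespace MP_90430c

namespace Full

namespace Stage

/-- The number of levels (minus three) of the group `g`. -/
def sF (l is g : ℕ) : ℕ := if g < (l - 3) * (is + 1) then g / (is + 1) else l - 3

/-- The size of the group `g`. -/
def iF (l is g : ℕ) : ℕ :=
  if g < (l - 3) * (is + 1) then g % (is + 1) else g - (l - 3) * (is + 1)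

/-- The number of groups. -/
def nG (l is I : ℕ) : ℕ := (l - 3) * (is + 1) + (I + 2)

lemma div_lt {l is g : ℕ} (h : g < (l - 3) * (is + 1)) : g / (is + 1) < l - 3 :=
  Nat.div_lt_of_lt_mul (by rwa [mul_comm])

lemma sF_of_lt {l is g : ℕ} (h : g < (l - 3) * (is + 1)) : sF l is g = g / (is + 1) := if_pos h

lemma sF_of_le {l is g : ℕ} (h : (l - 3) * (is + 1) ≤ g) : sF l is g = l - 3 :=
  if_neg (not_lt.2 h)

lemma iF_of_lt {l is g : ℕ} (h : g < (l - 3) * (is + 1)) : iF l is g = g % (is + 1) := if_pos h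

lemma iF_of_le {l is g : ℕ} (h : (l - 3) * (is + 1) ≤ g) :
    iF l is g = g - (l - 3) * (is + 1) := if_neg (not_lt.2 h)

lemma sF_lt {l : ℕ} (is : ℕ) (hl : 4 ≤ l) (g : ℕ) : sF l is g < l - 2 := by
  rcases lt_or_ge g ((l - 3) * (is + 1)) with h | h
  · rw [sF_of_lt h]
    have := div_lt h
    omega
  · rw [sF_of_le h]
    omega

lemma iF_lt {l is I g : ℕ} (his : is ≤ I) (hg : g < nG l is I) : iF l is g < I + 2 := by
  rcases lt_or_ge g ((l - 3) * (is + 1)) with h | h
  · rw [iF_of_lt h]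
    have : g % (is + 1) < is + 1 := Nat.mod_lt g (Nat.succ_pos is)
    omega
  · rw [iF_of_le h]
    unfold nG at hg
    omega

section sites

variable {l I Q : ℕ}

/-- The group of a site. -/
def gi (is : ℕ) (p : S1 l I Q) : ℕ :=
  if (p.1 : ℕ) < l - 3 then (p.1 : ℕ) * (is + 1) + p.2.1 else (l - 3) * (is + 1) + p.2.1

/-- The sites which are used. -/
def vd (is : ℕ) (p : S1 l I Q) : Prop := (p.1 : ℕ) < l - 3 → (p.2.1 : ℕ) ≤ is

instance (is : ℕ) (p : S1 l I Q) : Decidable (vd is p) := by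
  unfold vd; infer_instance

lemma gi_iff {is g : ℕ} (p : S1 l I Q) (hl : 4 ≤ l) :
    (vd is p ∧ gi is p = g) ↔ ((p.1 : ℕ) = sF l is g ∧ (p.2.1 : ℕ) = iF l is g) := by
  have hp1 : (p.1 : ℕ) < l - 2 := p.1.2
  constructor
  · rintro ⟨h1, h2⟩
    unfold vd at h1
    unfold gi at h2
    split_ifs at h2 with h3
    · have h4 := h1 h3
      have h5 : g < (l - 3) * (is + 1) := by
        calc g = (p.1 : ℕ) * (is + 1) + p.2.1 := h2.symm
          _ < (p.1 : ℕ) * (is + 1) + (is + 1) := by omega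
          _ = ((p.1 : ℕ) + 1) * (is + 1) := by ring
          _ ≤ (l - 3) * (is + 1) := Nat.mul_le_mul_right _ h3
      rw [sF_of_lt h5, iF_of_lt h5, ← h2]
      constructor
      · rw [mul_comm, Nat.mul_add_div (Nat.succ_pos is),
          Nat.div_eq_of_lt (by omega), add_zero]
      · rw [mul_comm, Nat.mul_add_mod, Nat.mod_eq_of_lt (by omega)]
    · have h5 : (l - 3) * (is + 1) ≤ g := by omega
      rw [sF_of_le h5, iF_of_le h5]
      omega
  · rintro ⟨h1, h2⟩
    rcases lt_or_ge g ((l - 3) * (is + 1)) with h | h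
    · rw [sF_of_lt h] at h1
      rw [iF_of_lt h] at h2
      have h3 := div_lt h
      have h4 : g % (is + 1) < is + 1 := Nat.mod_lt g (Nat.succ_pos is)
      refine ⟨fun _ => by omega, ?_⟩
      unfold gi
      rw [if_pos (by omega), h1, h2, mul_comm]
      exact Nat.div_add_mod g (is + 1)
    · rw [sF_of_le h] at h1
      rw [iF_of_le h] at h2
      refine ⟨fun h3 => by omega, ?_⟩
      unfold gi
      rw [if_neg (by omega)]
      omega

/-- The state given by a set of sites. -/
def tau (is : ℕ) (T : Finset (ℕ × ℕ)) (p : S1 l I Q) : Bool :=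
  decide (vd is p ∧ (gi is p, (p.2.2 : ℕ)) ∈ T)

/-- The site `q` of the group `g`. -/
def st {is g q : ℕ} (hl : 4 ≤ l) (his : is ≤ I) (hg : g < nG l is I) (hq : q < Q) : S1 l I Q :=
  (⟨sF l is g, sF_lt is hl g⟩, ⟨iF l is g, iF_lt his hg⟩, ⟨q, hq⟩)

lemma eq_st_iff {is g q : ℕ} (hl : 4 ≤ l) (his : is ≤ I) (hg : g < nG l is I) (hq : q < Q)
    (p : S1 l I Q) :
    p = st hl his hg hq ↔ (vd is p ∧ gi is p = g) ∧ (p.2.2 : ℕ) = q := by
  rw [gi_iff p hl, and_assoc]
  obtain ⟨a, b, c⟩ := p
  simp only [st, Prod.mk.injEq, Fin.ext_iff]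

lemma tau_insert {is g q : ℕ} (hl : 4 ≤ l) (his : is ≤ I) (hg : g < nG l is I) (hq : q < Q)
    (T : Finset (ℕ × ℕ)) :
    (tau is (insert (g, q) T) : S1 l I Q → Bool)
      = Function.update (tau is T) (st hl his hg hq) true := by
  funext p
  rw [Function.update_apply]
  have h := eq_st_iff hl his hg hq p
  split_ifs with h1
  · obtain ⟨⟨h2, h3⟩, h4⟩ := h.1 h1
    unfold tau
    rw [decide_eq_true_eq, h3, h4]
    exact ⟨h2, mem_insert_self _ _⟩
  · unfold tau
    refine decide_eq_decide.2 ?_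
    constructor
    · rintro ⟨h2, h3⟩
      refine ⟨h2, ?_⟩
      rcases mem_insert.1 h3 with h4 | h4
      · exact absurd (h.2 ⟨⟨h2, (Prod.mk.inj h4).1⟩, (Prod.mk.inj h4).2⟩) h1
      · exact h4
    · rintro ⟨h2, h3⟩
      exact ⟨h2, mem_insert_of_mem h3⟩

lemma tau_st {is g q : ℕ} (hl : 4 ≤ l) (his : is ≤ I) (hg : g < nG l is I) (hq : q < Q)
    {T : Finset (ℕ × ℕ)} (hT : (g, q) ∉ T) :
    tau is T (st hl his hg hq) = false := by
  obtain ⟨⟨h2, h3⟩, h4⟩ := (eq_st_iff hl his hg hq _).1 rfl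
  unfold tau
  rw [decide_eq_false_iff_not, h3, h4]
  exact fun h => hT h.2

lemma tau_empty (is : ℕ) : (tau is ∅ : S1 l I Q → Bool) = fun _ => false := by
  funext p
  simp [tau]

end sites

/-- The next group. -/
lemma next {l is I g : ℕ} (hl : 4 ≤ l) (his : is ≤ I) (hg : g + 1 < nG l is I) :
    (sF l is (g + 1) = sF l is g ∧ iF l is (g + 1) = iF l is g + 1 ∧ iF l is g < I) ∨
    (sF l is (g + 1) = sF l is g + 1 ∧ iF l is g = is ∧ iF l is (g + 1) = 0 ∧
      sF l is g + 3 < l) ∨
    (sF l is g = l - 3 ∧ sF l is (g + 1) = l - 3 ∧ iF l is g = I ∧ iF l is (g + 1) = I + 1) := by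
  rcases lt_or_ge g ((l - 3) * (is + 1)) with h | h
  · have h3 := div_lt h
    rw [sF_of_lt h, iF_of_lt h]
    have hm : g % (is + 1) < is + 1 := Nat.mod_lt g (Nat.succ_pos is)
    have hdm := Nat.div_add_mod g (is + 1)
    by_cases h1 : g % (is + 1) = is
    · right; left
      have e : g + 1 = (g / (is + 1) + 1) * (is + 1) := by
        calc g + 1 = (is + 1) * (g / (is + 1)) + g % (is + 1) + 1 := by rw [hdm]
          _ = _ := by rw [h1]; ring
      rcases lt_or_ge (g + 1) ((l - 3) * (is + 1)) with h2 | h2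
      · rw [sF_of_lt h2, iF_of_lt h2, e, Nat.mul_div_cancel _ (Nat.succ_pos is), Nat.mul_mod_left]
        exact ⟨rfl, h1, rfl, by omega⟩
      · have h4 : g + 1 = (l - 3) * (is + 1) := by omega
        have h5 : g / (is + 1) + 1 = l - 3 := by
          have := e.symm.trans h4
          exact Nat.eq_of_mul_eq_mul_right (Nat.succ_pos is) this
        rw [sF_of_le h2, iF_of_le h2, h4, Nat.sub_self]
        exact ⟨h5.symm, h1, rfl, by omega⟩
    · left
      have hlt : g % (is + 1) + 1 < is + 1 := by omega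
      have e : g + 1 = (is + 1) * (g / (is + 1)) + (g % (is + 1) + 1) := by
        rw [← add_assoc, hdm]
      have h2 : g + 1 < (l - 3) * (is + 1) := by
        calc g + 1 = (is + 1) * (g / (is + 1)) + (g % (is + 1) + 1) := e
          _ < (is + 1) * (g / (is + 1)) + (is + 1) := by omega
          _ = (g / (is + 1) + 1) * (is + 1) := by ring
          _ ≤ _ := Nat.mul_le_mul_right _ h3
      rw [sF_of_lt h2, iF_of_lt h2]
      refine ⟨?_, ?_, by omega⟩
      · conv_lhs => rw [e]
        rw [Nat.mul_add_div (Nat.succ_pos is), Nat.div_eq_of_lt hlt, add_zero]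
      · conv_lhs => rw [e]
        rw [Nat.mul_add_mod, Nat.mod_eq_of_lt hlt]
  · have h2 : (l - 3) * (is + 1) ≤ g + 1 := by omega
    rw [sF_of_le h, sF_of_le h2, iF_of_le h, iF_of_le h2]
    unfold nG at hg
    by_cases h1 : g - (l - 3) * (is + 1) < I
    · left
      omega
    · right; right
      omega

/-- The size of an effect. -/
noncomputable def Ev (l y : ℕ) (m : ℕ → ℕ) (s i : ℕ) : ℝ :=
  2 ^ (s + 1) * (m i : ℝ) ^ 2 * (y : ℝ) ^ (l - (s + 3))

/-- The lower bound. -/
noncomputable def lo (l I y : ℕ) (m : ℕ → ℕ) (s i : ℕ) : ℝ :=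
  if s + 3 < l then 1 / 2 * Ev l y m s i else if i ≤ I then 2 ^ (l - 2) * (m i : ℝ) ^ 2
    else 2 ^ (l - 2)

/-- The upper bound. -/
noncomputable def hi (l I y : ℕ) (m : ℕ → ℕ) (s i : ℕ) : ℝ :=
  if s + 3 < l then 2 * Ev l y m s i else if i ≤ I then 2 ^ (l - 2) * (m i : ℝ) ^ 2
    else 2 ^ (l - 2)

lemma Ev_nonneg (l y : ℕ) (m : ℕ → ℕ) (s i : ℕ) : 0 ≤ Ev l y m s i := by
  unfold Ev; positivity

lemma lo_nonneg (l I y : ℕ) (m : ℕ → ℕ) (s i : ℕ) : 0 ≤ lo l I y m s i := by
  unfold lo
  have := Ev_nonneg l y m s i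
  split_ifs
  · linarith
  · positivity
  · positivity

lemma lo_le_hi (l I y : ℕ) (m : ℕ → ℕ) (s i : ℕ) : lo l I y m s i ≤ hi l I y m s i := by
  unfold lo hi
  have := Ev_nonneg l y m s i
  split_ifs
  · linarith
  · exact le_rfl
  · exact le_rfl

lemma ratio {l I Q is y t : ℕ} {m : ℕ → ℕ} {D : ℕ} (hl : 4 ≤ l) (his : is ≤ I)
    (hmt : ∀ i < I, m i ≤ t * m (i + 1)) (hmI : m I = D) (hD : D ^ 2 ≤ Q)
    (ht : 4 * t ^ 2 ≤ Q) (hQ : 4 * m is ^ 2 * y ≤ Q * m 0 ^ 2) {g : ℕ}
    (hg : g + 1 < nG l is I) :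
    hi l I y m (sF l is g) (iF l is g) ≤ Q * lo l I y m (sF l is (g + 1)) (iF l is (g + 1)) := by
  have hDr : (D : ℝ) ^ 2 ≤ Q := by exact_mod_cast hD
  have htr : 4 * (t : ℝ) ^ 2 ≤ Q := by exact_mod_cast ht
  have hQr : 4 * (m is : ℝ) ^ 2 * y ≤ Q * (m 0 : ℝ) ^ 2 := by exact_mod_cast hQ
  have hst : ∀ i < I, 4 * (m i : ℝ) ^ 2 ≤ Q * (m (i + 1) : ℝ) ^ 2 := by
    intro i hi
    have h1 : (m i : ℝ) ≤ t * m (i + 1) := by exact_mod_cast hmt i hi
    calc 4 * (m i : ℝ) ^ 2 ≤ 4 * (t * m (i + 1)) ^ 2 := by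
          have := pow_le_pow_left₀ (Nat.cast_nonneg (m i)) h1 2
          linarith
      _ = 4 * (t : ℝ) ^ 2 * (m (i + 1) : ℝ) ^ 2 := by ring
      _ ≤ _ := mul_le_mul_of_nonneg_right htr (by positivity)
  rcases next hl his hg with ⟨h1, h2, h3⟩ | ⟨h1, h2, h3, h4⟩ | ⟨h1, h2, h3, h4⟩
  · rw [h1, h2]
    set s := sF l is g
    set i := iF l is g
    have h5 := hst i h3
    unfold hi lo
    split_ifs with h6 h7 h8 h8
    · unfold Ev
      have h9 : (0 : ℝ) ≤ 2 ^ (s + 1) * (y : ℝ) ^ (l - (s + 3)) := by positivity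
      have h10 := mul_le_mul_of_nonneg_right h5 h9
      linarith
    · have h9 : (0 : ℝ) ≤ 2 ^ (l - 2) := by positivity
      have h10 := mul_le_mul_of_nonneg_right h5 h9
      have h11 : (0 : ℝ) ≤ 2 ^ (l - 2) * (m i : ℝ) ^ 2 := by positivity
      linarith
    · omega
    · omega
    · omega
  · rw [h1, h2, h3]
    set s := sF l is g
    unfold hi lo
    rw [if_pos h4]
    have h5 : (y : ℝ) ^ (l - (s + 3)) = y * (y : ℝ) ^ (l - (s + 4)) := by
      rw [← pow_succ']
      congr 1
      omega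
    split_ifs with h6 h7
    · unfold Ev
      rw [h5]
      have h9 : (0 : ℝ) ≤ 2 ^ (s + 1) * (y : ℝ) ^ (l - (s + 4)) := by positivity
      have h10 := mul_le_mul_of_nonneg_right hQr h9
      have h11 : (0 : ℝ) ≤ 4 * (m is : ℝ) ^ 2 * y * (2 ^ (s + 1) * (y : ℝ) ^ (l - (s + 4))) := by
        positivity
      have h12 : l - (s + 1 + 3) = l - (s + 4) := by omega
      have h13 : (2 : ℝ) ^ (s + 1 + 1) = 2 ^ (s + 1) * 2 := pow_succ _ _
      rw [h12, h13]
      linarith
    · unfold Ev
      have h12 : l - (s + 3) = 1 := by omega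
      have h13 : (2 : ℝ) ^ (l - 2) = 2 ^ (s + 1) * 2 := by
        rw [← pow_succ]
        congr 1
        omega
      rw [h12, h13, pow_one]
      have h9 : (0 : ℝ) ≤ 2 ^ (s + 1) := by positivity
      have h10 := mul_le_mul_of_nonneg_right hQr h9
      have h11 : (0 : ℝ) ≤ 4 * (m is : ℝ) ^ 2 * y * (2 ^ (s + 1)) := by
        positivity
      linarith
    · omega
  · rw [h1, h2, h3, h4]
    unfold hi lo
    rw [if_neg (by omega), if_pos le_rfl, if_neg (by omega), if_neg (by omega), hmI]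
    have h9 : (0 : ℝ) ≤ 2 ^ (l - 2) := by positivity
    have h10 := mul_le_mul_of_nonneg_right hDr h9
    linarith

end Stage

/-- Module Stage. -/
theorem stageStmt : StageStmt := by
  intro l I Q is y t m D c x hl his hy hm hmt hmI hD ht hQ H1 H2 H3 hdx hx hxr
  have hsg : ∀ k : ℕ, (-1 : ℤ) ^ k = 1 ∨ (-1 : ℤ) ^ k = -1 := fun k => neg_one_pow_eq_or ℤ k
  have hN0 : 0 < (l - 3) * (is + 1) := Nat.mul_pos (by omega) (by omega)
  have hs0 : Stage.sF l is 0 = 0 := by rw [Stage.sF_of_lt hN0]; exact Nat.zero_div _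
  have hi0 : Stage.iF l is 0 = 0 := by rw [Stage.iF_of_lt hN0]; exact Nat.zero_mod _
  have hlast : Stage.nG l is I - 1 = (l - 3) * (is + 1) + (I + 1) := by unfold Stage.nG; omega
  have hsl : Stage.sF l is (Stage.nG l is I - 1) = l - 3 := by
    rw [hlast]; exact Stage.sF_of_le (Nat.le_add_right _ _)
  have hil : Stage.iF l is (Stage.nG l is I - 1) = I + 1 := by
    rw [hlast, Stage.iF_of_le (Nat.le_add_right _ _)]; omega
  obtain ⟨T, hT⟩ := greedy (Stage.nG l is I) Q (fun T => c (Stage.tau is T)) x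
    (fun g => (-1) ^ (Stage.sF l is g + 3))
    (fun g => Stage.lo l I y m (Stage.sF l is g) (Stage.iF l is g))
    (fun g => Stage.hi l I y m (Stage.sF l is g) (Stage.iF l is g)) (2 ^ (l - 2))
    (by unfold Stage.nG; omega) (by positivity) (fun g => hsg _)
    (fun g _ => Stage.lo_nonneg _ _ _ _ _ _) (fun g _ => Stage.lo_le_hi _ _ _ _ _ _)
    (by
      intro g hg q hq T hT
      have hf := Stage.tau_st hl his hg hq hT
      have hslt := Stage.sF_lt is hl g
      simp only [Stage.tau_insert hl his hg hq]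
      rcases lt_or_ge g ((l - 3) * (is + 1)) with h | h
      · have h3 := Stage.div_lt h
        have h4 := Stage.sF_of_lt h
        have h6 : g % (is + 1) < is + 1 := Nat.mod_lt g (Nat.succ_pos is)
        have h7 := Stage.iF_of_lt h
        have h5 : Stage.sF l is g + 3 < l := by omega
        have h8 := (H1 (Stage.st hl his hg hq) (Stage.tau is T) hf h5
          (show Stage.iF l is g ≤ is by omega)).1
        unfold Stage.lo Stage.hi
        rw [if_pos h5, if_pos h5]
        exact h8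
      · have h4 := Stage.sF_of_le h
        have h5 : Stage.sF l is g + 3 = l := by omega
        have h6 := Stage.iF_lt his hg
        have h10 : ¬ (Stage.sF l is g + 3 < l) := by omega
        unfold Stage.lo Stage.hi
        rw [if_neg h10, if_neg h10]
        by_cases h7 : Stage.iF l is g ≤ I
        · rw [if_pos h7]
          have h8 := H2 (Stage.st hl his hg hq) (Stage.tau is T) hf h5 h7
          have h9 : (((-1) ^ (Stage.sF l is g + 3) * (c (Function.update (Stage.tau is T)
              (Stage.st hl his hg hq) true) - c (Stage.tau is T)) : ℤ) : ℝ)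
              = 2 ^ (l - 2) * (m (Stage.iF l is g) : ℝ) ^ 2 := by
            rw [h5, h8]
            push_cast
            rfl
          exact ⟨h9.ge, h9.le⟩
        · rw [if_neg h7]
          have h8 := H3 (Stage.st hl his hg hq) (Stage.tau is T) hf h5
            (show Stage.iF l is g = I + 1 by omega)
          have h9 : (((-1) ^ (Stage.sF l is g + 3) * (c (Function.update (Stage.tau is T)
              (Stage.st hl his hg hq) true) - c (Stage.tau is T)) : ℤ) : ℝ)
              = 2 ^ (l - 2) := by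
            rw [h5, h8]
            push_cast
            rfl
          exact ⟨h9.ge, h9.le⟩)
    (fun g hg => Stage.ratio hl his hmt hmI hD ht hQ hg)
    (by
      show Stage.lo l I y m (Stage.sF l is (Stage.nG l is I - 1))
        (Stage.iF l is (Stage.nG l is I - 1)) = _
      rw [hsl, hil]
      unfold Stage.lo
      rw [if_neg (by omega), if_neg (by omega)]
      push_cast
      rfl)
    (by
      show Stage.hi l I y m (Stage.sF l is (Stage.nG l is I - 1))
        (Stage.iF l is (Stage.nG l is I - 1)) = _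
      rw [hsl, hil]
      unfold Stage.hi
      rw [if_neg (by omega), if_neg (by omega)]
      push_cast
      rfl)
    (by
      intro g hg q hq T hT
      have hf := Stage.tau_st hl his hg hq hT
      have hslt := Stage.sF_lt is hl g
      simp only [Stage.tau_insert hl his hg hq]
      have hdv : ∀ (k : ℕ) (d z : ℤ), (-1) ^ k * d = 2 ^ (l - 2) * z → (2 ^ (l - 2) : ℤ) ∣ d := by
        intro k d z h
        rcases hsg k with h1 | h1
        · rw [h1, one_mul] at h
          exact ⟨z, h⟩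
        · rw [h1, neg_one_mul] at h
          exact ⟨-z, by linarith⟩
      rcases lt_or_ge g ((l - 3) * (is + 1)) with h | h
      · have h3 := Stage.div_lt h
        have h4 := Stage.sF_of_lt h
        have h6 : g % (is + 1) < is + 1 := Nat.mod_lt g (Nat.succ_pos is)
        have h7 := Stage.iF_of_lt h
        have h5 : Stage.sF l is g + 3 < l := by omega
        exact (H1 (Stage.st hl his hg hq) (Stage.tau is T) hf h5
          (show Stage.iF l is g ≤ is by omega)).2
      · have h4 := Stage.sF_of_le h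
        have h5 : Stage.sF l is g + 3 = l := by omega
        have h6 := Stage.iF_lt his hg
        by_cases h7 : Stage.iF l is g ≤ I
        · exact hdv _ _ _ (H2 (Stage.st hl his hg hq) (Stage.tau is T) hf h5 h7)
        · have h8 := H3 (Stage.st hl his hg hq) (Stage.tau is T) hf h5
            (show Stage.iF l is g = I + 1 by omega)
          exact hdv l _ 1 (by rw [mul_one]; exact h8))
    (by rw [Stage.tau_empty]; exact hdx)
    (by
      simp only [hs0, Stage.tau_empty]
      have e2 : (-1 : ℤ) ^ (0 + 3) = -1 := by norm_num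
      rw [e2]
      linarith)
    (by
      simp only [hs0, hi0, Stage.tau_empty]
      have e2 : (-1 : ℤ) ^ (0 + 3) = -1 := by norm_num
      rw [e2]
      unfold Stage.lo Stage.Ev
      rw [if_pos (by omega)]
      have e3 : ((-1 * (x - c fun _ => false) : ℤ) : ℝ) = ((c (fun _ => false) - x : ℤ) : ℝ) := by
        congr 1
        ring
      rw [e3]
      refine hxr.trans (le_of_eq ?_)
      norm_num
      ring)
  exact ⟨_, hT⟩

end Full

end MP_90430c
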