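import Pool.Agent.Lib.MP_90430c_co.Full.Api

/-!
# Changing the signs of few pairs
-/

open Finset

set_option linter.unusedSectionVars false

namespace MP_90430c

namespace Full

namespace Step

variable {V : Type} [Fintype V] [DecidableEq V]

/-! ## One flip -/

/-- The signed number of closed sequences which start with `x`, `y`. -/
lemma rooted_le {m : ℕ} {σ : V → V → ℤ} (hσ : IsSig σ) {Λ : ℝ} (hΛ : Bd (rl σ) Λ) (x y : V) :
    |((∑ f ∈ inj (m + 3) V, (if f 0 = x ∧ f 1 = y then cp (m + 3) σ f else 0) : ℤ) : ℝ)| ≤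
      2 ^ ((m + 3) ^ 2) * (Fintype.card V * Λ ^ m) := by
  set n : ℝ := (Fintype.card V : ℝ) with hn
  let B : Fin (m + 3) → V → V → ℝ := fun i =>
    if i = 0 then fun u v => (if u = x then (1 : ℝ) else 0) * (if v = y then (σ x y : ℝ) else 0)
    else if i = 1 then rs {y} univ (rl σ)
    else if i = Fin.last (m + 2) then rs univ {x} (rl σ) else rl σ
  let c : Fin (m + 3) → ℝ := fun i =>
    if i = 0 then 1 else if i = 1 then √n else if i = Fin.last (m + 2) then √n else Λ
  have h01 : (1 : Fin (m + 3)) ≠ 0 := by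
    intro h
    have := congrArg Fin.val h
    simp at this
  have hl0 : (Fin.last (m + 2) : Fin (m + 3)) ≠ 0 := by
    intro h
    have := congrArg Fin.val h
    simp at this
  have hl1 : (Fin.last (m + 2) : Fin (m + 3)) ≠ 1 := by
    intro h
    have := congrArg Fin.val h
    simp at this
  have hB0 : B 0 = fun u v => (if u = x then (1 : ℝ) else 0) * (if v = y then (σ x y : ℝ) else 0) :=
    if_pos rfl
  have hB1 : B 1 = rs {y} univ (rl σ) := by
    change (if (1 : Fin (m + 3)) = 0 then _ else _) = _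
    rw [if_neg h01, if_pos rfl]
  have hBl : B (Fin.last (m + 2)) = rs univ {x} (rl σ) := by
    change (if (Fin.last (m + 2) : Fin (m + 3)) = 0 then _ else _) = _
    rw [if_neg hl0, if_neg hl1, if_pos rfl]
  have hBi : ∀ i, i ≠ 0 → i ≠ 1 → i ≠ Fin.last (m + 2) → B i = rl σ := by
    intro i h0 h1 h2
    change (if i = 0 then _ else _) = _
    rw [if_neg h0, if_neg h1, if_neg h2]
  have hc0 : c 0 = 1 := if_pos rfl
  have hc1 : c 1 = √n := by
    change (if (1 : Fin (m + 3)) = 0 then _ else _) = _
    rw [if_neg h01, if_pos rfl]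
  have hcl : c (Fin.last (m + 2)) = √n := by
    change (if (Fin.last (m + 2) : Fin (m + 3)) = 0 then _ else _) = _
    rw [if_neg hl0, if_neg hl1, if_pos rfl]
  have hci : ∀ i, i ≠ 0 → i ≠ 1 → i ≠ Fin.last (m + 2) → c i = Λ := by
    intro i h0 h1 h2
    change (if i = 0 then _ else _) = _
    rw [if_neg h0, if_neg h1, if_neg h2]
  have hc : ∏ i, c i = n * Λ ^ m := by
    rw [Fin.prod_univ_succ, Fin.prod_univ_succ, Fin.prod_univ_castSucc]
    have e1 : c (Fin.succ 0) = √n := hc1
    have e2 : c (Fin.succ (Fin.succ (Fin.last m))) = √n := hcl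
    have e3 : ∀ i : Fin m, c (Fin.succ (Fin.succ (Fin.castSucc i))) = Λ := by
      intro i
      refine hci _ (Fin.succ_ne_zero _) ?_ ?_
      · intro h
        have := congrArg Fin.val h
        simp at this
      · intro h
        have h3 := congrArg Fin.val h
        simp only [Fin.val_succ, Fin.val_castSucc, Fin.val_last] at h3
        have := i.2
        omega
    rw [hc0, e1, e2, Finset.prod_congr rfl fun i _ => e3 i, Finset.prod_const, Finset.card_univ,
      Fintype.card_fin, one_mul]
    have e4 : √n * √n = n := Real.mul_self_sqrt (by positivity)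
    linear_combination Λ ^ m * e4
  have key := wordStmt V (m + 3) B c 0 (fun u => if u = x then 1 else 0)
    (fun v => if v = y then (σ x y : ℝ) else 0) (fun u v => by rw [hB0]) ?_ ?_
  · rw [hc] at key
    refine le_trans (le_of_eq ?_) key
    congr 1
    push_cast
    refine Finset.sum_congr rfl fun f _ => ?_
    by_cases hf : f 0 = x ∧ f 1 = y
    · rw [if_pos hf]
      unfold cp
      push_cast
      refine Finset.prod_congr rfl fun i _ => ?_
      by_cases h0 : i = 0
      · subst h0
        rw [hB0]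
        simp only [zero_add]
        rw [if_pos hf.1, if_pos hf.2, hf.1, hf.2, one_mul]
      by_cases h1 : i = 1
      · subst h1
        rw [hB1]
        unfold rs rl
        rw [if_pos ⟨by rw [hf.2]; exact Finset.mem_singleton_self _, Finset.mem_univ _⟩]
      by_cases h2 : i = Fin.last (m + 2)
      · subst h2
        rw [hBl]
        unfold rs rl
        have h3 : (Fin.last (m + 2) + 1 : Fin (m + 3)) = 0 := Fin.last_add_one _
        rw [if_pos ⟨Finset.mem_univ _, by
          rw [h3, hf.1]; exact Finset.mem_singleton_self _⟩]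
      · rw [hBi i h0 h1 h2]
        rfl
    · rw [if_neg hf]
      symm
      refine Finset.prod_eq_zero (Finset.mem_univ 0) ?_
      rw [hB0]
      simp only [zero_add]
      rcases not_and_or.1 hf with h | h
      · rw [if_neg h, zero_mul]
      · rw [if_neg h, mul_zero]
  · have h1 : nrm (fun v => if v = y then (σ x y : ℝ) else 0) ≤ 1 := by
      refine (nrm_le_card (P := {y}) (fun v => ?_) fun v hv => ?_).trans ?_
      · split_ifs
        · exact (abs_rl hσ x y).le
        · simp
      · exact if_neg fun h => hv (Finset.mem_singleton.2 h)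
      · simp
    rw [nrm_single, one_mul, hc0]
    exact h1
  · intro i h0
    by_cases h1 : i = 1
    · subst h1
      rw [hB1, hc1]
      have h := bd_sig hσ {y} univ
      rw [Finset.card_singleton, Finset.card_univ, Nat.cast_one, one_mul] at h
      exact h
    by_cases h2 : i = Fin.last (m + 2)
    · subst h2
      rw [hBl, hcl]
      have h := bd_sig hσ univ {x}
      rw [Finset.card_singleton, Finset.card_univ, Nat.cast_one, mul_one] at h
      exact h
    · rw [hBi i h0 h1 h2, hci i h0 h1 h2]
      exact hΛ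

/-- The effect of one flip. -/
lemma flip_le {l : ℕ} [NeZero l] (hl : 3 ≤ l) (hn : l ≤ Fintype.card V) {σ : V → V → ℤ}
    (hσ : IsSig σ) {Λ : ℝ} (hΛ : Bd (rl σ) Λ) (x y : V) :
    ((|cc l (flip σ x y) - cc l σ| : ℤ) : ℝ) ≤
      2 ^ (l ^ 2) * Fintype.card V * Λ ^ (l - 3) := by
  obtain ⟨m, rfl⟩ : ∃ m, l = m + 3 := ⟨l - 3, by omega⟩
  have h1 := cc_sub hl hn (hσ.flip x y) hσ
  rw [Z_flip hl hσ] at h1
  have h2 : (0 : ℤ) < 4 * ((m + 3 : ℕ) : ℤ) := by positivity
  have h3 := mul_left_cancel₀ h2.ne' h1
  rw [h3]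
  have h4 := rooted_le (m := m) hσ hΛ x y
  have e : m + 3 - 3 = m := by omega
  rw [e, mul_assoc]
  rw [Int.cast_abs]
  exact h4

/-! ## Norms -/

lemma sq_add_le {u : V → ℝ} {x y : V} (hxy : x ≠ y) : u x ^ 2 + u y ^ 2 ≤ nrm u ^ 2 := by
  rw [nrm_sq, ← Finset.sum_pair (f := fun z => u z ^ 2) hxy]
  exact Finset.sum_le_sum_of_subset_of_nonneg (Finset.subset_univ _) fun _ _ _ => sq_nonneg _

lemma pair_le {u v : V → ℝ} {x y : V} (hxy : x ≠ y) :
    |u x * v y + u y * v x| ≤ nrm u * nrm v := by
  refine abs_le_of_sq_le_sq ?_ (mul_nonneg (nrm_nonneg _) (nrm_nonneg _))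
  have h1 := sq_add_le (u := u) hxy
  have h2 := sq_add_le (u := v) hxy
  have h3 : (u x * v y + u y * v x) ^ 2 ≤ (u x ^ 2 + u y ^ 2) * (v x ^ 2 + v y ^ 2) := by
    nlinarith [sq_nonneg (u x * v x - u y * v y)]
  calc _ ≤ (u x ^ 2 + u y ^ 2) * (v x ^ 2 + v y ^ 2) := h3
    _ ≤ nrm u ^ 2 * nrm v ^ 2 := mul_le_mul h1 h2 (by positivity) (by positivity)
    _ = _ := by ring

/-- A symmetric matrix supported on one pair. -/
lemma bd_pair {x y : V} {e : ℝ} (he : |e| ≤ 2) :
    Bd (fun u v => if (u = x ∧ v = y) ∨ (u = y ∧ v = x) then e else 0) 2 := by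
  refine ⟨by norm_num, fun a b => ?_⟩
  by_cases hxy : x = y
  · subst hxy
    have h1 : ∑ u, ∑ v, a u * (if (u = x ∧ v = x) ∨ (u = x ∧ v = x) then e else 0) * b v
        = e * (a x * b x) := by
      rw [Finset.sum_eq_single x, Finset.sum_eq_single x]
      · simp
        ring
      · intro v _ hv
        simp [hv]
      · simp
      · intro u _ hu
        refine Finset.sum_eq_zero fun v _ => ?_
        simp [hu]
      · simp
    rw [h1, abs_mul]
    have h2 : |a x * b x| ≤ nrm a * nrm b := by
      have h3 := inner_le (fun z => if z = x then a x else 0) b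
      have h4 : ∑ z, (if z = x then a x else 0) * b z = a x * b x := by simp
      rw [h4] at h3
      refine h3.trans (mul_le_mul_of_nonneg_right (nrm_mono fun z => ?_) (nrm_nonneg b))
      split_ifs with h
      · rw [h]
      · simp
    calc |e| * |a x * b x| ≤ 2 * (nrm a * nrm b) :=
          mul_le_mul he h2 (abs_nonneg _) (by norm_num)
      _ = _ := by ring
  · have h1 : ∑ u, ∑ v, a u * (if (u = x ∧ v = y) ∨ (u = y ∧ v = x) then e else 0) * b v
        = e * (a x * b y + a y * b x) := by
      have h2 : ∀ u v, a u * (if (u = x ∧ v = y) ∨ (u = y ∧ v = x) then e else 0) * b v =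
          (if u = x then (if v = y then e * (a u * b v) else 0) else 0) +
          (if u = y then (if v = x then e * (a u * b v) else 0) else 0) := by
        intro u v
        by_cases h3 : u = x
        · have h4 : u ≠ y := fun h => hxy (h3.symm.trans h)
          by_cases h5 : v = y
          · simp [h3, h5, hxy]
            ring
          · simp [h3, h5, hxy]
        · by_cases h4 : u = y
          · by_cases h5 : v = x
            · simp [h4, h5, Ne.symm hxy]
              ring
            · simp [h4, h5, Ne.symm hxy]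
          · simp [h3, h4]
      simp only [h2, Finset.sum_add_distrib]
      have h3 : ∀ z w : V, ∑ u, ∑ v, (if u = z then (if v = w then e * (a u * b v) else 0) else 0)
          = e * (a z * b w) := by
        intro z w
        rw [Finset.sum_eq_single z, Finset.sum_eq_single w]
        · simp
        · intro v _ hv
          simp [hv]
        · simp
        · intro u _ hu
          refine Finset.sum_eq_zero fun v _ => ?_
          simp [hu]
        · simp
      rw [h3, h3]
      ring
    rw [h1, abs_mul]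
    calc |e| * |a x * b y + a y * b x| ≤ 2 * (nrm a * nrm b) :=
          mul_le_mul he (pair_le hxy) (abs_nonneg _) (by norm_num)
      _ = _ := by ring

/-! ## Replacing one pair -/

/-- `σ` with the pair `x`, `y` taken from `σ'`. -/
def rep (σ σ' : V → V → ℤ) (x y u v : V) : ℤ :=
  if (u = x ∧ v = y) ∨ (u = y ∧ v = x) then σ' u v else σ u v

lemma isSig_rep {σ σ' : V → V → ℤ} (hσ : IsSig σ) (hσ' : IsSig σ') (x y : V) :
    IsSig (rep σ σ' x y) := by
  refine ⟨fun u v => ?_, fun u v => ?_⟩
  · unfold rep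
    rw [hσ.symm u v, hσ'.symm u v]
    exact if_congr (by tauto) rfl rfl
  · unfold rep
    split_ifs
    · exact hσ'.val u v
    · exact hσ.val u v

lemma bd_rep {σ σ' : V → V → ℤ} (hσ : IsSig σ) (hσ' : IsSig σ') (x y : V) {Λ : ℝ}
    (hΛ : Bd (rl σ) Λ) : Bd (rl (rep σ σ' x y)) (Λ + 2) := by
  have he : |(σ' x y : ℝ) - (σ x y : ℝ)| ≤ 2 := by
    refine (abs_sub _ _).trans ?_
    have h1 := (abs_rl hσ' x y).le
    have h2 := (abs_rl hσ x y).le
    unfold rl at h1 h2
    linarith
  refine (hΛ.add (bd_pair (x := x) (y := y) he)).congr fun u v => ?_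
  unfold rl rep
  by_cases h : (u = x ∧ v = y) ∨ (u = y ∧ v = x)
  · rw [if_pos h, if_pos h]
    rcases h with ⟨rfl, rfl⟩ | ⟨rfl, rfl⟩
    · ring
    · rw [hσ.symm u v, hσ'.symm u v]
      ring
  · rw [if_neg h, if_neg h, add_zero]

lemma cc_congr {l : ℕ} [NeZero l] (hl : 3 ≤ l) {σ τ : V → V → ℤ}
    (h : ∀ u v, u ≠ v → σ u v = τ u v) : cc l σ = cc l τ := by
  unfold cc Z
  congr 2
  refine Finset.sum_congr rfl fun f hf => ?_
  unfold cp
  refine Finset.prod_congr rfl fun i _ => h _ _ fun h1 => ?_
  have h2 : i = i + 1 := mem_inj.1 hf h1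
  have h3 := two_ne_zero' hl i
  rw [← h2, ← h2] at h3
  exact h3 rfl

lemma cc_rep {l : ℕ} [NeZero l] (hl : 3 ≤ l) (hn : l ≤ Fintype.card V) {σ σ' : V → V → ℤ}
    (hσ : IsSig σ) (hσ' : IsSig σ') (x y : V) {Λ : ℝ} (hΛ : Bd (rl σ) Λ) :
    ((|cc l (rep σ σ' x y) - cc l σ| : ℤ) : ℝ) ≤
      2 ^ (l ^ 2) * Fintype.card V * Λ ^ (l - 3) := by
  have h0 : (0 : ℝ) ≤ 2 ^ (l ^ 2) * Fintype.card V * Λ ^ (l - 3) :=
    mul_nonneg (by positivity) (pow_nonneg hΛ.1 _)
  by_cases hxy : x = y
  · subst hxy
    have h1 : cc l (rep σ σ' x x) = cc l σ := by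
      refine cc_congr hl fun u v huv => ?_
      unfold rep
      rw [if_neg]
      rintro (⟨h1, h2⟩ | ⟨h1, h2⟩)
      · exact huv (h1.trans h2.symm)
      · exact huv (h1.trans h2.symm)
    rw [h1, sub_self, abs_zero, Int.cast_zero]
    exact h0
  · by_cases h1 : σ' x y = σ x y
    · have h2 : rep σ σ' x y = σ := by
        funext u v
        unfold rep
        split_ifs with h
        · rcases h with ⟨rfl, rfl⟩ | ⟨rfl, rfl⟩
          · exact h1
          · rw [hσ.symm u v, hσ'.symm u v]
            exact h1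
        · rfl
      rw [h2, sub_self, abs_zero, Int.cast_zero]
      exact h0
    · have h3 : σ' x y = -σ x y := by
        rcases hσ.val x y with h | h <;> rcases hσ'.val x y with h' | h' <;> rw [h, h'] at h1 ⊢ <;>
          simp at h1 ⊢
      have h2 : rep σ σ' x y = flip σ x y := by
        funext u v
        unfold rep flip ed
        split_ifs with h
        · rcases h with ⟨rfl, rfl⟩ | ⟨rfl, rfl⟩
          · rw [h3]
            ring
          · rw [hσ'.symm u v, hσ.symm u v, h3]
            ring
        · ring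
      rw [h2]
      exact flip_le hl hn hσ hΛ x y

end Step

open Step in
theorem stepStmt : StepStmt := by
  intro V _ _ l _ σ σ' P
  induction P using Finset.induction_on generalizing σ with
  | empty =>
    intro Λ hl hn hσ hσ' h hΛ
    have h1 : σ' = σ := funext fun x => funext fun y =>
      h x y (Finset.notMem_empty _) (Finset.notMem_empty _)
    rw [h1, sub_self, abs_zero, Int.cast_zero, Finset.card_empty, Nat.cast_zero, zero_mul]
  | insert p P hp ih =>
    intro Λ hl hn hσ hσ' h hΛ
    obtain ⟨x, y⟩ := p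
    have h1 := cc_rep hl hn hσ hσ' x y hΛ
    have h2 := ih (rep σ σ' x y) (Λ + 2) hl hn (isSig_rep hσ hσ' x y) hσ' (fun u v hu hv => by
      unfold rep
      split_ifs with h3
      · rfl
      · refine h u v ?_ ?_
        · rw [Finset.mem_insert]
          rintro (h4 | h4)
          · exact h3 (Or.inl (Prod.mk.inj h4))
          · exact hu h4
        · rw [Finset.mem_insert]
          rintro (h4 | h4)
          · exact h3 (Or.inr ⟨(Prod.mk.inj h4).2, (Prod.mk.inj h4).1⟩)
          · exact hv h4) (bd_rep hσ hσ' x y hΛ)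
    have h3 : |cc l σ' - cc l σ| ≤ |cc l σ' - cc l (rep σ σ' x y)| +
        |cc l (rep σ σ' x y) - cc l σ| := by
      have := abs_add_le (cc l σ' - cc l (rep σ σ' x y)) (cc l (rep σ σ' x y) - cc l σ)
      rwa [sub_add_sub_cancel] at this
    have h3' : ((|cc l σ' - cc l σ| : ℤ) : ℝ) ≤ ((|cc l σ' - cc l (rep σ σ' x y)| : ℤ) : ℝ) +
        ((|cc l (rep σ σ' x y) - cc l σ| : ℤ) : ℝ) := by exact_mod_cast h3
    rw [Finset.card_insert_of_notMem hp, Nat.cast_add, Nat.cast_one]
    set A : ℝ := 2 ^ (l ^ 2) * (Fintype.card V : ℝ) with hA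
    have hA0 : 0 ≤ A := by positivity
    have e : Λ + 2 + 2 * (P.card : ℝ) = Λ + 2 * ((P.card : ℝ) + 1) := by ring
    rw [e] at h2
    have h4 : Λ ^ (l - 3) ≤ (Λ + 2 * ((P.card : ℝ) + 1)) ^ (l - 3) :=
      pow_le_pow_left₀ hΛ.1 (by
        have : (0 : ℝ) ≤ P.card := Nat.cast_nonneg _
        linarith) _
    have h5 : A * Λ ^ (l - 3) ≤ A * (Λ + 2 * ((P.card : ℝ) + 1)) ^ (l - 3) :=
      mul_le_mul_of_nonneg_left h4 hA0
    calc _ ≤ _ := h3'
      _ ≤ P.card * (A * (Λ + 2 * ((P.card : ℝ) + 1)) ^ (l - 3)) +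
          A * (Λ + 2 * ((P.card : ℝ) + 1)) ^ (l - 3) := add_le_add h2 (h1.trans h5)
      _ = _ := by ring

theorem unitStmt (hS : StepStmt) : UnitStmt := by
  intro V _ _ l s _ lab σ₀ Λ hl hn G hσ hΛ
  set P : Finset (V × V) := (univ.filter fun x => (lab x).1 = 1) ×ˢ
    (univ.filter fun x => (lab x).1 = 2) with hP
  have hone : ∀ x, (lab x).1 = 1 → lab x = (1, false) := by
    intro x h
    refine Prod.ext h ?_
    by_contra h2
    refine G.noA x (Prod.ext h ?_)
    simpa using h2
  have hc1 : (univ.filter fun x => (lab x).1 = 1).card ≤ 1 := by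
    refine (Finset.card_le_card fun x hx => ?_).trans G.cardA.le
    exact Finset.mem_filter.2 ⟨Finset.mem_univ _, hone x (Finset.mem_filter.1 hx).2⟩
  have hc2 : (univ.filter fun x => (lab x).1 = 2).card ≤ 2 := by
    have h1 : (univ.filter fun x => (lab x).1 = 2) ⊆
        (univ.filter fun x => lab x = (2, false)) ∪ (univ.filter fun x => lab x = (2, true)) := by
      intro x hx
      have h2 := (Finset.mem_filter.1 hx).2
      rw [Finset.mem_union, Finset.mem_filter, Finset.mem_filter]
      rcases hb : (lab x).2 with _ | _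
      · exact Or.inl ⟨Finset.mem_univ _, Prod.ext h2 hb⟩
      · exact Or.inr ⟨Finset.mem_univ _, Prod.ext h2 hb⟩
    have h3 : ∀ t : Bool, (univ.filter fun x => lab x = (2, t)).card ≤ 1 := by
      intro t
      rcases G.two_le.lt_or_eq with h4 | h4
      · obtain ⟨z, _, hz⟩ := G.mid 2 le_rfl h4 t
        rw [Finset.card_le_one]
        intro a ha b hb
        rw [hz a (Finset.mem_filter.1 ha).2, hz b (Finset.mem_filter.1 hb).2]
      · rcases t with _ | _
        · have h5 := G.cardB
          rw [← h4] at h5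
          exact h5.le
        · have h5 := G.noB
          rw [← h4] at h5
          rw [Finset.filter_false_of_mem fun x _ => h5 x, Finset.card_empty]
          exact Nat.zero_le _
    refine (Finset.card_le_card h1).trans ((Finset.card_union_le _ _).trans ?_)
    exact Nat.add_le_add (h3 false) (h3 true)
  have hcP : P.card ≤ 2 := by
    rw [hP, Finset.card_product]
    calc _ ≤ 1 * 2 := Nat.mul_le_mul hc1 hc2
      _ = 2 := rfl
  have hag : ∀ x y, (x, y) ∉ P → (y, x) ∉ P → sigY σ₀ lab s x y = sigX σ₀ lab s x y := by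
    intro x y h1 h2
    unfold sigY sigX
    congr 1
    refine Finset.prod_congr rfl fun j _ => ?_
    unfold gY gX
    by_cases hj : j = 2
    · subst hj
      have key : ∀ u v, (u, v) ∉ P → ¬ upY 2 (lab u) (lab v) ∧ ¬ upX 2 (lab u) (lab v) := by
        intro u v huv
        rw [hP, Finset.mem_product, Finset.mem_filter, Finset.mem_filter] at huv
        constructor
        · rintro ⟨h3, h4, _, _⟩
          exact huv ⟨⟨Finset.mem_univ _, Nat.succ_injective h3⟩, Finset.mem_univ _, h4⟩
        · rintro (⟨_, h3, h4⟩ | ⟨h3, _⟩)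
          · exact huv ⟨⟨Finset.mem_univ _, by rw [h3]⟩, Finset.mem_univ _, by rw [h4]⟩
          · exact h3 rfl
      rw [if_neg (not_or.2 ⟨(key x y h1).1, (key y x h2).1⟩),
        if_neg (not_or.2 ⟨(key x y h1).2, (key y x h2).2⟩)]
    · have key : ∀ u v, upX j (lab u) (lab v) ↔ upY j (lab u) (lab v) := by
        intro u v
        unfold upX
        constructor
        · rintro (⟨h3, _⟩ | ⟨_, h3⟩)
          · exact absurd h3 hj
          · exact h3
        · exact fun h3 => Or.inr ⟨hj, h3⟩
      exact if_congr (by rw [key, key]) rfl rfl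
  have h := hS V l (sigX σ₀ lab s) (sigY σ₀ lab s) P Λ hl hn (isSig_sigX hσ lab s)
    (isSig_sigY hσ lab s) hag hΛ
  refine h.trans ?_
  have hc : (P.card : ℝ) ≤ 2 := by exact_mod_cast hcP
  have h0 : (0 : ℝ) ≤ P.card := Nat.cast_nonneg _
  refine mul_le_mul hc ?_ ?_ (by norm_num)
  · refine mul_le_mul_of_nonneg_left (pow_le_pow_left₀ ?_ ?_ _) (by positivity)
    · have := hΛ.1
      linarith
    · linarith
  · refine mul_nonneg (by positivity) (pow_nonneg ?_ _)
    have := hΛ.1
    linarith

end Full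

end MP_90430c
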