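import Pool.Agent.Lib.MP_90430c_co.Full.Stmts

/-!
# No gaps up to the top: random switching of the part `W` (`SwitchStmt`)
-/

open Finset

set_option linter.unusedSectionVars false

namespace MP_90430c

namespace Full

namespace Switch

variable {W K : Type} [Fintype W] [DecidableEq W] [Fintype K] [DecidableEq K] {l : ℕ} [NeZero l]

lemma sw_not (σW : W → W → ℤ) (τ : W ⊕ K → W ⊕ K → ℤ) (d : W → ℤˣ) {x y : W ⊕ K}
    (h : ¬ (x.isLeft ∧ y.isLeft)) : sw σW τ d x y = τ x y := by
  rcases x with a | a <;> rcases y with b | b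
  · exact absurd ⟨rfl, rfl⟩ h
  all_goals rfl

lemma cp_all (σW : W → W → ℤ) (τ : W ⊕ K → W ⊕ K → ℤ) (d : W → ℤˣ) (f : Fin l → W) :
    cp l (sw σW τ d) (fun i => (Sum.inl (f i) : W ⊕ K)) = cp l σW f := by
  unfold cp
  have h1 : ∀ i, sw σW τ d (Sum.inl (f i) : W ⊕ K) (Sum.inl (f (i + 1))) =
      σW (f i) (f (i + 1)) * ((d (f i) : ℤˣ) : ℤ) * ((d (f (i + 1)) : ℤˣ) : ℤ) := fun i => rfl
  rw [Finset.prod_congr rfl fun i _ => h1 i, prod_mul_distrib, prod_mul_distrib]
  have h2 : ∏ i, ((d (f (i + 1)) : ℤˣ) : ℤ) = ∏ i, ((d (f i) : ℤˣ) : ℤ) :=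
    Fintype.prod_equiv (Equiv.addRight (1 : Fin l)) _ _ (fun i => rfl)
  rw [h2, mul_assoc, ← prod_mul_distrib]
  have h3 : ∀ i, ((d (f i) : ℤˣ) : ℤ) * ((d (f i) : ℤˣ) : ℤ) = 1 := by
    intro i
    rw [← Units.val_mul, Int.units_mul_self, Units.val_one]
  rw [prod_congr rfl fun i _ => h3 i, prod_const_one, mul_one]

open Fin.CommRing in
lemma exists_place (f : Fin l → W ⊕ K) (h1 : ∃ i, (f i).isLeft ∧ (f (i + 1)).isLeft)
    (h2 : ¬ ∀ i, (f i).isLeft) :
    ∃ j, ¬ (f j).isLeft ∧ (f (j + 1)).isLeft ∧ (f (j + 1 + 1)).isLeft := by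
  by_contra hcon
  obtain ⟨i, hi⟩ := h1
  have h3 : ∀ m : ℕ, (f (i - (m : Fin l))).isLeft ∧ (f (i - (m : Fin l) + 1)).isLeft := by
    intro m
    induction m with
    | zero => simpa using hi
    | succ m ih =>
      have e : i - ((m + 1 : ℕ) : Fin l) + 1 = i - (m : Fin l) := by
        rw [Nat.cast_succ]; abel
      constructor
      · by_contra hc
        refine hcon ⟨_, hc, ?_⟩
        rw [e]
        exact ih
      · rw [e]
        exact ih.1
  apply h2
  intro k
  have h4 := (h3 ((i - k : Fin l) : ℕ)).1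
  rw [Fin.cast_val_eq_self, sub_sub_cancel] at h4
  exact h4

lemma sum_zero (σW : W → W → ℤ) (τ : W ⊕ K → W ⊕ K → ℤ) (hl : 3 ≤ l) {f : Fin l → W ⊕ K}
    (hf : Function.Injective f) (h1 : ∃ i, (f i).isLeft ∧ (f (i + 1)).isLeft)
    (h2 : ¬ ∀ i, (f i).isLeft) : ∑ d : W → ℤˣ, cp l (sw σW τ d) f = 0 := by
  obtain ⟨j, hj0, hj1, hj2⟩ := exists_place f h1 h2
  obtain ⟨w, hw⟩ := Sum.isLeft_iff.mp hj1
  have hone : (1 : Fin l) ≠ 0 := by
    intro h
    have := congrArg Fin.val h
    rw [Fin.val_one', Fin.val_zero, Nat.mod_eq_of_lt (by omega)] at this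
    exact one_ne_zero this
  refine Finset.sum_ninvolution (fun d => Function.update d w (-d w)) ?_ ?_ ?_ ?_
  · intro d
    have h3 : ∀ i, sw σW τ (Function.update d w (-d w)) (f i) (f (i + 1)) =
        (if i = j + 1 then -1 else 1) * sw σW τ d (f i) (f (i + 1)) := by
      intro i
      by_cases h : i = j + 1
      · rw [if_pos h, h]
        obtain ⟨w', hw'⟩ := Sum.isLeft_iff.mp hj2
        have hne : w' ≠ w := by
          rintro rfl
          have := hf (hw'.trans hw.symm)
          exact hone (by simpa using this)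
        rw [hw, hw']
        simp only [sw]
        rw [Function.update_self, Function.update_of_ne hne]
        push_cast
        ring
      · rw [if_neg h, one_mul]
        by_cases h4 : (f i).isLeft ∧ (f (i + 1)).isLeft
        · obtain ⟨a, ha⟩ := Sum.isLeft_iff.mp h4.1
          obtain ⟨b, hb⟩ := Sum.isLeft_iff.mp h4.2
          have ha' : a ≠ w := by
            rintro rfl
            exact h (hf (ha.trans hw.symm))
          have hb' : b ≠ w := by
            rintro rfl
            have h5 : i + 1 = j + 1 := hf (hb.trans hw.symm)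
            have h6 : i = j := add_right_cancel h5
            rw [h6] at h4
            exact hj0 h4.1
          rw [ha, hb]
          simp only [sw]
          rw [Function.update_of_ne ha', Function.update_of_ne hb']
        · rw [sw_not _ _ _ h4, sw_not _ _ _ h4]
    unfold cp
    simp only [h3]
    rw [Finset.prod_mul_distrib, Finset.prod_ite_eq' Finset.univ (j + 1),
      if_pos (Finset.mem_univ _)]
    ring
  · intro d _ h3
    have h4 := congrFun h3 w
    rw [Function.update_self] at h4
    rcases Int.units_eq_one_or (d w) with h5 | h5 <;> rw [h5] at h4 <;> exact absurd h4 (by decide)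
  · intro d
    exact Finset.mem_univ _
  · intro d
    funext z
    by_cases hz : z = w
    · subst hz
      simp
    · simp [Function.update_of_ne hz]

end Switch

open Switch in
/-- Random switching. -/
theorem switchStmt : SwitchStmt := by
  intro W K _ _ _ _ l _ σW τ hl _ _
  classical
  set N : ℤ := (Fintype.card (W → ℤˣ) : ℤ) with hN
  set B := (inj l (W ⊕ K)).filter (fun f => ∀ i, ¬ ((f i).isLeft ∧ (f (i + 1)).isLeft)) with hB
  set I := (inj l W).image (fun f : Fin l → W => (fun i => (Sum.inl (f i) : W ⊕ K))) with hI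
  have hIs : I ⊆ inj l (W ⊕ K) := by
    intro f hf
    obtain ⟨p, hp, rfl⟩ := Finset.mem_image.mp hf
    unfold inj at hp ⊢
    rw [Finset.mem_filter] at hp ⊢
    exact ⟨Finset.mem_univ _, Sum.inl_injective.comp hp.2⟩
  have hdis : Disjoint I B := by
    rw [Finset.disjoint_left]
    intro f hf hfB
    obtain ⟨p, hp, rfl⟩ := Finset.mem_image.mp hf
    exact (Finset.mem_filter.mp hfB).2 0 ⟨rfl, rfl⟩
  have hsum : ∑ d : W → ℤˣ, Z l (sw σW τ d) =
      ∑ _d : W → ℤˣ, (Z l σW + ∑ f ∈ B, cp l τ f) := by
    have hR : ∑ _d : W → ℤˣ, (Z l σW + ∑ f ∈ B, cp l τ f) =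
        N * Z l σW + N * ∑ f ∈ B, cp l τ f := by
      rw [Finset.sum_const, Finset.card_univ, nsmul_eq_mul, mul_add]
    rw [hR]
    unfold Z
    rw [Finset.sum_comm, ← Finset.sum_subset (Finset.union_subset hIs (Finset.filter_subset _ _) :
      I ∪ B ⊆ inj l (W ⊕ K)), Finset.sum_union hdis]
    · congr 1
      · rw [hI, Finset.sum_image, Finset.mul_sum]
        · refine Finset.sum_congr rfl fun f _ => ?_
          rw [Finset.sum_congr rfl fun d _ => cp_all σW τ d f, Finset.sum_const, Finset.card_univ,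
            nsmul_eq_mul]
        · intro f _ f' _ hff
          funext i
          exact Sum.inl_injective (congrFun hff i)
      · rw [Finset.mul_sum]
        refine Finset.sum_congr rfl fun f hf => ?_
        have h1 : ∀ d : W → ℤˣ, cp l (sw σW τ d) f = cp l τ f := by
          intro d
          unfold cp
          exact Finset.prod_congr rfl fun i _ => sw_not σW τ d ((Finset.mem_filter.mp hf).2 i)
        rw [Finset.sum_congr rfl fun d _ => h1 d, Finset.sum_const, Finset.card_univ, nsmul_eq_mul]
    · intro f hf hfIB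
      have hinj : Function.Injective f := (Finset.mem_filter.mp hf).2
      refine sum_zero σW τ hl hinj ?_ ?_
      · by_contra hcon
        refine hfIB (Finset.mem_union_right _ (Finset.mem_filter.mpr ⟨hf, ?_⟩))
        intro i hi
        exact hcon ⟨i, hi⟩
      · intro hall
        have h2 : ∀ i, ∃ a, f i = Sum.inl a := fun i => Sum.isLeft_iff.mp (hall i)
        choose f' hf' using h2
        refine hfIB (Finset.mem_union_left _ (Finset.mem_image.mpr ⟨f', ?_, ?_⟩))
        · unfold inj
          rw [Finset.mem_filter]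
          refine ⟨Finset.mem_univ _, ?_⟩
          intro i j hij
          exact hinj (by rw [hf', hf', hij])
        · funext i
          exact (hf' i).symm
  obtain ⟨d, _, hd⟩ := Finset.exists_le_of_sum_le (Finset.univ_nonempty) hsum.le
  exact ⟨d, hd⟩

end Full

end MP_90430c
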