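import Pool.Agent.Lib.MP_90430c_co.Full.Api
import Pool.Agent.Lib.MP_90430c_co.TopC

/-!
# The norm of a signature with a nonpositive signed number of closed sequences
-/

open Finset Matrix

set_option linter.unusedSectionVars false

namespace MP_90430c

namespace Full

namespace Trace

variable {V : Type} [Fintype V] [DecidableEq V]

/-! ## Moments -/

/-- `|A^j v|^2`. -/
noncomputable def mu (A : Matrix V V ℝ) (v : V → ℝ) (j : ℕ) : ℝ := ∑ x, (A ^ j *ᵥ v) x ^ 2

lemma mu_nonneg (A : Matrix V V ℝ) (v : V → ℝ) (j : ℕ) : 0 ≤ mu A v j :=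
  Finset.sum_nonneg fun _ _ => sq_nonneg _

lemma mu_mid {A : Matrix V V ℝ} (hA : Aᵀ = A) (v : V → ℝ) (j : ℕ) :
    mu A v (j + 1) = ∑ x, (A ^ j *ᵥ v) x * (A ^ (j + 2) *ᵥ v) x := by
  have h1 : ∀ u w : V → ℝ, (A *ᵥ u) ⬝ᵥ w = u ⬝ᵥ (A *ᵥ w) := by
    intro u w
    rw [Matrix.dotProduct_mulVec]
    congr 1
    rw [← Matrix.vecMul_transpose, hA]
  have e1 : A ^ (j + 1) *ᵥ v = A *ᵥ (A ^ j *ᵥ v) := by
    rw [Matrix.mulVec_mulVec, ← pow_succ']
  have e2 : A ^ (j + 2) *ᵥ v = A *ᵥ (A ^ (j + 1) *ᵥ v) := by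
    rw [Matrix.mulVec_mulVec, ← pow_succ']
  have h2 := h1 (A ^ j *ᵥ v) (A ^ (j + 1) *ᵥ v)
  rw [← e1, ← e2] at h2
  unfold mu
  simp only [sq]
  exact h2

lemma mu_logconv {A : Matrix V V ℝ} (hA : Aᵀ = A) (v : V → ℝ) (j : ℕ) :
    mu A v (j + 1) ^ 2 ≤ mu A v j * mu A v (j + 2) := by
  rw [mu_mid hA v j]
  exact Finset.sum_mul_sq_le_sq_mul_sq _ _ _

lemma mu_ratio {A : Matrix V V ℝ} (hA : Aᵀ = A) (v : V → ℝ) (j : ℕ) :
    mu A v 1 * mu A v j ≤ mu A v 0 * mu A v (j + 1) := by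
  induction j with
  | zero => exact le_of_eq (mul_comm _ _)
  | succ j ih =>
    rcases (mu_nonneg A v (j + 1)).eq_or_lt with h | h
    · rw [← h, mul_zero]
      exact mul_nonneg (mu_nonneg _ _ _) (mu_nonneg _ _ _)
    · have h1 := mu_logconv hA v j
      have h2 : (mu A v 1 * mu A v (j + 1)) * mu A v (j + 1) ≤
          (mu A v 0 * mu A v (j + 1 + 1)) * mu A v (j + 1) := by
        calc (mu A v 1 * mu A v (j + 1)) * mu A v (j + 1) = mu A v 1 * mu A v (j + 1) ^ 2 := by ring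
          _ ≤ mu A v 1 * (mu A v j * mu A v (j + 2)) :=
            mul_le_mul_of_nonneg_left h1 (mu_nonneg _ _ _)
          _ = (mu A v 1 * mu A v j) * mu A v (j + 2) := by ring
          _ ≤ (mu A v 0 * mu A v (j + 1)) * mu A v (j + 2) :=
            mul_le_mul_of_nonneg_right ih (mu_nonneg _ _ _)
          _ = _ := by ring
      exact le_of_mul_le_mul_right h2 h

lemma mu_pow {A : Matrix V V ℝ} (hA : Aᵀ = A) (v : V → ℝ) (j : ℕ) :
    mu A v 1 ^ (j + 1) ≤ mu A v 0 ^ j * mu A v (j + 1) := by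
  induction j with
  | zero => simp
  | succ j ih =>
    calc mu A v 1 ^ (j + 1 + 1) = mu A v 1 * mu A v 1 ^ (j + 1) := by ring
      _ ≤ mu A v 1 * (mu A v 0 ^ j * mu A v (j + 1)) :=
        mul_le_mul_of_nonneg_left ih (mu_nonneg _ _ _)
      _ = mu A v 0 ^ j * (mu A v 1 * mu A v (j + 1)) := by ring
      _ ≤ mu A v 0 ^ j * (mu A v 0 * mu A v (j + 1 + 1)) :=
        mul_le_mul_of_nonneg_left (mu_ratio hA v (j + 1)) (pow_nonneg (mu_nonneg _ _ _) _)
      _ = _ := by ring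

lemma mu_zero (A : Matrix V V ℝ) (v : V → ℝ) : mu A v 0 = ∑ x, v x ^ 2 := by
  unfold mu
  rw [pow_zero, Matrix.one_mulVec]

lemma mu_one (A : Matrix V V ℝ) (v : V → ℝ) : mu A v 1 = ∑ x, (∑ y, A x y * v y) ^ 2 := by
  unfold mu
  rw [pow_one]
  rfl

lemma mu_fro {A : Matrix V V ℝ} (v : V → ℝ) (h : ℕ) :
    mu A v h ≤ Top.fro (A ^ h) * ∑ x, v x ^ 2 := by
  unfold mu Top.fro
  rw [Finset.sum_mul]
  exact Finset.sum_le_sum fun x _ => Finset.sum_mul_sq_le_sq_mul_sq _ _ _

/-- The norm of `A v` and the trace. -/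
lemma norm_trace {A : Matrix V V ℝ} (hA : Aᵀ = A) (v : V → ℝ) (k : ℕ) :
    nrm (fun x => ∑ y, A x y * v y) ^ (2 * (k + 1)) ≤
      (A ^ (2 * (k + 1))).trace * nrm v ^ (2 * (k + 1)) := by
  have h1 := mu_pow hA v k
  have h2 := mu_fro (A := A) v (k + 1)
  have h3 : Top.fro (A ^ (k + 1)) = (A ^ (2 * (k + 1))).trace := by
    rw [Top.fro_eq, Matrix.transpose_pow, hA, ← pow_add, two_mul]
  rw [← h3, pow_mul (nrm _), pow_mul (nrm v), nrm_sq, nrm_sq, ← mu_one, ← mu_zero A v]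
  rw [← mu_zero A v] at h2
  calc mu A v 1 ^ (k + 1) ≤ mu A v 0 ^ k * mu A v (k + 1) := h1
    _ ≤ mu A v 0 ^ k * (Top.fro (A ^ (k + 1)) * mu A v 0) :=
      mul_le_mul_of_nonneg_left h2 (pow_nonneg (mu_nonneg _ _ _) _)
    _ = _ := by ring

/-! ## The matrix of a signature without its diagonal -/

/-- The matrix of `σ` without its diagonal. -/
noncomputable def off (σ : V → V → ℤ) : Matrix V V ℝ :=
  Matrix.of fun x y => if x = y then 0 else (σ x y : ℝ)

lemma off_transpose {σ : V → V → ℤ} (hσ : IsSig σ) : (off σ)ᵀ = off σ := by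
  ext x y
  rw [Matrix.transpose_apply, off, Matrix.of_apply, Matrix.of_apply, hσ.symm y x]
  by_cases h : x = y
  · rw [if_pos h, if_pos h.symm]
  · rw [if_neg h, if_neg fun h' => h h'.symm]

lemma off_diag (σ : V → V → ℤ) (x : V) : off σ x x = 0 := by
  rw [off, Matrix.of_apply, if_pos rfl]

lemma off_sq {σ : V → V → ℤ} (hσ : IsSig σ) (x : V) :
    (off σ * off σ) x x ≤ (Fintype.card V : ℝ) := by
  rw [Matrix.mul_apply]
  calc ∑ y, off σ x y * off σ y x ≤ ∑ _y : V, (1 : ℝ) := by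
        refine Finset.sum_le_sum fun y _ => ?_
        have h1 : off σ y x = off σ x y := by
          have := congrFun (congrFun (off_transpose hσ) x) y
          rw [Matrix.transpose_apply] at this
          exact this
        rw [h1, off, Matrix.of_apply]
        by_cases h : x = y
        · rw [if_pos h]; norm_num
        · rw [if_neg h]
          rcases hσ.val x y with h' | h' <;> rw [h'] <;> norm_num
    _ = _ := by rw [Finset.sum_const, Finset.card_univ, nsmul_eq_mul, mul_one]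

/-- The trace if the signed number of closed sequences is not positive. -/
lemma trace_le (k : ℕ) {σ : V → V → ℤ} (hσ : IsSig σ) (hZ0 : Z (k + 2 + (k + 2)) σ ≤ 0) :
    (off σ ^ (2 * (k + 2))).trace ≤
      (2 ^ ((2 * (k + 2)) ^ 2)) ^ (2 * (k + 2)) * (Fintype.card V : ℝ) ^ (k + 3) := by
  set n : ℝ := (Fintype.card V : ℝ) with hn
  have hn0 : 0 ≤ n := by rw [hn]; positivity
  set A : Matrix V V ℝ := off σ with hAdef
  have hA : Aᵀ = A := off_transpose hσ
  have hA0 : ∀ x, A x x = 0 := off_diag σ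
  have hN : ∀ x, (A * A) x x ≤ n := off_sq hσ
  have hZ : ((Z (k + 2 + (k + 2)) σ : ℤ) : ℝ) = ∑ f : Fin (k + 2 + (k + 2)) → V,
      Top.ca _ A f * ∏ p ∈ (Finset.univ : Finset (Fin (k + 2 + (k + 2)))).offDiag,
        Top.nd p f := by
    unfold Z inj
    rw [Finset.sum_filter]
    push_cast
    refine Finset.sum_congr rfl fun f _ => ?_
    rw [Top.prod_nd]
    by_cases h : Function.Injective f
    · rw [if_pos h, if_pos h, mul_one]
      unfold cp Top.ca
      push_cast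
      refine Finset.prod_congr rfl fun i _ => ?_
      rw [hAdef, off, Matrix.of_apply, if_neg]
      intro h'
      have h2 := h h'
      have h3 : (1 : Fin (k + 2 + (k + 2))) = 0 := by
        have : i + 1 = i + 0 := by rw [add_zero]; exact h2.symm
        exact add_left_cancel this
      have h4 := congrArg Fin.val h3
      rw [Fin.val_one', Nat.mod_eq_of_lt (by omega)] at h4
      simp at h4
    · rw [if_neg h, if_neg h, mul_zero]
  have hT : ∑ f : Fin (k + 2 + (k + 2)) → V, Top.ca _ A f = (A ^ (2 * (k + 2))).trace := by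
    have h1 := Top.sum_ca_sd (k + 2 + (k + 1)) A (fun _ => 1)
    have h2 : ∀ f : Fin (k + 2 + (k + 2)) → V,
        Top.sd (k + 2 + (k + 2)) (fun _ => (1 : V → ℤˣ)) f = 1 := by
      intro f
      unfold Top.sd
      simp
    have h3 : ∑ f : Fin (k + 2 + (k + 2)) → V, Top.ca (k + 2 + (k + 2)) A f =
        ∑ f : Fin (k + 2 + (k + 2)) → V, Top.ca (k + 2 + (k + 2)) A f *
          Top.sd (k + 2 + (k + 2)) (fun _ => (1 : V → ℤˣ)) f := by
      refine Finset.sum_congr rfl fun f _ => ?_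
      rw [h2, mul_one]
    rw [h3]
    refine h1.trans ?_
    have h4 : (List.ofFn fun _ : Fin (k + 2 + (k + 1) + 1) => (1 : V → ℤˣ)) =
        List.replicate (k + 2 + (k + 1) + 1) 1 := List.ofFn_const _ _
    rw [h4, Top.Mw_one]
    congr 2
    ring
  set T := (A ^ (2 * (k + 2))).trace with hTdef
  set T' := (A ^ (2 * (k + 1))).trace with hT'def
  have hT0 : 0 ≤ T := Top.trace_nonneg' hA _
  have hT'0 : 0 ≤ T' := Top.trace_nonneg' hA _
  set cd := (Finset.univ : Finset (Fin (k + 2 + (k + 2)))).offDiag.card with hcd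
  set C : ℝ := 2 ^ cd with hC
  have hC1 : 1 ≤ C := by rw [hC]; exact one_le_pow₀ (by norm_num)
  have hC0 : 0 < C := by linarith
  have hlam : (0 : ℝ) < 1 / C := by positivity
  have h5 := Top.incl2 (A := A) (k := k) (B := (1 / C * T + n / (1 / C) * T') / 2) (by positivity)
    (fun D i j hij => Top.TT_bound hA hA0 hN hn0 k D i j hij hlam)
    (Finset.univ : Finset (Fin (k + 2 + (k + 2)))).offDiag
    (fun p hp => (Finset.mem_offDiag.mp hp).2.2)
  rw [← hZ, hT] at h5
  have h6 : C * ((1 / C * T + n / (1 / C) * T') / 2) = (T + C ^ 2 * n * T') / 2 := by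
    field_simp
  rw [← hC, h6] at h5
  have h7 := (abs_le.1 h5).1
  have hZr : ((Z (k + 2 + (k + 2)) σ : ℤ) : ℝ) ≤ 0 := by exact_mod_cast hZ0
  have h8 : T ≤ C ^ 2 * n * T' := by linarith
  have hρ : 0 ≤ C ^ 2 * n := by positivity
  have h11 := Top.ratio hA hρ (k + 1) h8
  rw [mul_zero, pow_zero, Matrix.trace_one] at h11
  have hbig : C ≤ 2 ^ ((2 * (k + 2)) ^ 2) := by
    rw [hC]
    refine pow_le_pow_right₀ (by norm_num) ?_
    rw [hcd, Finset.offDiag_card, Finset.card_univ, Fintype.card_fin]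
    have : (k + 2 + (k + 2)) * (k + 2 + (k + 2)) = (2 * (k + 2)) ^ 2 := by ring
    rw [← this]
    exact Nat.sub_le _ _
  calc T ≤ (C ^ 2 * n) ^ (k + 1 + 1) * n := h11
    _ = C ^ (2 * (k + 2)) * n ^ (k + 3) := by ring
    _ ≤ _ := mul_le_mul_of_nonneg_right (pow_le_pow_left₀ hC0.le hbig _) (by positivity)

end Trace

theorem traceStmt : TraceStmt := by
  intro V _ _ l _ σ hev hl hσ hZ
  obtain ⟨k, rfl⟩ : ∃ k, l = k + 2 + (k + 2) := by
    obtain ⟨m, rfl⟩ := hev
    exact ⟨m - 2, by omega⟩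
  set n : ℝ := (Fintype.card V : ℝ) with hn
  have hn0 : 0 ≤ n := by rw [hn]; positivity
  have h1 := Trace.trace_le k hσ hZ
  rw [← hn] at h1
  have hA := Trace.off_transpose hσ
  have e0 : k + 2 + (k + 2) = 2 * (k + 2) := by ring
  set c : ℝ := 2 ^ ((k + 2 + (k + 2)) ^ 2) * n ^ ((1 : ℝ) / 2 + 1 / ((k + 2 + (k + 2) : ℕ) : ℝ))
    with hc
  have hc0 : 0 ≤ c := by positivity
  have hcp : c ^ (2 * (k + 2)) =
      (2 ^ ((2 * (k + 2)) ^ 2)) ^ (2 * (k + 2)) * n ^ (k + 3) := by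
    rw [hc, mul_pow, e0]
    congr 1
    rw [← Real.rpow_natCast, ← Real.rpow_mul hn0, ← Real.rpow_natCast]
    congr 1
    push_cast
    have : ((k : ℝ) + 2) ≠ 0 := by positivity
    field_simp
    ring
  have h2 : Bd (fun x y => Trace.off σ x y) c := by
    refine Bd.of_mulVec hc0 fun v => ?_
    have h3 := Trace.norm_trace hA v (k + 1)
    refine le_of_pow_le_pow_left₀ (n := 2 * (k + 2)) (by omega)
      (mul_nonneg hc0 (nrm_nonneg v)) ?_
    refine h3.trans ?_
    rw [mul_pow, hcp]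
    exact mul_le_mul_of_nonneg_right h1 (pow_nonneg (nrm_nonneg v) _)
  have h3 : Bd (fun x y : V => (σ x x : ℝ) * (if x = y then (1 : ℝ) else 0) * 1) 1 :=
    bd_one.scale (p := fun x => (σ x x : ℝ)) (q := fun _ => 1)
      (fun x => by rcases hσ.val x x with h | h <;> rw [h] <;> simp) (fun _ => by simp)
  refine (h2.add h3).congr fun x y => ?_
  unfold rl Trace.off
  rw [Matrix.of_apply]
  by_cases h : x = y
  · subst h
    simp
  · rw [if_neg h, if_neg h]
    ring

end Full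

end MP_90430c
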