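import Pool.Agent.Lib.MP_90430c_co.Full.Ident
import Pool.Agent.Lib.MP_90430c_co.Full.Decomp
import Pool.Agent.Lib.MP_90430c_co.Full.Bad
import Pool.Agent.Lib.MP_90430c_co.Full.Main
import Pool.Agent.Lib.MP_90430c_co.Full.Eff
import Pool.Agent.Lib.MP_90430c_co.Full.Last
import Pool.Agent.Lib.MP_90430c_co.Full.Dvd
import Pool.Agent.Lib.MP_90430c_co.Full.Rem
import Pool.Agent.Lib.MP_90430c_co.Full.Switch
import Pool.Agent.Lib.MP_90430c_co.Full.Stage
import Pool.Agent.Lib.MP_90430c_co.Full.Fixed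
import Pool.Agent.Lib.MP_90430c_co.Full.ConfA
import Pool.Agent.Lib.MP_90430c_co.Full.ConfB
import Pool.Agent.Lib.MP_90430c_co.Full.ConfC
import Pool.Agent.Lib.MP_90430c_co.Full.Trace
import Pool.Agent.Lib.MP_90430c_co.Full.Step
import Pool.Agent.Lib.MP_90430c_co.Full.Base
import Pool.Agent.Lib.MP_90430c_co.Full.Fin
import Pool.Agent.Lib.MP_90430c_co.Full.Had
import Pool.Agent.Lib.MP_90430c_co.Full.Geo
import Pool.Agent.Lib.MP_90430c_co.Full.AsymA
import Pool.Agent.Lib.MP_90430c_co.Full.AsymB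
import Pool.Agent.Lib.MP_90430c_co.Full.AsymC
import Pool.Agent.Lib.MP_90430c_co.Full.Final

/-!
# The theorem without hypotheses
-/

namespace MP_90430c

namespace Full

theorem sys : SysStmt :=
  sysStmt remStmt traceStmt switchStmt baseStmt finStmt
    (effStmt identStmt decompStmt badStmt mainStmt) (lastStmt identStmt decompStmt)
    (dvdStmt identStmt) (unitStmt stepStmt) stepStmt (fixedStmt stageStmt) geoStmt confAStmt
    confBStmt (confCStmt hadStmt)

/-- All multiples of `gg n l` in the range occur, `M` being the greatest number which occurs. -/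
theorem range (l : ℕ) (hl : 3 ≤ l) : ∃ C : ℝ, ∀ n : ℕ, l ≤ n → ∃ M ∈ SS n l,
    (∀ x ∈ SS n l, gg n l ∣ x ∧ x ≤ M) ∧
    ∀ x : ℕ, gg n l ∣ x → C * (n : ℝ) ^ ((l : ℝ) - 3 / 2) ≤ x →
      (x : ℝ) ≤ M - C * (n : ℝ) ^ eu l → x ∈ SS n l := by
  obtain ⟨C, h⟩ := full sys asymAStmt asymBStmt asymCStmt l hl
  refine ⟨C, fun n hn => ?_⟩
  obtain ⟨M, h1, h2, -, -, h3⟩ := h n hn
  exact ⟨M, h1, h2, h3⟩

end Full

end MP_90430c
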