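import Pool.Agent.Lib.MP_90430c_co.Full.Par

/-!
# The error at the upper end

Module AsymB.
-/

namespace MP_90430c

namespace Full

namespace AsymB

/-- `f` is nonnegative and at most a constant times `rho ^ a`. -/
def Ob (l : ℕ) (f : ℕ → ℝ) (a : ℕ) : Prop :=
  (∀ n, 0 ≤ f n) ∧ ∃ K : ℝ, 0 ≤ K ∧ ∀ n, 1 ≤ n → f n ≤ K * rho l n ^ a

theorem rho_nonneg (l n : ℕ) : 0 ≤ rho l n := by
  unfold rho
  positivity

theorem one_le_rho (l : ℕ) {n : ℕ} (hn : 1 ≤ n) : 1 ≤ rho l n := by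
  unfold rho
  apply Real.one_le_rpow
  · exact_mod_cast hn
  · positivity

theorem rho_pow {l : ℕ} (hl : 1 ≤ l) (n : ℕ) : rho l n ^ (8 * l ^ 2) = n := by
  unfold rho
  rw [← Real.rpow_natCast, ← Real.rpow_mul (Nat.cast_nonneg n)]
  have h : (1 : ℝ) / (8 * (l : ℝ) ^ 2) * ((8 * l ^ 2 : ℕ) : ℝ) = 1 := by
    have h1 : (l : ℝ) ≠ 0 := by
      have : l ≠ 0 := by omega
      exact_mod_cast this
    push_cast
    field_simp
  rw [h, Real.rpow_one]

section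

variable {l : ℕ} {f g : ℕ → ℝ} {a b : ℕ}

theorem Ob.mono (h : Ob l f a) (hab : a ≤ b) : Ob l f b := by
  obtain ⟨h0, K, hK, h1⟩ := h
  refine ⟨h0, K, hK, fun n hn => (h1 n hn).trans ?_⟩
  exact mul_le_mul_of_nonneg_left (pow_le_pow_right₀ (one_le_rho l hn) hab) hK

theorem Ob.of_le (h : Ob l g a) (h0 : ∀ n, 0 ≤ f n) (hfg : ∀ n, 1 ≤ n → f n ≤ g n) :
    Ob l f a := by
  obtain ⟨_, K, hK, h1⟩ := h
  exact ⟨h0, K, hK, fun n hn => (hfg n hn).trans (h1 n hn)⟩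

theorem Ob.const {c : ℝ} (hc : 0 ≤ c) : Ob l (fun _ => c) 0 :=
  ⟨fun _ => hc, c, hc, fun n _ => by rw [pow_zero, mul_one]⟩

theorem Ob.add (hf : Ob l f a) (hg : Ob l g a) : Ob l (fun n => f n + g n) a := by
  obtain ⟨h0, K, hK, h1⟩ := hf
  obtain ⟨h0', K', hK', h1'⟩ := hg
  refine ⟨fun n => add_nonneg (h0 n) (h0' n), K + K', add_nonneg hK hK', fun n hn => ?_⟩
  rw [add_mul]
  exact add_le_add (h1 n hn) (h1' n hn)

theorem Ob.mul (hf : Ob l f a) (hg : Ob l g b) : Ob l (fun n => f n * g n) (a + b) := by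
  obtain ⟨h0, K, hK, h1⟩ := hf
  obtain ⟨h0', K', hK', h1'⟩ := hg
  refine ⟨fun n => mul_nonneg (h0 n) (h0' n), K * K', mul_nonneg hK hK', fun n hn => ?_⟩
  refine (mul_le_mul (h1 n hn) (h1' n hn) (h0' n)
    (mul_nonneg hK (pow_nonneg (rho_nonneg l n) _))).trans (le_of_eq ?_)
  rw [pow_add]
  ring

theorem Ob.smul {c : ℝ} (hc : 0 ≤ c) (hf : Ob l f a) : Ob l (fun n => c * f n) a := by
  have h := (Ob.const (l := l) hc).mul hf
  rwa [zero_add] at h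

theorem Ob.pow (hf : Ob l f a) (k : ℕ) : Ob l (fun n => f n ^ k) (a * k) := by
  obtain ⟨h0, K, hK, h1⟩ := hf
  refine ⟨fun n => pow_nonneg (h0 n) k, K ^ k, pow_nonneg hK k, fun n hn => ?_⟩
  rw [pow_mul, ← mul_pow]
  exact pow_le_pow_left₀ (h0 n) (h1 n hn) k

theorem Ob.sqrt (hf : Ob l f (2 * a)) : Ob l (fun n => √(f n)) a := by
  obtain ⟨h0, K, hK, h1⟩ := hf
  refine ⟨fun n => Real.sqrt_nonneg _, √K, Real.sqrt_nonneg _, fun n hn => ?_⟩
  have h2 : √(K * rho l n ^ (2 * a)) = √K * rho l n ^ a := by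
    rw [Real.sqrt_mul hK, mul_comm 2 a, pow_mul,
      Real.sqrt_sq (pow_nonneg (rho_nonneg l n) a)]
  rw [← h2]
  exact Real.sqrt_le_sqrt (h1 n hn)

theorem Ob.rho (k : ℕ) : Ob l (fun n => Full.rho l n ^ k) k :=
  ⟨fun n => pow_nonneg (rho_nonneg l n) k, 1, zero_le_one, fun n _ => by rw [one_mul]⟩

theorem Ob.nat (hl : 1 ≤ l) : Ob l (fun n => (n : ℝ)) (8 * l ^ 2) :=
  ⟨fun n => Nat.cast_nonneg n, 1, zero_le_one, fun n _ => by rw [one_mul, rho_pow hl n]⟩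

theorem Ob.ceil (hf : Ob l f a) : Ob l (fun n => ((⌈f n⌉₊ : ℕ) : ℝ)) a := by
  have h1 : Ob l (fun n => f n + 1) a :=
    hf.add ((Ob.const (l := l) zero_le_one).mono (Nat.zero_le a))
  exact h1.of_le (fun n => Nat.cast_nonneg _) fun n _ => (Nat.ceil_lt_add_one (hf.1 n)).le

end

section

variable (l : ℕ)

theorem ob_pm0 : Ob l (fun n => (pm0 l n : ℝ)) (4 * l ^ 2 + 8 * l - 1) := (Ob.rho _).ceil

theorem ob_pm : Ob l (fun n => (pm l n : ℝ)) (8 * l ^ 2 - 1) := (Ob.rho _).ceil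

theorem ob_pQ : Ob l (fun n => (pQ l n : ℝ)) (4 * l ^ 2 - 8 * l) := (Ob.rho _).ceil

theorem pmu_zero (n : ℕ) : pmu l n 0 = pm0 l n := by
  unfold pmu
  rw [pow_zero, div_one, Nat.ceil_natCast]

theorem ob_m0 (hl : 4 ≤ l) :
    Ob l (fun n => ((2 * pmu l n 0 + 1 : ℕ) : ℝ)) (4 * l ^ 2 + 8 * l - 1) := by
  have h1 : Ob l (fun n => 2 * (pm0 l n : ℝ) + 1) (4 * l ^ 2 + 8 * l - 1) :=
    ((ob_pm0 l).smul (by norm_num)).add ((Ob.const (l := l) zero_le_one).mono (Nat.zero_le _))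
  refine h1.of_le (fun n => Nat.cast_nonneg _) fun n _ => le_of_eq ?_
  rw [pmu_zero]
  push_cast
  ring

theorem ob_y0 (hl : 4 ≤ l) : Ob l (fun n => (y0 l (pmu l n) : ℝ)) (4 * l ^ 2 + 8 * l - 1) := by
  have h1 := (ob_m0 l hl).mul (Ob.const (l := l) (c := (DD l : ℝ)) (Nat.cast_nonneg _))
  rw [add_zero] at h1
  refine h1.of_le (fun n => Nat.cast_nonneg _) fun n _ => le_of_eq ?_
  unfold y0
  push_cast
  ring

theorem ob_R2 : Ob l (fun n => (R2 l (4 * l) (pQ l n) : ℝ)) (4 * l ^ 2 - 8 * l) := by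
  have h1 := (ob_pQ l).smul (c := 2 * (l : ℝ) ^ 2 * (4 * l + 2)) (by positivity)
  refine h1.of_le (fun n => Nat.cast_nonneg _) fun n _ => le_of_eq ?_
  unfold R2
  push_cast
  ring

theorem ob_rr (hl : 4 ≤ l) :
    Ob l (fun n => (rr l (4 * l) (pQ l n) (pm l n) : ℝ)) (8 * l ^ 2 - 1) := by
  have h0 : 1 ≤ l ^ 2 := Nat.one_le_pow _ _ (by omega)
  have h1 := (ob_pm l).smul (c := (DD l : ℝ)) (Nat.cast_nonneg _)
  have h2 : Ob l (fun n => (R2 l (4 * l) (pQ l n) : ℝ)) (8 * l ^ 2 - 1) :=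
    (ob_R2 l).mono (by omega)
  have h3 : Ob l (fun _ => 2 * (l : ℝ) ^ 2) (8 * l ^ 2 - 1) :=
    (Ob.const (by positivity)).mono (Nat.zero_le _)
  refine ((h1.add h2).add h3).of_le (fun n => Nat.cast_nonneg _) fun n _ => le_of_eq ?_
  unfold rr
  push_cast
  ring

theorem two_pow_clog (n : ℕ) (hn : 1 ≤ n) : (2 : ℝ) ^ Nat.clog 2 n ≤ 2 * n := by
  rcases Nat.lt_or_ge n 2 with h | h
  · have h1 : n = 1 := by omega
    subst h1
    rw [Nat.clog_one_right]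
    norm_num
  · have h1 : 0 < Nat.clog 2 n := Nat.clog_pos (by norm_num) h
    have h2 : 2 ^ (Nat.clog 2 n).pred < n := Nat.pow_pred_clog_lt_self (by norm_num) (by omega)
    have h3 : 2 ^ Nat.clog 2 n = 2 * 2 ^ (Nat.clog 2 n).pred := by
      rw [← pow_succ', ← Nat.succ_eq_add_one, Nat.succ_pred_eq_of_pos h1]
    have h4 : 2 ^ Nat.clog 2 n ≤ 2 * n := by
      rw [h3]
      omega
    exact_mod_cast h4

theorem ob_GG (hl : 4 ≤ l) :
    Ob l (fun n => GG l (4 * l) (pQ l n) (2 * pmu l n 0 + 1) (Nat.clog 2 n) n) (4 * l ^ 2) := by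
  have hl1 : 1 ≤ l := by omega
  have h0 : 1 ≤ l ^ 2 := Nat.one_le_pow _ _ (by omega)
  have hll : 8 * l ≤ 4 * l ^ 2 := by nlinarith
  have hn : Ob l (fun n => (n : ℝ)) (2 * (4 * l ^ 2)) := (Ob.nat hl1).mono (by omega)
  have h1 : Ob l (fun n => √((2 : ℝ) ^ Nat.clog 2 n)) (4 * l ^ 2) := by
    apply Ob.sqrt
    exact (hn.smul (c := 2) (by norm_num)).of_le (fun n => by positivity) two_pow_clog
  have h2 : Ob l (fun n => √(R2 l (4 * l) (pQ l n) *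
      (((2 * pmu l n 0 + 1) * DD l : ℕ) : ℝ))) (4 * l ^ 2) := by
    apply Ob.sqrt
    have h3 := (ob_R2 l).mul (ob_y0 l hl)
    refine (h3.of_le (fun n => by positivity) fun n _ => le_of_eq ?_).mono (b := 2 * (4 * l ^ 2))
      (by omega)
    rfl
  have h3 : Ob l (fun n => √(R1 l * n)) (4 * l ^ 2) := by
    apply Ob.sqrt
    exact hn.smul (Nat.cast_nonneg _)
  have h4 : Ob l (fun n => (R2 l (4 * l) (pQ l n) : ℝ)) (4 * l ^ 2) := (ob_R2 l).mono (by omega)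
  have h5 : Ob l (fun _ => 2 * (DD l : ℝ)) (4 * l ^ 2) :=
    (Ob.const (by positivity)).mono (Nat.zero_le _)
  have h6 := ((((h1.smul (c := (DD l : ℝ)) (Nat.cast_nonneg _)).smul
    (c := 14) (by norm_num)).add h5).add (h2.smul (c := 2) (by norm_num))).add h4
  have h7 := h6.add (h3.smul (c := 2) (by norm_num))
  refine h7.of_le (fun n => GG_nonneg _ _ _ _ _ _) fun n _ => le_of_eq ?_
  unfold GG
  rfl

theorem ob_KS : Ob l (fun n => KS l (pC l n)) (l - 3) := by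
  have h1 : Ob l (fun n => 2 * pC l n) 1 := by
    have h2 := ((Ob.rho (l := l) 1).smul (c := 2 ^ (l ^ 2 + 1)) (by positivity)).smul
      (c := 2) (by norm_num)
    refine h2.of_le (fun n => ?_) fun n _ => le_of_eq ?_
    · unfold pC
      have := rho_nonneg l n
      positivity
    · unfold pC
      rw [pow_one]
  have h3 := (h1.pow (l - 3)).smul (c := (DD l : ℝ) ^ 2 * 2 ^ (l ^ 2)) (by positivity)
  rw [one_mul] at h3
  refine h3.of_le (fun n => ?_) fun n _ => le_of_eq ?_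
  · unfold KS pC
    have := rho_nonneg l n
    positivity
  · unfold KS
    rfl

end

theorem final_pow {l : ℕ} (hl : 1 ≤ l) (n : ℕ) :
    rho l n ^ (4 * l ^ 3 + 8 * l ^ 2 - 1) =
      (n : ℝ) ^ ((l : ℝ) / 2 + 1 - 1 / (8 * (l : ℝ) ^ 2)) := by
  unfold rho
  rw [← Real.rpow_natCast, ← Real.rpow_mul (Nat.cast_nonneg n)]
  congr 1
  have h1 : (l : ℝ) ≠ 0 := by
    have : l ≠ 0 := by omega
    exact_mod_cast this
  have h2 : 1 ≤ 4 * l ^ 3 + 8 * l ^ 2 := by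
    have : 1 ≤ l ^ 2 := Nat.one_le_pow _ _ hl
    omega
  rw [Nat.cast_sub h2]
  push_cast
  field_simp
  ring

end AsymB

open AsymB in
theorem asymBStmt : AsymBStmt := by
  intro l hev hl
  have hl1 : 1 ≤ l := by omega
  obtain ⟨h, hh⟩ := hev
  have hh2 : l = 2 * h := by omega
  have hdiv : l / 2 = h := by omega
  obtain ⟨B, hB⟩ : ∃ B : ℕ, B = 4 * l ^ 3 + 8 * l ^ 2 - 1 := ⟨_, rfl⟩
  obtain ⟨a, ha⟩ : ∃ a : ℕ, a = 4 * l ^ 2 + 8 * l - 1 := ⟨_, rfl⟩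
  have hl2 : 1 ≤ l ^ 2 := Nat.one_le_pow _ _ hl1
  have ha1 : a + 1 = 4 * l ^ 2 + 8 * l := by omega
  have hB1 : B + 1 = 4 * l ^ 3 + 8 * l ^ 2 := by omega
  have hrr := ob_rr l hl
  have hGG := ob_GG l hl
  have hy0 := ob_y0 l hl
  rw [← ha] at hy0
  have hN := Ob.nat (l := l) hl1
  -- first term
  have t1 : Ob l (fun n => 2 * l * (rr l (4 * l) (pQ l n) (pm l n) : ℝ) *
      (2 ^ (l ^ 3) * (n : ℝ) ^ (l / 2))) B := by
    have h1 := (hrr.smul (c := 2 * (l : ℝ)) (by positivity)).mul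
      ((hN.pow (l / 2)).smul (c := 2 ^ (l ^ 3)) (by positivity))
    refine (h1.of_le (fun n => by positivity) fun n _ => le_of_eq rfl).mono ?_
    have h2 : 8 * l ^ 2 * (l / 2) = 4 * l ^ 3 := by
      rw [hdiv, hh2]
      ring
    rw [h2]
    omega
  -- second term
  have t2 : Ob l (fun n => (y0 l (pmu l n) : ℝ) ^ l) B := by
    refine (hy0.pow l).mono ?_
    have h1 : (a + 1) * l = (4 * l ^ 2 + 8 * l) * l := by rw [ha1]
    nlinarith
  -- third term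
  have t3 : Ob l (fun n => 2 ^ (l ^ 2) * 3 ^ l * ((y0 l (pmu l n) : ℝ) ^ (l - 1) *
      GG l (4 * l) (pQ l n) (2 * pmu l n 0 + 1) (Nat.clog 2 n) n +
      rr l (4 * l) (pQ l n) (pm l n) *
        GG l (4 * l) (pQ l n) (2 * pmu l n 0 + 1) (Nat.clog 2 n) n ^ l)) B := by
    have h1 : Ob l (fun n => (y0 l (pmu l n) : ℝ) ^ (l - 1) *
        GG l (4 * l) (pQ l n) (2 * pmu l n 0 + 1) (Nat.clog 2 n) n) B := by
      refine ((hy0.pow (l - 1)).mul hGG).mono ?_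
      obtain ⟨c, hc⟩ : ∃ c, l = c + 1 := ⟨l - 1, by omega⟩
      have h2 : l - 1 = c := by omega
      have h3 : a * c + a = a * l := by rw [hc]; ring
      have h1 : (a + 1) * l = (4 * l ^ 2 + 8 * l) * l := by rw [ha1]
      rw [h2]
      nlinarith
    have h2 : Ob l (fun n => rr l (4 * l) (pQ l n) (pm l n) *
        GG l (4 * l) (pQ l n) (2 * pmu l n 0 + 1) (Nat.clog 2 n) n ^ l) B := by
      refine (hrr.mul (hGG.pow l)).mono ?_
      have h3 : 4 * l ^ 2 * l = 4 * l ^ 3 := by ring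
      rw [h3]
      omega
    exact (h1.add h2).smul (by positivity)
  -- fourth term
  have t4 : Ob l (fun n => 4 * l * (2 ^ l * l * KS l (pC l n) * n *
      (y0 l (pmu l n) : ℝ) ^ (l - 3))) B := by
    have h1 := ((((ob_KS l).smul (c := 2 ^ l * (l : ℝ)) (by positivity)).mul hN).mul
      (hy0.pow (l - 3))).smul (c := 4 * (l : ℝ)) (by positivity)
    refine (h1.of_le (fun n => h1.1 n) fun n _ => le_of_eq rfl).mono ?_
    obtain ⟨c, hc⟩ : ∃ c, l = c + 3 := ⟨l - 3, by omega⟩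
    have h2 : l - 3 = c := by omega
    have h3 : (a + 1) * c = (4 * l ^ 2 + 8 * l) * c := by rw [ha1]
    rw [h2]
    have h4 : c + 8 * l ^ 2 + a * c = 8 * l ^ 2 + (4 * l ^ 2 + 8 * l) * c := by
      rw [← h3]
      ring
    rw [h4]
    have h5 : 8 * l ^ 2 + (4 * l ^ 2 + 8 * l) * c + 4 * l ^ 2 + 24 * l =
        4 * l ^ 3 + 8 * l ^ 2 := by
      rw [hc]
      ring
    omega
  obtain ⟨_, K, _, hK⟩ := ((t1.add t2).add t3).add t4
  refine ⟨K, 1, fun n hn => ?_⟩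
  rw [← final_pow hl1 n, ← hB]
  exact hK n hn

end Full

end MP_90430c
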