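import Pool.Agent.Lib.MP_90430c_co.Full.Stmts

/-! Module Fixed: the whole algorithm for fixed `n`. -/

open Finset

set_option synthInstance.maxSize 4096

namespace MP_90430c

namespace Full

namespace FixedAux

/-- The settings. -/
def setg {α : Type} (τ : α → Bool) (r : ℕ) (R : Finset ℕ) : α ⊕ Fin r → Bool :=
  Sum.elim τ (fun e => decide ((e : ℕ) ∈ R))

lemma setg_zero {α : Type} {r : ℕ} : setg (fun _ : α => false) r ∅ = fun _ => false := by
  funext a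
  rcases a with a | a <;> simp [setg]

lemma setg_inl {α : Type} [DecidableEq α] {r : ℕ} (τ : α → Bool) (R : Finset ℕ) (p : α) :
    setg (Function.update τ p true) r R = Function.update (setg τ r R) (Sum.inl p) true := by
  unfold setg
  rw [Sum.update_elim_inl]

lemma setg_inr {α : Type} [DecidableEq α] {r : ℕ} (τ : α → Bool) (R : Finset ℕ) {e : ℕ}
    (he : e < r) :
    setg τ r (insert e R) = Function.update (setg τ r R) (Sum.inr ⟨e, he⟩) true := by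
  unfold setg
  rw [Sum.update_elim_inr]
  congr 1
  funext a
  by_cases ha : a = ⟨e, he⟩
  · subst ha; simp
  · rw [Function.update_of_ne ha]
    have : (a : ℕ) ≠ e := fun h => ha (Fin.ext h)
    simp [this]

lemma firstT (c : ℕ → ℤ) (y : ℕ → ℕ) (l n T0 T1 : ℕ) (K : ℝ) (x : ℤ) (hl : 4 ≤ l)
    (hT : T0 ≤ T1) (hK : 0 ≤ K) (hy : ∀ t, T0 ≤ t → t < T1 → y (t + 1) ≤ 2 * y t)
    (hstep : ∀ t, T0 ≤ t → t < T1 →
      ((|c (t + 1) - c t| : ℤ) : ℝ) ≤ K * n * (y t : ℝ) ^ (l - 3))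
    (h1 : c T1 ≤ x)
    (h0 : (x : ℝ) + 2 ^ l * l * K * n * (y T0 : ℝ) ^ (l - 3) ≤ (c T0 : ℤ)) :
    ∃ t, T0 ≤ t ∧ t ≤ T1 ∧
      (x : ℝ) + (l - 2 : ℕ) * (K * n * (y t : ℝ) ^ (l - 3)) ≤ (c t : ℤ) ∧
      ((c t : ℤ) : ℝ) ≤ x + 2 ^ (l - 3) * l * (K * n * (y t : ℝ) ^ (l - 3)) := by
  classical
  have hB : ∀ t, 0 ≤ K * n * (y t : ℝ) ^ (l - 3) := fun t => by positivity
  have hex : ∃ t, T0 ≤ t ∧ t ≤ T1 ∧
      ((c t : ℤ) : ℝ) ≤ x + 2 ^ (l - 3) * l * (K * n * (y t : ℝ) ^ (l - 3)) := by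
    refine ⟨T1, hT, le_rfl, ?_⟩
    have h2 : ((c T1 : ℤ) : ℝ) ≤ x := by exact_mod_cast h1
    have h3 := mul_nonneg (by positivity : (0 : ℝ) ≤ 2 ^ (l - 3) * l) (hB T1)
    linarith
  set t := Nat.find hex with ht
  obtain ⟨hta, htb, htc⟩ := Nat.find_spec hex
  rw [← ht] at hta htb htc
  refine ⟨t, hta, htb, ?_, htc⟩
  have hl2 : ((l - 2 : ℕ) : ℝ) ≤ l := by exact_mod_cast Nat.sub_le _ _
  rcases Nat.eq_or_lt_of_le hta with h | h
  · rw [← h]
    have h2 : ((l - 2 : ℕ) : ℝ) * (K * n * (y T0 : ℝ) ^ (l - 3)) ≤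
        2 ^ l * l * (K * n * (y T0 : ℝ) ^ (l - 3)) := by
      refine mul_le_mul_of_nonneg_right (hl2.trans ?_) (hB T0)
      have h3 : (1 : ℝ) ≤ 2 ^ l := one_le_pow₀ (by norm_num)
      have h4 : (0 : ℝ) ≤ l := by positivity
      nlinarith
    have h3 : 2 ^ l * (l : ℝ) * (K * n * (y T0 : ℝ) ^ (l - 3)) =
        2 ^ l * l * K * n * (y T0 : ℝ) ^ (l - 3) := by ring
    linarith
  · obtain ⟨s, hts⟩ : ∃ s, t = s + 1 := ⟨t - 1, by omega⟩
    have h2 := Nat.find_min hex (m := s) (by rw [← ht]; omega)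
    clear_value t
    subst hts
    have h3 : x + 2 ^ (l - 3) * l * (K * n * (y s : ℝ) ^ (l - 3)) < ((c s : ℤ) : ℝ) := by
      by_contra hcon
      exact h2 ⟨by omega, by omega, not_lt.1 hcon⟩
    have h4 := hstep s (by omega) (by omega)
    have h5 : ((c s : ℤ) : ℝ) - K * n * (y s : ℝ) ^ (l - 3) ≤ ((c (s + 1) : ℤ) : ℝ) := by
      have h6 : ((c s : ℤ) : ℝ) - ((c (s + 1) : ℤ) : ℝ) ≤ ((|c (s + 1) - c s| : ℤ) : ℝ) := by
        have : c s - c (s + 1) ≤ |c (s + 1) - c s| := by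
          rw [abs_sub_comm]; exact le_abs_self _
        exact_mod_cast this
      linarith
    have h6 : K * n * (y (s + 1) : ℝ) ^ (l - 3) ≤
        2 ^ (l - 3) * (K * n * (y s : ℝ) ^ (l - 3)) := by
      have h7 : (y (s + 1) : ℝ) ^ (l - 3) ≤ (2 * (y s : ℝ)) ^ (l - 3) :=
        pow_le_pow_left₀ (by positivity) (by exact_mod_cast hy s (by omega) (by omega)) _
      rw [mul_pow] at h7
      have h8 := mul_le_mul_of_nonneg_left h7 (by positivity : (0 : ℝ) ≤ K * n)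
      linarith [h8, (by ring : K * (n : ℝ) * (2 ^ (l - 3) * (y s : ℝ) ^ (l - 3)) =
        2 ^ (l - 3) * (K * n * (y s : ℝ) ^ (l - 3)))]
    have h7 : ((l - 2 : ℕ) : ℝ) * (K * n * (y (s + 1) : ℝ) ^ (l - 3)) ≤
        ((l - 2 : ℕ) : ℝ) * (2 ^ (l - 3) * (K * n * (y s : ℝ) ^ (l - 3))) :=
      mul_le_mul_of_nonneg_left h6 (by positivity)
    have h8 : ((l - 2 : ℕ) : ℝ) = l - 2 := by
      rw [Nat.cast_sub (by omega)]; norm_num
    rw [h8] at h7 ⊢
    have h9 : (1 : ℝ) ≤ 2 ^ (l - 3) := one_le_pow₀ (by norm_num)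
    have h10 : K * n * (y s : ℝ) ^ (l - 3) ≤ 2 ^ (l - 3) * (K * n * (y s : ℝ) ^ (l - 3)) := by
      have := mul_le_mul_of_nonneg_right h9 (hB s)
      linarith
    have h11 : ((l : ℝ) - 2) * (2 ^ (l - 3) * (K * n * (y s : ℝ) ^ (l - 3))) =
        2 ^ (l - 3) * l * (K * n * (y s : ℝ) ^ (l - 3)) -
          2 * (2 ^ (l - 3) * (K * n * (y s : ℝ) ^ (l - 3))) := by ring
    have h12 := hB s
    linarith

lemma card_bound {α : Type} [DecidableEq α] (r v : ℕ) (f : (α ⊕ Fin r → Bool) → ℤ) (B : ℝ)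
    (hf : ∀ (e : Fin r) (τ : α ⊕ Fin r → Bool), τ (Sum.inr e) = false → v ≤ e →
      ((|f (Function.update τ (Sum.inr e) true) - f τ| : ℤ) : ℝ) ≤ B) (τ : α → Bool) :
    ∀ R : Finset ℕ, R ⊆ Finset.Ico v r →
      ((|f (setg τ r R) - f (setg τ r ∅)| : ℤ) : ℝ) ≤ R.card * B := by
  intro R
  induction R using Finset.induction_on with
  | empty => intro _; simp
  | insert e R he ih =>
    intro hR
    have h1 := ih (fun x hx => hR (Finset.mem_insert_of_mem hx))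
    have h2 := Finset.mem_Ico.1 (hR (Finset.mem_insert_self e R))
    have h3 := hf ⟨e, h2.2⟩ (setg τ r R) (by simp [setg, he]) h2.1
    rw [← setg_inr τ R h2.2] at h3
    have h4 : ((|f (setg τ r (insert e R)) - f (setg τ r ∅)| : ℤ) : ℝ) ≤
        ((|f (setg τ r (insert e R)) - f (setg τ r R)| : ℤ) : ℝ) +
          ((|f (setg τ r R) - f (setg τ r ∅)| : ℤ) : ℝ) := by
      exact_mod_cast abs_sub_le _ _ _
    rw [Finset.card_insert_of_notMem he]
    push_cast at h1 h3 h4 ⊢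
    linarith

end FixedAux

open FixedAux in
theorem fixedStmt (hS : StageStmt) : FixedStmt := by
  intro l I Q t₀ D n v T0 T1 y is m K c x hl hv hT hK hiy hyy hm hmt hmI hDQ htQ hmy hKQ hvc
    hstep hsmall hlast hlast' hunit hvx hx1 hx0
  classical
  obtain ⟨t, ht0, ht1, hlo, hhi⟩ := firstT (fun t => c t (fun _ => false)) y l n T0 T1 K x hl hT hK
    (fun t h1 h2 => (hyy t h1 h2).2) hstep hx1 hx0
  set B : ℝ := K * n * (y t : ℝ) ^ (l - 3) with hB
  have hB0 : 0 ≤ B := by rw [hB]; positivity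
  obtain ⟨R, hR, hdR⟩ := bits v (fun R => c t (setg (fun _ => false) (l - 2) R)) x (l - 2) hv (by
      intro e he1 he2 R heR
      rw [setg_inr _ _ he2]
      exact (hunit t ht0 ht1 ⟨e, he2⟩ (setg (fun _ => false) (l - 2) R) (by simp [setg, heR]) he1).1)
    (dvd_sub hvx (hvc t _))
  have hcard : (R.card : ℝ) ≤ (l - 2 : ℕ) := by
    have := Finset.card_le_card hR
    rw [Nat.card_Ico] at this
    exact_mod_cast (by omega : R.card ≤ l - 2)
  have hdiff := card_bound (l - 2) v (c t) B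
    (fun e τ h1 h2 => (hunit t ht0 ht1 e τ h1 h2).2) (fun _ => false) R hR
  have hdiff' : ((|c t (setg (fun _ => false) (l - 2) R) - c t (fun _ => false)| : ℤ) : ℝ) ≤
      (l - 2 : ℕ) * B := by
    rw [FixedAux.setg_zero] at hdiff
    exact hdiff.trans (mul_le_mul_of_nonneg_right hcard hB0)
  push_cast at hdiff'
  obtain ⟨hd1, hd2⟩ := abs_le.1 hdiff'
  have hxle : x ≤ c t (setg (fun _ => false) (l - 2) R) := by
    have : (x : ℝ) ≤ ((c t (setg (fun _ => false) (l - 2) R) : ℤ) : ℝ) := by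
      linarith
    exact_mod_cast this
  have hup : ((c t (setg (fun _ => false) (l - 2) R) - x : ℤ) : ℝ) ≤
      Q * (m 0 : ℝ) ^ 2 * (y t : ℝ) ^ (l - 3) := by
    have h1 : ((l - 2 : ℕ) : ℝ) ≤ l := by exact_mod_cast Nat.sub_le _ _
    have h2 : (2 : ℝ) ^ (l - 3) * l + (l - 2 : ℕ) ≤ 2 ^ l * l := by
      have h3 : (2 : ℝ) ^ l = 8 * 2 ^ (l - 3) := by
        conv_lhs => rw [show l = (l - 3) + 3 by omega, pow_add]
        ring
      have h4 : (1 : ℝ) ≤ 2 ^ (l - 3) := one_le_pow₀ (by norm_num)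
      have h5 : (0 : ℝ) ≤ l := by positivity
      rw [h3]
      nlinarith
    have h3 : (2 ^ (l - 3) * (l : ℝ) + (l - 2 : ℕ)) * B ≤ 2 ^ l * l * B :=
      mul_le_mul_of_nonneg_right h2 hB0
    have h4 : 2 ^ l * (l : ℝ) * B ≤ Q * (m 0 : ℝ) ^ 2 * (y t : ℝ) ^ (l - 3) := by
      rw [hB]
      have := mul_le_mul_of_nonneg_right hKQ (by positivity : (0 : ℝ) ≤ (y t : ℝ) ^ (l - 3))
      linarith [this, (by ring : 2 ^ l * (l : ℝ) * (K * n * (y t : ℝ) ^ (l - 3)) =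
        2 ^ l * l * K * n * (y t : ℝ) ^ (l - 3))]
    push_cast
    linarith
  obtain ⟨τ, hτ⟩ := hS l I Q (is t) (y t) t₀ m D (fun τ => c t (setg τ (l - 2) R)) x hl
    (hiy t ht0 ht1).1 (hiy t ht0 ht1).2 hm hmt hmI hDQ htQ (hmy t ht0 ht1)
    (by
      intro p τ hp h1 h2
      rw [setg_inl]
      exact hsmall t ht0 ht1 p (setg τ (l - 2) R) hp h1 h2)
    (by
      intro p τ hp h1 h2
      rw [setg_inl]
      exact hlast t ht0 ht1 p (setg τ (l - 2) R) hp h1 h2)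
    (by
      intro p τ hp h1 h2
      rw [setg_inl]
      exact hlast' t ht0 ht1 p (setg τ (l - 2) R) hp h1 h2)
    hdR hxle hup
  exact ⟨t, _, hτ⟩

end Full

end MP_90430c
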