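import Pool.Agent.Lib.MP_90430c_co.Full.Stmts

/-! Module Ident of project TF. -/

open Finset

set_option linter.unusedSectionVars false

namespace MP_90430c

namespace Full

namespace IdentAux

variable {V : Type} [Fintype V] [DecidableEq V] {lab : V → ℕ × Bool} {s a b : ℕ}

/-- The swap of the two strands below level `j`, which fixes all other vertices. -/
lemma exists_perm (G : Gadget lab s a b) {j : ℕ} (hj : j ≤ s) :
    ∃ π : Equiv.Perm V, ∀ x, lab (π x) = fl j (lab x) ∧
      (¬ (2 ≤ (lab x).1 ∧ (lab x).1 < j) → π x = x) := by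
  have key : ∀ x, ∃ y, lab y = fl j (lab x)
      ∧ (¬ (2 ≤ (lab x).1 ∧ (lab x).1 < j) → y = x) := by
    intro x
    unfold fl
    split_ifs with h
    · obtain ⟨y, hy, _⟩ := G.mid (lab x).1 h.1 (by omega) (!(lab x).2)
      exact ⟨y, hy, fun h1 => absurd h h1⟩
    · exact ⟨x, rfl, fun _ => rfl⟩
  choose θ h1 h3 using key
  have hinv : ∀ x, θ (θ x) = x := by
    intro x
    by_cases h : 2 ≤ (lab x).1 ∧ (lab x).1 < j
    · have e1 := h1 x
      unfold fl at e1
      rw [if_pos h] at e1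
      have e2 := h1 (θ x)
      unfold fl at e2
      rw [e1] at e2
      simp only [h, and_self, if_true, Bool.not_not] at e2
      obtain ⟨y, _, hy⟩ := G.mid (lab x).1 h.1 (by omega) ((lab x).2)
      rw [hy _ e2, hy x rfl]
    · have e1 := h3 x h
      rw [e1, e1]
  exact ⟨⟨θ, θ, hinv, hinv⟩, fun x => ⟨h1 x, h3 x⟩⟩

end IdentAux

theorem identStmt : IdentStmt := by
  intro V _ _ l s a b _ lab σ₀ G hσ hT
  apply levels_identity
  intro j hj
  rw [Finset.mem_Icc] at hj
  obtain ⟨π, hπ⟩ := IdentAux.exists_perm G hj.2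
  refine ⟨π, fun x y => ?_, fun j' hj' hne x y => ?_⟩
  · have hfl : ∀ x, (lab (π x)).1 = (lab x).1 := by
      intro x; rw [(hπ x).1]; unfold fl; split_ifs <;> rfl
    have hone : ∀ x y, σ₀ (π x) y = σ₀ x y := by
      intro x y
      by_cases hx : 2 ≤ (lab x).1 ∧ (lab x).1 < j
      · exact hT (π x) x y (hfl x) (by rw [hfl]; exact hx.1) (by rw [hfl]; omega)
      · rw [(hπ x).2 hx]
    rw [hone x (π y), hσ.symm x (π y), hone y x, hσ.symm y x]
  · rw [Finset.mem_Icc] at hj'
    unfold gX gY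
    rw [(hπ x).1, (hπ y).1]
    exact if_congr (or_congr (upX_fl hj.1 hj'.1 hne _ _ (G.noA x) (G.noA y))
      (upX_fl hj.1 hj'.1 hne _ _ (G.noA y) (G.noA x))) rfl rfl

end Full

end MP_90430c
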