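import Pool.Agent.Lib.MP_90430c_co.Full.SysA

/-!
# The parameters

The conditions on the parameters, the error terms, and the statements of the last modules.
-/

open Finset

namespace MP_90430c

namespace Full

/-- The constant for one step and for a unit gadget. -/
noncomputable def KS (l : ℕ) (C : ℝ) : ℝ := (DD l : ℝ) ^ 2 * 2 ^ (l ^ 2) * (2 * C) ^ (l - 3)

/-- The bound for the norm of the old part. -/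
noncomputable def LL (l n : ℕ) : ℝ := 2 ^ (l ^ 2) * (n : ℝ) ^ ((1 : ℝ) / 2 + 1 / l) + 1

/-- The size of the initial all positive set. -/
def y0 (l : ℕ) (μ : ℕ → ℕ) : ℕ := (2 * μ 0 + 1) * DD l

/-- Bound for the number of new vertices. -/
def rr (l I Q m : ℕ) : ℕ := m * DD l + R2 l I Q + 2 * l ^ 2

/-- The conditions on the parameters. -/
structure Par (l n I Q t₀ m k : ℕ) (μ : ℕ → ℕ) (C : ℝ) : Prop where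
  C1 : 1 ≤ C
  mu1 : ∀ i, 1 ≤ μ i
  mua : ∀ i j, i ≤ j → μ j ≤ μ i
  muI : μ I = 1
  mur : ∀ i < I, μ i ≤ t₀ * μ (i + 1)
  m0m : 2 * μ 0 + 1 ≤ m
  n1 : rr l I Q m + l ≤ n
  n2 : 2 * rr l I Q m ≤ n
  k1 : n ≤ 2 ^ k
  k2 : 2 ^ k ≤ 2 * n
  q1 : DD l ^ 2 ≤ Q
  q2 : 4 * t₀ ^ 2 ≤ Q
  sz : ∀ c, 2 * μ 0 + 1 ≤ c → c ≤ m → ∃ i ≤ I,
    8 * (DD l : ℝ) ^ 2 * cE l C ^ 2 * n ≤ (c * DD l) * (DD l * μ i) ∧
    4 * (DD l * μ i) ^ 2 * (c * DD l) ≤ Q * (DD l * μ 0) ^ 2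
  kn : 2 ^ l * l * KS l C * n ≤ Q * ((DD l : ℝ) * μ 0) ^ 2
  lg : LL l n + GG l I Q (2 * μ 0 + 1) k n ≤ (C - 1) * y0 l μ
  gy : cE l C * GG l I Q (2 * μ 0 + 1) k n ≤ y0 l μ
  r2 : 16 * cE l C ^ 2 * R2 l I Q ≤ y0 l μ
  r1 : 16 * cE l C ^ 2 * R1 l ≤ y0 l μ
  y1 : 2 * DD l ^ 2 ≤ y0 l μ
  y2 : 8 * l ^ 2 ≤ y0 l μ
  y3 : n ≤ y0 l μ ^ 2

/-- The error at the upper end, times `4 l`. -/
noncomputable def Err (l n I Q m k : ℕ) (μ : ℕ → ℕ) (C : ℝ) : ℝ :=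
  2 * l * rr l I Q m * (2 ^ (l ^ 3) * (n : ℝ) ^ (l / 2)) + (y0 l μ : ℝ) ^ l +
    2 ^ (l ^ 2) * 3 ^ l * ((y0 l μ : ℝ) ^ (l - 1) * GG l I Q (2 * μ 0 + 1) k n +
      rr l I Q m * GG l I Q (2 * μ 0 + 1) k n ^ l) +
    4 * l * (2 ^ l * l * KS l C * n * (y0 l μ : ℝ) ^ (l - 3))

/-- The distance of the lower end of the range from half the total, times `4 l`. -/
noncomputable def Low (l n I Q m k : ℕ) (μ : ℕ → ℕ) : ℝ :=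
  ((m * DD l).descFactorial l : ℝ) - 2 ^ (l ^ 2) * 2 ^ l * (GG l I Q (2 * μ 0 + 1) k n *
    (m * DD l + LL l n + GG l I Q (2 * μ 0 + 1) k n) ^ (l - 1)) -
    2 ^ (l ^ 3) * (n : ℝ) ^ (l / 2 + 1)

/-- The result for fixed `n`. -/
def SysStmt : Prop :=
  ∀ (l n I Q t₀ m k : ℕ) [NeZero l] (μ : ℕ → ℕ) (C : ℝ), Even l → 4 ≤ l →
    Par l n I Q t₀ m k μ C → ∀ σs : Fin n → Fin n → ℤ, IsSig σs → Z l σs ≤ 0 →
    ∀ x : ℕ, gg n l ∣ x → (n.descFactorial l : ℝ) - Low l n I Q m k μ ≤ 4 * l * x →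
      4 * l * (x : ℝ) + Err l n I Q m k μ C ≤ 4 * l * ((cc l σs : ℤ) : ℝ) → x ∈ SS n l

/-! ## The choice of the parameters: `n = rho ^ (8 l²)` -/

/-- The base. -/
noncomputable def rho (l n : ℕ) : ℝ := (n : ℝ) ^ (1 / (8 * (l : ℝ) ^ 2))

/-- The parameter `μ 0`. -/
noncomputable def pm0 (l n : ℕ) : ℕ := ⌈rho l n ^ (4 * l ^ 2 + 8 * l - 1)⌉₊

/-- The parameter `t₀`. -/
noncomputable def pt (l n : ℕ) : ℕ := ⌈rho l n ^ (2 * l)⌉₊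

/-- The parameter `μ`. -/
noncomputable def pmu (l n : ℕ) (i : ℕ) : ℕ := ⌈(pm0 l n : ℝ) / (pt l n : ℝ) ^ i⌉₊

/-- The parameter `m`. -/
noncomputable def pm (l n : ℕ) : ℕ := ⌈rho l n ^ (8 * l ^ 2 - 1)⌉₊

/-- The parameter `Q`. -/
noncomputable def pQ (l n : ℕ) : ℕ := ⌈rho l n ^ (4 * l ^ 2 - 8 * l)⌉₊

/-- The parameter `C`. -/
noncomputable def pC (l n : ℕ) : ℝ := 2 ^ (l ^ 2 + 1) * rho l n

/-- Module AsymA. The conditions hold for large `n`. -/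
def AsymAStmt : Prop :=
  ∀ l : ℕ, Even l → 4 ≤ l → ∃ n₀ : ℕ, ∀ n ≥ n₀,
    Par l n (4 * l) (pQ l n) (pt l n) (pm l n) (Nat.clog 2 n) (pmu l n) (pC l n)

/-- Module AsymB. The error at the upper end. -/
def AsymBStmt : Prop :=
  ∀ l : ℕ, Even l → 4 ≤ l → ∃ (K : ℝ) (n₀ : ℕ), ∀ n ≥ n₀,
    Err l n (4 * l) (pQ l n) (pm l n) (Nat.clog 2 n) (pmu l n) (pC l n) ≤
      K * (n : ℝ) ^ ((l : ℝ) / 2 + 1 - 1 / (8 * (l : ℝ) ^ 2))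

/-- Module AsymC. The lower end. -/
def AsymCStmt : Prop :=
  ∀ l : ℕ, Even l → 4 ≤ l → ∀ A : ℝ, ∃ n₀ : ℕ, ∀ n ≥ n₀,
    A * (n : ℝ) ^ ((l : ℝ) - 1 / (4 * l)) ≤
      Low l n (4 * l) (pQ l n) (pm l n) (Nat.clog 2 n) (pmu l n)

end Full

end MP_90430c
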