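import Pool.Agent.Lib.MP_90430c_co.Full.Api

/-!
# The configuration at one stage
-/

open Finset

set_option linter.unusedSectionVars false
set_option synthInstance.maxSize 4096

namespace MP_90430c

namespace Full

/-- The number of twins in a block. -/
def DD (l : ℕ) : ℕ := l * 2 ^ l

/-- Bound for the number of middle vertices. -/
def R2 (l I Q : ℕ) : ℕ := 2 * l ^ 2 * (I + 2) * Q

/-- Bound for the number of exceptional vertices. -/
def R1 (l : ℕ) : ℕ := DD l + 2 * l ^ 2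

/-- Bound for the norm of everything except the old and the all positive part. -/
noncomputable def GG (l I Q m₀ k n : ℕ) : ℝ :=
  14 * (DD l * √(2 ^ k)) + 2 * DD l + 2 * √(R2 l I Q * ((m₀ * DD l : ℕ) : ℝ)) + R2 l I Q +
    2 * √(R1 l * n)

lemma two_le_DD {l : ℕ} (hl : 4 ≤ l) : 2 ≤ DD l := by
  unfold DD
  have : 1 ≤ 2 ^ l := Nat.one_le_two_pow
  nlinarith

lemma sum_je {l : ℕ} {j : ℕ → ℕ} (hj : ∀ e < l - 2, j e ≤ l - 2) :
    ∑ e : Fin (l - 2), 2 * (j e + 1) ≤ 2 * l ^ 2 := by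
  calc ∑ e : Fin (l - 2), 2 * (j e + 1) ≤ ∑ _e : Fin (l - 2), 2 * l :=
        Finset.sum_le_sum fun e _ => by
          have h1 := e.2
          have := hj e e.2
          omega
    _ = (l - 2) * (2 * l) := by simp
    _ ≤ l * (2 * l) := Nat.mul_le_mul_right _ (Nat.sub_le _ _)
    _ = _ := by ring

lemma isSig_ch' {k : ℕ} {X : Type} (ι : X → (Fin k → Bool)) :
    IsSig (fun a b : X => BalAux.ch (ι a) (ι b)) :=
  ⟨fun _ _ => BalAux.ch_symm _ _, fun _ _ => BalAux.ch_val _ _⟩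

lemma GG_nonneg (l I Q m₀ k n : ℕ) : 0 ≤ GG l I Q m₀ k n := by
  unfold GG
  positivity

section facts

variable {l I Q w m k : ℕ} {j μ : ℕ → ℕ} {σW : Fin w → Fin w → ℤ}
  {ι : IX l I Q w m → (Fin k → Bool)} {m₀ t : ℕ} {L : ℝ}

/-- The signature at time `t` with the gadgets in `Λ`. -/
def sig (μ : ℕ → ℕ) (j : ℕ → ℕ) (σW : Fin w → Fin w → ℤ) (ι : IX l I Q w m → (Fin k → Bool))
    (m₀ t : ℕ) (Λ : Finset (St l I Q)) (τ : St l I Q → Bool) :
    CV l I Q w m (DD l) j → CV l I Q w m (DD l) j → ℤ :=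
  sC' μ σW (fun a b => BalAux.ch (ι a) (ι b)) m₀ t Λ τ

/-- The all positive set at time `t`. -/
def YY (l I Q w m : ℕ) (j : ℕ → ℕ) (t : ℕ) : Finset (CV l I Q w m (DD l) j) := kd (clC t) 0

/-- The facts about one stage. -/
structure Facts (μ : ℕ → ℕ) (j : ℕ → ℕ) (σW : Fin w → Fin w → ℤ)
    (ι : IX l I Q w m → (Fin k → Bool)) (m₀ t : ℕ) (L : ℝ) (Λ : Finset (St l I Q))
    (τ : St l I Q → Bool) : Prop where
  sg : IsSig (sig μ j σW ι m₀ t Λ τ)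
  cY : (YY l I Q w m j t).card = t / m * DD l
  pos : ∀ x ∈ YY l I Q w m j t, ∀ y ∈ YY l I Q w m j t, sig μ j σW ι m₀ t Λ τ x y = 1
  b1 : Bd (fun x y => if (x ∈ YY l I Q w m j t ∧ y ∈ YY l I Q w m j t) ∨
      (x ∈ kd (clC t) 2 ∧ y ∈ kd (clC t) 2) then 0 else (sig μ j σW ι m₀ t Λ τ x y : ℝ))
      (GG l I Q m₀ k (Fintype.card (CV l I Q w m (DD l) j)))
  b2 : Bd (rl (sig μ j σW ι m₀ t Λ τ)) (((t / m * DD l : ℕ) : ℝ) + L +
      GG l I Q m₀ k (Fintype.card (CV l I Q w m (DD l) j)))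
  e1 : ∀ B ⊆ (Y0C m₀ : Finset (CV l I Q w m (DD l) j)),
    Ex (sig μ j σW ι m₀ t Λ τ) (YY l I Q w m j t) B
      (√B.card * (DD l * √(2 ^ k)) + B.card * √(R2 l I Q) + B.card * √(R1 l))
  e2 : Ex (sig μ j σW ι m₀ t Λ τ) (YY l I Q w m j t) (YY l I Q w m j t)
      (GG l I Q m₀ k (Fintype.card (CV l I Q w m (DD l) j)) * √((t / m * DD l : ℕ) : ℝ))
  sub : (Y0C m₀ : Finset (CV l I Q w m (DD l) j)) ⊆ YY l I Q w m j t
  dis : Disjoint (kd (clC t : CV l I Q w m (DD l) j → ℕ) 2) (YY l I Q w m j t)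
  lft : ∀ x : CV l I Q w m (DD l) j, x ∈ kd (clC t) 2 ↔ x.isLeft = true
  lv : ∀ (i : S1 l I Q) (x : CV l I Q w m (DD l) j),
      ((lab1 μ i x).1 = 1 ∨ (lab1 μ i x).1 = (i.1 : ℕ) + 3 → x ∈ (Y0C m₀ : Finset _)) ∧
      (2 ≤ (lab1 μ i x).1 → (lab1 μ i x).1 < (i.1 : ℕ) + 3 → x ∉ YY l I Q w m j t)

theorem facts (hGeo : GeoStmt) (hA : ConfAStmt) (hB : ConfBStmt) (hC : ConfCStmt) (hl : 4 ≤ l)
    (hj : ∀ e < l - 2, j e ≤ l - 2) (h0 : 2 * μ 0 < m₀) (hm : m₀ ≤ m)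
    (hμ : ∀ i, 1 ≤ μ i ∧ μ i ≤ μ 0) (hσ : IsSig σW) (hι : Function.Injective ι)
    (ht0 : m₀ * m ≤ t) (ht1 : t ≤ m * m) (hL : Bd (rl σW) L) (Λ : Finset (St l I Q))
    (τ : St l I Q → Bool) : Facts μ j σW ι m₀ t L Λ τ := by
  have hD := two_le_DD hl
  obtain ⟨⟨H, E, hgeo⟩, c0, cY0, c3, c4, c2, hlab⟩ :=
    hC l I Q w m (DD l) j μ σW k ι m₀ t Λ τ L hl hD h0 hm hμ hσ hι ht0 ht1 hL
  obtain ⟨hs, -, -, -⟩ := hB l I Q w m (DD l) j μ σW (fun a b => BalAux.ch (ι a) (ι b)) m₀ t Λ τ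
    hl rfl h0 hm hμ hσ (isSig_ch' ι) ht0
  obtain ⟨g1, g2, g3⟩ := hGeo _ _ _ _ _ _ _ _ _ hgeo
  obtain ⟨-, -, hMP, -⟩ := hA.1 l I Q w m (DD l) j hl
  have hr2 : ((Fintype.card (MP l I Q × Bool) : ℕ) : ℝ) ≤ R2 l I Q := by
    exact_mod_cast hMP
  have hr1 : ((kd (clC t : CV l I Q w m (DD l) j → ℕ) 4).card : ℝ) ≤ R1 l := by
    have h1 := sum_je hj
    have : (kd (clC t : CV l I Q w m (DD l) j → ℕ) 4).card ≤ R1 l := by
      unfold R1
      omega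
    exact_mod_cast this
  have hG : G0 (clC t : CV l I Q w m (DD l) j → ℕ) (Y0C m₀) (DD l * √(2 ^ k)) (DD l) ≤
      GG l I Q m₀ k (Fintype.card (CV l I Q w m (DD l) j)) := by
    unfold G0 GG
    rw [c3, cY0]
    have h1 : √(((Fintype.card (MP l I Q × Bool) : ℕ) : ℝ) * ((m₀ * DD l : ℕ) : ℝ)) ≤
        √((R2 l I Q : ℝ) * ((m₀ * DD l : ℕ) : ℝ)) :=
      Real.sqrt_le_sqrt (mul_le_mul_of_nonneg_right hr2 (Nat.cast_nonneg _))
    have h2 : √(((kd (clC t : CV l I Q w m (DD l) j → ℕ) 4).card : ℝ) *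
        (Fintype.card (CV l I Q w m (DD l) j) : ℝ)) ≤
        √((R1 l : ℝ) * (Fintype.card (CV l I Q w m (DD l) j) : ℝ)) :=
      Real.sqrt_le_sqrt (mul_le_mul_of_nonneg_right hr1 (Nat.cast_nonneg _))
    linarith
  refine ⟨hs, c0, ?_, g1.mono hG, ?_, ?_, ?_, ?_, ?_, c2, hlab⟩
  · intro x hx y hy
    exact hgeo.yy x y (Finset.mem_filter.1 hx).2 (Finset.mem_filter.1 hy).2
  · rw [c0] at g2
    exact g2.mono (by linarith)
  · intro B hB'
    have h1 := g3 B hB'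
    intro ζ v hζ hζB hv
    refine (h1 ζ v hζ hζB hv).trans (mul_le_mul_of_nonneg_right ?_ (nrm_nonneg v))
    have e3 : √((kd (clC t : CV l I Q w m (DD l) j → ℕ) 3).card : ℝ) ≤ √(R2 l I Q : ℝ) := by
      rw [c3]; exact Real.sqrt_le_sqrt hr2
    have e4 := Real.sqrt_le_sqrt hr1
    have hb : (0 : ℝ) ≤ B.card := Nat.cast_nonneg _
    have h2 := mul_le_mul_of_nonneg_left e3 hb
    have h3 := mul_le_mul_of_nonneg_left e4 hb
    linarith
  · intro ζ v hζ hζY hv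
    have h1 := (g1.mono hG).2 ζ v
    have e : ∑ x, ∑ y, ζ x * ((sig μ j σW ι m₀ t Λ τ x y : ℤ) : ℝ) * v y =
        ∑ x, ∑ y, ζ x * (if (x ∈ kd (clC t : CV l I Q w m (DD l) j → ℕ) 0 ∧
          y ∈ kd (clC t : CV l I Q w m (DD l) j → ℕ) 0) ∨
          (x ∈ kd (clC t : CV l I Q w m (DD l) j → ℕ) 2 ∧
          y ∈ kd (clC t : CV l I Q w m (DD l) j → ℕ) 2) then 0
          else ((sC' μ σW (fun a b => BalAux.ch (ι a) (ι b)) m₀ t Λ τ x y : ℤ) : ℝ)) * v y := by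
      refine Finset.sum_congr rfl fun x _ => Finset.sum_congr rfl fun y _ => ?_
      by_cases hx : x ∈ YY l I Q w m j t
      · by_cases hy : y ∈ YY l I Q w m j t
        · rw [hv y hy]; ring
        · rw [if_neg]
          · rfl
          · rintro (h | h)
            · exact hy h.2
            · have h2 := (Finset.mem_filter.1 hx).2
              have h3 := (Finset.mem_filter.1 h.1).2
              rw [h2] at h3
              omega
      · rw [hζY x hx]; ring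
    rw [e]
    refine h1.trans (mul_le_mul_of_nonneg_right (mul_le_mul_of_nonneg_left ?_
      (GG_nonneg _ _ _ _ _ _)) (nrm_nonneg v))
    have h4 := nrm_le_card hζ hζY
    rw [← c0]
    exact h4
  · intro x hx
    exact Finset.mem_filter.2 ⟨Finset.mem_univ _, hgeo.y0 x hx⟩
  · rw [Finset.disjoint_left]
    intro x hx hy
    have h1 := (Finset.mem_filter.1 hx).2
    have h2 := (Finset.mem_filter.1 hy).2
    rw [h1] at h2
    omega

end facts

end Full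

end MP_90430c
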