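import Pool.Agent.Lib.MP_90430c_co.Full.Par

/-!
# Toggling in the configuration
-/

open Finset

set_option linter.unusedSectionVars false
set_option synthInstance.maxSize 4096

namespace MP_90430c

namespace Full

lemma Ex.mono {V : Type} [Fintype V] [DecidableEq V] {σ : V → V → ℤ} {Y B : Finset V} {c c' : ℝ}
    (h : Ex σ Y B c) (hc : c ≤ c') : Ex σ Y B c' :=
  fun ζ w h1 h2 h3 => (h ζ w h1 h2 h3).trans (mul_le_mul_of_nonneg_right hc (nrm_nonneg w))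

lemma one_le_DD {l : ℕ} (hl : 4 ≤ l) : 1 ≤ DD l := (two_le_DD hl).trans' (by norm_num)

lemma cE_ge {l : ℕ} {C : ℝ} (hC : 1 ≤ C) : 1 ≤ cE l C := by
  unfold cE
  have h1 : (1 : ℝ) ≤ 2 ^ (l ^ 2) := one_le_pow₀ (by norm_num)
  have h2 : (1 : ℝ) ≤ (2 * l + 3) ^ l := one_le_pow₀ (by
    have : (0 : ℝ) ≤ l := Nat.cast_nonneg _
    linarith)
  have h3 : (1 : ℝ) ≤ C ^ l := one_le_pow₀ hC
  have h4 : (1 : ℝ) ≤ 8 * 2 ^ (l ^ 2) := by linarith
  exact one_le_mul_of_one_le_of_one_le (one_le_mul_of_one_le_of_one_le h4 h2) h3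

lemma sqrt_help {a x y : ℝ} (ha : 0 ≤ a) (h : a ^ 2 * x ≤ y) : a * √x ≤ √y := by
  rw [← Real.sqrt_sq ha, ← Real.sqrt_mul (sq_nonneg a)]
  exact Real.sqrt_le_sqrt h

/-- The bound for the first and the last level of a gadget. -/
lemma ex_bound {b y D K N R S c : ℝ} (hb : 0 ≤ b) (hD : 0 ≤ D) (hc : 1 ≤ c) (hK : K ≤ 2 * N)
    (h1 : 8 * D ^ 2 * c ^ 2 * N ≤ y * b) (h2 : 16 * c ^ 2 * R ≤ y)
    (h3 : 16 * c ^ 2 * S ≤ y) :
    √b * (D * √K) + b * √R + b * √S ≤ 1 / c * b * √y := by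
  have hc0 : 0 < c := by linarith
  have e1 : (2 * c * D) * √(b * K) ≤ b * √y := by
    have h4 : (2 * c * D) ^ 2 * (b * K) ≤ b ^ 2 * y := by
      have h5 : 4 * c ^ 2 * D ^ 2 * K ≤ y * b := by
        refine le_trans ?_ h1
        have : 4 * c ^ 2 * D ^ 2 * K ≤ 4 * c ^ 2 * D ^ 2 * (2 * N) :=
          mul_le_mul_of_nonneg_left hK (by positivity)
        linarith
      calc (2 * c * D) ^ 2 * (b * K) = b * (4 * c ^ 2 * D ^ 2 * K) := by ring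
        _ ≤ b * (y * b) := mul_le_mul_of_nonneg_left h5 hb
        _ = _ := by ring
    have h5 := sqrt_help (by positivity) h4
    rwa [Real.sqrt_mul (sq_nonneg b), Real.sqrt_sq hb] at h5
  have e2 : (4 * c) * √R ≤ √y := sqrt_help (by positivity) (by linarith)
  have e3 : (4 * c) * √S ≤ √y := sqrt_help (by positivity) (by linarith)
  have e4 : √b * (D * √K) * (2 * c) ≤ b * √y := by
    rw [Real.sqrt_mul hb] at e1
    linarith
  have e5 := mul_le_mul_of_nonneg_left e2 hb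
  have e6 := mul_le_mul_of_nonneg_left e3 hb
  rw [show 1 / c * b * √y = b * √y / c by ring, le_div_iff₀ hc0]
  linarith

section sys

variable {l n I Q t₀ w m k : ℕ} [NeZero l] {j μ : ℕ → ℕ} {C : ℝ} {σW : Fin w → Fin w → ℤ}
  {ι : IX l I Q w m → (Fin k → Bool)} {t : ℕ}

/-- The number of negative circles at time `t`. -/
def cS (μ j : ℕ → ℕ) (σW : Fin w → Fin w → ℤ) (ι : IX l I Q w m → (Fin k → Bool)) (t : ℕ)
    (τ : St l I Q → Bool) : ℤ :=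
  cc l (sig μ j σW ι (2 * μ 0 + 1) t univ τ)

lemma tog (hA : ConfAStmt) {i : St l I Q} {τ : St l I Q → Bool} (hi : τ i = false) :
    cS μ j σW ι t (Function.update τ i true) - cS μ j σW ι t τ =
      cc l (sigY (sig μ j σW ι (2 * μ 0 + 1) t (univ.erase i) τ) (labC μ i) (sC j i)) -
      cc l (sigX (sig μ j σW ι (2 * μ 0 + 1) t (univ.erase i) τ) (labC μ i) (sC j i)) := by
  obtain ⟨h1, h2, h3⟩ := hA.2.2 (CV l I Q w m (DD l) j) (St l I Q)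
    (base σW (fun a b => BalAux.ch (ι a) (ι b)) (2 * μ 0 + 1) t) (labC μ) (sC j) univ τ i
    (Finset.mem_univ _)
  unfold cS sig sC'
  rw [h3, h2 hi]

lemma Par.mu (P : Par l n I Q t₀ m k μ C) (i : ℕ) : 1 ≤ μ i ∧ μ i ≤ μ 0 :=
  ⟨P.mu1 i, P.mua 0 i (Nat.zero_le _)⟩

lemma Par.m_pos (P : Par l n I Q t₀ m k μ C) : 0 < m := by
  have := P.m0m
  omega

lemma Par.y_ge (P : Par l n I Q t₀ m k μ C) (ht : (2 * μ 0 + 1) * m ≤ t) :
    y0 l μ ≤ t / m * DD l := by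
  unfold y0
  exact Nat.mul_le_mul_right _ ((Nat.le_div_iff_mul_le P.m_pos).2 ht)

lemma Par.lam (P : Par l n I Q t₀ m k μ C) (ht : (2 * μ 0 + 1) * m ≤ t) :
    ((t / m * DD l : ℕ) : ℝ) + LL l n + GG l I Q (2 * μ 0 + 1) k n ≤
      C * ((t / m * DD l : ℕ) : ℝ) := by
  have h1 : (y0 l μ : ℝ) ≤ ((t / m * DD l : ℕ) : ℝ) := by exact_mod_cast P.y_ge ht
  have h2 := mul_le_mul_of_nonneg_left h1 (by have := P.C1; linarith : 0 ≤ C - 1)
  have h3 := P.lg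
  linarith

lemma tog_size (hE : EffStmt) (hA : ConfAStmt) (hB : ConfBStmt) (hl : 4 ≤ l)
    (P : Par l n I Q t₀ m k μ C) (hcard : Fintype.card (CV l I Q w m (DD l) j) = n)
    (hσ : IsSig σW) (F : ∀ Λ τ, Facts μ j σW ι (2 * μ 0 + 1) t (LL l n) Λ τ)
    (ht : (2 * μ 0 + 1) * m ≤ t) (p : S1 l I Q) (τ : St l I Q → Bool) (hp : τ (Sum.inl p) = false)
    (hpl : (p.1 : ℕ) + 3 < l) (hpI : (p.2.1 : ℕ) ≤ I)
    (hb : 8 * (DD l : ℝ) ^ 2 * cE l C ^ 2 * n ≤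
      ((t / m * DD l : ℕ) : ℝ) * (DD l * μ p.2.1 : ℕ)) :
    1 / 2 * (2 ^ ((p.1 : ℕ) + 1) * ((DD l * μ p.2.1 : ℕ) : ℝ) ^ 2 *
        ((t / m * DD l : ℕ) : ℝ) ^ (l - ((p.1 : ℕ) + 3))) ≤
      (((-1) ^ ((p.1 : ℕ) + 3) * (cS μ j σW ι t (Function.update τ (Sum.inl p) true) -
        cS μ j σW ι t τ) : ℤ) : ℝ) ∧
    (((-1) ^ ((p.1 : ℕ) + 3) * (cS μ j σW ι t (Function.update τ (Sum.inl p) true) -
        cS μ j σW ι t τ) : ℤ) : ℝ) ≤
      2 * (2 ^ ((p.1 : ℕ) + 1) * ((DD l * μ p.2.1 : ℕ) : ℝ) ^ 2 *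
        ((t / m * DD l : ℕ) : ℝ) ^ (l - ((p.1 : ℕ) + 3))) := by
  have hC := P.C1
  have hc := cE_ge (l := l) hC
  have hD := two_le_DD hl
  have hyge := P.y_ge ht
  have hyr : (y0 l μ : ℝ) ≤ ((t / m * DD l : ℕ) : ℝ) := by exact_mod_cast hyge
  have hlam := P.lam ht
  set y : ℕ := t / m * DD l with hy
  set b : ℕ := DD l * μ p.2.1 with hbd
  have hb1 : (1 : ℝ) ≤ b := by
    have : 1 ≤ b := Nat.mul_pos (by omega) (P.mu1 _)
    exact_mod_cast this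
  have hD1 : (1 : ℝ) ≤ DD l := by exact_mod_cast (by omega : 1 ≤ DD l)
  have f := F (univ.erase (Sum.inl p)) τ
  obtain ⟨hs, hB1, -, -⟩ := hB l I Q w m (DD l) j μ σW (fun a b => BalAux.ch (ι a) (ι b))
    (2 * μ 0 + 1) t (univ.erase (Sum.inl p)) τ hl rfl (by omega) P.m0m P.mu hσ (isSig_ch' ι) ht
  obtain ⟨hTw, hPs, -, -⟩ := hB1 p (Finset.notMem_erase _ _)
  have G := hA.2.1 l I Q w m (DD l) j μ hl hD (by have := P.m0m; omega) P.mu (Sum.inl p)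
  have ebC : bC (DD l) μ (Sum.inl p : St l I Q) = b := by
    simp only [bC]
    rw [if_pos hpI]
  rw [ebC] at G
  have hln : l ≤ n := by have := P.n1; omega
  have c1 := G.card_CC_one
  have c2 := G.card_CC_top
  have hpos := f.pos
  have hbr : ∀ B : Finset (CV l I Q w m (DD l) j), B.card = b →
      B ⊆ (Y0C (2 * μ 0 + 1) : Finset (CV l I Q w m (DD l) j)) →
      Ex (sig μ j σW ι (2 * μ 0 + 1) t (univ.erase (Sum.inl p)) τ) (YY l I Q w m j t) B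
        (1 / cE l C * b * √(YY l I Q w m j t).card) := by
    intro B hBc hBY
    refine (f.e1 B hBY).mono ?_
    rw [hBc, f.cY, ← hy]
    refine ex_bound (N := n) (by linarith) (by linarith) hc (by exact_mod_cast P.k2) hb ?_ ?_
    · exact P.r2.trans hyr
    · exact P.r1.trans hyr
  have key := hE (CV l I Q w m (DD l) j) l ((p.1 : ℕ) + 3) b (lab1 μ p)
    (sig μ j σW ι (2 * μ 0 + 1) t (univ.erase (Sum.inl p)) τ) (YY l I Q w m j t)
    (1 / cE l C) (C * y) C (by omega) hpl (by rw [hcard]; exact hln) G hs hTw hPs hpos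
    (fun x hx => f.sub ((f.lv p x).1 (Or.inl hx))) (fun x hx => f.sub ((f.lv p x).1 (Or.inr hx)))
    (fun x h1 h2 => (f.lv p x).2 h1 h2) (by positivity) (by rw [div_le_one (by linarith)]; exact hc)
    (hbr _ c1 fun x hx => (f.lv p x).1 (Or.inl (mem_CC.1 hx)))
    (hbr _ c2 fun x hx => (f.lv p x).1 (Or.inr (mem_CC.1 hx)))
    (f.e2.mono (by
      rw [f.cY, ← hy, hcard]
      refine mul_le_mul_of_nonneg_right ?_ (Real.sqrt_nonneg _)
      rw [one_div, ← div_eq_inv_mul, le_div_iff₀ (by linarith)]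
      have := P.gy
      linarith))
    (f.b2.mono (by rw [← hy, hcard]; exact hlam))
    (by
      rw [f.cY, ← hy]
      have : (0 : ℝ) ≤ y := Nat.cast_nonneg _
      nlinarith)
    hC (by rw [f.cY, ← hy])
    (by
      rw [hcard]
      have h1 : (n : ℝ) ≤ (y0 l μ : ℝ) ^ 2 := by exact_mod_cast P.y3
      have h2 : (0 : ℝ) ≤ y0 l μ := Nat.cast_nonneg _
      refine h1.trans (pow_le_pow_left₀ h2 ?_ 2)
      nlinarith)
    (by
      rw [f.cY, ← hy]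
      have : (8 * (l : ℝ) ^ 2) ≤ y0 l μ := by exact_mod_cast P.y2
      linarith)
    (by rw [one_div, inv_mul_cancel₀ (by linarith)])
    (by
      rw [f.cY, ← hy, hcard]
      refine le_trans ?_ hb
      have h1 : (1 : ℝ) ≤ 8 * (DD l : ℝ) ^ 2 := by nlinarith
      have h2 : (0 : ℝ) ≤ cE l C * n := by positivity
      have h3 : cE l C * n ≤ (8 * (DD l : ℝ) ^ 2) * (cE l C * n) := by nlinarith
      have h4 : (8 * (DD l : ℝ) ^ 2) * (cE l C * n) ≤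
          cE l C * ((8 * (DD l : ℝ) ^ 2) * (cE l C * n)) :=
        le_mul_of_one_le_left (by positivity) hc
      calc cE l C * n ≤ cE l C * ((8 * (DD l : ℝ) ^ 2) * (cE l C * n)) := h3.trans h4
        _ = _ := by ring)
  rw [f.cY, ← hy] at key
  have e := tog (l := l) (j := j) (σW := σW) (ι := ι) (t := t) (μ := μ) hA hp
  rw [e]
  exact key

lemma tog_dvd (hV : DvdStmt) (hA : ConfAStmt) (hB : ConfBStmt) (hl : 4 ≤ l)
    (P : Par l n I Q t₀ m k μ C) (hcard : Fintype.card (CV l I Q w m (DD l) j) = n)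
    (hσ : IsSig σW) (ht : (2 * μ 0 + 1) * m ≤ t) (p : S1 l I Q) (τ : St l I Q → Bool)
    (hp : τ (Sum.inl p) = false) (hpI : (p.2.1 : ℕ) ≤ I) :
    (2 ^ (l - 2) : ℤ) ∣ cS μ j σW ι t (Function.update τ (Sum.inl p) true) - cS μ j σW ι t τ := by
  have hD := two_le_DD hl
  obtain ⟨hs, hB1, -, -⟩ := hB l I Q w m (DD l) j μ σW (fun a b => BalAux.ch (ι a) (ι b))
    (2 * μ 0 + 1) t (univ.erase (Sum.inl p)) τ hl rfl (by omega) P.m0m P.mu hσ (isSig_ch' ι) ht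
  obtain ⟨hTw, -, -, hbl⟩ := hB1 p (Finset.notMem_erase _ _)
  obtain ⟨bl, hbl1, hbl2⟩ := hbl hpI
  have G := hA.2.1 l I Q w m (DD l) j μ hl hD (by have := P.m0m; omega) P.mu (Sum.inl p)
  have hln : l ≤ n := by have := P.n1; omega
  have e := tog (l := l) (j := j) (σW := σW) (ι := ι) (t := t) (μ := μ) hA hp
  rw [e]
  exact hV _ l ((p.1 : ℕ) + 3) _ _ (lab1 μ p) _ bl (by omega) (by rw [hcard]; exact hln) G hs hTw
    hbl1 hbl2

lemma tog_last (hL : LastStmt) (hA : ConfAStmt) (hB : ConfBStmt) (hl : 4 ≤ l)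
    (P : Par l n I Q t₀ m k μ C) (hcard : Fintype.card (CV l I Q w m (DD l) j) = n)
    (hσ : IsSig σW) (ht : (2 * μ 0 + 1) * m ≤ t) (p : S1 l I Q) (τ : St l I Q → Bool)
    (hp : τ (Sum.inl p) = false) (hpl : (p.1 : ℕ) + 3 = l) :
    (-1) ^ l * (cS μ j σW ι t (Function.update τ (Sum.inl p) true) - cS μ j σW ι t τ) =
      2 ^ (l - 2) * ((bC (DD l) μ (Sum.inl p : St l I Q) *
        bC (DD l) μ (Sum.inl p : St l I Q) : ℕ) : ℤ) := by
  have hD := two_le_DD hl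
  obtain ⟨hs, hB1, -, -⟩ := hB l I Q w m (DD l) j μ σW (fun a b => BalAux.ch (ι a) (ι b))
    (2 * μ 0 + 1) t (univ.erase (Sum.inl p)) τ hl rfl (by omega) P.m0m P.mu hσ (isSig_ch' ι) ht
  obtain ⟨hTw, hPs, hab, -⟩ := hB1 p (Finset.notMem_erase _ _)
  have G := hA.2.1 l I Q w m (DD l) j μ hl hD (by have := P.m0m; omega) P.mu (Sum.inl p)
  have hln : l ≤ n := by have := P.n1; omega
  have e := tog (l := l) (j := j) (σW := σW) (ι := ι) (t := t) (μ := μ) hA hp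
  rw [e]
  simp only [sC, labC] at G ⊢
  rw [hpl] at G hTw hPs hab ⊢
  exact hL _ l _ _ (lab1 μ p) _ (by omega) (by rw [hcard]; exact hln) G hs hTw hPs hab

lemma tog_bit (hA : ConfAStmt) (hB : ConfBStmt) (hl : 4 ≤ l)
    (P : Par l n I Q t₀ m k μ C) (hcard : Fintype.card (CV l I Q w m (DD l) j) = n)
    (hσ : IsSig σW) (ht : (2 * μ 0 + 1) * m ≤ t) (e : Fin (l - 2)) (τ : St l I Q → Bool)
    (he : τ (Sum.inr e) = false) {v : ℕ}
    (hj : v ≤ (e : ℕ) → j e < l - 2 ∧ (∀ j', j e + 1 ≤ j' → j' ≤ l - 2 →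
      (2 ^ ((e : ℕ) + 1) : ℤ) ∣ gen (n - 2) (l - 2) j') ∧
        ∃ z, gen (n - 2) (l - 2) (j e) = 2 ^ (e : ℕ) * (2 * z + 1)) (hve : v ≤ e) :
    ∃ z, cS μ j σW ι t (Function.update τ (Sum.inr e) true) - cS μ j σW ι t τ =
      2 ^ (e : ℕ) * (2 * z + 1) := by
  have hD := two_le_DD hl
  obtain ⟨hs, -, hB2, -⟩ := hB l I Q w m (DD l) j μ σW (fun a b => BalAux.ch (ι a) (ι b))
    (2 * μ 0 + 1) t (univ.erase (Sum.inr e)) τ hl rfl (by omega) P.m0m P.mu hσ (isSig_ch' ι) ht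
  have hpos := hB2 e (Finset.notMem_erase _ _)
  have G := hA.2.1 l I Q w m (DD l) j μ hl hD (by have := P.m0m; omega) P.mu (Sum.inr e)
  have hln : l ≤ n := by have := P.n1; omega
  have e1 := tog (l := l) (j := j) (σW := σW) (ι := ι) (t := t) (μ := μ) hA he
  rw [e1]
  obtain ⟨h1, h2, h3⟩ := hj hve
  exact toggle_bit (by omega) (by rw [hcard]; exact hln) h1 (by rw [hcard]; exact h2)
    (by rw [hcard]; exact h3) G hs hpos

lemma pow_bound {l : ℕ} {Λ x y C D : ℝ} (hΛ0 : 0 ≤ Λ) (hx : 0 ≤ x) (hΛ : Λ ≤ C * y)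
    (hy : 0 ≤ y) (hC : 1 ≤ C) (hxy : x ≤ D) (hD : D ≤ y) :
    (Λ + x) ^ (l - 3) ≤ (2 * C) ^ (l - 3) * y ^ (l - 3) := by
  rw [← mul_pow]
  refine pow_le_pow_left₀ (by linarith) ?_ _
  have : 1 * y ≤ C * y := mul_le_mul_of_nonneg_right hC hy
  linarith

lemma tog_unit (hU : UnitStmt) (hA : ConfAStmt) (hB : ConfBStmt) (hl : 4 ≤ l)
    (P : Par l n I Q t₀ m k μ C) (hcard : Fintype.card (CV l I Q w m (DD l) j) = n)
    (hσ : IsSig σW) (F : ∀ Λ τ, Facts μ j σW ι (2 * μ 0 + 1) t (LL l n) Λ τ)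
    (ht : (2 * μ 0 + 1) * m ≤ t) (e : Fin (l - 2)) (τ : St l I Q → Bool)
    (he : τ (Sum.inr e) = false) :
    ((|cS μ j σW ι t (Function.update τ (Sum.inr e) true) - cS μ j σW ι t τ| : ℤ) : ℝ) ≤
      KS l C * n * ((t / m * DD l : ℕ) : ℝ) ^ (l - 3) := by
  have hD := two_le_DD hl
  have hC := P.C1
  have hyge := P.y_ge ht
  have hyr : (y0 l μ : ℝ) ≤ ((t / m * DD l : ℕ) : ℝ) := by exact_mod_cast hyge
  have hlam := P.lam ht
  set y : ℕ := t / m * DD l with hy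
  have hD2 : (2 : ℝ) ≤ DD l := by exact_mod_cast hD
  have hDy : 2 * (DD l : ℝ) ^ 2 ≤ y0 l μ := by exact_mod_cast P.y1
  obtain ⟨hs, -, hB2, -⟩ := hB l I Q w m (DD l) j μ σW (fun a b => BalAux.ch (ι a) (ι b))
    (2 * μ 0 + 1) t (univ.erase (Sum.inr e)) τ hl rfl (by omega) P.m0m P.mu hσ (isSig_ch' ι) ht
  have G := hA.2.1 l I Q w m (DD l) j μ hl hD (by have := P.m0m; omega) P.mu (Sum.inr e)
  have hln : l ≤ n := by have := P.n1; omega
  have e1 := tog (l := l) (j := j) (σW := σW) (ι := ι) (t := t) (μ := μ) hA he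
  obtain ⟨-, e2, -⟩ := hA.2.2 (CV l I Q w m (DD l) j) (St l I Q)
    (base σW (fun a b => BalAux.ch (ι a) (ι b)) (2 * μ 0 + 1) t) (labC μ) (sC j) univ τ
    (Sum.inr e) (Finset.mem_univ _)
  have hb2 := (F univ τ).b2
  unfold sig sC' at hb2
  rw [e2 he, ← hy, hcard] at hb2
  have key := hU _ l _ _ _ _ (by omega) (by rw [hcard]; exact hln) G hs hb2
  rw [e1]
  refine key.trans ?_
  rw [hcard]
  have hy0 : (0 : ℝ) ≤ y := Nat.cast_nonneg _
  have h1 := pow_bound (l := l) (x := 4) (D := 2 * (DD l : ℝ) ^ 2) hb2.1 (by norm_num) hlam hy0 hC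
    (by nlinarith) (by linarith)
  have h2 : (2 : ℝ) ≤ (DD l : ℝ) ^ 2 := by nlinarith
  have h3 : (0 : ℝ) ≤ 2 ^ (l ^ 2) * n * ((2 * C) ^ (l - 3) * (y : ℝ) ^ (l - 3)) := by
    have : (0 : ℝ) ≤ 2 * C := by linarith
    positivity
  unfold KS
  calc 2 * (2 ^ (l ^ 2) * (n : ℝ) * ((y : ℝ) + LL l n + GG l I Q (2 * μ 0 + 1) k n + 4) ^ (l - 3))
      ≤ 2 * (2 ^ (l ^ 2) * (n : ℝ) * ((2 * C) ^ (l - 3) * (y : ℝ) ^ (l - 3))) := by
        refine mul_le_mul_of_nonneg_left (mul_le_mul_of_nonneg_left h1 (by positivity)) (by norm_num)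
    _ ≤ (DD l : ℝ) ^ 2 * (2 ^ (l ^ 2) * (n : ℝ) * ((2 * C) ^ (l - 3) * (y : ℝ) ^ (l - 3))) :=
        mul_le_mul_of_nonneg_right h2 h3
    _ = _ := by ring

lemma step_size (hS : StepStmt) (hB : ConfBStmt) (hl : 4 ≤ l)
    (P : Par l n I Q t₀ m k μ C) (hcard : Fintype.card (CV l I Q w m (DD l) j) = n)
    (hσ : IsSig σW) (F : ∀ Λ τ, Facts μ j σW ι (2 * μ 0 + 1) t (LL l n) Λ τ)
    (ht : (2 * μ 0 + 1) * m ≤ t) (τ : St l I Q → Bool) :
    ((|cS μ j σW ι (t + 1) τ - cS μ j σW ι t τ| : ℤ) : ℝ) ≤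
      KS l C * n * ((t / m * DD l : ℕ) : ℝ) ^ (l - 3) := by
  have hD := two_le_DD hl
  have hC := P.C1
  have hyge := P.y_ge ht
  have hyr : (y0 l μ : ℝ) ≤ ((t / m * DD l : ℕ) : ℝ) := by exact_mod_cast hyge
  have hlam := P.lam ht
  set y : ℕ := t / m * DD l with hy
  have hD2 : (2 : ℝ) ≤ DD l := by exact_mod_cast hD
  have hDy : 2 * (DD l : ℝ) ^ 2 ≤ y0 l μ := by exact_mod_cast P.y1
  obtain ⟨hs, -, -, PP, hP1, hP2⟩ := hB l I Q w m (DD l) j μ σW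
    (fun a b => BalAux.ch (ι a) (ι b)) (2 * μ 0 + 1) t univ τ hl rfl (by omega) P.m0m P.mu hσ
    (isSig_ch' ι) ht
  obtain ⟨hs', -⟩ := hB l I Q w m (DD l) j μ σW
    (fun a b => BalAux.ch (ι a) (ι b)) (2 * μ 0 + 1) (t + 1) univ τ hl rfl (by omega) P.m0m P.mu hσ
    (isSig_ch' ι) (by omega)
  have hln : l ≤ n := by have := P.n1; omega
  have hb2 := (F univ τ).b2
  rw [← hy, hcard] at hb2
  have key := hS _ l _ _ PP _ (by omega) (by rw [hcard]; exact hln) hs hs' hP2 hb2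
  unfold cS sig
  refine key.trans ?_
  rw [hcard]
  have hy0 : (0 : ℝ) ≤ y := Nat.cast_nonneg _
  have hPr : (PP.card : ℝ) ≤ (DD l : ℝ) ^ 2 := by exact_mod_cast hP1
  have h1 := pow_bound (l := l) (x := 2 * PP.card) (D := 2 * (DD l : ℝ) ^ 2) hb2.1 (by positivity)
    hlam hy0 hC (by linarith) (by linarith)
  have h3 : (0 : ℝ) ≤ 2 ^ (l ^ 2) * n * ((2 * C) ^ (l - 3) * (y : ℝ) ^ (l - 3)) := by
    have : (0 : ℝ) ≤ 2 * C := by linarith
    positivity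
  unfold KS
  calc (PP.card : ℝ) * (2 ^ (l ^ 2) * (n : ℝ) *
        ((y : ℝ) + LL l n + GG l I Q (2 * μ 0 + 1) k n + 2 * PP.card) ^ (l - 3))
      ≤ PP.card * (2 ^ (l ^ 2) * (n : ℝ) * ((2 * C) ^ (l - 3) * (y : ℝ) ^ (l - 3))) := by
        refine mul_le_mul_of_nonneg_left (mul_le_mul_of_nonneg_left h1 (by positivity))
          (by positivity)
    _ ≤ (DD l : ℝ) ^ 2 * (2 ^ (l ^ 2) * (n : ℝ) * ((2 * C) ^ (l - 3) * (y : ℝ) ^ (l - 3))) :=
        mul_le_mul_of_nonneg_right hPr h3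
    _ = _ := by ring

end sys

end Full

end MP_90430c
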