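import Pool.Agent.Lib.MP_90430c_co.Full.SysB

/-!
# The result for fixed `n`
-/

open Finset

set_option linter.unusedSectionVars false
set_option synthInstance.maxSize 4096

namespace MP_90430c

namespace Full

lemma gst_zero {V : Type} {lab : V → ℕ × Bool} {x y : V} (hx : (lab x).1 = 0)
    (hy : (lab y).1 = 0) (s : ℕ) (t : Bool) : gst lab s t x y = 1 := by
  have h1 : ∀ j, ¬ (upY j (lab x) (lab y) ∨ upY j (lab y) (lab x)) := by
    intro j h
    unfold upY at h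
    omega
  have h2 : ∀ j, ¬ (upX j (lab x) (lab y) ∨ upX j (lab y) (lab x)) := by
    intro j h
    unfold upX at h
    rcases h with h | h
    · rcases h with h | h
      · rw [h.2.1] at hx
        omega
      · exact h1 j (Or.inl h.2)
    · rcases h with h | h
      · rw [h.2.1] at hy
        omega
      · exact h1 j (Or.inr h.2)
  unfold gst
  split_ifs
  · refine Finset.prod_eq_one fun j _ => ?_
    unfold gY
    rw [if_neg (h1 j)]
  · refine Finset.prod_eq_one fun j _ => ?_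
    unfold gX
    rw [if_neg (h2 j)]

section sys

variable {l n I Q t₀ w m k : ℕ} [NeZero l] {j μ : ℕ → ℕ} {C : ℝ} {σW : Fin w → Fin w → ℤ}
  {ι : IX l I Q w m → (Fin k → Bool)} {t : ℕ}

lemma sig_inl {m₀ : ℕ} (Λ : Finset (St l I Q)) (τ : St l I Q → Bool) (x y : Fin w) :
    sig μ j σW ι m₀ t Λ τ (Sum.inl x) (Sum.inl y) = σW x y := by
  unfold sig sC' SG
  rw [Finset.prod_eq_one, mul_one]
  · rfl
  · intro i _
    apply gst_zero
    · rcases i with i | i <;> rfl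
    · rcases i with i | i <;> rfl

lemma sw_sig {m₀ : ℕ} (Λ : Finset (St l I Q)) (τ : St l I Q → Bool) (d : Fin w → ℤˣ) :
    sw σW (sig μ j σW ι m₀ t Λ τ) d =
      sig μ j (fun x y => σW x y * ((d x : ℤˣ) : ℤ) * ((d y : ℤˣ) : ℤ)) ι m₀ t Λ τ := by
  funext x y
  rcases x with x | x
  · rcases y with y | y
    · rw [sig_inl]
      rfl
    · rcases y with ⟨c, r⟩ | y
      · rfl
      · rcases y with ⟨p, r⟩ | y
        · rfl
        · rfl
  · rcases x with ⟨c, r⟩ | x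
    · rcases y with y | y
      · rfl
      · rcases y with ⟨c', r'⟩ | y
        · rfl
        · rcases y with ⟨p, r'⟩ | y
          · rfl
          · rfl
    · rcases x with ⟨p, r⟩ | x
      · rcases y with y | y
        · rfl
        · rcases y with ⟨c', r'⟩ | y
          · rfl
          · rcases y with ⟨p', r'⟩ | y
            · rfl
            · rfl
      · rcases y with y | y
        · rfl
        · rcases y with ⟨c', r'⟩ | y
          · rfl
          · rcases y with ⟨p', r'⟩ | y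
            · rfl
            · rfl

lemma isSig_sw {w : ℕ} {σ : Fin w → Fin w → ℤ} (hσ : IsSig σ) (d : Fin w → ℤˣ) :
    IsSig (fun x y => σ x y * ((d x : ℤˣ) : ℤ) * ((d y : ℤˣ) : ℤ)) := by
  refine ⟨fun x y => by rw [hσ.symm x y]; ring, fun x y => ?_⟩
  rcases hσ.val x y with h | h <;> rcases Int.units_eq_one_or (d x) with h1 | h1 <;>
    rcases Int.units_eq_one_or (d y) with h2 | h2 <;> rw [h, h1, h2] <;> simp

lemma bd_sw {w : ℕ} {σ : Fin w → Fin w → ℤ} {L : ℝ} (hL : Bd (rl σ) L) (d : Fin w → ℤˣ) :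
    Bd (rl (fun x y => σ x y * ((d x : ℤˣ) : ℤ) * ((d y : ℤˣ) : ℤ))) L :=
  (hL.scale (p := fun x => (((d x : ℤˣ) : ℤ) : ℝ)) (q := fun x => (((d x : ℤˣ) : ℤ) : ℝ))
    (fun _ => sgn_abs _) (fun _ => sgn_abs _)).congr fun x y => by
      unfold rl
      push_cast
      ring

lemma GG_ge (hl : 4 ≤ l) (m₀ : ℕ) : 1 ≤ GG l I Q m₀ k n := by
  have h1 : (2 : ℝ) ≤ DD l := by exact_mod_cast two_le_DD hl
  unfold GG
  have h2 : 0 ≤ 14 * ((DD l : ℝ) * √(2 ^ k)) := by positivity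
  have h3 : 0 ≤ 2 * √((R2 l I Q : ℝ) * ((m₀ * DD l : ℕ) : ℝ)) := by positivity
  have h4 : (0 : ℝ) ≤ R2 l I Q := Nat.cast_nonneg _
  have h5 : 0 ≤ 2 * √((R1 l : ℝ) * n) := by positivity
  linarith

lemma base_count (hSw : SwitchStmt) (hBase : BaseStmt) (hl : 4 ≤ l)
    (P : Par l n I Q t₀ m k μ C) (hcard : Fintype.card (CV l I Q w m (DD l) j) = n)
    (hnw : n ≤ w + rr l I Q m) (hσ : IsSig σW)
    (F : ∀ Λ τ, Facts μ j σW ι (2 * μ 0 + 1) ((2 * μ 0 + 1) * m) (LL l n) Λ τ) :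
    ∃ d : Fin w → ℤˣ,
      ((Z l (sig μ j (fun x y => σW x y * ((d x : ℤˣ) : ℤ) * ((d y : ℤˣ) : ℤ)) ι (2 * μ 0 + 1)
        ((2 * μ 0 + 1) * m) univ (fun _ => false)) : ℤ) : ℝ) ≤
      ((Z l σW : ℤ) : ℝ) + ((y0 l μ : ℝ) ^ l +
        2 ^ (l ^ 2) * 3 ^ l * ((y0 l μ : ℝ) ^ (l - 1) * GG l I Q (2 * μ 0 + 1) k n +
        rr l I Q m * GG l I Q (2 * μ 0 + 1) k n ^ l)) := by
  have f := F univ (fun _ => false)
  have hs := f.sg
  obtain ⟨d, hd⟩ := hSw (Fin w) _ l σW (sig μ j σW ι (2 * μ 0 + 1) ((2 * μ 0 + 1) * m) univ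
    (fun _ => false)) (by omega) hσ hs
  refine ⟨d, ?_⟩
  rw [sw_sig] at hd
  have ey : (2 * μ 0 + 1) * m / m * DD l = y0 l μ := by
    unfold y0
    rw [Nat.mul_div_cancel _ P.m_pos]
  have hgy := P.gy
  have hc := cE_ge (l := l) P.C1
  have hg1 := GG_ge (l := l) (I := I) (Q := Q) (k := k) (n := n) hl (2 * μ 0 + 1)
  have b1 := f.b1
  have cY := f.cY
  rw [hcard] at b1
  rw [ey] at cY
  have key := hBase _ l _ (kd (clC ((2 * μ 0 + 1) * m)) 2) (YY l I Q w m j ((2 * μ 0 + 1) * m))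
    (GG l I Q (2 * μ 0 + 1) k n) (by omega) hs f.dis f.pos b1 hg1 (by
      rw [cY]
      nlinarith)
  rw [cY] at key
  have cW : (kd (clC ((2 * μ 0 + 1) * m) : CV l I Q w m (DD l) j → ℕ) 2).card = w := by
    have : kd (clC ((2 * μ 0 + 1) * m) : CV l I Q w m (DD l) j → ℕ) 2 =
        (univ : Finset (Fin w)).map ⟨Sum.inl, Sum.inl_injective⟩ := by
      ext x
      rw [f.lft x, Finset.mem_map]
      rcases x with x | x
      · simp
      · simp
    rw [this, Finset.card_map, Finset.card_univ, Fintype.card_fin]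
  have cWc : ((kd (clC ((2 * μ 0 + 1) * m) : CV l I Q w m (DD l) j → ℕ) 2)ᶜ.card : ℝ) ≤
      rr l I Q m := by
    rw [Finset.card_compl, hcard, cW]
    have : n - w ≤ rr l I Q m := by omega
    exact_mod_cast this
  have efilt : ((inj l (CV l I Q w m (DD l) j)).filter
      (fun f => ∀ i, ¬ ((f i).isLeft ∧ (f (i + 1)).isLeft))) =
      ((inj l (CV l I Q w m (DD l) j)).filter (fun f => ∀ i,
        ¬ (f i ∈ kd (clC ((2 * μ 0 + 1) * m)) 2 ∧ f (i + 1) ∈ kd (clC ((2 * μ 0 + 1) * m)) 2))) := by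
    apply Finset.filter_congr
    intro g _
    refine forall_congr' fun i => ?_
    rw [f.lft, f.lft]
  have hd' : Z l (sig μ j (fun x y => σW x y * ((d x : ℤˣ) : ℤ) * ((d y : ℤˣ) : ℤ)) ι (2 * μ 0 + 1)
        ((2 * μ 0 + 1) * m) univ (fun _ => false)) ≤ Z l σW +
      ∑ f ∈ ((inj l (CV l I Q w m (DD l) j)).filter (fun f => ∀ i,
        ¬ (f i ∈ kd (clC ((2 * μ 0 + 1) * m)) 2 ∧ f (i + 1) ∈ kd (clC ((2 * μ 0 + 1) * m)) 2))),
        cp l (sig μ j σW ι (2 * μ 0 + 1) ((2 * μ 0 + 1) * m) univ (fun _ => false)) f := by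
    rw [← efilt]
    exact hd
  have hd2 : ((Z l (sig μ j (fun x y => σW x y * ((d x : ℤˣ) : ℤ) * ((d y : ℤˣ) : ℤ)) ι
        (2 * μ 0 + 1) ((2 * μ 0 + 1) * m) univ (fun _ => false)) : ℤ) : ℝ) ≤
      ((Z l σW : ℤ) : ℝ) + ((∑ f ∈ ((inj l (CV l I Q w m (DD l) j)).filter (fun f => ∀ i,
        ¬ (f i ∈ kd (clC ((2 * μ 0 + 1) * m)) 2 ∧ f (i + 1) ∈ kd (clC ((2 * μ 0 + 1) * m)) 2))),
        cp l (sig μ j σW ι (2 * μ 0 + 1) ((2 * μ 0 + 1) * m) univ (fun _ => false)) f : ℤ) : ℝ) := by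
    exact_mod_cast hd'
  have h1 := (le_abs_self _).trans key
  have h2 : ((kd (clC ((2 * μ 0 + 1) * m) : CV l I Q w m (DD l) j → ℕ) 2)ᶜ.card : ℝ) *
      GG l I Q (2 * μ 0 + 1) k n ^ l ≤ rr l I Q m * GG l I Q (2 * μ 0 + 1) k n ^ l :=
    mul_le_mul_of_nonneg_right cWc (by positivity)
  have h3 : (2 : ℝ) ^ (l ^ 2) * 3 ^ l * ((y0 l μ : ℝ) ^ (l - 1) * GG l I Q (2 * μ 0 + 1) k n +
      ((kd (clC ((2 * μ 0 + 1) * m) : CV l I Q w m (DD l) j → ℕ) 2)ᶜ.card : ℝ) *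
      GG l I Q (2 * μ 0 + 1) k n ^ l) ≤
      2 ^ (l ^ 2) * 3 ^ l * ((y0 l μ : ℝ) ^ (l - 1) * GG l I Q (2 * μ 0 + 1) k n +
        rr l I Q m * GG l I Q (2 * μ 0 + 1) k n ^ l) :=
    mul_le_mul_of_nonneg_left (by linarith) (by positivity)
  linarith

lemma fin_count (hFin : FinStmt) (hl : 4 ≤ l) (he : Even l)
    (P : Par l n I Q t₀ m k μ C) (hcard : Fintype.card (CV l I Q w m (DD l) j) = n)
    {τ : St l I Q → Bool} (f : Facts μ j σW ι (2 * μ 0 + 1) (m * m) (LL l n) univ τ) :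
    Low l n I Q m k μ ≤ ((Z l (sig μ j σW ι (2 * μ 0 + 1) (m * m) univ τ) : ℤ) : ℝ) := by
  have ey : m * m / m * DD l = m * DD l := by
    rw [Nat.mul_div_cancel _ P.m_pos]
  have b1 := f.b1
  have b2 := f.b2
  have cY := f.cY
  rw [hcard] at b1 b2
  rw [ey] at cY b2
  have hg : Bd (rs (YY l I Q w m j (m * m)) (YY l I Q w m j (m * m))ᶜ
      (rl (sig μ j σW ι (2 * μ 0 + 1) (m * m) univ τ))) (GG l I Q (2 * μ 0 + 1) k n) := by
    refine (b1.rs (YY l I Q w m j (m * m)) (YY l I Q w m j (m * m))ᶜ).congr fun x y => ?_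
    unfold rs rl
    by_cases h : x ∈ YY l I Q w m j (m * m) ∧ y ∈ (YY l I Q w m j (m * m))ᶜ
    · rw [if_pos h, if_pos h]
      dsimp only
      rw [if_neg]
      rintro (h1 | h1)
      · exact (Finset.mem_compl.1 h.2) h1.2
      · exact Finset.disjoint_left.1 f.dis h1.1 h.1
    · rw [if_neg h, if_neg h]
  have key := hFin _ l _ _ _ _ he hl f.sg f.pos hg b2 (by
    rw [cY]
    have h1 : 0 ≤ LL l n := by unfold LL; positivity
    have h2 := GG_nonneg l I Q (2 * μ 0 + 1) k n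
    linarith)
  rw [cY, hcard] at key
  unfold Low
  push_cast at key ⊢
  exact key

end sys

end Full

end MP_90430c
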