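import Pool.Agent.Lib.MP_90430c_co.Full.SysC

/-!
# The result for fixed `n`: the last step
-/

open Finset

set_option linter.unusedSectionVars false
set_option synthInstance.maxSize 4096

namespace MP_90430c

namespace Full

section sys

variable {l I Q t₀ w m k : ℕ} [NeZero l] {μ : ℕ → ℕ} {C : ℝ}

/-- The removal of vertices and the norm of the rest. -/
lemma rem_count (hRem : RemStmt) {r' : ℕ} (hl : 4 ≤ l) (he : Even l) (hw : l ≤ w)
    (h2 : 2 * r' ≤ w + r') {σs : Fin (w + r') → Fin (w + r') → ℤ} (hσs : IsSig σs)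
    (hZ : Z l σs ≤ 0) : ∃ σ' : Fin w → Fin w → ℤ, IsSig σ' ∧ Z l σ' ≤ 0 ∧
      ((Z l σ' : ℤ) : ℝ) ≤ ((Z l σs : ℤ) : ℝ) +
        2 * l * r' * (2 ^ (l ^ 3) * ((w + r' : ℕ) : ℝ) ^ (l / 2)) := by
  obtain ⟨σ', h1, h3, h4⟩ := hRem l w r' hw σs hσs hZ
  refine ⟨σ', h1, h3, ?_⟩
  have h5 : ((w : ℝ) + 1) * ((Z l σ' : ℤ) : ℝ) ≤ ((w : ℝ) + 1 - l * r') * ((Z l σs : ℤ) : ℝ) := by
    exact_mod_cast h4
  have h6 : -(2 ^ (l ^ 3) * ((w + r' : ℕ) : ℝ) ^ (l / 2 + 1)) ≤ ((Z l σs : ℤ) : ℝ) := by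
    obtain ⟨t, ht⟩ := he
    obtain ⟨s, rfl⟩ : ∃ s, t = s + 2 := ⟨t - 2, by omega⟩
    subst ht
    have := Top.Z_lower s hσs
    rw [Fintype.card_fin] at this
    have e1 : (s + 2 + (s + 2)) / 2 + 1 = s + 3 := by omega
    have e2 : 2 * s + 4 = s + 2 + (s + 2) := by ring
    rw [e1]
    rw [e2] at this
    exact this
  have hw0 : (0 : ℝ) < (w : ℝ) + 1 := by positivity
  set N : ℝ := ((w + r' : ℕ) : ℝ) with hN
  have hN0 : 0 < N := by
    rw [hN]
    exact_mod_cast (by omega : 0 < w + r')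
  have hNw : N ≤ 2 * ((w : ℝ) + 1) := by
    have h7 : (2 : ℝ) * r' ≤ w + r' := by exact_mod_cast h2
    rw [hN]
    push_cast
    linarith
  -- `l r' (-Z) ≤ l r' 2^(l^3) N^(l/2) N ≤ 2 l r' 2^(l^3) N^(l/2) (w+1)`
  have h7 : (l : ℝ) * r' * (-((Z l σs : ℤ) : ℝ)) ≤
      (l * r') * (2 ^ (l ^ 3) * N ^ (l / 2) * (2 * ((w : ℝ) + 1))) := by
    refine mul_le_mul_of_nonneg_left ?_ (by positivity)
    have h8 : -((Z l σs : ℤ) : ℝ) ≤ 2 ^ (l ^ 3) * (N ^ (l / 2) * N) := by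
      rw [← pow_succ]
      linarith
    refine h8.trans ?_
    rw [mul_assoc]
    refine mul_le_mul_of_nonneg_left (mul_le_mul_of_nonneg_left hNw (by positivity)) (by positivity)
  have h8 : ((w : ℝ) + 1) * ((Z l σ' : ℤ) : ℝ) ≤ ((w : ℝ) + 1) * (((Z l σs : ℤ) : ℝ) +
      2 * l * r' * (2 ^ (l ^ 3) * N ^ (l / 2))) := by
    calc ((w : ℝ) + 1) * ((Z l σ' : ℤ) : ℝ) ≤ ((w : ℝ) + 1 - l * r') * ((Z l σs : ℤ) : ℝ) := h5
      _ = ((w : ℝ) + 1) * ((Z l σs : ℤ) : ℝ) + l * r' * (-((Z l σs : ℤ) : ℝ)) := by ring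
      _ ≤ ((w : ℝ) + 1) * ((Z l σs : ℤ) : ℝ) +
          (l * r') * (2 ^ (l ^ 3) * N ^ (l / 2) * (2 * ((w : ℝ) + 1))) := by linarith
      _ = _ := by ring
  exact le_of_mul_le_mul_left h8 hw0

theorem sysStmt (hRem : RemStmt) (hTr : TraceStmt) (hSw : SwitchStmt) (hBase : BaseStmt)
    (hFin : FinStmt) (hE : EffStmt) (hLa : LastStmt) (hV : DvdStmt) (hU : UnitStmt)
    (hSt : StepStmt) (hFx : FixedStmt) (hG : GeoStmt) (hA : ConfAStmt) (hB : ConfBStmt)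
    (hC : ConfCStmt) : SysStmt := by
  classical
  intro l n I Q t₀ m k _ μ C he hl P σs hσs hZs x hgx hx0 hx1
  have hC1 := P.C1
  have hD2 := two_le_DD hl
  have hm := P.m_pos
  have hn1 := P.n1
  have hn2 := P.n2
  have hln : l ≤ n := by omega
  -- the levels of the unit gadgets
  obtain ⟨v, hvl, hv⟩ := gg_eq_pow (l := l) (n := n) (by omega)
  have hlev : ∀ e : ℕ, ∃ j : ℕ, j ≤ l - 2 ∧ (v ≤ e → e < l - 2 → j < l - 2 ∧
      (∀ j', j + 1 ≤ j' → j' ≤ l - 2 → (2 ^ (e + 1) : ℤ) ∣ gen (n - 2) (l - 2) j') ∧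
        ∃ z, gen (n - 2) (l - 2) j = 2 ^ e * (2 * z + 1)) := by
    intro e
    by_cases h : v ≤ e ∧ e < l - 2
    · obtain ⟨j, h1, h2, h3⟩ := exists_level (by omega) hln hv h.1 h.2
      exact ⟨j, by omega, fun _ _ => ⟨h1, h2, h3⟩⟩
    · exact ⟨0, by omega, fun h1 h2 => absurd ⟨h1, h2⟩ h⟩
  choose j hj0 hj using hlev
  have hsum := sum_je (l := l) (j := j) fun e _ => hj0 e
  -- the number of new vertices
  obtain ⟨r', hr'⟩ : ∃ r', r' = m * DD l + Fintype.card (MP l I Q × Bool) +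
      ∑ e : Fin (l - 2), 2 * (j e + 1) := ⟨_, rfl⟩
  have hMP := (hA.1 l I Q 0 m (DD l) j hl).2.2.1
  have hrr : r' ≤ rr l I Q m := by
    rw [hr']
    unfold rr R2
    omega
  obtain ⟨w, hw⟩ : ∃ w, n = w + r' := ⟨n - r', by omega⟩
  subst hw
  have hlw : l ≤ w := by omega
  obtain ⟨-, hcard', -, hIX⟩ := hA.1 l I Q w m (DD l) j hl
  have hcard : Fintype.card (CV l I Q w m (DD l) j) = w + r' := by
    rw [hcard', hr']
    ring
  -- the index set
  have hmD : m ≤ m * DD l := Nat.le_mul_of_pos_right _ (by omega)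
  obtain ⟨ι⟩ : Nonempty (IX l I Q w m ↪ (Fin k → Bool)) := by
    apply Function.Embedding.nonempty_of_card_le
    rw [Fintype.card_fun, Fintype.card_bool, Fintype.card_fin]
    refine hIX.trans (le_trans ?_ P.k1)
    omega
  -- the old part
  obtain ⟨σ', hσ', hZ', hZ''⟩ := rem_count hRem hl he hlw (by omega) hσs hZs
  have hL' : Bd (rl σ') (LL l (w + r')) := by
    refine (hTr (Fin w) l σ' he hl hσ' hZ').mono ?_
    unfold LL
    rw [Fintype.card_fin]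
    have h1 : (w : ℝ) ≤ ((w + r' : ℕ) : ℝ) := by exact_mod_cast Nat.le_add_right _ _
    have h2 : (w : ℝ) ^ ((1 : ℝ) / 2 + 1 / l) ≤ ((w + r' : ℕ) : ℝ) ^ ((1 : ℝ) / 2 + 1 / l) :=
      Real.rpow_le_rpow (Nat.cast_nonneg _) h1 (by positivity)
    have h3 : (2 : ℝ) ^ (l ^ 2) * (w : ℝ) ^ ((1 : ℝ) / 2 + 1 / l) ≤
      2 ^ (l ^ 2) * ((w + r' : ℕ) : ℝ) ^ ((1 : ℝ) / 2 + 1 / l) :=
      mul_le_mul_of_nonneg_left h2 (by positivity)
    linarith
  have hfacts : ∀ {σW : Fin w → Fin w → ℤ}, IsSig σW → Bd (rl σW) (LL l (w + r')) →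
      ∀ t, (2 * μ 0 + 1) * m ≤ t → t ≤ m * m → ∀ Λ τ,
        Facts μ j σW ι (2 * μ 0 + 1) t (LL l (w + r')) Λ τ := by
    intro σW h1 h2 t h3 h4 Λ τ
    exact facts hG hA hB hC hl (fun e _ => hj0 e) (by omega) P.m0m P.mu h1 ι.injective h3 h4 h2 Λ τ
  have hT01 : (2 * μ 0 + 1) * m ≤ m * m := Nat.mul_le_mul_right _ P.m0m
  obtain ⟨d, hd⟩ := base_count hSw hBase hl P hcard (by omega) hσ'
    (fun Λ τ => hfacts hσ' hL' _ le_rfl hT01 Λ τ)
  obtain ⟨σW, hσWdef⟩ : ∃ σW : Fin w → Fin w → ℤ,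
    σW = fun x y => σ' x y * ((d x : ℤˣ) : ℤ) * ((d y : ℤˣ) : ℤ) := ⟨_, rfl⟩
  rw [← hσWdef] at hd
  have hσW : IsSig σW := by rw [hσWdef]; exact isSig_sw hσ' d
  have hLW : Bd (rl σW) (LL l (w + r')) := by rw [hσWdef]; exact bd_sw hL' d
  have F : ∀ t, (2 * μ 0 + 1) * m ≤ t → t ≤ m * m → ∀ Λ τ,
        Facts μ j σW ι (2 * μ 0 + 1) t (LL l (w + r')) Λ τ := hfacts hσW hLW
  have hsig : ∀ t, (2 * μ 0 + 1) * m ≤ t → ∀ τ, IsSig (sig μ j σW ι (2 * μ 0 + 1) t univ τ) := by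
    intro t ht τ
    exact (hB l I Q w m (DD l) j μ σW (fun a b => BalAux.ch (ι a) (ι b))
      (2 * μ 0 + 1) t univ τ hl rfl (by omega) P.m0m P.mu hσW (isSig_ch' ι) ht).1
  have hl' : l ≤ Fintype.card (CV l I Q w m (DD l) j) := by rw [hcard]; exact hln
  have hlR : (0 : ℝ) < 4 * (l : ℝ) := by
    have : (0 : ℝ) < l := by exact_mod_cast (by omega : 0 < l)
    linarith
  have hspec : ∀ t, (2 * μ 0 + 1) * m ≤ t → ∀ τ, 4 * (l : ℝ) * ((cS μ j σW ι t τ : ℤ) : ℝ) =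
      (((w + r').descFactorial l : ℕ) : ℝ) -
        ((Z l (sig μ j σW ι (2 * μ 0 + 1) t univ τ) : ℤ) : ℝ) := by
    intro t ht τ
    have := cc_spec (by omega : 3 ≤ l) hl' (hsig t ht τ)
    rw [hcard] at this
    unfold cS
    exact_mod_cast this
  have hspec0 : 4 * (l : ℝ) * ((cc l σs : ℤ) : ℝ) =
      (((w + r').descFactorial l : ℕ) : ℝ) - ((Z l σs : ℤ) : ℝ) := by
    have := cc_spec (by omega : 3 ≤ l) (by rw [Fintype.card_fin]; exact hln) hσs
    rw [Fintype.card_fin] at this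
    exact_mod_cast this
  -- sizes
  have hy : ∀ t, (2 * μ 0 + 1) * m ≤ t → t ≤ m * m → 2 * μ 0 + 1 ≤ t / m ∧ t / m ≤ m := by
    intro t h1 h2
    exact ⟨(Nat.le_div_iff_mul_le hm).2 h1, Nat.div_le_of_le_mul h2⟩
  have hex : ∀ t, ∃ i, (2 * μ 0 + 1) * m ≤ t → t ≤ m * m → i ≤ I ∧
      8 * (DD l : ℝ) ^ 2 * cE l C ^ 2 * ((w + r' : ℕ) : ℝ) ≤
        (((t / m : ℕ) : ℝ) * DD l) * (DD l * μ i) ∧
      4 * (DD l * μ i) ^ 2 * (t / m * DD l) ≤ Q * (DD l * μ 0) ^ 2 := by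
    intro t
    by_cases h : (2 * μ 0 + 1) * m ≤ t ∧ t ≤ m * m
    · obtain ⟨h1, h2⟩ := hy t h.1 h.2
      obtain ⟨i, hi⟩ := P.sz (t / m) h1 h2
      exact ⟨i, fun _ _ => hi⟩
    · exact ⟨0, fun h1 h2 => absurd ⟨h1, h2⟩ h⟩
  choose is his using hex
  have hKS : 0 ≤ KS l C := by
    unfold KS
    have : (0 : ℝ) ≤ 2 * C := by linarith
    positivity
  have ey0 : (2 * μ 0 + 1) * m / m * DD l = y0 l μ := by
    unfold y0
    rw [Nat.mul_div_cancel _ hm]
  have hmax : ∀ t, (2 * μ 0 + 1) * m ≤ t → max t ((2 * μ 0 + 1) * m) = t :=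
    fun t ht => max_eq_left ht
  have key := hFx l I Q t₀ (DD l) (w + r') v ((2 * μ 0 + 1) * m) (m * m)
    (fun t => t / m * DD l) is (fun i => DD l * μ i) (KS l C)
    (fun t τ => cS μ j σW ι (max t ((2 * μ 0 + 1) * m)) τ) (x : ℤ) hl hvl hT01 hKS
    (fun t h1 h2 => ⟨(his t h1 h2).1, by
      have := (hy t h1 h2).1
      exact Nat.mul_pos (by omega) (by omega)⟩)
    (fun t h1 h2 => by
      have h3 := (hy t h1 h2.le).1
      have h4 : (t + 1) / m ≤ t / m + 1 := by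
        have := Nat.add_div_right t hm
        rw [← this]
        exact Nat.div_le_div_right (by omega)
      refine ⟨Nat.mul_le_mul_right _ (Nat.div_le_div_right (by omega)), ?_⟩
      calc (t + 1) / m * DD l ≤ (t / m + 1) * DD l := Nat.mul_le_mul_right _ h4
        _ ≤ (2 * (t / m)) * DD l := Nat.mul_le_mul_right _ (by omega)
        _ = _ := by ring)
    (fun i => Nat.mul_pos (by omega) (P.mu1 i))
    (fun i hi => by
      calc DD l * μ i ≤ DD l * (t₀ * μ (i + 1)) := Nat.mul_le_mul_left _ (P.mur i hi)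
        _ = _ := by ring)
    (by show DD l * μ I = DD l; rw [P.muI, mul_one])
    P.q1 P.q2
    (fun t h1 h2 => (his t h1 h2).2.2)
    (by
      have := P.kn
      push_cast at this ⊢
      exact this)
    (fun t τ => by
      have h1 := cc_dvd (by omega : 3 ≤ l) hl' (hsig (max t ((2 * μ 0 + 1) * m))
        (le_max_right _ _) τ)
      rw [hcard, hv] at h1
      exact_mod_cast h1)
    (fun t h1 h2 => by
      rw [hmax t h1, hmax (t + 1) (by omega)]
      exact step_size hSt hB hl P hcard hσW (F t h1 h2.le) h1 _)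
    (fun t h1 h2 p τ hp hpl hpi => by
      rw [hmax t h1]
      obtain ⟨h3, h4, h5⟩ := his t h1 h2
      have hpI : (p.2.1 : ℕ) ≤ I := by omega
      refine ⟨tog_size hE hA hB hl P hcard hσW (F t h1 h2) h1 p τ hp hpl hpI ?_,
        tog_dvd hV hA hB hl P hcard hσW h1 p τ hp hpI⟩
      have h6 : (μ (is t) : ℝ) ≤ μ p.2.1 := by exact_mod_cast P.mua _ _ hpi
      push_cast at h4 ⊢
      refine h4.trans (mul_le_mul_of_nonneg_left (mul_le_mul_of_nonneg_left h6 (by positivity))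
        (by positivity)))
    (fun t h1 h2 p τ hp hpl hpI => by
      rw [hmax t h1]
      have h3 := tog_last (ι := ι) hLa hA hB hl P hcard hσW h1 p τ hp hpl
      have ebC : bC (DD l) μ (Sum.inl p : St l I Q) = DD l * μ p.2.1 := by
        simp only [bC]
        rw [if_pos hpI]
      rw [ebC, ← sq] at h3
      exact h3)
    (fun t h1 h2 p τ hp hpl hpI => by
      rw [hmax t h1]
      have h3 := tog_last (ι := ι) hLa hA hB hl P hcard hσW h1 p τ hp hpl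
      have ebC : bC (DD l) μ (Sum.inl p : St l I Q) = 1 := by
        simp only [bC]
        rw [if_neg (by omega)]
      rw [ebC] at h3
      simpa using h3)
    (fun t h1 h2 e τ hτ hve => by
      rw [hmax t h1]
      exact ⟨tog_bit hA hB hl P hcard hσW h1 e τ hτ (fun h => hj e h e.2) hve,
        tog_unit hU hA hB hl P hcard hσW (F t h1 h2) h1 e τ hτ⟩)
    (by
      rw [hv] at hgx
      exact_mod_cast hgx)
    (by
      rw [hmax _ hT01]
      have h1 := fin_count hFin hl he P hcard (F (m * m) hT01 le_rfl univ (fun _ => false))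
      have h2 := hspec (m * m) hT01 (fun _ => false)
      have h3 : 4 * (l : ℝ) * ((cS μ j σW ι (m * m) (fun _ => false) : ℤ) : ℝ) ≤
          4 * (l : ℝ) * ((x : ℤ) : ℝ) := by
        rw [h2]
        push_cast
        linarith
      exact_mod_cast le_of_mul_le_mul_left h3 hlR)
    (by
      rw [max_self, ey0]
      have h2 := hspec ((2 * μ 0 + 1) * m) le_rfl (fun _ => false)
      have h3 : 4 * (l : ℝ) * (((x : ℤ) : ℝ) + 2 ^ l * l * KS l C * ((w + r' : ℕ) : ℝ) *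
          (y0 l μ : ℝ) ^ (l - 3)) ≤
          4 * (l : ℝ) * ((cS μ j σW ι ((2 * μ 0 + 1) * m) (fun _ => false) : ℤ) : ℝ) := by
        rw [h2]
        rw [hspec0] at hx1
        unfold Err at hx1
        have h4 : 2 * (l : ℝ) * r' * (2 ^ (l ^ 3) * ((w + r' : ℕ) : ℝ) ^ (l / 2)) ≤
            2 * l * rr l I Q m * (2 ^ (l ^ 3) * ((w + r' : ℕ) : ℝ) ^ (l / 2)) := by
          refine mul_le_mul_of_nonneg_right (mul_le_mul_of_nonneg_left ?_ (by positivity))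
            (by positivity)
          exact_mod_cast hrr
        push_cast at hx1 h4 hZ'' hd ⊢
        linarith
      exact le_of_mul_le_mul_left h3 hlR)
  obtain ⟨t, τ, htτ⟩ := key
  exact SS_of_type (by omega) hln hcard (hsig (max t ((2 * μ 0 + 1) * m)) (le_max_right _ _) τ) htτ

end sys

end Full

end MP_90430c
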